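import Pool.Agent.NUP1.States

/-!
# Half quanta: definitions

Positions of the half quanta are `w` (species of the rows `x`) and `w'` (species of the rows `y`).
`Pw` is the factor of a half quantum with a row of its own species, `Rw` with a row of the other one.
-/

set_option autoImplicit false

noncomputable section

open Complex MeasureTheory

namespace NUP1.Leg

/-- half quantum - quantum, same species -/
def Ck (z : ℂ) : ℂ := sin z * sin (z + 2 * l) / sin (z + l)

/-- half quantum - quantum, different species, and half quantum - half quantum -/
def Dk (z : ℂ) : ℂ := cos z / (sin (3 * l - z) * sin (3 * l + z))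

/-- half quantum - its own end -/
def kap (z : ℂ) : ℂ := sin (2 * l) / (sin z * sin (z - 2 * l))

/-- half quantum - row of its own species -/
def Pw : SignType → ℂ → ℂ
  | .pos, z => 1 / sin z
  | .zero, z => sin (z + 2 * l) / sin (z + l)
  | .neg, z => sin (z + 3 * l)

/-- half quantum - row of the other species -/
def Rw : SignType → ℂ → ℂ
  | .pos, z => sin (z + 3 * l)
  | .zero, z => cos z / sin (3 * l - z)
  | .neg, z => 1 / sin (2 * l - z)

/-- function of the two half quanta for a state of the rows, without their mutual factor -/
def Psi (p q : ℂ) {m M : ℕ} (x : Fin m → ℂ) (y : Fin M → ℂ) (a : Fin m → SignType)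
    (b : Fin M → SignType) (w w' : ℂ) : ℂ :=
  kap (w - p) * kap (w' - q) * sin (w - q + 3 * l) * sin (w' - p + 3 * l) *
    (∏ i, (Pw (a i) (w - x i) * Rw (a i) (w' - x i))) *
    ∏ j, (Rw (b j) (w - y j) * Pw (b j) (w' - y j))

/-- function of the two half quanta for a state of the rows -/
def Phi (p q : ℂ) {m M : ℕ} (x : Fin m → ℂ) (y : Fin M → ℂ) (a : Fin m → SignType)
    (b : Fin M → SignType) (w w' : ℂ) : ℂ :=
  Dk (w - w') * Psi p q x y a b w w'

/-- place of the mark of a row -/
def mpl : SignType → ℂ → ℂ
  | .pos, x => x
  | .zero, x => x - l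
  | .neg, x => x

/-- residue constant of the mark of a row -/
def mrc : SignType → ℂ
  | .pos => 1
  | .zero => sin l
  | .neg => 0

end NUP1.Leg

end
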