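import Pool.Agent.NUP1.Two

/-!
# Two species with different numbers of quanta
-/

set_option autoImplicit false
set_option linter.unusedSectionVars false

noncomputable section

open Complex MeasureTheory

namespace NUP1.N

open Bd

/-- energy of two families whose charges differ by `d` -/
theorem energy_un {r r' : ℕ} (k : Fin r → Ob) (k' : Fin r' → Ob) (t : Fin r → ℝ)
    (t' : Fin r' → ℝ) {d : ℝ} (h : ∑ j, (chg (k' j) : ℝ) - ∑ i, (chg (k i) : ℝ) = d) :
    en k t + en k' t' - 2 * ∑ i, ∑ j, (chg (k i) * chg (k' j) * |t i - t' j| : ℝ) ≤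
      -(2 * d * ∑ i, (chg (k i) * |t i| : ℝ)) + 2 * d * ∑ j, (chg (k' j) * |t' j| : ℝ) := by
  have := energy_nonpos (Finset.univ : Finset ((Fin r ⊕ Fin r') ⊕ Unit))
    (Sum.elim (Sum.elim (fun i => (chg (k i) : ℝ)) (fun j => -(chg (k' j) : ℝ))) fun _ => d)
    (Sum.elim (Sum.elim t t') fun _ => 0) (by
      rw [Fintype.sum_sum_type, Fintype.sum_sum_type]
      simp only [Sum.elim_inl, Sum.elim_inr, Finset.sum_neg_distrib, Finset.univ_unique,
        Finset.sum_singleton]
      linarith)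
  simp only [Fintype.sum_sum_type, Sum.elim_inl, Sum.elim_inr, Finset.sum_add_distrib,
    Finset.univ_unique, Finset.sum_singleton, sub_zero, zero_sub, abs_neg, abs_zero,
    mul_zero, add_zero] at this
  have e1 : ∑ i, ∑ j, (chg (k i) : ℝ) * -(chg (k' j) : ℝ) * |t i - t' j| =
      -∑ i, ∑ j, (chg (k i) * chg (k' j) * |t i - t' j| : ℝ) := by
    rw [← Finset.sum_neg_distrib]
    refine Finset.sum_congr rfl fun i _ => ?_
    rw [← Finset.sum_neg_distrib]
    refine Finset.sum_congr rfl fun j _ => ?_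
    ring
  have e2 : ∑ j, ∑ i, -(chg (k' j) : ℝ) * (chg (k i) : ℝ) * |t' j - t i| =
      -∑ i, ∑ j, (chg (k i) * chg (k' j) * |t i - t' j| : ℝ) := by
    rw [Finset.sum_comm, ← Finset.sum_neg_distrib]
    refine Finset.sum_congr rfl fun i _ => ?_
    rw [← Finset.sum_neg_distrib]
    refine Finset.sum_congr rfl fun j _ => ?_
    rw [abs_sub_comm]
    ring
  have e3 : ∑ i, ∑ j, -(chg (k' i) : ℝ) * -(chg (k' j) : ℝ) * |t' i - t' j| = en k' t' := by
    unfold en
    refine Finset.sum_congr rfl fun i _ => Finset.sum_congr rfl fun j _ => ?_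
    ring
  have e4 : ∑ i, ∑ j, (chg (k i) : ℝ) * (chg (k j) : ℝ) * |t i - t j| = en k t := rfl
  have e5 : ∑ i, (chg (k i) : ℝ) * d * |t i| = d * ∑ i, (chg (k i) * |t i| : ℝ) := by
    rw [Finset.mul_sum]
    exact Finset.sum_congr rfl fun i _ => by ring
  have e6 : ∑ i, d * (chg (k i) : ℝ) * |t i| = d * ∑ i, (chg (k i) * |t i| : ℝ) := by
    rw [Finset.mul_sum]
    exact Finset.sum_congr rfl fun i _ => by ring
  have e7 : ∑ j, -(chg (k' j) : ℝ) * d * |t' j| = -(d * ∑ j, (chg (k' j) * |t' j| : ℝ)) := by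
    rw [Finset.mul_sum, ← Finset.sum_neg_distrib]
    exact Finset.sum_congr rfl fun i _ => by ring
  have e8 : ∑ j, d * -(chg (k' j) : ℝ) * |t' j| = -(d * ∑ j, (chg (k' j) * |t' j| : ℝ)) := by
    rw [Finset.mul_sum, ← Finset.sum_neg_distrib]
    exact Finset.sum_congr rfl fun i _ => by ring
  rw [e1, e2, e3, e4, e5, e6, e7, e8] at this
  linarith

/-- majorant of the joint integrand -/
theorem F2_le_un {α β : ℝ} {C : ℝ} (hC : 1 ≤ C)
    (hp : ∀ (k k' : Ob) (z : ℂ), z.re = rl α β k - rl α β k' →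
      ‖pwz k k' z‖ ≤ C * Real.exp (2 * (chg k * chg k' * |z.im|)))
    (hc : ∀ (k k' : Ob) (z : ℂ), z.re = rl α β k - rl α β k' →
      ‖cwz k k' z‖ ≤ C * Real.exp (-(2 * (chg k * chg k' * |z.im|))))
    {D κ κ' : ℝ} {hX hY : Ob → ℝ → ℂ}
    (bX : ∀ k t, ‖hX k t‖ ≤ D * Real.exp (-(κ * chg k * |t|)))
    (bY : ∀ k t, ‖hY k t‖ ≤ D * Real.exp (-(κ' * chg k * |t|)))
    {r r' : ℕ} (k : Fin r → Ob) (k' : Fin r' → Ob) {d : ℝ}
    (hk : ∑ j, (chg (k' j) : ℝ) - ∑ i, (chg (k i) : ℝ) = d)
    (p : (Fin r → ℝ) × (Fin r' → ℝ)) :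
    ‖Grand.f (pw α β) k hX p.1 * Grand.f (pw α β) k' hY p.2 * X2 α β k k' p.1 p.2‖ ≤
      (D ^ r * C ^ (r * r) * (D ^ r' * C ^ (r' * r')) * C ^ (r' * r)) *
      ((∏ i, Real.exp (-((κ + 2 * d) * chg (k i) * |p.1 i|))) *
        (∏ i, Real.exp (-((κ' - 2 * d) * chg (k' i) * |p.2 i|)))) := by
  have hC0 : 0 ≤ C := zero_le_one.trans hC
  have hD0 : 0 ≤ D := by
    have := (norm_nonneg _).trans (bX .A 0)
    simpa using this
  rw [norm_mul, norm_mul]
  have b1 := f_norm_le hC hp _ bX k p.1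
  have b2 := f_norm_le hC hp _ bY k' p.2
  have b3 := X2_norm_le hC hc k k' p.1 p.2
  have b4 := energy_un k k' p.1 p.2 hk
  calc _ ≤ (D ^ r * C ^ (r * r) *
        ((∏ i, Real.exp (-(κ * chg (k i) * |p.1 i|))) * Real.exp (en k p.1))) *
        (D ^ r' * C ^ (r' * r') *
        ((∏ i, Real.exp (-(κ' * chg (k' i) * |p.2 i|))) * Real.exp (en k' p.2))) *
        (C ^ (r' * r) *
          Real.exp (-(2 * ∑ i, ∑ j, (chg (k i) * chg (k' j) * |p.1 i - p.2 j| : ℝ)))) := by
        gcongr
    _ = (D ^ r * C ^ (r * r) * (D ^ r' * C ^ (r' * r')) * C ^ (r' * r)) *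
        (((∏ i, Real.exp (-(κ * chg (k i) * |p.1 i|))) *
          (∏ i, Real.exp (-(κ' * chg (k' i) * |p.2 i|)))) *
        Real.exp (en k p.1 + en k' p.2 -
          2 * ∑ i, ∑ j, (chg (k i) * chg (k' j) * |p.1 i - p.2 j| : ℝ))) := by
        rw [sub_eq_add_neg, Real.exp_add, Real.exp_add]
        ring
    _ ≤ _ := by
        refine mul_le_mul_of_nonneg_left ?_ (by positivity)
        have e1 : 0 ≤ ∏ i, Real.exp (-(κ * chg (k i) * |p.1 i|)) :=
          Finset.prod_nonneg fun i _ => (Real.exp_pos _).le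
        have e2 : 0 ≤ ∏ i, Real.exp (-(κ' * chg (k' i) * |p.2 i|)) :=
          Finset.prod_nonneg fun i _ => (Real.exp_pos _).le
        refine (mul_le_mul_of_nonneg_left (Real.exp_le_exp.2 b4) (mul_nonneg e1 e2)).trans
          (le_of_eq ?_)
        rw [← Real.exp_sum, ← Real.exp_sum, ← Real.exp_sum, ← Real.exp_sum, ← Real.exp_add,
          ← Real.exp_add, ← Real.exp_add]
        congr 1
        rw [Finset.mul_sum, Finset.mul_sum, ← Finset.sum_neg_distrib]
        have e3 : ∀ {N : ℕ} (f g : Fin N → ℝ), ∑ i, f i + ∑ i, g i = ∑ i, (f i + g i) :=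
          fun f g => Finset.sum_add_distrib.symm
        calc _ = (∑ i, -(κ * chg (k i) * |p.1 i|) + ∑ i, -(2 * d * (chg (k i) * |p.1 i|))) +
              (∑ i, -(κ' * chg (k' i) * |p.2 i|) + ∑ i, 2 * d * (chg (k' i) * |p.2 i|)) := by ring
          _ = _ := by
              rw [e3, e3]
              congr 1
              · exact Finset.sum_congr rfl fun i _ => by ring
              · exact Finset.sum_congr rfl fun i _ => by ring

/-- Integrability of the joint integrand. -/
theorem integrable_un {α β : ℝ} (h1 : l < α - β) (h2 : α - β < 3 * l) {D κ κ' : ℝ}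
    {hX hY : Ob → ℝ → ℂ} (mX : ∀ k, Measurable (hX k)) (mY : ∀ k, Measurable (hY k))
    (bX : ∀ k t, ‖hX k t‖ ≤ D * Real.exp (-(κ * chg k * |t|)))
    (bY : ∀ k t, ‖hY k t‖ ≤ D * Real.exp (-(κ' * chg k * |t|)))
    {r r' : ℕ} (k : Fin r → Ob) (k' : Fin r' → Ob) {d : ℝ}
    (hk : ∑ j, (chg (k' j) : ℝ) - ∑ i, (chg (k i) : ℝ) = d) (c1 : 0 < κ + 2 * d)
    (c2 : 0 < κ' - 2 * d) :
    Integrable (fun p : (Fin r → ℝ) × (Fin r' → ℝ) =>
        Grand.f (pw α β) k hX p.1 * Grand.f (pw α β) k' hY p.2 * X2 α β k k' p.1 p.2)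
      ((Measure.pi fun _ => volume).prod (Measure.pi fun _ => volume)) := by
  obtain ⟨C, hC, hp, hc⟩ := pw_bounds h1 h2
  have i1 := integrable_prod_exp (fun i : Fin r => (κ + 2 * d) * chg (k i))
    (fun i => mul_pos c1 (by exact_mod_cast chg_pos (k i)))
  have i2 := integrable_prod_exp (fun i : Fin r' => (κ' - 2 * d) * chg (k' i))
    (fun i => mul_pos c2 (by exact_mod_cast chg_pos (k' i)))
  have i3 := (i1.mul_prod i2).const_mul
    (D ^ r * C ^ (r * r) * (D ^ r' * C ^ (r' * r')) * C ^ (r' * r))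
  refine i3.mono' ?_ (Filter.Eventually.of_forall fun p => F2_le_un hC hp hc bX bY k k' hk p)
  refine Measurable.aestronglyMeasurable ?_
  exact (((measurable_f mX k).comp measurable_fst).mul
    ((measurable_f mY k').comp measurable_snd)).mul (measurable_X2 α β k k')

/-- The two species contour side with different numbers of quanta. -/
def Z3 (α β : ℝ) (n n' : ℕ) (GX GY : ℂ → ℂ) : ℂ :=
  ∑ r' ∈ Finset.range (n' + 1), ((r'.factorial : ℕ) : ℂ)⁻¹ * ∑ k' : Fin r' → Ob,
    if ∑ i, chg (k' i) = n' then (∏ i, wt (k' i)) *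
      ∑ r ∈ Finset.range (n + 1), ((r.factorial : ℕ) : ℂ)⁻¹ * ∑ k : Fin r → Ob,
        if ∑ i, chg (k i) = n then (∏ i, wt (k i)) *
          ∫ p, F2 α β GX GY k k' p ∂((Measure.pi fun _ => volume).prod
            (Measure.pi fun _ => volume)) else 0
    else 0

theorem Z3_self (α β : ℝ) (n : ℕ) (GX GY : ℂ → ℂ) : Z3 α β n n GX GY = Z2 α β n GX GY := rfl

/-- integral over the objects of the second species of a functional -/
def YI (α β : ℝ) (n' : ℕ) (h' : Ob → ℝ → ℂ)
    (S : ∀ r' : ℕ, (Fin r' → Ob) → (Fin r' → ℝ) → ℂ) : ℂ :=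
  ∑ r' ∈ Finset.range (n' + 1), ((r'.factorial : ℕ) : ℂ)⁻¹ * ∑ k' : Fin r' → Ob,
    if ∑ i, chg (k' i) = n' then (∏ i, wt (k' i)) *
      ∫ t', Grand.f (pw α β) k' h' t' * S r' k' t' ∂(Measure.pi fun _ => volume) else 0

theorem YI_congr {α β : ℝ} {n' : ℕ} {h' : Ob → ℝ → ℂ}
    {S S' : ∀ r' : ℕ, (Fin r' → Ob) → (Fin r' → ℝ) → ℂ}
    (h : ∀ (r' : ℕ) (k' : Fin r' → Ob), ∑ i, chg (k' i) = n' → ∀ t',
      Grand.f (pw α β) k' h' t' * S r' k' t' = Grand.f (pw α β) k' h' t' * S' r' k' t') :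
    YI α β n' h' S = YI α β n' h' S' := by
  unfold YI
  refine Finset.sum_congr rfl fun r' _ => ?_
  congr 1
  refine Finset.sum_congr rfl fun k' _ => ?_
  split_ifs with hk
  · congr 1
    exact integral_congr_ae (Filter.Eventually.of_forall fun t' => h r' k' hk t')
  · rfl

theorem YI_sub {α β : ℝ} {n' : ℕ} {h' : Ob → ℝ → ℂ}
    {S S' : ∀ r' : ℕ, (Fin r' → Ob) → (Fin r' → ℝ) → ℂ} (c : ℂ)
    (h : ∀ (r' : ℕ) (k' : Fin r' → Ob), ∑ i, chg (k' i) = n' →
      Integrable (fun t' => Grand.f (pw α β) k' h' t' * S r' k' t') (Measure.pi fun _ => volume))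
    (h2 : ∀ (r' : ℕ) (k' : Fin r' → Ob), ∑ i, chg (k' i) = n' →
      Integrable (fun t' => Grand.f (pw α β) k' h' t' * S' r' k' t')
        (Measure.pi fun _ => volume)) :
    YI α β n' h' (fun r' k' t' => S r' k' t' - c * S' r' k' t') =
      YI α β n' h' S - c * YI α β n' h' S' := by
  unfold YI
  rw [Finset.mul_sum, ← Finset.sum_sub_distrib]
  refine Finset.sum_congr rfl fun r' _ => ?_
  rw [mul_left_comm, ← mul_sub]
  congr 1
  rw [Finset.mul_sum, ← Finset.sum_sub_distrib]
  refine Finset.sum_congr rfl fun k' _ => ?_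
  split_ifs with hk
  · rw [mul_left_comm, ← mul_sub]
    congr 1
    rw [← integral_const_mul, ← integral_sub (h r' k' hk) ((h2 r' k' hk).const_mul c)]
    refine integral_congr_ae (Filter.Eventually.of_forall fun t' => ?_)
    simp only []
    ring
  · ring

/-- a sum over the states of the contour side of the other species -/
theorem lemA {α β : ℝ} (h1 : l < α - β) (h2 : α - β < 3 * l) {κ' : ℝ} {GY : ℂ → ℂ}
    (hmY : Measurable GY) (hY : Dec α β κ' GY) {n n' : ℕ}
    (hrate : 2 * ((n' : ℝ) - 1) < κ' + 2 * n) {A : Type*} (s : Finset A)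
    (w : A → ℂ) (U : A → List ℂ) (hlen : ∀ a ∈ s, (U a).length = n)
    (hU : ∀ a ∈ s, ∀ u ∈ U a, |α - u.re| < 3 * l ∧ |β - u.re| < 3 * l) :
    ∑ a ∈ s, w a * K α β n' (fun v => GY v * Ql (U a) v) =
      YI α β n' (oneL α β GY) (fun _ k' t' => ∑ a ∈ s, w a * ((U a).map fun u =>
        Hc α β k' t' u).prod) := by
  have h12 : β + l < α := by linarith
  have hI : ∀ a ∈ s, ∀ (r' : ℕ) (k' : Fin r' → Ob), ∑ i, chg (k' i) = n' →
      Integrable (fun t' => Grand.f (pw α β) k' (oneL α β GY) t' *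
        ((U a).map fun u => Hc α β k' t' u).prod) (Measure.pi fun _ => volume) := by
    intro a ha r' k' hk'
    have hd := (hY.mul (Dec_Ql h12 (U a) (hU a ha))).congr_rate
      (show κ' + 2 * ((U a).length : ℝ) = κ' + 2 * n by rw [hlen a ha])
    have := integrable_f' h1 h2 hrate (hmY.mul (measurable_Ql (U a))) hd k' hk'
    refine this.congr (Filter.Eventually.of_forall fun t' => ?_)
    exact f_Ql α β GY (U a) k' t'
  have e1 : ∀ a ∈ s, w a * K α β n' (fun v => GY v * Ql (U a) v) =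
      ∑ r' ∈ Finset.range (n' + 1), ((r'.factorial : ℕ) : ℂ)⁻¹ * ∑ k' : Fin r' → Ob,
        if ∑ i, chg (k' i) = n' then (∏ i, wt (k' i)) *
          ∫ t', Grand.f (pw α β) k' (oneL α β GY) t' *
            (w a * ((U a).map fun u => Hc α β k' t' u).prod) ∂(Measure.pi fun _ => volume)
        else 0 := by
    intro a ha
    have hd := (hY.mul (Dec_Ql h12 (U a) (hU a ha))).congr_rate
      (show κ' + 2 * ((U a).length : ℝ) = κ' + 2 * n by rw [hlen a ha])
    rw [K_closed' (G := fun v => GY v * Ql (U a) v) h1 h2 hrate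
      (hmY.mul (measurable_Ql (U a))) hd]
    unfold Grand.Z Grand.I
    rw [Finset.mul_sum]
    refine Finset.sum_congr rfl fun r' _ => ?_
    rw [mul_left_comm, Finset.mul_sum]
    congr 1
    refine Finset.sum_congr rfl fun k' _ => ?_
    rw [mul_ite, mul_zero]
    split_ifs with hk'
    · rw [mul_left_comm]
      congr 1
      rw [← integral_const_mul]
      refine integral_congr_ae (Filter.Eventually.of_forall fun t' => ?_)
      simp only [f_Ql]
      ring
    · rfl
  rw [Finset.sum_congr rfl e1, Finset.sum_comm]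
  unfold YI
  refine Finset.sum_congr rfl fun r' _ => ?_
  rw [← Finset.mul_sum, Finset.sum_comm]
  congr 1
  refine Finset.sum_congr rfl fun k' _ => ?_
  split_ifs with hk'
  · rw [← Finset.mul_sum]
    congr 1
    rw [← integral_finsetSum]
    · refine integral_congr_ae (Filter.Eventually.of_forall fun t' => ?_)
      simp only []
      rw [← Finset.mul_sum]
    · intro a ha
      have := (hI a ha r' k' hk').const_mul (w a)
      refine this.congr (Filter.Eventually.of_forall fun t' => ?_)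
      simp only []
      ring
  · simp

/-- the integral over the objects of one species of the contour side of the other one -/
theorem lemB {α β : ℝ} (h1 : l < α - β) (h2 : α - β < 3 * l) {κ κ' : ℝ} {GX GY : ℂ → ℂ}
    (hmX : Measurable GX) (hmY : Measurable GY) (hX : Dec α β κ GX) (hY : Dec α β κ' GY)
    {n n' : ℕ} (c1 : 0 < κ + 2 * ((n' : ℝ) - n)) (c2 : 0 < κ' - 2 * ((n' : ℝ) - n)) :
    YI α β n' (oneL α β GY) (fun _ k' t' => K α β n (fun u => GX u * Hc α β k' t' u)) =
      Z3 α β n n' GX GY ∧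
    ∀ (r' : ℕ) (k' : Fin r' → Ob), ∑ i, chg (k' i) = n' →
      Integrable (fun t' => Grand.f (pw α β) k' (oneL α β GY) t' *
        K α β n (fun u => GX u * Hc α β k' t' u)) (Measure.pi fun _ => volume) := by
  have hrate : 2 * ((n : ℝ) - 1) < κ + 2 * n' := by linarith
  obtain ⟨D, hD, hX'⟩ := id hX
  obtain ⟨E, hE, hY'⟩ := id hY
  have bX : ∀ k t, ‖oneL α β GX k t‖ ≤ ((D + D ^ 2) + (E + E ^ 2)) *
      Real.exp (-(κ * chg k * |t|)) := fun k t =>
    (oneL_bound hX' k t).trans (mul_le_mul_of_nonneg_right (by nlinarith) (Real.exp_pos _).le)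
  have bY : ∀ k t, ‖oneL α β GY k t‖ ≤ ((D + D ^ 2) + (E + E ^ 2)) *
      Real.exp (-(κ' * chg k * |t|)) := fun k t =>
    (oneL_bound hY' k t).trans (mul_le_mul_of_nonneg_right (by nlinarith) (Real.exp_pos _).le)
  have hF : ∀ {r r' : ℕ} (k : Fin r → Ob) (k' : Fin r' → Ob), ∑ i, chg (k i) = n →
      ∑ i, chg (k' i) = n' → Integrable (F2 α β GX GY k k')
        ((Measure.pi fun _ => volume).prod (Measure.pi fun _ => volume)) := by
    intro r r' k k' hk hk'
    refine integrable_un h1 h2 (fun k => measurable_oneL α β hmX k)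
      (fun k => measurable_oneL α β hmY k) bX bY k k' (d := (n' : ℝ) - n) ?_ c1 c2
    rw [← hk, ← hk']
    push_cast
    ring
  have e1 : ∀ (r' : ℕ) (k' : Fin r' → Ob), ∑ i, chg (k' i) = n' → ∀ t',
      Grand.f (pw α β) k' (oneL α β GY) t' *
      K α β n (fun u => GX u * Hc α β k' t' u) =
      ∑ r ∈ Finset.range (n + 1), ∑ k : Fin r → Ob, ((r.factorial : ℕ) : ℂ)⁻¹ *
        (if ∑ i, chg (k i) = n then (∏ i, wt (k i)) *
          ∫ t, F2 α β GX GY k k' (t, t') ∂(Measure.pi fun _ => volume) else 0) := by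
    intro r' k' hk' t'
    rw [K_closed' (G := fun u => GX u * Hc α β k' t' u) h1 h2 hrate
      (hmX.mul (measurable_Hc α β k' t')) (hX.mul (Dec_Hc h1 h2 k' t' hk'))]
    unfold Grand.Z Grand.I
    rw [Finset.mul_sum]
    refine Finset.sum_congr rfl fun r _ => ?_
    rw [mul_left_comm, Finset.mul_sum, Finset.mul_sum]
    refine Finset.sum_congr rfl fun k _ => ?_
    congr 1
    rw [mul_ite, mul_zero]
    split_ifs with hk
    · rw [mul_left_comm]
      congr 1
      rw [← integral_const_mul]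
      refine integral_congr_ae (Filter.Eventually.of_forall fun t => ?_)
      simp only [f_Hc, F2]
      ring
    · rfl
  have hint2 : ∀ (r' : ℕ) (k' : Fin r' → Ob), ∑ i, chg (k' i) = n' →
      ∀ (r : ℕ) (k : Fin r → Ob), Integrable (fun t' : Fin r' → ℝ =>
      ((r.factorial : ℕ) : ℂ)⁻¹ * (if ∑ i, chg (k i) = n then (∏ i, wt (k i)) *
          ∫ t, F2 α β GX GY k k' (t, t') ∂(Measure.pi fun _ => volume) else 0))
        (Measure.pi fun _ => volume) := by
    intro r' k' hk' r k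
    by_cases hk : ∑ i, chg (k i) = n
    · simp only [if_pos hk]
      exact ((hF k k' hk hk').integral_prod_right.const_mul _).const_mul _
    · simp only [if_neg hk, mul_zero]
      exact integrable_zero _ _ _
  constructor
  · unfold YI Z3
    refine Finset.sum_congr rfl fun r' _ => ?_
    congr 1
    refine Finset.sum_congr rfl fun k' _ => ?_
    split_ifs with hk'
    · congr 1
      rw [integral_congr_ae (Filter.Eventually.of_forall fun t' => e1 r' k' hk' t'),
        integral_finsetSum _ (fun r _ => integrable_finsetSum _ (fun k _ => hint2 r' k' hk' r k))]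
      refine Finset.sum_congr rfl fun r _ => ?_
      rw [integral_finsetSum _ (fun k _ => hint2 r' k' hk' r k), Finset.mul_sum]
      refine Finset.sum_congr rfl fun k _ => ?_
      rw [integral_const_mul]
      congr 1
      by_cases hk : ∑ i, chg (k i) = n
      · simp only [if_pos hk]
        rw [integral_const_mul, integral_prod_symm _ (hF k k' hk hk')]
      · simp only [if_neg hk]
        simp
    · rfl
  · intro r' k' hk'
    have i1 := integrable_finsetSum (Finset.range (n + 1)) (fun r _ =>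
      integrable_finsetSum (Finset.univ : Finset (Fin r → Ob)) (fun k _ => hint2 r' k' hk' r k))
    refine i1.congr (Filter.Eventually.of_forall fun t' => ?_)
    exact (e1 r' k' hk' t').symm

end NUP1.N

end
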