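import Pool.Agent.NUP1L.Assem3

/-!
# The state sums with the two half quanta on their lines

Right line `A`, left line `B` of the half quanta.  The four cases of the state sum with spectators
as joint contour integrals.
-/

set_option autoImplicit false
set_option linter.unusedSectionVars false

noncomputable section

open Complex MeasureTheory Filter Topology

namespace NUP1.N

open Bd (Ob chg wt pw pt oneL Dec cwo Hc Ql qg measurable_Hc measurable_Ql rl)
open Leg (Ck Dk)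

variable {α β A B : ℝ}

/-- positions of the lines: quanta between `β` and `α`, half quanta on `A` and `B` -/
structure Ln (α β A B : ℝ) : Prop where
  w : Wd α β
  a1 : α < A
  a2 : A < β + 3 * l
  a3 : 1 / 2 * l < A
  a4 : A < 3 / 2 * l
  b1 : B + l < β
  b2 : β < B + 2 * l
  b3 : B + 3 * l < α
  b4 : -(9 / 2 * l) < B
  b5 : B < -(3 / 2 * l)
  b6 : B + 3 * l ≠ β + 2 * l
  d1 : 3 * l < A - B
  d2 : A - B < 5 * l
  e1 : 1 / 2 * l < α
  e2 : β + l < -(1 / 2 * l)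

/-- the start of stage 2: `A = 31/50 l` or `A = 5/4 l`, `B = -11/4 l` -/
theorem Ln_start {a : ℝ} (h : a = 31 / 50 ∨ a = 5 / 4) :
    Ln (3 / 5 * l) (-(17 / 10) * l) (a * l) (-(11 / 4) * l) := by
  have hl := lpos
  refine ⟨⟨?_, ?_⟩, ?_, ?_, ?_, ?_, ?_, ?_, ?_, ?_, ?_, ?_, ?_, ?_, ?_, ?_⟩
  all_goals
    rcases h with rfl | rfl <;> linarith

theorem gr_Ck (c : ℂ) : Gr α β 1 fun u => Ck (c - u) := by
  have h := (((Gr.sin (α := α) (β := β) c).mul (Gr.sin (c + 2 * l))).mul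
    (Gr.inv_sin (c + l))).cmul (-1)
  refine (h.congr (g := fun u => Ck (c - u)) 0 fun z _ _ _ => ?_).mono (le_of_eq (by norm_num))
  unfold Leg.Ck
  rw [show c - z = -(z - c) by ring, show -(z - c) + 2 * l = -(z - (c + 2 * l)) by ring,
    show -(z - c) + l = -(z - (c + l)) by ring, Complex.sin_neg, Complex.sin_neg, Complex.sin_neg,
    neg_mul_neg, div_neg, div_eq_mul_inv]
  ring

theorem Ck_diff_A (L : Ln α β A B) {w : ℂ} (hw : w.re = A) (z : ℂ) (h1 : β ≤ z.re)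
    (h2 : z.re ≤ α) : DifferentiableAt ℂ (fun u => Ck (w - u)) z := by
  have hl := lpos
  have w1 := L.w.lo
  have w2 := L.w.hi
  have l1 := L.a1
  have l2 := L.a2
  have e : (w - z + l).re = A - z.re + l := by simp [hw]
  have hne : sin (w - z + l) ≠ 0 := by
    refine sin_ne_re' ?_ ?_ ?_
    · rw [e]; linarith
    · rw [e]; linarith
    · rw [e]; intro h'; linarith
  unfold Leg.Ck
  fun_prop (disch := exact hne)

theorem Ck_diff_B (L : Ln α β A B) {w : ℂ} (hw : w.re = B) (z : ℂ) (h1 : β ≤ z.re)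
    (h2 : z.re ≤ α) : DifferentiableAt ℂ (fun u => Ck (w - u)) z := by
  have hl := lpos
  have w1 := L.w.lo
  have w2 := L.w.hi
  have l1 := L.b1
  have l2 := L.b2
  have e : (w - z + l).re = B - z.re + l := by simp [hw]
  have hne : sin (w - z + l) ≠ 0 := by
    refine sin_ne_re' ?_ ?_ ?_
    · rw [e]; linarith
    · rw [e]; linarith
    · rw [e]; intro h'; linarith
  unfold Leg.Ck
  fun_prop (disch := exact hne)

theorem Dk_diff_A (L : Ln α β A B) {w : ℂ} (hw : w.re = A) (z : ℂ) (h1 : β ≤ z.re)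
    (h2 : z.re ≤ α) : DifferentiableAt ℂ (fun u => Dk (w - u)) z := by
  have hl := lpos
  have w1 := L.w.lo
  have w2 := L.w.hi
  have l1 := L.a1
  have l2 := L.a2
  have e : (w - z).re = A - z.re := by simp [hw]
  have h3 : |(w - z).re| < 3 * l := by
    rw [e, abs_lt]
    constructor <;> linarith
  have hd : DifferentiableAt ℂ Dk (w - z) := Leg.Dk_diff (by linarith) h3.ne
  exact DifferentiableAt.comp (f := fun u => w - u) (g := Dk) z hd (by fun_prop)

theorem Pl_B (L : Ln α β A B) {w : ℂ} (hw : w.re = B) : Pl α β (w + 3 * l) := by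
  have hl := lpos
  have e : (w + 3 * l).re = B + 3 * l := by simp [hw]
  refine ⟨?_, ?_, ?_⟩
  · rw [e]; linarith [L.b2]
  · rw [e]; exact L.b3
  · rw [e]; exact L.b6

/-- one body function of `X` with the spectators -/
def GXs {m : ℕ} (hX : ℂ → ℂ) (x : Fin m → ℂ) (w w' u : ℂ) : ℂ :=
  Gr0 hX x u * (Ck (w - u) * Dk (w' - u))

/-- one body function of `Y` with the spectators -/
def GYs {M : ℕ} (hY : ℂ → ℂ) (y : Fin M → ℂ) (w w' v : ℂ) : ℂ :=
  Gr0 hY y v * (Dk (w - v) * Ck (w' - v))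

/-- the state sum with the spectators -/
def SP {m M : ℕ} (x : Fin m → ℂ) (y : Fin M → ℂ) (hX hY : ℂ → ℂ) (n n' : ℕ) (w w' : ℂ) : ℂ :=
  ∑ a ∈ St m n, ∑ b ∈ St M n', sta x (fun u => hX u * (Ck (w - u) * Dk (w' - u))) a *
    sta y (fun v => hY v * (Dk (w - v) * Ck (w' - v))) b * crq x y a b

/-- `w` on `B`: `Y` with one quantum at `w + 3 l` -/
def ZP {m M : ℕ} (α β : ℝ) (x : Fin m → ℂ) (y : Fin M → ℂ) (hX hY : ℂ → ℂ) (n n' : ℕ)
    (w w' : ℂ) : ℂ :=
  if 1 ≤ n' then Z3 α β n (n' - 1)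
    (fun u => Gr0 hX x u * (Ck (w - u) * Dk (w' - u)) * qg (u - (w + 3 * l)))
    (fun v => Gr0 hY y v * Ck (w' - v) * Ck (v - (w + 3 * l))) else 0

/-- `w'` on `B`: `X` with one quantum at `w' + 3 l` -/
def ZP' {m M : ℕ} (α β : ℝ) (x : Fin m → ℂ) (y : Fin M → ℂ) (hX hY : ℂ → ℂ) (n n' : ℕ)
    (w w' : ℂ) : ℂ :=
  if 1 ≤ n then Z3 α β (n - 1) n'
    (fun u => Gr0 hX x u * Ck (w - u) * Ck (u - (w' + 3 * l)))
    (fun v => Gr0 hY y v * (Dk (w - v) * Ck (w' - v)) * qg (v - (w' + 3 * l))) else 0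

/-- both on `B`: `X` with one quantum at `w' + 3 l`, `Y` with one quantum at `w + 3 l` -/
def ZPP {m M : ℕ} (α β : ℝ) (x : Fin m → ℂ) (y : Fin M → ℂ) (hX hY : ℂ → ℂ) (n n' : ℕ)
    (w w' : ℂ) : ℂ :=
  if 1 ≤ n ∧ 1 ≤ n' then Z3 α β (n - 1) (n' - 1)
    (fun u => Gr0 hX x u * Ck (w - u) * qg (u - (w + 3 * l)) * Ck (u - (w' + 3 * l)))
    (fun v => Gr0 hY y v * Ck (w' - v) * Ck (v - (w + 3 * l)) * qg (v - (w' + 3 * l))) else 0

/-- weight of the captured quantum of `Y` -/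
def PY {M : ℕ} (y : Fin M → ℂ) (hY : ℂ → ℂ) (w w' : ℂ) : ℂ :=
  sin l / sin (2 * l) * (Gr0 hY y (w + 3 * l) * Ck (w' - (w + 3 * l)))

/-- weight of the captured quantum of `X` -/
def PX {m : ℕ} (x : Fin m → ℂ) (hX : ℂ → ℂ) (w w' : ℂ) : ℂ :=
  sin l / sin (2 * l) * (Gr0 hX x (w' + 3 * l) * Ck (w - (w' + 3 * l)))

/-- the data of the rows and of the one body functions -/
structure RD (α β : ℝ) {m M : ℕ} (x : Fin m → ℂ) (y : Fin M → ℂ) (hX hY : ℂ → ℂ) (κ κ' : ℝ)
    (n n' : ℕ) : Prop where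
  hx : ∀ i j, i ≠ j → (x i).im ≠ (x j).im
  hy : ∀ i j, i ≠ j → (y i).im ≠ (y j).im
  rx : ∀ i, β + l < (x i).re ∧ (x i).re < α
  ry : ∀ i, β + l < (y i).re ∧ (y i).re < α
  aX : ∀ z : ℂ, β ≤ z.re → z.re ≤ α → DifferentiableAt ℂ hX z
  aY : ∀ z : ℂ, β ≤ z.re → z.re ≤ α → DifferentiableAt ℂ hY z
  mX : Measurable hX
  mY : Measurable hY
  gX : Gr α β (-κ) hX
  gY : Gr α β (-κ') hY
  c1 : 0 < κ + m + 2 * ((n' : ℝ) - n)
  c2 : 0 < κ' + M - 2 * ((n' : ℝ) - n)

section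
variable {m M : ℕ} {x : Fin m → ℂ} {y : Fin M → ℂ} {hX hY : ℂ → ℂ} {κ κ' : ℝ} {n n' : ℕ}

theorem gr0_mul' (h k g : ℂ → ℂ) (x : Fin m → ℂ) :
    Gr0 (fun u => h u * (k u * g u)) x = fun u => Gr0 h x u * (k u * g u) := by
  funext u
  unfold Gr0
  ring

/-- both half quanta on the right line -/
theorem SP_AA (L : Ln α β A B) (R : RD α β x y hX hY κ κ' n n') {w w' : ℂ} (hw : w.re = A)
    (hw' : w'.re = A) :
    SP x y hX hY n n' w w' = Z3 α β n n' (GXs hX x w w') (GYs hY y w w') := by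
  have key := assemG (α := α) (β := β) L.w R.hx R.hy R.rx R.ry
    (hX := fun u => hX u * (Ck (w - u) * Dk (w' - u)))
    (hY := fun v => hY v * (Dk (w - v) * Ck (w' - v)))
    (fun z h1 h2 => (R.aX z h1 h2).mul ((Ck_diff_A L hw z h1 h2).mul (Dk_diff_A L hw' z h1 h2)))
    (fun z h1 h2 => (R.aY z h1 h2).mul ((Dk_diff_A L hw z h1 h2).mul (Ck_diff_A L hw' z h1 h2)))
    (R.mX.mul ((Ck_meas w).mul (Dk_meas w'))) (R.mY.mul ((Dk_meas w).mul (Ck_meas w')))
    ((R.gX.mul ((gr_Ck w).mul (Leg.gr_Dk' w'))).mono (κ' := -κ) (by linarith))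
    ((R.gY.mul ((Leg.gr_Dk' w).mul (gr_Ck w'))).mono (κ' := -κ') (by linarith)) n n' R.c1 R.c2
  rw [gr0_mul', gr0_mul'] at key
  exact key

/-- `w` on the left line, `w'` on the right one -/
theorem SP_BA (L : Ln α β A B) (R : RD α β x y hX hY κ κ' n n') {w w' : ℂ} (hw : w.re = B)
    (hw' : w'.re = A) (hy : ∀ i, w.im ≠ (y i).im) :
    SP x y hX hY n n' w w' = Z3 α β n n' (GXs hX x w w') (GYs hY y w w') +
      PY y hY w w' * ZP α β x y hX hY n n' w w' := by
  have c2 := R.c2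
  have key := cap_Y (α := α) (β := β) L.w R.hx R.hy R.rx R.ry
    (hX := fun u => hX u * (Ck (w - u) * Dk (w' - u))) (hY := fun v => hY v * Ck (w' - v))
    (fun z h1 h2 => (R.aX z h1 h2).mul ((Ck_diff_B L hw z h1 h2).mul (Dk_diff_A L hw' z h1 h2)))
    (fun z h1 h2 => (R.aY z h1 h2).mul (Ck_diff_A L hw' z h1 h2))
    (R.mX.mul ((Ck_meas w).mul (Dk_meas w'))) (R.mY.mul (Ck_meas w'))
    ((R.gX.mul ((gr_Ck w).mul (Leg.gr_Dk' w'))).mono (κ' := -κ) (by linarith))
    ((R.gY.mul (gr_Ck w')).mono (κ' := -(κ' - 1)) (by linarith)) n n' R.c1 (by linarith)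
    (c := w + 3 * l) (by simpa using hy) (Pl_B L hw)
  rw [gr0_mul', gr0_mul] at key
  simp only [add_sub_cancel_right] at key
  have e1 : (fun v => hY v * (Dk (w - v) * Ck (w' - v))) =
      fun v => hY v * Ck (w' - v) * Dk (w - v) := by
    funext v; ring
  have e2 : GYs hY y w w' = fun v => Gr0 hY y v * Ck (w' - v) * Dk (w - v) := by
    funext v; unfold GYs; ring
  unfold SP ZP PY
  rw [e1, e2, key]
  congr 1

/-- `w` on the right line, `w'` on the left one -/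
theorem SP_AB (L : Ln α β A B) (R : RD α β x y hX hY κ κ' n n') {w w' : ℂ} (hw : w.re = A)
    (hw' : w'.re = B) (hx : ∀ i, w'.im ≠ (x i).im) :
    SP x y hX hY n n' w w' = Z3 α β n n' (GXs hX x w w') (GYs hY y w w') +
      PX x hX w w' * ZP' α β x y hX hY n n' w w' := by
  have c1 := R.c1
  have key := cap_X (α := α) (β := β) L.w R.hx R.hy R.rx R.ry
    (hX := fun u => hX u * Ck (w - u)) (hY := fun v => hY v * (Dk (w - v) * Ck (w' - v)))
    (fun z h1 h2 => (R.aX z h1 h2).mul (Ck_diff_A L hw z h1 h2))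
    (fun z h1 h2 => (R.aY z h1 h2).mul ((Dk_diff_A L hw z h1 h2).mul (Ck_diff_B L hw' z h1 h2)))
    (R.mX.mul (Ck_meas w)) (R.mY.mul ((Dk_meas w).mul (Ck_meas w')))
    ((R.gX.mul (gr_Ck w)).mono (κ' := -(κ - 1)) (by linarith))
    ((R.gY.mul ((Leg.gr_Dk' w).mul (gr_Ck w'))).mono (κ' := -κ') (by linarith)) n n'
    (by linarith) R.c2 (c := w' + 3 * l) (by simpa using hx) (Pl_B L hw')
  rw [gr0_mul', gr0_mul] at key
  simp only [add_sub_cancel_right] at key
  have e1 : (fun u => hX u * (Ck (w - u) * Dk (w' - u))) =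
      fun u => hX u * Ck (w - u) * Dk (w' - u) := by
    funext u; ring
  have e2 : GXs hX x w w' = fun u => Gr0 hX x u * Ck (w - u) * Dk (w' - u) := by
    funext u; unfold GXs; ring
  unfold SP ZP' PX
  rw [e1, e2, key]
  congr 1

/-- both half quanta on the left line -/
theorem SP_BB (L : Ln α β A B) (R : RD α β x y hX hY κ κ' n n') {w w' : ℂ} (hw : w.re = B)
    (hw' : w'.re = B) (hx : ∀ i, w'.im ≠ (x i).im) (hy : ∀ i, w.im ≠ (y i).im) :
    SP x y hX hY n n' w w' = Z3 α β n n' (GXs hX x w w') (GYs hY y w w') +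
      PX x hX w w' * ZP' α β x y hX hY n n' w w' + PY y hY w w' * ZP α β x y hX hY n n' w w' +
      PX x hX w w' * PY y hY w w' * qg (w - w') * ZPP α β x y hX hY n n' w w' := by
  have c1 := R.c1
  have c2 := R.c2
  have key := cap_XY (α := α) (β := β) L.w R.hx R.hy R.rx R.ry
    (hX := fun u => hX u * Ck (w - u)) (hY := fun v => hY v * Ck (w' - v))
    (fun z h1 h2 => (R.aX z h1 h2).mul (Ck_diff_B L hw z h1 h2))
    (fun z h1 h2 => (R.aY z h1 h2).mul (Ck_diff_B L hw' z h1 h2))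
    (R.mX.mul (Ck_meas w)) (R.mY.mul (Ck_meas w'))
    ((R.gX.mul (gr_Ck w)).mono (κ' := -(κ - 1)) (by linarith))
    ((R.gY.mul (gr_Ck w')).mono (κ' := -(κ' - 1)) (by linarith)) n n'
    (by linarith) (by linarith) (c := w + 3 * l) (by simpa using hy) (Pl_B L hw)
    (c' := w' + 3 * l) (by simpa using hx) (Pl_B L hw')
  rw [gr0_mul, gr0_mul] at key
  simp only [add_sub_cancel_right] at key
  have e1 : (fun u => hX u * (Ck (w - u) * Dk (w' - u))) =
      fun u => hX u * Ck (w - u) * Dk (w' - u) := by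
    funext u; ring
  have e2 : (fun v => hY v * (Dk (w - v) * Ck (w' - v))) =
      fun v => hY v * Ck (w' - v) * Dk (w - v) := by
    funext v; ring
  have e3 : GXs hX x w w' = fun u => Gr0 hX x u * Ck (w - u) * Dk (w' - u) := by
    funext u; unfold GXs; ring
  have e4 : GYs hY y w w' = fun v => Gr0 hY y v * Ck (w' - v) * Dk (w - v) := by
    funext v; unfold GYs; ring
  have e5 : qg (w' + 3 * l - (w + 3 * l)) = qg (w - w') := by
    rw [show w' + 3 * l - (w + 3 * l) = w' - w by ring, qg_comm]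
  have e6 : (fun u => Gr0 hX x u * Ck (w - u) * qg (u - (w + 3 * l)) * Dk (w' - u)) =
      fun u => Gr0 hX x u * (Ck (w - u) * Dk (w' - u)) * qg (u - (w + 3 * l)) := by
    funext u; ring
  have e7 : (fun v => Gr0 hY y v * Ck (w' - v) * Dk (w - v) * qg (v - (w' + 3 * l))) =
      fun v => Gr0 hY y v * (Dk (w - v) * Ck (w' - v)) * qg (v - (w' + 3 * l)) := by
    funext v; ring
  rw [e5, e6, e7] at key
  unfold SP ZP ZP' ZPP PX PY
  rw [e1, e2, e3, e4, key]
  by_cases h1 : 1 ≤ n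
  · by_cases h2 : 1 ≤ n'
    · simp only [if_pos h1, if_pos h2, if_pos (And.intro h1 h2)]
      ring
    · have h3 : ¬(1 ≤ n ∧ 1 ≤ n') := fun h => h2 h.2
      simp only [if_pos h1, if_neg h2, if_neg h3]
      ring
  · have h3 : ¬(1 ≤ n ∧ 1 ≤ n') := fun h => h1 h.1
    simp only [if_neg h1, if_neg h3]
    by_cases h2 : 1 ≤ n'
    · simp only [if_pos h2]
      ring
    · simp only [if_neg h2]
      ring

end

end NUP1.N

end
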