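import Pool.Agent.NUP1L.Link3
import Pool.Agent.NUP1.Exact

/-!
# The gas of the two-point functions and the half quanta: the weights without marks
-/

set_option autoImplicit false
set_option linter.unusedSectionVars false
set_option linter.unusedSimpArgs false

noncomputable section

open Complex Finset

namespace NUP1.Leg

open NUTP (sn th ea lam cs)
open NUTP.Gas (Cf Ty ff ef gg xf xx cls ow cr own crs w1)
open NUP1.Grand (P)
open NUP1.Mu (P_mul P_congr P_both prod_ne sin1_ne sin2_ne sin3_ne)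
open Bd (qg)

variable {m M : ℕ}

/-- one body function of the rows -/
def hr (c : ℂ) (x : Fin m → ℂ) (y : Fin M → ℂ) (u : ℂ) : ℂ :=
  c * (∏ i, 1 / sin (u - x i - 2 * l)) * ∏ j, sin (u - y j + 3 * l) ^ 2

/-- factor of a quantum with the four ends -/
def thE (r o r' o' u : ℂ) : ℂ :=
  sin (u - o + 3 * l) * sin (u - r' + 3 * l) / (sin (r - u + 2 * l) * sin (o' - u + 2 * l))

/-- one body function -/
def hE (c r o r' o' : ℂ) (x : Fin m → ℂ) (y : Fin M → ℂ) (u : ℂ) : ℂ :=
  hr c x y u * thE r o r' o' u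

/-- factor of an empty row with the four ends -/
def EX (r o' z : ℂ) : ℂ :=
  sin (r - z + 2 * l) * sin (r - z + 3 * l) * (sin (o' - z + 2 * l) * sin (o' - z + 3 * l))

/-- two empty rows -/
def FF (z : ℂ) : ℂ := sn th 2 (ea z) * sn th 3 (ea z) * sn th 5 (ea z) * sn th 6 (ea z)

/-- second factor with the rows of the own species -/
def Vn (s : SignType) (x y : ℂ) : ℂ := ((qu s x).map fun u => -(sin (u - y - 2 * l))⁻¹).prod

/-- factor with the rows of the other species -/
def Cn (s : SignType) (x y : ℂ) : ℂ := ((qu s x).map fun u => sin (u - y + 3 * l) ^ 2).prod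

/-- pairs of quanta of different species -/
def QGn (s t : SignType) (x y : ℂ) : ℂ :=
  ((qu s x).map fun u => ((qu t y).map fun v => qg (u - v)).prod).prod

/-- two rows of one world -/
theorem ff_pr (s t : SignType) {x y : ℂ} (hz : Gz (x - y)) :
    ff th (bs s) (bs t) (ea (x - y)) = FF (x - y) * NUP1.pr s t x y * (Vn s x y * Vn t y x) := by
  have n0 := hz.ne 0
  have n1 := hz.ne 1
  have n2 := hz.ne 2
  have n3 := hz.ne 3
  have n5 := hz.ne 5
  have n6 := hz.ne 6
  have n7 := hz.ne 7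
  obtain ⟨i0, i1, i2, i3, i4, i5, i6, i7⟩ := sni (x - y)
  rw [neg_sub] at i0 i1 i2 i3 i4 i5 i6 i7
  have a0 : sin (x - y) = sn th 0 (ea (x - y)) := z0 _
  have a1 : sin (x - y - 2 * l) = -sn th 6 (ea (x - y)) := m2 _
  have a2 : sin (x - l - y) = -sn th 7 (ea (x - y)) := by
    rw [show x - (l : ℂ) - y = x - y - l by ring, m1]
  have a3 : sin (x - l - y - 2 * l) = -sn th 5 (ea (x - y)) := by
    rw [show x - (l : ℂ) - y - 2 * l = x - y - 3 * l by ring, m3]
  have b0 : sin (y - x) = -sn th 0 (ea (x - y)) := by rw [z0, i0]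
  have b1 : sin (y - x - 2 * l) = -sn th 2 (ea (x - y)) := by rw [m2, i6]
  have b2 : sin (y - l - x) = -sn th 1 (ea (x - y)) := by
    rw [show y - (l : ℂ) - x = y - x - l by ring, m1, i7]
  have b3 : sin (y - l - x - 2 * l) = -sn th 3 (ea (x - y)) := by
    rw [show y - (l : ℂ) - x - 2 * l = y - x - 3 * l by ring, m3, i5]
  have q0 : q (x - y) = -(sn th 0 (ea (x - y)) ^ 2 * sn th 2 (ea (x - y)) * sn th 6 (ea (x - y))) /
      (sn th 1 (ea (x - y)) * sn th 7 (ea (x - y))) := by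
    unfold q
    rw [a0, z2, m2, z1, m1]
    field_simp
  have qm : q (x - l - y) = -(sn th 7 (ea (x - y)) ^ 2 * sn th 1 (ea (x - y)) *
      sn th 5 (ea (x - y))) / (sn th 0 (ea (x - y)) * sn th 6 (ea (x - y))) := by
    unfold q
    rw [a2, show x - (l : ℂ) - y + 2 * l = x - y + l by ring, z1, a3,
      show x - (l : ℂ) - y + l = x - y by ring, a0, show x - (l : ℂ) - y - l = x - y - 2 * l by ring,
      m2]
    field_simp
  have qp : q (x - (y - l)) = sn th 1 (ea (x - y)) ^ 2 * sn th 3 (ea (x - y)) *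
      sn th 7 (ea (x - y)) / (sn th 0 (ea (x - y)) * sn th 2 (ea (x - y))) := by
    unfold q
    rw [show x - (y - (l : ℂ)) = x - y + l by ring, z1,
      show x - y + (l : ℂ) + 2 * l = x - y + 3 * l by ring, z3,
      show x - y + (l : ℂ) - 2 * l = x - y - l by ring, m1,
      show x - y + (l : ℂ) + l = x - y + 2 * l by ring, z2,
      show x - y + (l : ℂ) - l = x - y by ring, a0]
    field_simp
  have qz : q (x - l - (y - l)) = q (x - y) := by congr 1; ring
  cases s <;> cases t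
  all_goals
    simp only [bs, ff, FF, NUP1.pr, Vn, qu, List.map_cons, List.map_nil, List.prod_cons,
      List.prod_nil, a0, a1, a2, a3, b0, b1, b2, b3, qz, q0, qm, qp]
    field_simp

/-- two rows of different worlds -/
theorem gg_qg (s t : SignType) {x y : ℂ} (hz : Gz (x - y)) :
    gg th (bs s) (bs t) (ea (x - y)) = QGn s t x y * (Cn s x y * Cn t y x) := by
  have n2 := hz.ne 2
  have n3 := hz.ne 3
  have n4 := hz.ne 4
  have n5 := hz.ne 5
  have n6 := hz.ne 6
  obtain ⟨i0, i1, i2, i3, i4, i5, i6, i7⟩ := sni (x - y)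
  rw [neg_sub] at i0 i1 i2 i3 i4 i5 i6 i7
  have a3 : sin (x - y + 3 * l) = sn th 3 (ea (x - y)) := z3 _
  have a2 : sin (x - l - y + 3 * l) = sn th 2 (ea (x - y)) := by
    rw [show x - (l : ℂ) - y + 3 * l = x - y + 2 * l by ring, z2]
  have b3 : sin (y - x + 3 * l) = sn th 5 (ea (x - y)) := by rw [z3, i3]
  have b2 : sin (y - l - x + 3 * l) = sn th 6 (ea (x - y)) := by
    rw [show y - (l : ℂ) - x + 3 * l = y - x + 2 * l by ring, z2, i2]
  have q0 : qg (x - y) = sn th 4 (ea (x - y)) ^ 2 / (sn th 3 (ea (x - y)) ^ 2 *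
      sn th 5 (ea (x - y)) ^ 2) := by
    unfold Bd.qg
    rw [z4, a3, m3, neg_sq]
  have qm : qg (x - l - y) = sn th 3 (ea (x - y)) ^ 2 / (sn th 2 (ea (x - y)) ^ 2 *
      sn th 4 (ea (x - y)) ^ 2) := by
    unfold Bd.qg
    have e1 : cos (x - l - y) = sn th 3 (ea (x - y)) := by
      rw [← sin_add4, ← z3]
      congr 1
      ring
    have e2 : sin (x - l - y - 3 * l) = -sn th 4 (ea (x - y)) := by
      rw [← z4, ← sin_add4,
        show x - y + 4 * (l : ℂ) = x - l - y - 3 * l + 8 * l by ring, sin_add8, neg_neg]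
    rw [e1, a2, e2, neg_sq]
  have qp : qg (x - (y - l)) = sn th 5 (ea (x - y)) ^ 2 / (sn th 4 (ea (x - y)) ^ 2 *
      sn th 6 (ea (x - y)) ^ 2) := by
    unfold Bd.qg
    have e1 : cos (x - (y - l)) = sn th 5 (ea (x - y)) := by
      rw [← sin_add4, snz]
      congr 1
      push_cast
      ring
    have e2 : sin (x - (y - l) + 3 * l) = sn th 4 (ea (x - y)) := by
      rw [snz]
      congr 1
      push_cast
      ring
    have e3 : sin (x - (y - l) - 3 * l) = -sn th 6 (ea (x - y)) := by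
      rw [show x - (y - (l : ℂ)) - 3 * l = x - y - 2 * l by ring, m2]
    rw [e1, e2, e3, neg_sq]
  have qz : qg (x - l - (y - l)) = qg (x - y) := by congr 1; ring
  cases s <;> cases t
  all_goals
    simp only [bs, gg, QGn, Cn, qu, List.map_cons, List.map_nil, List.prod_cons,
      List.prod_nil, a2, a3, b2, b3, qz, q0, qm, qp]
    field_simp

/-- the four ends and a full line -/
theorem ends_eq (s : SignType) {r o r' o' z : ℂ} (h1 : Gz (r - z)) (h2 : Gz (o' - z)) :
    ef th .re (bs s) (ea (r - z)) * ef th .ro (NUTP.Gas.mir (bs s)) (ea (z - o)) *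
      (xf th .re (bs s) (ea (z - r')) * xf th .ro (NUTP.Gas.mir (bs s)) (ea (o' - z))) =
    EX r o' z * ((qu s z).map (thE r o r' o')).prod := by
  have a2 := h1.ne 2
  have a3 := h1.ne 3
  have b2 := h2.ne 2
  have b3 := h2.ne 3
  have e0 : thE r o r' o' z = sn th 3 (ea (z - o)) * sn th 3 (ea (z - r')) /
      (sn th 2 (ea (r - z)) * sn th 2 (ea (o' - z))) := by
    unfold thE
    rw [z3, z3, z2, z2]
  have e1 : thE r o r' o' (z - l) = sn th 2 (ea (z - o)) * sn th 2 (ea (z - r')) /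
      (sn th 3 (ea (r - z)) * sn th 3 (ea (o' - z))) := by
    unfold thE
    rw [show z - (l : ℂ) - o + 3 * l = z - o + 2 * l by ring,
      show z - (l : ℂ) - r' + 3 * l = z - r' + 2 * l by ring,
      show r - (z - (l : ℂ)) + 2 * l = r - z + 3 * l by ring,
      show o' - (z - (l : ℂ)) + 2 * l = o' - z + 3 * l by ring, z2, z2, z3, z3]
  unfold EX
  rw [z2, z3, z2, z3]
  cases s
  · simp only [bs, NUTP.Gas.mir, ef, xf, qu, List.map_cons, List.map_nil, List.prod_cons,
      List.prod_nil, e0]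
    field_simp
  · simp only [bs, NUTP.Gas.mir, ef, xf, qu, List.map_cons, List.map_nil, List.prod_cons,
      List.prod_nil, e0, e1]
    field_simp
  · simp only [bs, NUTP.Gas.mir, ef, xf, qu, List.map_nil, List.prod_nil]
    ring

/-! ### one row -/

theorem Vn_self (s : SignType) (x : ℂ) : Vn s x x = match s with
    | .pos => 1
    | .zero => (sin (2 * l))⁻¹
    | .neg => (sin (2 * l))⁻¹ * (sin (3 * l))⁻¹ := by
  have e1 : sin (x - x - 2 * (l : ℂ)) = -sin (2 * l) := by rw [← sin_neg]; congr 1; ring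
  have e2 : sin (x - l - x - 2 * (l : ℂ)) = -sin (3 * l) := by rw [← sin_neg]; congr 1; ring
  cases s
  · simp only [Vn, qu, List.map_cons, List.map_nil, List.prod_cons, List.prod_nil, e1]
    rw [mul_one, inv_neg, neg_neg]
  · simp only [Vn, qu, List.map_cons, List.map_nil, List.prod_cons, List.prod_nil, e1, e2]
    rw [mul_one, inv_neg, inv_neg, neg_neg, neg_neg]
  · rfl

theorem Vn_self_ne (s : SignType) (x : ℂ) : Vn s x x ≠ 0 := by
  rw [Vn_self]
  cases s
  · exact inv_ne_zero sin2_ne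
  · exact mul_ne_zero (inv_ne_zero sin2_ne) (inv_ne_zero sin3_ne)
  · exact one_ne_zero

/-- the constant of the one body function -/
def cc (m : ℕ) : ℂ := (-1) ^ m * (sin (2 * l) / sin l)

theorem row_eq' (r o r' o' : ℂ) (x : Fin m → ℂ) (y : Fin M → ℂ) (s : SignType) (i : Fin m) :
    w1 th (bs s) * ((∏ j, if i = j then 1 else Vn s (x i) (x j)) * ∏ j, Cn s (x i) (y j)) *
      ((qu s (x i)).map (thE r o r' o')).prod =
    sin l * NUP1.sw s (hE (cc m) r o r' o' x y) (x i) := by
  rw [prod_ne _ i (Vn_self_ne s (x i)), Vn_self]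
  have s1 := sin1_ne
  have s2 := sin2_ne
  have s3 := sin3_ne
  have hsq : ((-1 : ℂ) ^ m) * (-1) ^ m = 1 := by
    rw [← mul_pow]
    simp
  have eV : ∀ u : ℂ, ∏ j : Fin m, -(sin (u - x j - 2 * l))⁻¹ =
      (-1) ^ m * ∏ j, 1 / sin (u - x j - 2 * l) := by
    intro u
    have : ∀ j : Fin m, -(sin (u - x j - 2 * (l : ℂ)))⁻¹ = -1 * (1 / sin (u - x j - 2 * l)) := by
      intro j
      rw [one_div]
      ring
    simp only [this]
    rw [Finset.prod_mul_distrib, Finset.prod_const, Finset.card_univ, Fintype.card_fin]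
  cases s
  · show 1 * ((∏ j, Vn .zero (x i) (x j)) / (sin (2 * l))⁻¹ * ∏ j, Cn .zero (x i) (y j)) *
      ((qu .zero (x i)).map (thE r o r' o')).prod = sin l * hE (cc m) r o r' o' x y (x i)
    have e1 : ∏ j, Vn .zero (x i) (x j) = (-1) ^ m * ∏ j, 1 / sin (x i - x j - 2 * l) := by
      rw [← eV]
      exact Finset.prod_congr rfl fun j _ => by simp [Vn, qu]
    have e2 : ∏ j, Cn .zero (x i) (y j) = ∏ j, sin (x i - y j + 3 * l) ^ 2 :=
      Finset.prod_congr rfl fun j _ => by simp [Cn, qu]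
    rw [e1, e2]
    simp only [qu, List.map_cons, List.map_nil, List.prod_cons, List.prod_nil, hE, hr, cc]
    field_simp
  · show sn th 1 1 * ((∏ j, Vn .neg (x i) (x j)) / ((sin (2 * l))⁻¹ * (sin (3 * l))⁻¹) *
      ∏ j, Cn .neg (x i) (y j)) * ((qu .neg (x i)).map (thE r o r' o')).prod =
      sin l * (rho / sin l * (hE (cc m) r o r' o' x y (x i) * hE (cc m) r o r' o' x y (x i - l)))
    have e1 : ∏ j, Vn .neg (x i) (x j) = ((-1) ^ m * ∏ j, 1 / sin (x i - x j - 2 * l)) *
        ((-1) ^ m * ∏ j, 1 / sin (x i - l - x j - 2 * l)) := by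
      rw [← eV, ← eV, ← Finset.prod_mul_distrib]
      exact Finset.prod_congr rfl fun j _ => by simp [Vn, qu]
    have e2 : ∏ j, Cn .neg (x i) (y j) = (∏ j, sin (x i - y j + 3 * l) ^ 2) *
        ∏ j, sin (x i - l - y j + 3 * l) ^ 2 := by
      rw [← Finset.prod_mul_distrib]
      exact Finset.prod_congr rfl fun j _ => by simp [Cn, qu]
    rw [e1, e2, sn11]
    simp only [qu, List.map_cons, List.map_nil, List.prod_cons, List.prod_nil, hE, hr, cc, rho]
    field_simp
  · show sn th 1 1 * ((∏ j, Vn .pos (x i) (x j)) / 1 * ∏ j, Cn .pos (x i) (y j)) *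
      ((qu .pos (x i)).map (thE r o r' o')).prod = sin l * 1
    have e1 : ∏ j, Vn .pos (x i) (x j) = 1 := Finset.prod_eq_one fun j _ => by simp [Vn, qu]
    have e2 : ∏ j, Cn .pos (x i) (y j) = 1 := Finset.prod_eq_one fun j _ => by simp [Cn, qu]
    rw [e1, e2, sn11]
    simp [qu]

/-! ### all rows -/

/-- prefactor of a world -/
def Bp (r o' : ℂ) (x : Fin m → ℂ) : ℂ :=
  (∏ i, sin l * EX r o' (x i)) * P fun i j => FF (x i - x j)

theorem P_ff (x : Fin m → ℂ) (a : Fin m → SignType) (gx : ∀ i j, i ≠ j → Gz (x i - x j)) :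
    (P fun i j => own th (bs (a i)) (bs (a j)) (ea (x i) / ea (x j))) =
      (P fun i j => FF (x i - x j)) * (P fun i j => NUP1.pr (a i) (a j) (x i) (x j)) *
        ∏ i, ∏ j, if i = j then 1 else Vn (a i) (x i) (x j) := by
  rw [← P_both fun i j => Vn (a i) (x i) (x j), ← P_mul, ← P_mul]
  refine P_congr fun i j hij => ?_
  rw [own_ff (cls_bs _) (cls_bs _), ← NUTP.ea_sub, ff_pr _ _ (gx i j hij)]

theorem crq_QGn (x : Fin m → ℂ) (y : Fin M → ℂ) (a : Fin m → SignType) (b : Fin M → SignType) :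
    crq x y a b = ∏ i, ∏ j, QGn (a i) (b j) (x i) (y j) := rfl

/-- **the weights without marks** -/
theorem base_eq {r o r' o' : ℂ} {x : Fin m → ℂ} {y : Fin M → ℂ} (a : Fin m → SignType)
    (b : Fin M → SignType) (gx : ∀ i j, i ≠ j → Gz (x i - x j))
    (gy : ∀ i j, i ≠ j → Gz (y i - y j)) (gxy : ∀ i j, Gz (x i - y j))
    (g1 : ∀ i, Gz (r - x i)) (g2 : ∀ i, Gz (o' - x i)) (g3 : ∀ j, Gz (r' - y j))
    (g4 : ∀ j, Gz (o - y j)) :
    ow th (Lf (ea r) (ea o) (fun i => ea (x i)) .re fun i => bs (a i)) *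
      ow th (Lf (ea r') (ea o') (fun j => ea (y j)) .re fun j => bs (b j)) *
      cr th (Lf (ea r) (ea o) (fun i => ea (x i)) .re fun i => bs (a i))
        (Lf (ea r') (ea o') (fun j => ea (y j)) .re fun j => bs (b j)) =
    Bp r o' x * Bp r' o y * (sta x (hE (cc m) r o r' o' x y) a *
      sta y (hE (cc M) r' o' r o y x) b * crq x y a b) := by
  rw [ow_Lf, ow_Lf, cr_Lf, P_ff x a gx, P_ff y b gy]
  have c1 : ∀ u, crs th .re .re u = 1 := fun u => rfl
  have c2 : ∀ u, crs th .re .lo u = 1 := fun u => rfl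
  have c3 : ∀ u, crs th .lo .re u = 1 := fun u => rfl
  have c4 : ∀ u, crs th .lo .lo u = 1 := fun u => rfl
  have c5 : ∀ u, own th .re .lo u = 1 := fun u => rfl
  have c6 : w1 th .re = 1 := rfl
  have c7 : w1 th .lo = 1 := rfl
  rw [c1, c2, c3, c4, c5, c5, c6, c7]
  have hG : ∏ i, ∏ j, crs th (bs (a i)) (bs (b j)) (ea (x i) / ea (y j)) =
      crq x y a b * ((∏ i, ∏ j, Cn (a i) (x i) (y j)) * ∏ j, ∏ i, Cn (b j) (y j) (x i)) := by
    rw [crq_QGn, Finset.prod_comm (f := fun j i => Cn (b j) (y j) (x i)),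
      ← Finset.prod_mul_distrib, ← Finset.prod_mul_distrib]
    refine Finset.prod_congr rfl fun i _ => ?_
    rw [← Finset.prod_mul_distrib, ← Finset.prod_mul_distrib]
    refine Finset.prod_congr rfl fun j _ => ?_
    rw [crs_ff (cls_bs _) (cls_bs _), ← NUTP.ea_sub, gg_qg _ _ (gxy i j)]
  rw [hG]
  have eX : (∏ i, own th .re (bs (a i)) (ea r / ea (x i))) *
      (∏ i, own th .lo (bs (a i)) (ea o / ea (x i))) *
      ((∏ i, crs th (bs (a i)) .re (ea (x i) / ea r')) *
        ∏ i, crs th (bs (a i)) .lo (ea (x i) / ea o')) =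
      ∏ i, (EX r o' (x i) * ((qu (a i) (x i)).map (thE r o r' o')).prod) := by
    rw [← Finset.prod_mul_distrib, ← Finset.prod_mul_distrib, ← Finset.prod_mul_distrib]
    refine Finset.prod_congr rfl fun i _ => ?_
    rw [← ends_eq (a i) (g1 i) (g2 i), own_ef rfl (cls_bs _), own_lf (cls_bs _),
      crs_fr (cls_bs _) rfl, crs_fl (cls_bs _), ea_inv_div, ea_inv_div, ← NUTP.ea_sub,
      ← NUTP.ea_sub]
  have eY : (∏ j, own th .re (bs (b j)) (ea r' / ea (y j))) *
      (∏ j, own th .lo (bs (b j)) (ea o' / ea (y j))) *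
      ((∏ j, crs th .re (bs (b j)) (ea r / ea (y j))) *
        ∏ j, crs th .lo (bs (b j)) (ea o / ea (y j))) =
      ∏ j, (EX r' o (y j) * ((qu (b j) (y j)).map (thE r' o' r o)).prod) := by
    rw [← Finset.prod_mul_distrib, ← Finset.prod_mul_distrib, ← Finset.prod_mul_distrib]
    refine Finset.prod_congr rfl fun j _ => ?_
    rw [← ends_eq (b j) (g3 j) (g4 j), own_ef rfl (cls_bs _), own_lf (cls_bs _),
      crs_rf rfl (cls_bs _), crs_lf (cls_bs _), ea_inv_div, ea_inv_div, ← NUTP.ea_sub,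
      ← NUTP.ea_sub]
  have rX : (∏ i, w1 th (bs (a i))) * ((∏ i, ∏ j, if i = j then 1 else Vn (a i) (x i) (x j)) *
      ∏ i, ∏ j, Cn (a i) (x i) (y j)) *
      (∏ i, (EX r o' (x i) * ((qu (a i) (x i)).map (thE r o r' o')).prod)) =
      (∏ i, sin l * EX r o' (x i)) * ∏ i, NUP1.sw (a i) (hE (cc m) r o r' o' x y) (x i) := by
    rw [← Finset.prod_mul_distrib, ← Finset.prod_mul_distrib, ← Finset.prod_mul_distrib,
      ← Finset.prod_mul_distrib]
    refine Finset.prod_congr rfl fun i _ => ?_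
    have := row_eq' r o r' o' x y (a i) i
    linear_combination (EX r o' (x i)) * this
  have rY : (∏ j, w1 th (bs (b j))) * ((∏ j, ∏ k, if j = k then 1 else Vn (b j) (y j) (y k)) *
      ∏ j, ∏ i, Cn (b j) (y j) (x i)) *
      (∏ j, (EX r' o (y j) * ((qu (b j) (y j)).map (thE r' o' r o)).prod)) =
      (∏ j, sin l * EX r' o (y j)) * ∏ j, NUP1.sw (b j) (hE (cc M) r' o' r o y x) (y j) := by
    rw [← Finset.prod_mul_distrib, ← Finset.prod_mul_distrib, ← Finset.prod_mul_distrib,
      ← Finset.prod_mul_distrib]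
    refine Finset.prod_congr rfl fun j _ => ?_
    have := row_eq' r' o' r o y x (b j) j
    linear_combination (EX r' o (y j)) * this
  rw [← eX] at rX
  rw [← eY] at rY
  unfold Bp sta
  generalize (∏ i, own th .re (bs (a i)) (ea r / ea (x i))) = A1 at *
  generalize (∏ i, own th .lo (bs (a i)) (ea o / ea (x i))) = A2 at *
  generalize (∏ i, crs th (bs (a i)) .re (ea (x i) / ea r')) = A3 at *
  generalize (∏ i, crs th (bs (a i)) .lo (ea (x i) / ea o')) = A4 at *
  generalize (∏ j, own th .re (bs (b j)) (ea r' / ea (y j))) = B1 at *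
  generalize (∏ j, own th .lo (bs (b j)) (ea o' / ea (y j))) = B2 at *
  generalize (∏ j, crs th .re (bs (b j)) (ea r / ea (y j))) = B3 at *
  generalize (∏ j, crs th .lo (bs (b j)) (ea o / ea (y j))) = B4 at *
  generalize (∏ i, w1 th (bs (a i))) = A5 at *
  generalize (∏ j, w1 th (bs (b j))) = B5 at *
  generalize (∏ i, ∏ j, if i = j then 1 else Vn (a i) (x i) (x j)) = A6 at *
  generalize (∏ j, ∏ k, if j = k then 1 else Vn (b j) (y j) (y k)) = B6 at *
  generalize (∏ i, ∏ j, Cn (a i) (x i) (y j)) = A7 at *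
  generalize (∏ j, ∏ i, Cn (b j) (y j) (x i)) = B7 at *
  generalize (∏ i, sin l * EX r o' (x i)) = A8 at *
  generalize (∏ j, sin l * EX r' o (y j)) = B8 at *
  generalize (∏ i, NUP1.sw (a i) (hE (cc m) r o r' o' x y) (x i)) = A9 at *
  generalize (∏ j, NUP1.sw (b j) (hE (cc M) r' o' r o y x) (y j)) = B9 at *
  generalize crq x y a b = Q at *
  generalize (P fun i j => FF (x i - x j)) = F1 at *
  generalize (P fun i j => FF (y i - y j)) = F2 at *
  generalize (P fun i j => NUP1.pr (a i) (a j) (x i) (x j)) = P1 at *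
  generalize (P fun i j => NUP1.pr (b i) (b j) (y i) (y j)) = P2 at *
  linear_combination (F1 * P1 * F2 * P2 * Q * (B5 * (B6 * B7) * (B1 * B2 * (B3 * B4)))) * rX +
    (F1 * P1 * F2 * P2 * Q * (A8 * A9)) * rY

end NUP1.Leg

end
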