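import Pool.Agent.NUP1L.Two3

/-!
# `Z3`: measurability in parameters, limits, bounds uniform in the spectators
-/

set_option autoImplicit false
set_option linter.unusedSectionVars false

noncomputable section

open Complex MeasureTheory Filter Topology

namespace NUP1.N

open Bd

/-- joint measurability of the one body functions -/
theorem meas_oneL_param {S : Type*} [MeasurableSpace S] {α β : ℝ} {G : S → ℂ → ℂ}
    (mG : Measurable (Function.uncurry G)) (k : Ob) :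
    Measurable fun p : S × ℝ => oneL α β (G p.1) k p.2 := by
  have h : ∀ c : ℂ, Measurable fun p : S × ℝ => G p.1 (pt α β k p.2 - c) := fun c =>
    mG.comp (measurable_fst.prodMk (((measurable_pt α β k).comp measurable_snd).sub_const c))
  have h0 : Measurable fun p : S × ℝ => G p.1 (pt α β k p.2) := by
    simpa using h 0
  cases k
  · exact h0
  · exact h0
  · exact h0.mul (h l)

/-- joint measurability of the integrand of one species -/
theorem meas_f_param {S : Type*} [MeasurableSpace S] {α β : ℝ} {h : S → Ob → ℝ → ℂ}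
    (hm : ∀ k, Measurable fun p : S × ℝ => h p.1 k p.2) {r : ℕ} (k : Fin r → Ob) :
    Measurable fun p : S × (Fin r → ℝ) => Grand.f (pw α β) k (h p.1) p.2 := by
  unfold Grand.f
  refine Measurable.mul ?_ ?_
  · exact Finset.measurable_prod _ fun i _ =>
      (hm (k i)).comp (measurable_fst.prodMk ((measurable_pi_apply i).comp measurable_snd))
  · refine (measurable_P (fun i j (t : Fin r → ℝ) => pw α β (k i) (k j) (t i) (t j)) ?_).comp
      measurable_snd
    intro i j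
    unfold pw
    exact (measurable_pwz _ _).comp (((measurable_pt α β _).comp (measurable_pi_apply i)).sub
      ((measurable_pt α β _).comp (measurable_pi_apply j)))

/-- joint measurability of the joint integrand -/
theorem meas_F2_param {S : Type*} [MeasurableSpace S] {α β : ℝ} {GX GY : S → ℂ → ℂ}
    (mX : Measurable (Function.uncurry GX)) (mY : Measurable (Function.uncurry GY)) {r r' : ℕ}
    (k : Fin r → Ob) (k' : Fin r' → Ob) :
    Measurable fun p : S × ((Fin r → ℝ) × (Fin r' → ℝ)) =>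
      F2 α β (GX p.1) (GY p.1) k k' p.2 := by
  have a1 : Measurable fun p : S × ((Fin r → ℝ) × (Fin r' → ℝ)) => (p.1, p.2.1) :=
    measurable_fst.prodMk (measurable_fst.comp measurable_snd)
  have a2 : Measurable fun p : S × ((Fin r → ℝ) × (Fin r' → ℝ)) => (p.1, p.2.2) :=
    measurable_fst.prodMk (measurable_snd.comp measurable_snd)
  have b1 : Measurable fun p : S × (Fin r → ℝ) =>
      Grand.f (pw α β) k ((fun s => oneL α β (GX s)) p.1) p.2 :=
    meas_f_param (h := fun s => oneL α β (GX s)) (fun k => meas_oneL_param mX k) k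
  have b2 : Measurable fun p : S × (Fin r' → ℝ) =>
      Grand.f (pw α β) k' ((fun s => oneL α β (GY s)) p.1) p.2 :=
    meas_f_param (h := fun s => oneL α β (GY s)) (fun k => meas_oneL_param mY k) k'
  have d1 := b1.comp a1
  have d2 := b2.comp a2
  have d3 : Measurable fun p : S × ((Fin r → ℝ) × (Fin r' → ℝ)) => X2 α β k k' p.2.1 p.2.2 :=
    (measurable_X2 α β k k').comp measurable_snd
  exact (d1.mul d2).mul d3

/-- **(a)** measurability in a parameter -/
theorem Z3_meas {S : Type*} [MeasurableSpace S] (α β : ℝ) (n n' : ℕ) {GX GY : S → ℂ → ℂ}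
    (mX : Measurable (Function.uncurry GX)) (mY : Measurable (Function.uncurry GY)) :
    Measurable fun s => Z3 α β n n' (GX s) (GY s) := by
  unfold Z3
  refine Finset.measurable_sum _ fun r' _ => Measurable.const_mul ?_ _
  refine Finset.measurable_sum _ fun k' _ => ?_
  split_ifs with hk'
  · refine Measurable.const_mul ?_ _
    refine Finset.measurable_sum _ fun r _ => Measurable.const_mul ?_ _
    refine Finset.measurable_sum _ fun k _ => ?_
    split_ifs with hk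
    · refine Measurable.const_mul ?_ _
      have h := (meas_F2_param (α := α) (β := β) mX mY k k').stronglyMeasurable
      exact (h.integral_prod_right
        (ν := (Measure.pi fun _ : Fin r => (volume : Measure ℝ)).prod
          (Measure.pi fun _ : Fin r' => (volume : Measure ℝ)))).measurable
    · exact measurable_const
  · exact measurable_const

/-- energy of two families, charge `d0` at the origin, charges `d a` at `T a` -/
theorem energy_spec {r r' : ℕ} {A : Type*} [Fintype A] (k : Fin r → Ob) (k' : Fin r' → Ob)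
    (t : Fin r → ℝ) (t' : Fin r' → ℝ) (d0 : ℝ) (d T : A → ℝ)
    (h : ∑ j, (chg (k' j) : ℝ) - ∑ i, (chg (k i) : ℝ) = d0 + ∑ a, d a) :
    en k t + en k' t' - 2 * ∑ i, ∑ j, (chg (k i) * chg (k' j) * |t i - t' j| : ℝ) ≤
      -(2 * ∑ i, (chg (k i) : ℝ) * (d0 * |t i| + ∑ a, d a * |t i - T a|)) +
        2 * ∑ j, (chg (k' j) : ℝ) * (d0 * |t' j| + ∑ a, d a * |t' j - T a|) -
        (2 * d0 * ∑ a, d a * |T a| + ∑ a, ∑ b, d a * d b * |T a - T b|) := by
  have := energy_nonpos (Finset.univ : Finset ((Fin r ⊕ Fin r') ⊕ (Unit ⊕ A)))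
    (Sum.elim (Sum.elim (fun i => (chg (k i) : ℝ)) (fun j => -(chg (k' j) : ℝ)))
      (Sum.elim (fun _ => d0) d))
    (Sum.elim (Sum.elim t t') (Sum.elim (fun _ => 0) T)) (by
      rw [Fintype.sum_sum_type, Fintype.sum_sum_type, Fintype.sum_sum_type]
      simp only [Sum.elim_inl, Sum.elim_inr, Finset.sum_neg_distrib, Finset.univ_unique,
        Finset.sum_singleton]
      linarith)
  simp only [Fintype.sum_sum_type, Sum.elim_inl, Sum.elim_inr, Finset.sum_add_distrib,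
    Finset.univ_unique, Finset.sum_singleton, sub_zero, zero_sub, abs_neg, abs_zero,
    mul_zero] at this
  have e1 : ∑ i, ∑ j, (chg (k i) : ℝ) * -(chg (k' j) : ℝ) * |t i - t' j| =
      -∑ i, ∑ j, (chg (k i) * chg (k' j) * |t i - t' j| : ℝ) := by
    rw [← Finset.sum_neg_distrib]
    refine Finset.sum_congr rfl fun i _ => ?_
    rw [← Finset.sum_neg_distrib]
    refine Finset.sum_congr rfl fun j _ => ?_
    ring
  have e2 : ∑ j, ∑ i, -(chg (k' j) : ℝ) * (chg (k i) : ℝ) * |t' j - t i| =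
      -∑ i, ∑ j, (chg (k i) * chg (k' j) * |t i - t' j| : ℝ) := by
    rw [Finset.sum_comm, ← Finset.sum_neg_distrib]
    refine Finset.sum_congr rfl fun i _ => ?_
    rw [← Finset.sum_neg_distrib]
    refine Finset.sum_congr rfl fun j _ => ?_
    rw [abs_sub_comm]
    ring
  have e3 : ∑ i, ∑ j, -(chg (k' i) : ℝ) * -(chg (k' j) : ℝ) * |t' i - t' j| = en k' t' := by
    unfold en
    refine Finset.sum_congr rfl fun i _ => Finset.sum_congr rfl fun j _ => ?_
    ring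
  have e4 : ∑ i, ∑ j, (chg (k i) : ℝ) * (chg (k j) : ℝ) * |t i - t j| = en k t := rfl
  have e5 : ∑ i, (chg (k i) : ℝ) * d0 * |t i| = d0 * ∑ i, (chg (k i) * |t i| : ℝ) := by
    rw [Finset.mul_sum]
    exact Finset.sum_congr rfl fun i _ => by ring
  have e6 : ∑ i, d0 * (chg (k i) : ℝ) * |t i| = d0 * ∑ i, (chg (k i) * |t i| : ℝ) := by
    rw [Finset.mul_sum]
    exact Finset.sum_congr rfl fun i _ => by ring
  have e7 : ∑ j, -(chg (k' j) : ℝ) * d0 * |t' j| = -(d0 * ∑ j, (chg (k' j) * |t' j| : ℝ)) := by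
    rw [Finset.mul_sum, ← Finset.sum_neg_distrib]
    exact Finset.sum_congr rfl fun i _ => by ring
  have e8 : ∑ j, d0 * -(chg (k' j) : ℝ) * |t' j| = -(d0 * ∑ j, (chg (k' j) * |t' j| : ℝ)) := by
    rw [Finset.mul_sum, ← Finset.sum_neg_distrib]
    exact Finset.sum_congr rfl fun i _ => by ring
  have f1 : ∑ i, ∑ a, (chg (k i) : ℝ) * d a * |t i - T a| =
      ∑ i, (chg (k i) : ℝ) * ∑ a, d a * |t i - T a| := by
    refine Finset.sum_congr rfl fun i _ => ?_
    rw [Finset.mul_sum]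
    exact Finset.sum_congr rfl fun a _ => by ring
  have f2 : ∑ a, ∑ i, d a * (chg (k i) : ℝ) * |T a - t i| =
      ∑ i, (chg (k i) : ℝ) * ∑ a, d a * |t i - T a| := by
    rw [Finset.sum_comm]
    refine Finset.sum_congr rfl fun i _ => ?_
    rw [Finset.mul_sum]
    exact Finset.sum_congr rfl fun a _ => by rw [abs_sub_comm]; ring
  have f3 : ∑ j, ∑ a, -(chg (k' j) : ℝ) * d a * |t' j - T a| =
      -∑ j, (chg (k' j) : ℝ) * ∑ a, d a * |t' j - T a| := by
    rw [← Finset.sum_neg_distrib]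
    refine Finset.sum_congr rfl fun i _ => ?_
    rw [Finset.mul_sum, ← Finset.sum_neg_distrib]
    exact Finset.sum_congr rfl fun a _ => by ring
  have f4 : ∑ a, ∑ j, d a * -(chg (k' j) : ℝ) * |T a - t' j| =
      -∑ j, (chg (k' j) : ℝ) * ∑ a, d a * |t' j - T a| := by
    rw [Finset.sum_comm, ← Finset.sum_neg_distrib]
    refine Finset.sum_congr rfl fun i _ => ?_
    rw [Finset.mul_sum, ← Finset.sum_neg_distrib]
    exact Finset.sum_congr rfl fun a _ => by rw [abs_sub_comm]; ring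
  have f5 : ∑ a, d0 * d a * |T a| = d0 * ∑ a, d a * |T a| := by
    rw [Finset.mul_sum]
    exact Finset.sum_congr rfl fun a _ => by ring
  have f6 : ∑ a, d a * d0 * |T a| = d0 * ∑ a, d a * |T a| := by
    rw [Finset.mul_sum]
    exact Finset.sum_congr rfl fun a _ => by ring
  have g1 : ∑ i, (chg (k i) : ℝ) * (d0 * |t i| + ∑ a, d a * |t i - T a|) =
      d0 * ∑ i, (chg (k i) * |t i| : ℝ) + ∑ i, (chg (k i) : ℝ) * ∑ a, d a * |t i - T a| := by
    rw [Finset.mul_sum, ← Finset.sum_add_distrib]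
    exact Finset.sum_congr rfl fun i _ => by ring
  have g2 : ∑ j, (chg (k' j) : ℝ) * (d0 * |t' j| + ∑ a, d a * |t' j - T a|) =
      d0 * ∑ j, (chg (k' j) * |t' j| : ℝ) + ∑ j, (chg (k' j) : ℝ) * ∑ a, d a * |t' j - T a| := by
    rw [Finset.mul_sum, ← Finset.sum_add_distrib]
    exact Finset.sum_congr rfl fun i _ => by ring
  rw [e1, e2, e3, e4, e5, e6, e7, e8, f1, f2, f3, f4, f5, f6] at this
  rw [g1, g2]
  linarith

/-- the one body functions under a majorant depending on the height only -/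
theorem oneL_le_exp {α β D : ℝ} {G : ℂ → ℂ} {φ : ℝ → ℝ}
    (hG : ∀ z : ℂ, (z.re = α ∨ z.re = β ∨ z.re = β + l) → ‖G z‖ ≤ D * Real.exp (φ z.im))
    (k : Ob) (t : ℝ) : ‖oneL α β G k t‖ ≤ (D + D ^ 2) * Real.exp (chg k * φ t) := by
  have hD : 0 ≤ D := by
    have h0 : (vl α 0).re = α := by simp [vl]
    have h := (norm_nonneg _).trans (hG (vl α 0) (Or.inl h0))
    by_contra hn
    rw [not_le] at hn
    have h3 : D * Real.exp (φ (vl α 0).im) < 0 := mul_neg_of_neg_of_pos hn (Real.exp_pos _)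
    linarith
  cases k
  · have h := hG (pt α β .A t) (by rw [pt_re]; simp [rl])
    rw [pt_im] at h
    refine h.trans ?_
    simp only [chg, Nat.cast_one, one_mul]
    refine mul_le_mul_of_nonneg_right (by nlinarith) (Real.exp_pos _).le
  · have h := hG (pt α β .L t) (by rw [pt_re]; simp [rl])
    rw [pt_im] at h
    refine h.trans ?_
    simp only [chg, Nat.cast_one, one_mul]
    refine mul_le_mul_of_nonneg_right (by nlinarith) (Real.exp_pos _).le
  · have g1 := hG (pt α β .S t) (by rw [pt_re]; simp [rl])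
    have g2 := hG (pt α β .S t - l) (by
      right; left
      rw [sub_re, pt_re]
      simp [rl])
    rw [pt_im] at g1
    have e2 : (pt α β .S t - l).im = t := by
      rw [sub_im, pt_im]
      simp
    rw [e2] at g2
    change ‖G (pt α β .S t) * G (pt α β .S t - l)‖ ≤ _
    rw [norm_mul]
    calc _ ≤ (D * Real.exp (φ t)) * (D * Real.exp (φ t)) :=
          mul_le_mul g1 g2 (norm_nonneg _) (by positivity)
      _ = D ^ 2 * Real.exp ((2 : ℕ) * φ t) := by
          rw [show ((2 : ℕ) : ℝ) * φ t = φ t + φ t by push_cast; ring, Real.exp_add]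
          ring
      _ ≤ (D + D ^ 2) * Real.exp ((2 : ℕ) * φ t) := by
          refine mul_le_mul_of_nonneg_right (by linarith) (Real.exp_pos _).le

/-- the product of the objects of one species under a majorant depending on the height only -/
theorem f_le_exp {α β : ℝ} {C : ℝ} (hC : 1 ≤ C)
    (hp : ∀ (k k' : Ob) (z : ℂ), z.re = rl α β k - rl α β k' →
      ‖pwz k k' z‖ ≤ C * Real.exp (2 * (chg k * chg k' * |z.im|)))
    {D : ℝ} {h : Ob → ℝ → ℂ} {φ : ℝ → ℝ} (hh : ∀ k t, ‖h k t‖ ≤ D * Real.exp (chg k * φ t))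
    {r : ℕ} (k : Fin r → Ob) (t : Fin r → ℝ) :
    ‖Grand.f (pw α β) k h t‖ ≤ D ^ r * C ^ (r * r) *
      (Real.exp (∑ i, (chg (k i) : ℝ) * φ (t i)) * Real.exp (en k t)) := by
  set g : Ob → ℝ → ℂ := fun k t => h k t / ((Real.exp (chg k * φ t) : ℝ) : ℂ) with hg
  have hb : ∀ k t, ‖g k t‖ ≤ D * Real.exp (-((0 : ℝ) * chg k * |t|)) := by
    intro k t
    rw [hg]
    simp only []
    rw [norm_div, Complex.norm_real, Real.norm_of_nonneg (Real.exp_pos _).le,
      div_le_iff₀ (Real.exp_pos _)]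
    simpa using hh k t
  have h1 := f_norm_le hC hp g hb k t
  have e1 : Grand.f (pw α β) k h t = ((Real.exp (∑ i, (chg (k i) : ℝ) * φ (t i)) : ℝ) : ℂ) *
      Grand.f (pw α β) k g t := by
    unfold Grand.f
    have e2 : ∏ i, g (k i) (t i) = (∏ i, h (k i) (t i)) /
        ((Real.exp (∑ i, (chg (k i) : ℝ) * φ (t i)) : ℝ) : ℂ) := by
      rw [hg]
      simp only []
      rw [Finset.prod_div_distrib, ← Complex.ofReal_prod, ← Real.exp_sum]
    have hne : ((Real.exp (∑ i, (chg (k i) : ℝ) * φ (t i)) : ℝ) : ℂ) ≠ 0 := by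
      exact_mod_cast (Real.exp_pos _).ne'
    rw [e2]
    field_simp
  rw [e1, norm_mul, Complex.norm_real, Real.norm_of_nonneg (Real.exp_pos _).le]
  calc _ ≤ Real.exp (∑ i, (chg (k i) : ℝ) * φ (t i)) * (D ^ r * C ^ (r * r) *
      ((∏ i, Real.exp (-((0 : ℝ) * chg (k i) * |t i|))) * Real.exp (en k t))) :=
        mul_le_mul_of_nonneg_left h1 (Real.exp_pos _).le
    _ = _ := by
        simp only [zero_mul, neg_zero, Real.exp_zero, Finset.prod_const_one, one_mul]
        ring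

/-- **The condition.** Majorants `φ`, `ψ` of the logarithms of the one body functions, which a
charge `d0` at the origin and charges `d a` at the heights `T a` compensate up to decay of rates
`c`, `c'`; the resulting exponent is at most `B`. -/
def Spec (n n' : ℕ) (α β D c c' B : ℝ) (GX GY : ℂ → ℂ) : Prop :=
  ∃ (N : ℕ) (d T : Fin N → ℝ) (d0 m m' : ℝ) (φ ψ : ℝ → ℝ),
    d0 + ∑ a, d a = (n' : ℝ) - n ∧
    (∀ t, φ t - 2 * (d0 * |t| + ∑ a, d a * |t - T a|) ≤ m - c * |t|) ∧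
    (∀ t, ψ t + 2 * (d0 * |t| + ∑ a, d a * |t - T a|) ≤ m' - c' * |t|) ∧
    (∀ z : ℂ, (z.re = α ∨ z.re = β ∨ z.re = β + l) → ‖GX z‖ ≤ D * Real.exp (φ z.im)) ∧
    (∀ z : ℂ, (z.re = α ∨ z.re = β ∨ z.re = β + l) → ‖GY z‖ ≤ D * Real.exp (ψ z.im)) ∧
    n * m + n' * m' - (2 * d0 * ∑ a, d a * |T a| + ∑ a, ∑ b, d a * d b * |T a - T b|) ≤ B

/-- the majorant of the joint integrand -/
def Mj (C D c c' : ℝ) {r r' : ℕ} (k : Fin r → Ob) (k' : Fin r' → Ob)
    (p : (Fin r → ℝ) × (Fin r' → ℝ)) : ℝ :=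
  ((D + D ^ 2) ^ r * C ^ (r * r) * ((D + D ^ 2) ^ r' * C ^ (r' * r')) * C ^ (r' * r)) *
    ((∏ i, Real.exp (-(c * chg (k i) * |p.1 i|))) *
      (∏ i, Real.exp (-(c' * chg (k' i) * |p.2 i|))))

theorem Mj_integrable (C D : ℝ) {c c' : ℝ} (hc : 0 < c) (hc' : 0 < c') {r r' : ℕ}
    (k : Fin r → Ob) (k' : Fin r' → Ob) : Integrable (Mj C D c c' k k')
      ((Measure.pi fun _ => volume).prod (Measure.pi fun _ => volume)) := by
  have i1 := integrable_prod_exp (fun i : Fin r => c * chg (k i))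
    (fun i => mul_pos hc (by exact_mod_cast chg_pos (k i)))
  have i2 := integrable_prod_exp (fun i : Fin r' => c' * chg (k' i))
    (fun i => mul_pos hc' (by exact_mod_cast chg_pos (k' i)))
  exact (i1.mul_prod i2).const_mul _

/-- pointwise bound -/
theorem F2_le_spec {α β : ℝ} {C : ℝ} (hC : 1 ≤ C)
    (hp : ∀ (k k' : Ob) (z : ℂ), z.re = rl α β k - rl α β k' →
      ‖pwz k k' z‖ ≤ C * Real.exp (2 * (chg k * chg k' * |z.im|)))
    (hc : ∀ (k k' : Ob) (z : ℂ), z.re = rl α β k - rl α β k' →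
      ‖cwz k k' z‖ ≤ C * Real.exp (-(2 * (chg k * chg k' * |z.im|))))
    {n n' : ℕ} {D c c' B : ℝ} {GX GY : ℂ → ℂ} (hS : Spec n n' α β D c c' B GX GY)
    {r r' : ℕ} (k : Fin r → Ob) (k' : Fin r' → Ob) (hk : ∑ i, chg (k i) = n)
    (hk' : ∑ i, chg (k' i) = n') (p : (Fin r → ℝ) × (Fin r' → ℝ)) :
    ‖F2 α β GX GY k k' p‖ ≤ Real.exp B * Mj C D c c' k k' p := by
  obtain ⟨N, d, T, d0, m, m', φ, ψ, hd, h1, h2, hX, hY, hB⟩ := hS
  have hC0 : 0 ≤ C := zero_le_one.trans hC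
  have bX := oneL_le_exp hX
  have bY := oneL_le_exp hY
  have hD0 : 0 ≤ D + D ^ 2 := by
    have h := (norm_nonneg _).trans (bX .A 0)
    by_contra hn
    rw [not_le] at hn
    have := mul_neg_of_neg_of_pos hn (Real.exp_pos (chg .A * φ 0))
    linarith
  have b1 := f_le_exp hC hp bX k p.1
  have b2 := f_le_exp hC hp bY k' p.2
  have b3 := X2_norm_le hC hc k k' p.1 p.2
  have hkR : ∑ i, (chg (k i) : ℝ) = n := by exact_mod_cast hk
  have hkR' : ∑ i, (chg (k' i) : ℝ) = n' := by exact_mod_cast hk'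
  have b4 := energy_spec k k' p.1 p.2 d0 d T (by rw [hkR, hkR', hd])
  unfold F2
  rw [norm_mul, norm_mul]
  have s1 : ∑ i, (chg (k i) : ℝ) * φ (p.1 i) -
      2 * ∑ i, (chg (k i) : ℝ) * (d0 * |p.1 i| + ∑ a, d a * |p.1 i - T a|) ≤
      n * m - ∑ i, c * chg (k i) * |p.1 i| := by
    rw [← hkR, Finset.mul_sum, Finset.sum_mul, ← Finset.sum_sub_distrib,
      ← Finset.sum_sub_distrib]
    refine Finset.sum_le_sum fun i _ => ?_
    have := mul_le_mul_of_nonneg_left (h1 (p.1 i)) (Nat.cast_nonneg (α := ℝ) (chg (k i)))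
    linarith
  have s2 : ∑ i, (chg (k' i) : ℝ) * ψ (p.2 i) +
      2 * ∑ i, (chg (k' i) : ℝ) * (d0 * |p.2 i| + ∑ a, d a * |p.2 i - T a|) ≤
      n' * m' - ∑ i, c' * chg (k' i) * |p.2 i| := by
    rw [← hkR', Finset.mul_sum, Finset.sum_mul, ← Finset.sum_add_distrib,
      ← Finset.sum_sub_distrib]
    refine Finset.sum_le_sum fun i _ => ?_
    have := mul_le_mul_of_nonneg_left (h2 (p.2 i)) (Nat.cast_nonneg (α := ℝ) (chg (k' i)))
    linarith
  calc _ ≤ ((D + D ^ 2) ^ r * C ^ (r * r) *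
        (Real.exp (∑ i, (chg (k i) : ℝ) * φ (p.1 i)) * Real.exp (en k p.1))) *
        ((D + D ^ 2) ^ r' * C ^ (r' * r') *
        (Real.exp (∑ i, (chg (k' i) : ℝ) * ψ (p.2 i)) * Real.exp (en k' p.2))) *
        (C ^ (r' * r) *
          Real.exp (-(2 * ∑ i, ∑ j, (chg (k i) * chg (k' j) * |p.1 i - p.2 j| : ℝ)))) := by
        gcongr
    _ = ((D + D ^ 2) ^ r * C ^ (r * r) * ((D + D ^ 2) ^ r' * C ^ (r' * r')) * C ^ (r' * r)) *
        Real.exp (∑ i, (chg (k i) : ℝ) * φ (p.1 i) + ∑ i, (chg (k' i) : ℝ) * ψ (p.2 i) +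
          (en k p.1 + en k' p.2 -
          2 * ∑ i, ∑ j, (chg (k i) * chg (k' j) * |p.1 i - p.2 j| : ℝ))) := by
        rw [sub_eq_add_neg, Real.exp_add, Real.exp_add, Real.exp_add, Real.exp_add]
        ring
    _ ≤ ((D + D ^ 2) ^ r * C ^ (r * r) * ((D + D ^ 2) ^ r' * C ^ (r' * r')) * C ^ (r' * r)) *
        Real.exp (B + (-∑ i, c * chg (k i) * |p.1 i|) + (-∑ i, c' * chg (k' i) * |p.2 i|)) := by
        refine mul_le_mul_of_nonneg_left (Real.exp_le_exp.2 ?_) (by positivity)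
        linarith
    _ = _ := by
        unfold Mj
        rw [Real.exp_add, Real.exp_add, ← Finset.sum_neg_distrib, ← Finset.sum_neg_distrib,
          Real.exp_sum, Real.exp_sum]
        ring

/-- **Integrability** under the condition -/
theorem integrable_F2_spec {α β : ℝ} (h1 : l < α - β) (h2 : α - β < 3 * l) {n n' : ℕ}
    {D c c' B : ℝ} (hc : 0 < c) (hc' : 0 < c') {GX GY : ℂ → ℂ} (mX : Measurable GX)
    (mY : Measurable GY) (hS : Spec n n' α β D c c' B GX GY) {r r' : ℕ} (k : Fin r → Ob)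
    (k' : Fin r' → Ob) (hk : ∑ i, chg (k i) = n) (hk' : ∑ i, chg (k' i) = n') :
    Integrable (F2 α β GX GY k k')
      ((Measure.pi fun _ => volume).prod (Measure.pi fun _ => volume)) := by
  obtain ⟨C, hC, hp, hq⟩ := pw_bounds h1 h2
  refine ((Mj_integrable C D hc hc' k k').const_mul (Real.exp B)).mono' ?_
    (Eventually.of_forall fun p => F2_le_spec hC hp hq hS k k' hk hk' p)
  refine Measurable.aestronglyMeasurable ?_
  exact (((measurable_f (measurable_oneL α β mX) k).comp measurable_fst).mul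
    ((measurable_f (measurable_oneL α β mY) k').comp measurable_snd)).mul
    (measurable_X2 α β k k')

/-- **The bound** under the condition: the constant depends on `α β n n' D c c'` only -/
theorem Z3_le_gen {α β : ℝ} (h1 : l < α - β) (h2 : α - β < 3 * l) (n n' : ℕ) (D : ℝ)
    {c c' : ℝ} (hc : 0 < c) (hc' : 0 < c') :
    ∃ K : ℝ, 0 ≤ K ∧ ∀ (GX GY : ℂ → ℂ) (B : ℝ), Spec n n' α β D c c' B GX GY →
      ‖Z3 α β n n' GX GY‖ ≤ K * Real.exp B := by
  obtain ⟨C, hC, hp, hq⟩ := pw_bounds h1 h2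
  set M : ∀ r r' : ℕ, (Fin r → Ob) → (Fin r' → Ob) → ℝ := fun r r' k k' =>
    ∫ p, Mj C D c c' k k' p
      ∂((Measure.pi fun _ : Fin r => (volume : Measure ℝ)).prod
        (Measure.pi fun _ : Fin r' => (volume : Measure ℝ))) with hM
  refine ⟨∑ r' ∈ Finset.range (n' + 1), ∑ k' : Fin r' → Ob, ‖∏ i, wt (k' i)‖ *
    ∑ r ∈ Finset.range (n + 1), ∑ k : Fin r → Ob, ‖∏ i, wt (k i)‖ * |M r r' k k'|, ?_, ?_⟩
  · refine Finset.sum_nonneg fun r' _ => Finset.sum_nonneg fun k' _ => mul_nonneg (norm_nonneg _) ?_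
    exact Finset.sum_nonneg fun r _ => Finset.sum_nonneg fun k _ =>
      mul_nonneg (norm_nonneg _) (abs_nonneg _)
  intro GX GY B hS
  have hF : ∀ {r r' : ℕ} (k : Fin r → Ob) (k' : Fin r' → Ob), ∑ i, chg (k i) = n →
      ∑ i, chg (k' i) = n' → ‖∫ p, F2 α β GX GY k k' p
        ∂((Measure.pi fun _ => volume).prod (Measure.pi fun _ => volume))‖
        ≤ Real.exp B * |M r r' k k'| := by
    intro r r' k k' hk hk'
    refine (norm_integral_le_of_norm_le ((Mj_integrable C D hc hc' k k').const_mul (Real.exp B))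
      (Eventually.of_forall fun p => F2_le_spec hC hp hq hS k k' hk hk' p)).trans ?_
    rw [integral_const_mul]
    exact mul_le_mul_of_nonneg_left (le_abs_self _) (Real.exp_pos _).le
  have hfac : ∀ r : ℕ, ‖((r.factorial : ℕ) : ℂ)⁻¹‖ ≤ 1 := by
    intro r
    rw [norm_inv, Complex.norm_natCast]
    refine inv_le_one_of_one_le₀ ?_
    exact_mod_cast Nat.one_le_iff_ne_zero.2 (Nat.factorial_ne_zero r)
  have hB0 : 0 ≤ Real.exp B := (Real.exp_pos B).le
  unfold Z3
  rw [Finset.sum_mul]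
  refine (norm_sum_le _ _).trans (Finset.sum_le_sum fun r' _ => ?_)
  rw [norm_mul, Finset.sum_mul]
  refine (mul_le_of_le_one_left (norm_nonneg _) (hfac r')).trans ?_
  refine (norm_sum_le _ _).trans (Finset.sum_le_sum fun k' _ => ?_)
  have hS0 : 0 ≤ ∑ r ∈ Finset.range (n + 1), ∑ k : Fin r → Ob, ‖∏ i, wt (k i)‖ * |M r r' k k'| :=
    Finset.sum_nonneg fun r _ => Finset.sum_nonneg fun k _ =>
      mul_nonneg (norm_nonneg _) (abs_nonneg _)
  split_ifs with hk'
  · rw [norm_mul, mul_assoc]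
    refine mul_le_mul_of_nonneg_left ?_ (norm_nonneg _)
    rw [Finset.sum_mul]
    refine (norm_sum_le _ _).trans (Finset.sum_le_sum fun r _ => ?_)
    rw [norm_mul, Finset.sum_mul]
    refine (mul_le_of_le_one_left (norm_nonneg _) (hfac r)).trans ?_
    refine (norm_sum_le _ _).trans (Finset.sum_le_sum fun k _ => ?_)
    split_ifs with hk
    · rw [norm_mul, mul_assoc]
      refine mul_le_mul_of_nonneg_left ?_ (norm_nonneg _)
      rw [mul_comm |M r r' k k'|]
      exact hF k k' hk hk'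
    · rw [norm_zero]
      positivity
  · rw [norm_zero]
    positivity

/-- **(b)** limits under the condition -/
theorem Z3_tendsto_gen {E : Type*} {F : Filter E} [F.IsCountablyGenerated] {α β : ℝ}
    (h1 : l < α - β) (h2 : α - β < 3 * l) {n n' : ℕ} {D c c' B : ℝ} (hc : 0 < c)
    (hc' : 0 < c') {GX GY : E → ℂ → ℂ} {GX0 GY0 : ℂ → ℂ}
    (mX : ∀ᶠ e in F, Measurable (GX e)) (mY : ∀ᶠ e in F, Measurable (GY e))
    (tX : ∀ z : ℂ, (z.re = α ∨ z.re = β ∨ z.re = β + l) →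
      Tendsto (fun e => GX e z) F (𝓝 (GX0 z)))
    (tY : ∀ z : ℂ, (z.re = α ∨ z.re = β ∨ z.re = β + l) →
      Tendsto (fun e => GY e z) F (𝓝 (GY0 z)))
    (hS : ∀ᶠ e in F, Spec n n' α β D c c' B (GX e) (GY e)) :
    Tendsto (fun e => Z3 α β n n' (GX e) (GY e)) F (𝓝 (Z3 α β n n' GX0 GY0)) := by
  obtain ⟨C, hC, hp, hq⟩ := pw_bounds h1 h2
  -- values of the one body functions
  have tone : ∀ {G : E → ℂ → ℂ} {G0 : ℂ → ℂ}, (∀ z : ℂ, (z.re = α ∨ z.re = β ∨ z.re = β + l) →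
      Tendsto (fun e => G e z) F (𝓝 (G0 z))) → ∀ (k : Ob) (t : ℝ),
      Tendsto (fun e => oneL α β (G e) k t) F (𝓝 (oneL α β G0 k t)) := by
    intro G G0 hG k t
    cases k
    · exact hG _ (Or.inl (by rw [pt_re]; rfl))
    · exact hG _ (Or.inr (Or.inl (by rw [pt_re]; rfl)))
    · refine (hG _ (Or.inr (Or.inr (by rw [pt_re]; rfl)))).mul (hG _ (Or.inr (Or.inl ?_)))
      rw [sub_re, pt_re]
      simp [rl]
  have tf : ∀ {G : E → ℂ → ℂ} {G0 : ℂ → ℂ}, (∀ z : ℂ, (z.re = α ∨ z.re = β ∨ z.re = β + l) →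
      Tendsto (fun e => G e z) F (𝓝 (G0 z))) → ∀ {r : ℕ} (k : Fin r → Ob) (t : Fin r → ℝ),
      Tendsto (fun e => Grand.f (pw α β) k (oneL α β (G e)) t) F
        (𝓝 (Grand.f (pw α β) k (oneL α β G0) t)) := by
    intro G G0 hG r k t
    unfold Grand.f
    exact (tendsto_finsetProd _ fun i _ => tone hG (k i) (t i)).mul_const _
  have main : ∀ {r r' : ℕ} (k : Fin r → Ob) (k' : Fin r' → Ob), ∑ i, chg (k i) = n →
      ∑ i, chg (k' i) = n' → Tendsto (fun e => ∫ p, F2 α β (GX e) (GY e) k k' p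
        ∂((Measure.pi fun _ => volume).prod (Measure.pi fun _ => volume))) F
      (𝓝 (∫ p, F2 α β GX0 GY0 k k' p
        ∂((Measure.pi fun _ => volume).prod (Measure.pi fun _ => volume)))) := by
    intro r r' k k' hk hk'
    refine tendsto_integral_filter_of_dominated_convergence
      (fun p => Real.exp B * Mj C D c c' k k' p) ?_ ?_ ?_ ?_
    · filter_upwards [mX, mY] with e me me'
      refine Measurable.aestronglyMeasurable ?_
      unfold F2
      exact (((measurable_f (measurable_oneL α β me) k).comp measurable_fst).mul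
        ((measurable_f (measurable_oneL α β me') k').comp measurable_snd)).mul
        (measurable_X2 α β k k')
    · filter_upwards [hS] with e he
      exact Eventually.of_forall fun p => F2_le_spec hC hp hq he k k' hk hk' p
    · exact (Mj_integrable C D hc hc' k k').const_mul _
    · refine Eventually.of_forall fun p => ?_
      unfold F2
      exact ((tf tX k p.1).mul (tf tY k' p.2)).mul_const _
  unfold Z3
  refine tendsto_finsetSum _ fun r' _ => Tendsto.const_mul _ ?_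
  refine tendsto_finsetSum _ fun k' _ => ?_
  by_cases hk' : ∑ i, chg (k' i) = n'
  · simp only [if_pos hk']
    refine Tendsto.const_mul _ ?_
    refine tendsto_finsetSum _ fun r _ => Tendsto.const_mul _ ?_
    refine tendsto_finsetSum _ fun k _ => ?_
    by_cases hk : ∑ i, chg (k i) = n
    · simp only [if_pos hk]
      exact (main k k' hk hk').const_mul _
    · simp only [if_neg hk]
      exact tendsto_const_nhds
  · simp only [if_neg hk']
    exact tendsto_const_nhds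

/-- one spectator factor at height `t` -/
theorem spec_le (s t τ : ℝ) : s * |t - τ| ≤ s * |τ| + |s| * |t| := by
  rcases le_total 0 s with hs | hs
  · rw [abs_of_nonneg hs]
    have := abs_sub t τ
    nlinarith
  · rw [abs_of_nonpos hs]
    have h : |τ| - |t| ≤ |t - τ| := by
      rw [abs_sub_comm]
      exact abs_sub_abs_le_abs_sub τ t
    nlinarith

/-- the condition for a family of spectators at the heights `T a` -/
theorem Spec.fam {n n' : ℕ} {α β D κ κ' : ℝ} {N : ℕ} (s ρ d T : Fin N → ℝ) {d0 : ℝ}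
    (hd : d0 + ∑ a, d a = (n' : ℝ) - n) {GX GY : ℂ → ℂ}
    (hX : ∀ z : ℂ, (z.re = α ∨ z.re = β ∨ z.re = β + l) →
      ‖GX z‖ ≤ D * Real.exp (-(κ * |z.im|) + ∑ a, s a * |z.im - T a|))
    (hY : ∀ z : ℂ, (z.re = α ∨ z.re = β ∨ z.re = β + l) →
      ‖GY z‖ ≤ D * Real.exp (-(κ' * |z.im|) + ∑ a, ρ a * |z.im - T a|)) :
    Spec n n' α β D (κ + 2 * d0 - ∑ a, |s a - 2 * d a|) (κ' - 2 * d0 - ∑ a, |ρ a + 2 * d a|)
      (n * ∑ a, (s a - 2 * d a) * |T a| + n' * ∑ a, (ρ a + 2 * d a) * |T a| -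
        (2 * d0 * ∑ a, d a * |T a| + ∑ a, ∑ b, d a * d b * |T a - T b|)) GX GY := by
  refine ⟨N, d, T, d0, _, _, fun t => -(κ * |t|) + ∑ a, s a * |t - T a|,
    fun t => -(κ' * |t|) + ∑ a, ρ a * |t - T a|, hd, fun t => ?_, fun t => ?_, hX, hY, le_refl _⟩
  · have h : ∑ a, (s a - 2 * d a) * |t - T a| ≤
        ∑ a, (s a - 2 * d a) * |T a| + (∑ a, |s a - 2 * d a|) * |t| := by
      rw [Finset.sum_mul, ← Finset.sum_add_distrib]
      exact Finset.sum_le_sum fun a _ => spec_le _ _ _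
    have e : ∑ a, (s a - 2 * d a) * |t - T a| =
        ∑ a, s a * |t - T a| - 2 * ∑ a, d a * |t - T a| := by
      rw [Finset.mul_sum, ← Finset.sum_sub_distrib]
      exact Finset.sum_congr rfl fun a _ => by ring
    rw [e] at h
    linarith
  · have h : ∑ a, (ρ a + 2 * d a) * |t - T a| ≤
        ∑ a, (ρ a + 2 * d a) * |T a| + (∑ a, |ρ a + 2 * d a|) * |t| := by
      rw [Finset.sum_mul, ← Finset.sum_add_distrib]
      exact Finset.sum_le_sum fun a _ => spec_le _ _ _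
    have e : ∑ a, (ρ a + 2 * d a) * |t - T a| =
        ∑ a, ρ a * |t - T a| + 2 * ∑ a, d a * |t - T a| := by
      rw [Finset.mul_sum, ← Finset.sum_add_distrib]
      exact Finset.sum_congr rfl fun a _ => by ring
    rw [e] at h
    linarith

theorem Spec.mono {n n' : ℕ} {α β D c c' B B' : ℝ} {GX GY : ℂ → ℂ}
    (h : Spec n n' α β D c c' B GX GY) (hB : B ≤ B') : Spec n n' α β D c c' B' GX GY := by
  obtain ⟨N, d, T, d0, m, m', φ, ψ, hd, h1, h2, hX, hY, h3⟩ := h
  exact ⟨N, d, T, d0, m, m', φ, ψ, hd, h1, h2, hX, hY, h3.trans hB⟩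

/-- the condition for two spectators -/
theorem Spec.two {n n' : ℕ} {α β D κ κ' s1 s2 r1 r2 d0 d1 d2 τ τ' : ℝ}
    (hd : d0 + d1 + d2 = (n' : ℝ) - n) {GX GY : ℂ → ℂ}
    (hX : ∀ z : ℂ, (z.re = α ∨ z.re = β ∨ z.re = β + l) →
      ‖GX z‖ ≤ D * Real.exp (-(κ * |z.im|) + s1 * |z.im - τ| + s2 * |z.im - τ'|))
    (hY : ∀ z : ℂ, (z.re = α ∨ z.re = β ∨ z.re = β + l) →
      ‖GY z‖ ≤ D * Real.exp (-(κ' * |z.im|) + r1 * |z.im - τ| + r2 * |z.im - τ'|)) :
    Spec n n' α β D (κ + 2 * d0 - |s1 - 2 * d1| - |s2 - 2 * d2|)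
      (κ' - 2 * d0 - |r1 + 2 * d1| - |r2 + 2 * d2|)
      ((n * (s1 - 2 * d1) + n' * (r1 + 2 * d1)) * |τ| +
        (n * (s2 - 2 * d2) + n' * (r2 + 2 * d2)) * |τ'| -
        2 * (d0 * d1 * |τ| + d0 * d2 * |τ'| + d1 * d2 * |τ - τ'|)) GX GY := by
  have h := Spec.fam (n := n) (n' := n') (α := α) (β := β) (D := D) (κ := κ) (κ' := κ')
    ![s1, s2] ![r1, r2] ![d1, d2] ![τ, τ'] (d0 := d0)
    (by
      rw [Fin.sum_univ_two]
      simp only [Matrix.cons_val_zero, Matrix.cons_val_one]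
      linarith) (GX := GX) (GY := GY)
    (by
      intro z hz
      refine (hX z hz).trans (le_of_eq ?_)
      rw [Fin.sum_univ_two]
      simp only [Matrix.cons_val_zero, Matrix.cons_val_one]
      ring_nf)
    (by
      intro z hz
      refine (hY z hz).trans (le_of_eq ?_)
      rw [Fin.sum_univ_two]
      simp only [Matrix.cons_val_zero, Matrix.cons_val_one]
      ring_nf)
  simp only [Fin.sum_univ_two, Matrix.cons_val_zero, Matrix.cons_val_one, sub_self, abs_zero,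
    mul_zero, zero_add, add_zero] at h
  have e1 : κ + 2 * d0 - (|s1 - 2 * d1| + |s2 - 2 * d2|) =
      κ + 2 * d0 - |s1 - 2 * d1| - |s2 - 2 * d2| := by ring
  have e2 : κ' - 2 * d0 - (|r1 + 2 * d1| + |r2 + 2 * d2|) =
      κ' - 2 * d0 - |r1 + 2 * d1| - |r2 + 2 * d2| := by ring
  rw [e1, e2] at h
  refine h.mono (le_of_eq ?_)
  rw [abs_sub_comm τ' τ]
  ring

/-- **(c)** the bound for two spectators, uniform in their heights -/
theorem Z3_le_spec {α β : ℝ} (h1 : l < α - β) (h2 : α - β < 3 * l) (n n' : ℕ)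
    (D κ κ' s1 s2 r1 r2 d0 d1 d2 : ℝ) (hd : d0 + d1 + d2 = (n' : ℝ) - n)
    (c1 : 0 < κ + 2 * d0 - |s1 - 2 * d1| - |s2 - 2 * d2|)
    (c2 : 0 < κ' - 2 * d0 - |r1 + 2 * d1| - |r2 + 2 * d2|) :
    ∃ K : ℝ, 0 ≤ K ∧ ∀ (GX GY : ℂ → ℂ) (τ τ' : ℝ),
      (∀ z : ℂ, (z.re = α ∨ z.re = β ∨ z.re = β + l) →
        ‖GX z‖ ≤ D * Real.exp (-(κ * |z.im|) + s1 * |z.im - τ| + s2 * |z.im - τ'|)) →
      (∀ z : ℂ, (z.re = α ∨ z.re = β ∨ z.re = β + l) →
        ‖GY z‖ ≤ D * Real.exp (-(κ' * |z.im|) + r1 * |z.im - τ| + r2 * |z.im - τ'|)) →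
      ‖Z3 α β n n' GX GY‖ ≤ K * Real.exp ((n * (s1 - 2 * d1) + n' * (r1 + 2 * d1)) * |τ| +
        (n * (s2 - 2 * d2) + n' * (r2 + 2 * d2)) * |τ'| -
        2 * (d0 * d1 * |τ| + d0 * d2 * |τ'| + d1 * d2 * |τ - τ'|)) := by
  obtain ⟨K, hK, h⟩ := Z3_le_gen h1 h2 n n' D c1 c2
  exact ⟨K, hK, fun GX GY τ τ' hX hY => h GX GY _ (Spec.two hd hX hY)⟩

/-- integrability for two spectators -/
theorem integrable_F2_two {α β : ℝ} (h1 : l < α - β) (h2 : α - β < 3 * l) {n n' : ℕ}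
    {D κ κ' s1 s2 r1 r2 d0 d1 d2 τ τ' : ℝ} (hd : d0 + d1 + d2 = (n' : ℝ) - n)
    (c1 : 0 < κ + 2 * d0 - |s1 - 2 * d1| - |s2 - 2 * d2|)
    (c2 : 0 < κ' - 2 * d0 - |r1 + 2 * d1| - |r2 + 2 * d2|) {GX GY : ℂ → ℂ}
    (mX : Measurable GX) (mY : Measurable GY)
    (hX : ∀ z : ℂ, (z.re = α ∨ z.re = β ∨ z.re = β + l) →
      ‖GX z‖ ≤ D * Real.exp (-(κ * |z.im|) + s1 * |z.im - τ| + s2 * |z.im - τ'|))
    (hY : ∀ z : ℂ, (z.re = α ∨ z.re = β ∨ z.re = β + l) →
      ‖GY z‖ ≤ D * Real.exp (-(κ' * |z.im|) + r1 * |z.im - τ| + r2 * |z.im - τ'|))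
    {r r' : ℕ} (k : Fin r → Ob) (k' : Fin r' → Ob) (hk : ∑ i, chg (k i) = n)
    (hk' : ∑ i, chg (k' i) = n') : Integrable (F2 α β GX GY k k')
      ((Measure.pi fun _ => volume).prod (Measure.pi fun _ => volume)) :=
  integrable_F2_spec h1 h2 c1 c2 mX mY (Spec.two hd hX hY) k k' hk hk'

/-- **(b)** limits under uniform decay -/
theorem Z3_tendsto {E : Type*} {F : Filter E} [F.IsCountablyGenerated] {α β : ℝ}
    (h1 : l < α - β) (h2 : α - β < 3 * l) {n n' : ℕ} {D κ κ' : ℝ} {GX GY : E → ℂ → ℂ}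
    {GX0 GY0 : ℂ → ℂ} (mX : ∀ᶠ e in F, Measurable (GX e)) (mY : ∀ᶠ e in F, Measurable (GY e))
    (tX : ∀ z : ℂ, (z.re = α ∨ z.re = β ∨ z.re = β + l) →
      Tendsto (fun e => GX e z) F (𝓝 (GX0 z)))
    (tY : ∀ z : ℂ, (z.re = α ∨ z.re = β ∨ z.re = β + l) →
      Tendsto (fun e => GY e z) F (𝓝 (GY0 z)))
    (dX : ∀ᶠ e in F, ∀ z : ℂ, (z.re = α ∨ z.re = β ∨ z.re = β + l) →
      ‖GX e z‖ ≤ D * Real.exp (-(κ * |z.im|)))
    (dY : ∀ᶠ e in F, ∀ z : ℂ, (z.re = α ∨ z.re = β ∨ z.re = β + l) →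
      ‖GY e z‖ ≤ D * Real.exp (-(κ' * |z.im|)))
    (c1 : 0 < κ + 2 * ((n' : ℝ) - n)) (c2 : 0 < κ' - 2 * ((n' : ℝ) - n)) :
    Tendsto (fun e => Z3 α β n n' (GX e) (GY e)) F (𝓝 (Z3 α β n n' GX0 GY0)) := by
  refine Z3_tendsto_gen (D := D) (B := 0) h1 h2 c1 c2 mX mY tX tY ?_
  filter_upwards [dX, dY] with e hX hY
  have h := Spec.fam (n := n) (n' := n') (α := α) (β := β) (D := D) (κ := κ) (κ' := κ')
    (N := 0) (fun _ => 0) (fun _ => 0) (fun _ => 0) (fun _ => 0) (d0 := (n' : ℝ) - n)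
    (by simp) (GX := GX e) (GY := GY e)
    (by simpa using hX) (by simpa using hY)
  simpa using h

/-- **(b)** limits for two spectators (whose heights may depend on the parameter and stay
bounded) -/
theorem Z3_tendsto_two {E : Type*} {F : Filter E} [F.IsCountablyGenerated] {α β : ℝ}
    (h1 : l < α - β) (h2 : α - β < 3 * l) {n n' : ℕ}
    {D κ κ' s1 s2 r1 r2 d0 d1 d2 W : ℝ} (hd : d0 + d1 + d2 = (n' : ℝ) - n)
    (c1 : 0 < κ + 2 * d0 - |s1 - 2 * d1| - |s2 - 2 * d2|)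
    (c2 : 0 < κ' - 2 * d0 - |r1 + 2 * d1| - |r2 + 2 * d2|) {GX GY : E → ℂ → ℂ}
    {GX0 GY0 : ℂ → ℂ} (mX : ∀ᶠ e in F, Measurable (GX e)) (mY : ∀ᶠ e in F, Measurable (GY e))
    (tX : ∀ z : ℂ, (z.re = α ∨ z.re = β ∨ z.re = β + l) →
      Tendsto (fun e => GX e z) F (𝓝 (GX0 z)))
    (tY : ∀ z : ℂ, (z.re = α ∨ z.re = β ∨ z.re = β + l) →
      Tendsto (fun e => GY e z) F (𝓝 (GY0 z))) (τ τ' : E → ℝ)
    (hW : ∀ᶠ e in F, |τ e| ≤ W ∧ |τ' e| ≤ W)
    (dX : ∀ᶠ e in F, ∀ z : ℂ, (z.re = α ∨ z.re = β ∨ z.re = β + l) →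
      ‖GX e z‖ ≤ D * Real.exp (-(κ * |z.im|) + s1 * |z.im - τ e| + s2 * |z.im - τ' e|))
    (dY : ∀ᶠ e in F, ∀ z : ℂ, (z.re = α ∨ z.re = β ∨ z.re = β + l) →
      ‖GY e z‖ ≤ D * Real.exp (-(κ' * |z.im|) + r1 * |z.im - τ e| + r2 * |z.im - τ' e|)) :
    Tendsto (fun e => Z3 α β n n' (GX e) (GY e)) F (𝓝 (Z3 α β n n' GX0 GY0)) := by
  refine Z3_tendsto_gen (D := D) (B := |n * (s1 - 2 * d1) + n' * (r1 + 2 * d1)| * W +
        |n * (s2 - 2 * d2) + n' * (r2 + 2 * d2)| * W +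
        2 * (|d0 * d1| * W + |d0 * d2| * W + |d1 * d2| * (W + W))) h1 h2 c1 c2 mX mY tX tY ?_
  filter_upwards [dX, dY, hW] with e hX hY hw
  refine (Spec.two hd hX hY).mono ?_
  have g : ∀ a x : ℝ, ∀ y : ℝ, |x| ≤ y → a * |x| ≤ |a| * y := by
    intro a x y hxy
    exact (mul_le_mul_of_nonneg_right (le_abs_self a) (abs_nonneg x)).trans
      (mul_le_mul_of_nonneg_left hxy (abs_nonneg a))
  have g' : ∀ a x : ℝ, ∀ y : ℝ, |x| ≤ y → -(a * |x|) ≤ |a| * y := by
    intro a x y hxy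
    have := g (-a) x y hxy
    rw [abs_neg] at this
    linarith
  have a1 := g (n * (s1 - 2 * d1) + n' * (r1 + 2 * d1)) _ _ hw.1
  have a2 := g (n * (s2 - 2 * d2) + n' * (r2 + 2 * d2)) _ _ hw.2
  have a3 := g' (d0 * d1) _ _ hw.1
  have a4 := g' (d0 * d2) _ _ hw.2
  have a5 := g' (d1 * d2) (τ e - τ' e) (W + W) ((abs_sub _ _).trans (add_le_add hw.1 hw.2))
  linarith

end NUP1.N
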