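import Pool.Agent.NUP1L.FinalB
import Pool.Agent.NUP1L.Z3Lim

/-!
# The eleven integrands: measurability and bounds
-/

set_option autoImplicit false
set_option linter.unusedSectionVars false

noncomputable section

open Complex MeasureTheory Filter Topology

namespace NUP1.N

open Bd (Ob chg wt pw pt oneL Dec cwo Hc Ql qg measurable_Hc measurable_Ql rl)
open Leg (Ck Dk kap)

variable {α β A B : ℝ}

/-! ### the integrands -/

section defs
variable {m M : ℕ} (α β : ℝ) (p q : ℂ) (x : Fin m → ℂ) (y : Fin M → ℂ) (hX hY : ℂ → ℂ) (n n' : ℕ)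

/-- no captured quantum -/
def I0 (w w' : ℂ) : ℂ := Dk (w - w') * (pr1 p q x y w * pr1 q p y x w') *
  Z3 α β n n' (GXs hX x w w') (GYs hY y w w')

/-- a captured quantum of `Y` at `w + 3 l` -/
def IP (w w' : ℂ) : ℂ := sin l / sin (2 * l) *
  (Dk (w - w') * Ck (w' - (w + 3 * l)) * (prc p q x w * hY (w + 3 * l) * pr1 q p y x w')) *
  ZP α β x y hX hY n n' w w'

/-- a captured quantum of `X` at `w' + 3 l` -/
def IP' (w w' : ℂ) : ℂ := sin l / sin (2 * l) *
  (Dk (w - w') * Ck (w - (w' + 3 * l)) * (pr1 p q x y w * (prc q p y w' * hX (w' + 3 * l)))) *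
  ZP' α β x y hX hY n n' w w'

/-- both captured quanta -/
def IPP (w w' : ℂ) : ℂ := (sin l / sin (2 * l)) ^ 2 *
  (Dk (w - w') * Ck (w' - (w + 3 * l)) * Ck (w - (w' + 3 * l)) * qg (w - w') *
    (prc p q x w * hY (w + 3 * l) * (prc q p y w' * hX (w' + 3 * l)))) *
  ZPP α β x y hX hY n n' w w'

/-- prefactor of a captured pair -/
def XD (w : ℂ) : ℂ := -sin (2 * l) ^ 2 / (sin (w - p + l) * sin (w - q)) *
  ∏ j, (-sin (w - y j - 2 * l) / sin (w - y j))

/-- captured pair `w = w' + 3 l` -/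
def ID (w' : ℂ) : ℂ := XD p q y w' *
  Z3 α β n n' (Gr0 hX x) (fun v => Gr0 hY y v * Tk (w' - v))

/-- captured pair `w' = w + 3 l` -/
def ID' (w : ℂ) : ℂ := XD q p x w *
  Z3 α β n n' (fun u => Gr0 hX x u * Tk (w - u)) (Gr0 hY y)

/-- **the eleven integrals** -/
def E11 (A B : ℝ) : ℂ :=
  LL A A (I0 α β p q x y hX hY n n') - LL A B (I0 α β p q x y hX hY n n') -
    LL A B (IP' α β p q x y hX hY n n') -
    (LL B A (I0 α β p q x y hX hY n n') + LL B A (IP α β p q x y hX hY n n')) +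
    (LL B B (I0 α β p q x y hX hY n n') + LL B B (IP' α β p q x y hX hY n n') +
      LL B B (IP α β p q x y hX hY n n') + LL B B (IPP α β p q x y hX hY n n')) -
    sin l / sin (2 * l) * (LI B (ID α β p q x y hX hY n n') + LI B (ID' α β p q x y hX hY n n'))

end defs

/-! ### hypotheses -/

/-- uniform data of one family of rows and ends: everything in a box, `h` decays on the lines -/
structure UD (α β B : ℝ) (D κ R : ℝ) {m : ℕ} (p q : ℂ) (x y : Fin m → ℂ) (hX hY : ℂ → ℂ) :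
    Prop where
  bp : Bx R p
  bq : Bx R q
  bx : ∀ i, Bx R (x i)
  bY : ∀ i, Bx R (y i)
  mX : Measurable hX
  mY : Measurable hY
  hX : ∀ z : ℂ, (OnL α β z.re ∨ z.re = B + 3 * l) → ‖hX z‖ ≤ D * Real.exp (-(κ * |z.im|))
  hY : ∀ z : ℂ, (OnL α β z.re ∨ z.re = B + 3 * l) → ‖hY z‖ ≤ D * Real.exp (-(κ * |z.im|))

theorem UD.symm {D κ R : ℝ} {m : ℕ} {p q : ℂ} {x y : Fin m → ℂ} {hX hY : ℂ → ℂ}
    (U : UD α β B D κ R p q x y hX hY) : UD α β B D κ R q p y x hY hX :=
  ⟨U.bq, U.bp, U.bY, U.bx, U.mY, U.mX, U.hY, U.hX⟩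

theorem UD.D0 {D κ R : ℝ} {m : ℕ} {p q : ℂ} {x y : Fin m → ℂ} {hX hY : ℂ → ℂ}
    (U : UD α β B D κ R p q x y hX hY) : 0 ≤ D := by
  have := (norm_nonneg _).trans (U.hX (α : ℂ) (Or.inl (Or.inl (ofReal_re _))))
  simpa using this

/-- the one body function with rows on the three lines -/
theorem Gr0_box (L : Ln α β A B) (D κ R : ℝ) (m : ℕ) : ∃ C : ℝ, 0 ≤ C ∧
    ∀ (p q : ℂ) (x y : Fin m → ℂ) (hX hY : ℂ → ℂ), UD α β B D κ R p q x y hX hY →
      ∀ z : ℂ, OnL α β z.re → ‖Gr0 hX x z‖ ≤ C * Real.exp (-((κ + m) * |z.im|)) := by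
  obtain ⟨a, ha, h1⟩ := rA_box (m := m) (Far_al L) R
  obtain ⟨b, hb, h2⟩ := rA_box (m := m) (Far_be L) R
  obtain ⟨c, hc, h3⟩ := rA_box (m := m) (Far_bl L) R
  by_cases hD : 0 ≤ D
  · refine ⟨D * (a + b + c), by positivity, fun p q x y hX hY U z hz => ?_⟩
    have g1 := U.hX z (Or.inl hz)
    have g2 : ‖rA x z‖ ≤ (a + b + c) * Real.exp (-(m * |z.im|)) := by
      rcases hz with hz | hz | hz
      · exact (h1 x U.bx z hz).trans
          (mul_le_mul_of_nonneg_right (by linarith) (Real.exp_pos _).le)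
      · exact (h2 x U.bx z hz).trans
          (mul_le_mul_of_nonneg_right (by linarith) (Real.exp_pos _).le)
      · exact (h3 x U.bx z hz).trans
          (mul_le_mul_of_nonneg_right (by linarith) (Real.exp_pos _).le)
    have e : Gr0 hX x z = hX z * rA x z := rfl
    rw [e, norm_mul]
    calc _ ≤ (D * Real.exp (-(κ * |z.im|))) * ((a + b + c) * Real.exp (-(m * |z.im|))) := by
          gcongr
      _ = _ := by
          rw [show -((κ + m) * |z.im|) = -(κ * |z.im|) + -(m * |z.im|) by ring, Real.exp_add]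
          ring
  · exact ⟨0, le_rfl, fun p q x y hX hY U => absurd U.D0 hD⟩

/-! ### measurability -/

theorem mul_c {S : Type*} [MeasurableSpace S] {f g : S → ℂ} (hf : Measurable f)
    (hg : Measurable g) : Measurable fun s => f s * g s := hf.mul hg

theorem m_Ck : Measurable Ck := by
  unfold Leg.Ck
  fun_prop

theorem m_Dk : Measurable Dk := by
  unfold Leg.Dk
  fun_prop

theorem m_qg : Measurable qg := by
  unfold Bd.qg
  fun_prop

theorem m_Tk : Measurable Tk := by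
  unfold Tk
  fun_prop

theorem m_kap : Measurable kap := by
  unfold Leg.kap
  fun_prop

theorem m_rA {m : ℕ} (x : Fin m → ℂ) : Measurable (rA x) := by
  unfold rA
  exact Finset.measurable_prod _ fun i _ => by fun_prop

theorem m_rB {m : ℕ} (x : Fin m → ℂ) : Measurable (rB x) := by
  unfold rB
  exact Finset.measurable_prod _ fun i _ => by fun_prop

theorem m_prc {m : ℕ} (p q : ℂ) (x : Fin m → ℂ) : Measurable (prc p q x) := by
  unfold prc
  exact ((m_kap.comp (by fun_prop)).mul (by fun_prop)).mul (m_rA x)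

theorem m_pr1 {m M : ℕ} (p q : ℂ) (x : Fin m → ℂ) (y : Fin M → ℂ) :
    Measurable (pr1 p q x y) := (m_prc p q x).mul (m_rB y)

theorem m_XD {m : ℕ} (p q : ℂ) (x : Fin m → ℂ) : Measurable (XD p q x) := by
  unfold XD
  refine Measurable.mul (by fun_prop) ?_
  exact Finset.measurable_prod _ fun i _ => by fun_prop

section meas
variable {m : ℕ} {x y : Fin m → ℂ} {hX hY : ℂ → ℂ} (mX : Measurable hX) (mY : Measurable hY)
  (p q : ℂ) (n n' : ℕ)
include mX mY

theorem m_I0 : Measurable (Function.uncurry (I0 α β p q x y hX hY n n')) := by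
  have a1 : Measurable fun s : ℂ × ℂ => Dk (s.1 - s.2) := m_Dk.comp (by fun_prop)
  have a2 : Measurable fun s : ℂ × ℂ => pr1 p q x y s.1 := (m_pr1 p q x y).comp measurable_fst
  have a3 : Measurable fun s : ℂ × ℂ => pr1 q p y x s.2 := (m_pr1 q p y x).comp measurable_snd
  have gX : Measurable (Function.uncurry fun (s : ℂ × ℂ) (u : ℂ) => GXs hX x s.1 s.2 u) := by
    have b1 : Measurable fun r : (ℂ × ℂ) × ℂ => Gr0 hX x r.2 := (Gr0_meas mX x).comp measurable_snd
    have b2 : Measurable fun r : (ℂ × ℂ) × ℂ => Ck (r.1.1 - r.2) := m_Ck.comp (by fun_prop)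
    have b3 : Measurable fun r : (ℂ × ℂ) × ℂ => Dk (r.1.2 - r.2) := m_Dk.comp (by fun_prop)
    exact b1.mul (b2.mul b3)
  have gY : Measurable (Function.uncurry fun (s : ℂ × ℂ) (u : ℂ) => GYs hY y s.1 s.2 u) := by
    have b1 : Measurable fun r : (ℂ × ℂ) × ℂ => Gr0 hY y r.2 := (Gr0_meas mY y).comp measurable_snd
    have b2 : Measurable fun r : (ℂ × ℂ) × ℂ => Dk (r.1.1 - r.2) := m_Dk.comp (by fun_prop)
    have b3 : Measurable fun r : (ℂ × ℂ) × ℂ => Ck (r.1.2 - r.2) := m_Ck.comp (by fun_prop)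
    exact b1.mul (b2.mul b3)
  exact (a1.mul (a2.mul a3)).mul (Z3_meas α β n n' gX gY)

theorem m_ZP : Measurable (Function.uncurry (ZP α β x y hX hY n n')) := by
  have e : Function.uncurry (ZP α β x y hX hY n n') = fun s : ℂ × ℂ =>
      ZP α β x y hX hY n n' s.1 s.2 := rfl
  rw [e]
  unfold ZP
  split_ifs
  · refine Z3_meas (S := ℂ × ℂ) α β n (n' - 1) ?_ ?_
    · have b1 : Measurable fun r : (ℂ × ℂ) × ℂ => Gr0 hX x r.2 :=
        (Gr0_meas mX x).comp measurable_snd
      have b2 : Measurable fun r : (ℂ × ℂ) × ℂ => Ck (r.1.1 - r.2) := m_Ck.comp (by fun_prop)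
      have b3 : Measurable fun r : (ℂ × ℂ) × ℂ => Dk (r.1.2 - r.2) := m_Dk.comp (by fun_prop)
      have b4 : Measurable fun r : (ℂ × ℂ) × ℂ => qg (r.2 - (r.1.1 + 3 * l)) :=
        m_qg.comp (by fun_prop)
      exact (b1.mul (b2.mul b3)).mul b4
    · have b1 : Measurable fun r : (ℂ × ℂ) × ℂ => Gr0 hY y r.2 :=
        (Gr0_meas mY y).comp measurable_snd
      have b2 : Measurable fun r : (ℂ × ℂ) × ℂ => Ck (r.1.2 - r.2) := m_Ck.comp (by fun_prop)
      have b3 : Measurable fun r : (ℂ × ℂ) × ℂ => Ck (r.2 - (r.1.1 + 3 * l)) :=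
        m_Ck.comp (by fun_prop)
      exact (b1.mul b2).mul b3
  · exact measurable_const

theorem m_ZP' : Measurable (Function.uncurry (ZP' α β x y hX hY n n')) := by
  have e : Function.uncurry (ZP' α β x y hX hY n n') = fun s : ℂ × ℂ =>
      ZP' α β x y hX hY n n' s.1 s.2 := rfl
  rw [e]
  unfold ZP'
  split_ifs
  · refine Z3_meas (S := ℂ × ℂ) α β (n - 1) n' ?_ ?_
    · have b1 : Measurable fun r : (ℂ × ℂ) × ℂ => Gr0 hX x r.2 :=
        (Gr0_meas mX x).comp measurable_snd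
      have b2 : Measurable fun r : (ℂ × ℂ) × ℂ => Ck (r.1.1 - r.2) := m_Ck.comp (by fun_prop)
      have b3 : Measurable fun r : (ℂ × ℂ) × ℂ => Ck (r.2 - (r.1.2 + 3 * l)) :=
        m_Ck.comp (by fun_prop)
      exact (b1.mul b2).mul b3
    · have b1 : Measurable fun r : (ℂ × ℂ) × ℂ => Gr0 hY y r.2 :=
        (Gr0_meas mY y).comp measurable_snd
      have b2 : Measurable fun r : (ℂ × ℂ) × ℂ => Dk (r.1.1 - r.2) := m_Dk.comp (by fun_prop)
      have b3 : Measurable fun r : (ℂ × ℂ) × ℂ => Ck (r.1.2 - r.2) := m_Ck.comp (by fun_prop)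
      have b4 : Measurable fun r : (ℂ × ℂ) × ℂ => qg (r.2 - (r.1.2 + 3 * l)) :=
        m_qg.comp (by fun_prop)
      exact (b1.mul (b2.mul b3)).mul b4
  · exact measurable_const

theorem m_ZPP : Measurable (Function.uncurry (ZPP α β x y hX hY n n')) := by
  have e : Function.uncurry (ZPP α β x y hX hY n n') = fun s : ℂ × ℂ =>
      ZPP α β x y hX hY n n' s.1 s.2 := rfl
  rw [e]
  unfold ZPP
  split_ifs
  · refine Z3_meas (S := ℂ × ℂ) α β (n - 1) (n' - 1) ?_ ?_
    · have b1 : Measurable fun r : (ℂ × ℂ) × ℂ => Gr0 hX x r.2 :=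
        (Gr0_meas mX x).comp measurable_snd
      have b2 : Measurable fun r : (ℂ × ℂ) × ℂ => Ck (r.1.1 - r.2) := m_Ck.comp (by fun_prop)
      have b3 : Measurable fun r : (ℂ × ℂ) × ℂ => Ck (r.2 - (r.1.2 + 3 * l)) :=
        m_Ck.comp (by fun_prop)
      have b4 : Measurable fun r : (ℂ × ℂ) × ℂ => qg (r.2 - (r.1.1 + 3 * l)) :=
        m_qg.comp (by fun_prop)
      exact ((b1.mul b2).mul b4).mul b3
    · have b1 : Measurable fun r : (ℂ × ℂ) × ℂ => Gr0 hY y r.2 :=
        (Gr0_meas mY y).comp measurable_snd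
      have b2 : Measurable fun r : (ℂ × ℂ) × ℂ => Ck (r.1.2 - r.2) := m_Ck.comp (by fun_prop)
      have b3 : Measurable fun r : (ℂ × ℂ) × ℂ => Ck (r.2 - (r.1.1 + 3 * l)) :=
        m_Ck.comp (by fun_prop)
      have b4 : Measurable fun r : (ℂ × ℂ) × ℂ => qg (r.2 - (r.1.2 + 3 * l)) :=
        m_qg.comp (by fun_prop)
      exact ((b1.mul b2).mul b3).mul b4
  · exact measurable_const

theorem m_IP : Measurable (Function.uncurry (IP α β p q x y hX hY n n')) := by
  have a1 : Measurable fun s : ℂ × ℂ => Dk (s.1 - s.2) := m_Dk.comp (by fun_prop)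
  have a2 : Measurable fun s : ℂ × ℂ => Ck (s.2 - (s.1 + 3 * l)) := m_Ck.comp (by fun_prop)
  have a3 : Measurable fun s : ℂ × ℂ => prc p q x s.1 := (m_prc p q x).comp measurable_fst
  have a4 : Measurable fun s : ℂ × ℂ => hY (s.1 + 3 * l) := mY.comp (by fun_prop)
  have a5 : Measurable fun s : ℂ × ℂ => pr1 q p y x s.2 := (m_pr1 q p y x).comp measurable_snd
  exact (measurable_const.mul ((a1.mul a2).mul ((a3.mul a4).mul a5))).mul (m_ZP mX mY n n')

theorem m_IP' : Measurable (Function.uncurry (IP' α β p q x y hX hY n n')) := by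
  have a1 : Measurable fun s : ℂ × ℂ => Dk (s.1 - s.2) := m_Dk.comp (by fun_prop)
  have a2 : Measurable fun s : ℂ × ℂ => Ck (s.1 - (s.2 + 3 * l)) := m_Ck.comp (by fun_prop)
  have a3 : Measurable fun s : ℂ × ℂ => prc q p y s.2 := (m_prc q p y).comp measurable_snd
  have a4 : Measurable fun s : ℂ × ℂ => hX (s.2 + 3 * l) := mX.comp (by fun_prop)
  have a5 : Measurable fun s : ℂ × ℂ => pr1 p q x y s.1 := (m_pr1 p q x y).comp measurable_fst
  exact (measurable_const.mul ((a1.mul a2).mul (a5.mul (a3.mul a4)))).mul (m_ZP' mX mY n n')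

theorem m_IPP : Measurable (Function.uncurry (IPP α β p q x y hX hY n n')) := by
  have a1 : Measurable fun s : ℂ × ℂ => Dk (s.1 - s.2) := m_Dk.comp (by fun_prop)
  have a2 : Measurable fun s : ℂ × ℂ => Ck (s.2 - (s.1 + 3 * l)) := m_Ck.comp (by fun_prop)
  have a2' : Measurable fun s : ℂ × ℂ => Ck (s.1 - (s.2 + 3 * l)) := m_Ck.comp (by fun_prop)
  have a3 : Measurable fun s : ℂ × ℂ => prc p q x s.1 := (m_prc p q x).comp measurable_fst
  have a4 : Measurable fun s : ℂ × ℂ => hY (s.1 + 3 * l) := mY.comp (by fun_prop)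
  have a3' : Measurable fun s : ℂ × ℂ => prc q p y s.2 := (m_prc q p y).comp measurable_snd
  have a4' : Measurable fun s : ℂ × ℂ => hX (s.2 + 3 * l) := mX.comp (by fun_prop)
  have a6 : Measurable fun s : ℂ × ℂ => qg (s.1 - s.2) := m_qg.comp (by fun_prop)
  exact (measurable_const.mul ((((a1.mul a2).mul a2').mul a6).mul
    ((a3.mul a4).mul (a3'.mul a4')))).mul (m_ZPP mX mY n n')

theorem m_ID : Measurable (ID α β p q x y hX hY n n') := by
  refine (m_XD p q y).mul ?_
  refine Z3_meas (S := ℂ) α β n n' (GX := fun _ => Gr0 hX x)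
    (GY := fun w' v => Gr0 hY y v * Tk (w' - v)) ?_ ?_
  · exact (Gr0_meas mX x).comp measurable_snd
  · have b1 : Measurable fun r : ℂ × ℂ => Gr0 hY y r.2 := (Gr0_meas mY y).comp measurable_snd
    have b2 : Measurable fun r : ℂ × ℂ => Tk (r.1 - r.2) := m_Tk.comp (by fun_prop)
    exact b1.mul b2

theorem m_ID' : Measurable (ID' α β p q x y hX hY n n') := by
  refine (m_XD q p x).mul ?_
  refine Z3_meas (S := ℂ) α β n n' (GX := fun w u => Gr0 hX x u * Tk (w - u))
    (GY := fun _ => Gr0 hY y) ?_ ?_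
  · have b1 : Measurable fun r : ℂ × ℂ => Gr0 hX x r.2 := (Gr0_meas mX x).comp measurable_snd
    have b2 : Measurable fun r : ℂ × ℂ => Tk (r.1 - r.2) := m_Tk.comp (by fun_prop)
    exact b1.mul b2
  · exact (Gr0_meas mY y).comp measurable_snd

end meas

end NUP1.N

end
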