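import Pool.Agent.NUP1L.Mark4

/-!
# The double residue of the half quanta summed over the states; spectators
-/

set_option autoImplicit false
set_option linter.unusedSectionVars false

noncomputable section

open Complex MeasureTheory Finset

namespace NUP1.Leg

variable {m M : ℕ} {α β σ τ : ℝ}
variable {p q : ℂ} {x : Fin m → ℂ} {y : Fin M → ℂ} {a : Fin m → SignType} {b : Fin M → SignType}

/-! ### finite sums of states -/

/-- weighted sum over states -/
def SSg (p q : ℂ) (x : Fin m → ℂ) (y : Fin M → ℂ)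
    (S : Finset ((Fin m → SignType) × (Fin M → SignType)))
    (W : (Fin m → SignType) × (Fin M → SignType) → ℂ) (w w' : ℂ) : ℂ :=
  ∑ c ∈ S, W c * Phi p q x y c.1 c.2 w w'

variable {S : Finset ((Fin m → SignType) × (Fin M → SignType))}
  {W : (Fin m → SignType) × (Fin M → SignType) → ℂ}

theorem SSg_inner (hD : ∀ c ∈ S, Dat p q x y c.1 c.2) (hs : Gl σ) (ht : Gl τ)
    (h1 : |σ - τ| < 5 * l) (h2 : |σ - τ| ≠ 3 * l) (w : ℂ) (hw : w.re = σ) :
    Integrable fun t : ℝ => SSg p q x y S W w (vl τ t) := by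
  unfold SSg
  exact integrable_finsetSum S fun c hc => ((hD c hc).inner hs ht h1 h2 w hw).const_mul _

theorem LI_SSg (hD : ∀ c ∈ S, Dat p q x y c.1 c.2) (hs : Gl σ) (ht : Gl τ)
    (h1 : |σ - τ| < 5 * l) (h2 : |σ - τ| ≠ 3 * l) (w : ℂ) (hw : w.re = σ) :
    LI τ (SSg p q x y S W w) = ∑ c ∈ S, W c * LI τ (Phi p q x y c.1 c.2 w) := by
  unfold SSg
  rw [LI_sum S fun c hc => ((hD c hc).inner hs ht h1 h2 w hw).const_mul _]
  exact Finset.sum_congr rfl fun c _ => LI_cmul _ _

theorem SSg_outer (hD : ∀ c ∈ S, Dat p q x y c.1 c.2) (hs : Gl σ) (ht : Gl τ)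
    (h1 : |σ - τ| < 5 * l) (h2 : |σ - τ| ≠ 3 * l) :
    Integrable fun t : ℝ => LI τ (SSg p q x y S W (vl σ t)) := by
  have e : (fun t : ℝ => LI τ (SSg p q x y S W (vl σ t))) =
      fun t : ℝ => ∑ c ∈ S, W c * LI τ (Phi p q x y c.1 c.2 (vl σ t)) :=
    funext fun t => LI_SSg hD hs ht h1 h2 _ (vlre _ _)
  rw [e]
  exact integrable_finsetSum S fun c hc => ((hD c hc).outer hs ht h1 h2).const_mul _

/-- the captured pair on a line -/
theorem Dat.capt_int (D : Dat p q x y a b) (hβ1 : -(9 / 2 * l) < β) (hβ2 : β < -(3 / 2 * l)) :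
    Integrable fun t : ℝ => Psi p q x y a b (vl β t + 3 * l) (vl β t) := by
  have hd : ∀ z : ℂ, z.re = β → DifferentiableAt ℂ (Xc p q y b) z :=
    fun z hz => Xc_diff b D.hp D.hq D.hy (by rw [hz]; exact hβ1) (by rw [hz]; exact hβ2)
  obtain ⟨C, hC, hb⟩ := bd_vl (σ := β) (κ := 2) _ hd (gr_Xc p q y b)
  have i1 : Integrable fun t : ℝ => Xc p q y b (vl β t) :=
    ((integrable_exp_neg_abs two_pos).const_mul C).mono' (cont_vl _ hd).aestronglyMeasurable
      (Filter.Eventually.of_forall hb)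
  refine i1.congr ?_
  have h := ((Set.finite_range fun i => (x i).im).insert q.im |>.insert p.im).countable.ae_notMem
    (volume : Measure ℝ)
  filter_upwards [h] with t ht
  simp only [Set.mem_insert_iff, Set.mem_range, not_or, not_exists] at ht
  symm
  refine Psi_capt p q x y a b ?_ ?_ fun i => ?_
  · rw [vlim]; exact ht.1
  · rw [vlim]; exact ht.2.1
  · rw [vlim]; exact fun h => ht.2.2 i h.symm

theorem Dat.capt_int' (D : Dat p q x y a b) (hβ1 : -(9 / 2 * l) < β) (hβ2 : β < -(3 / 2 * l)) :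
    Integrable fun t : ℝ => Psi p q x y a b (vl β t) (vl β t + 3 * l) := by
  simp_rw [Psi_symm p q x y a b]
  exact D.symm.capt_int hβ1 hβ2

/-- **mark2 summed over the states** -/
theorem leg_sum (hD : ∀ c ∈ S, Dat p q x y c.1 c.2) (hα1 : 1 / 2 * l < α) (hα2 : α < 3 / 2 * l)
    (hβ1 : -(9 / 2 * l) < β) (hβ2 : β < -(3 / 2 * l)) (h3 : 3 * l < α - β)
    (h5 : α - β < 5 * l) :
    ∑ c ∈ S, W c * (∑ μ, ∑ ν, mkw p q x c.1 y c.2 μ * mkw q p y c.2 x c.1 ν *
        Dk (mkp p x c.1 μ - mkp q y c.2 ν)) =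
      LI α (fun w => LI α (SSg p q x y S W w) - LI β (SSg p q x y S W w)) -
        LI β (fun w => LI α (SSg p q x y S W w) - LI β (SSg p q x y S W w)) -
      sin l / sin (2 * l) *
        (LI β (fun z => ∑ c ∈ S, W c * Psi p q x y c.1 c.2 (z + 3 * l) z) +
          LI β (fun z => ∑ c ∈ S, W c * Psi p q x y c.1 c.2 z (z + 3 * l))) := by
  have hl := lpos
  have gα : Gl α := ⟨by linarith, hα2, Or.inr hα1⟩
  have gβ : Gl β := ⟨hβ1, by linarith, Or.inl hβ2⟩
  have a0 : ∀ s : ℝ, |s - s| < 5 * l ∧ |s - s| ≠ 3 * l := fun s => by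
    rw [sub_self, abs_zero]
    constructor
    · positivity
    · exact (by positivity : (0 : ℝ) < 3 * l).ne
  have aαβ : |α - β| < 5 * l ∧ |α - β| ≠ 3 * l := by
    rw [abs_of_pos (by linarith)]
    exact ⟨h5, h3.ne'⟩
  have aβα : |β - α| < 5 * l ∧ |β - α| ≠ 3 * l := by rwa [abs_sub_comm]
  have hm : ∀ c ∈ S, W c * (∑ μ, ∑ ν, mkw p q x c.1 y c.2 μ * mkw q p y c.2 x c.1 ν *
        Dk (mkp p x c.1 μ - mkp q y c.2 ν)) =
      W c * (LI α (fun w => LI α (Phi p q x y c.1 c.2 w) - LI β (Phi p q x y c.1 c.2 w))) -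
        W c * (LI β (fun w => LI α (Phi p q x y c.1 c.2 w) - LI β (Phi p q x y c.1 c.2 w))) -
      sin l / sin (2 * l) * (W c * LI β (fun z => Psi p q x y c.1 c.2 (z + 3 * l) z) +
        W c * LI β (fun z => Psi p q x y c.1 c.2 z (z + 3 * l))) := by
    intro c hc
    rw [mark2 (hD c hc) hα1 hα2 hβ1 hβ2 h3 h5]
    ring
  rw [Finset.sum_congr rfl hm, Finset.sum_sub_distrib, Finset.sum_sub_distrib, ← Finset.mul_sum,
    Finset.sum_add_distrib]
  have key : ∀ {s t : ℝ}, Gl s → Gl α → Gl β → (|s - α| < 5 * l ∧ |s - α| ≠ 3 * l) →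
      (|s - β| < 5 * l ∧ |s - β| ≠ 3 * l) →
      LI s (fun w => LI α (SSg p q x y S W w) - LI β (SSg p q x y S W w)) =
      ∑ c ∈ S, W c * LI s (fun w => LI α (Phi p q x y c.1 c.2 w) -
        LI β (Phi p q x y c.1 c.2 w)) := by
    intro s t gs gα gβ h1 h2
    have e1 : ∀ u : ℝ, LI α (SSg p q x y S W (vl s u)) - LI β (SSg p q x y S W (vl s u)) =
        ∑ c ∈ S, W c * (LI α (Phi p q x y c.1 c.2 (vl s u)) -
          LI β (Phi p q x y c.1 c.2 (vl s u))) := by
      intro u
      rw [LI_SSg hD gs gα h1.1 h1.2 _ (vlre _ _), LI_SSg hD gs gβ h2.1 h2.2 _ (vlre _ _),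
        ← Finset.sum_sub_distrib]
      exact Finset.sum_congr rfl fun c _ => by ring
    rw [LI_congr (f := fun w => LI α (SSg p q x y S W w) - LI β (SSg p q x y S W w))
      (g := fun w => ∑ c ∈ S, W c * (LI α (Phi p q x y c.1 c.2 w) -
        LI β (Phi p q x y c.1 c.2 w))) e1]
    rw [LI_sum S fun c hc => (((hD c hc).outer gs gα h1.1 h1.2).sub
      ((hD c hc).outer gs gβ h2.1 h2.2)).const_mul _]
    exact Finset.sum_congr rfl fun c _ => LI_cmul _ _
  rw [key (t := 0) gα gα gβ (a0 α) aαβ, key (t := 0) gβ gα gβ aβα (a0 β)]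
  have e2 : LI β (fun z => ∑ c ∈ S, W c * Psi p q x y c.1 c.2 (z + 3 * l) z) =
      ∑ c ∈ S, W c * LI β (fun z => Psi p q x y c.1 c.2 (z + 3 * l) z) := by
    rw [LI_sum S fun c hc => ((hD c hc).capt_int hβ1 hβ2).const_mul _]
    exact Finset.sum_congr rfl fun c _ => LI_cmul _ _
  have e3 : LI β (fun z => ∑ c ∈ S, W c * Psi p q x y c.1 c.2 z (z + 3 * l)) =
      ∑ c ∈ S, W c * LI β (fun z => Psi p q x y c.1 c.2 z (z + 3 * l)) := by
    rw [LI_sum S fun c hc => ((hD c hc).capt_int' hβ1 hβ2).const_mul _]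
    exact Finset.sum_congr rfl fun c _ => LI_cmul _ _
  rw [e2, e3]

/-! ### spectators -/

theorem sin_shift3 (z : ℂ) : sin (z + 5 * l) = sin (3 * l - z) := by
  rw [← sin_shift8 (3 * l - z)]
  congr 1
  ring

theorem cos_add1 (z : ℂ) : cos (z + l) = sin (3 * l - z) := by
  rw [← sin_add4, ← sin_shift3]
  congr 1
  ring

/-- a row and its quanta, own species -/
theorem Pw_spec (s : SignType) {w z : ℂ} (h : w.im ≠ z.im) : Pw s (w - z) =
    1 / sin (w - z) * ((qu s z).map fun u => Ck (w - u)).prod := by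
  have hi : (w - z).im ≠ 0 := by rw [sub_im]; exact sub_ne_zero.2 h
  have n0 : sin (w - z) ≠ 0 := sin_ne_im hi
  have n1 : sin (w - z + l) ≠ 0 := sin_ne_im (by simpa using hi)
  have n2 : sin (w - z + 2 * l) ≠ 0 := sin_ne_im (by simpa using hi)
  have e1 : w - (z - (l : ℂ)) = w - z + l := by ring
  cases s
  · show sin (w - z + 2 * l) / sin (w - z + l) = _
    simp only [qu, List.map_cons, List.map_nil, List.prod_cons, List.prod_nil, Ck]
    field_simp
  · show sin (w - z + 3 * l) = _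
    simp only [qu, List.map_cons, List.map_nil, List.prod_cons, List.prod_nil, Ck, e1]
    rw [show w - z + (l : ℂ) + 2 * l = w - z + 3 * l by ring,
      show w - z + (l : ℂ) + l = w - z + 2 * l by ring]
    generalize sin (w - z + 2 * l) = s2 at *
    field_simp
  · show 1 / sin (w - z) = _
    simp [qu]

/-- a row and its quanta, other species -/
theorem Rw_spec (s : SignType) {w z : ℂ} (h : w.im ≠ z.im) : Rw s (w - z) =
    sin (w - z + 3 * l) * ((qu s z).map fun u => Dk (w - u)).prod := by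
  have hi : (w - z).im ≠ 0 := by rw [sub_im]; exact sub_ne_zero.2 h
  have n3 : sin (w - z + 3 * l) ≠ 0 := sin_ne_im (by simpa using hi)
  have n3' : sin (3 * l - (w - z)) ≠ 0 := sin_ne_im (by simpa using (neg_ne_zero.2 hi))
  have n2 : sin (2 * l - (w - z)) ≠ 0 := sin_ne_im (by simpa using (neg_ne_zero.2 hi))
  have n4 : cos (w - z) ≠ 0 := by
    rw [← sin_add4]
    exact sin_ne_im (by simpa using hi)
  have d0 : Dk (w - z) = cos (w - z) / (sin (3 * l - (w - z)) * sin (w - z + 3 * l)) := by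
    unfold Dk
    rw [add_comm (3 * (l : ℂ)) (w - z)]
  have d1 : Dk (w - (z - l)) = sin (3 * l - (w - z)) / (sin (2 * l - (w - z)) * cos (w - z)) := by
    unfold Dk
    rw [show w - (z - (l : ℂ)) = w - z + l by ring, cos_add1,
      show 3 * (l : ℂ) - (w - z + l) = 2 * l - (w - z) by ring,
      show 3 * (l : ℂ) + (w - z + l) = w - z + 4 * l by ring, sin_add4]
  cases s
  · show cos (w - z) / sin (3 * l - (w - z)) = _
    simp only [qu, List.map_cons, List.map_nil, List.prod_cons, List.prod_nil, d0]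
    field_simp
  · show 1 / sin (2 * l - (w - z)) = _
    simp only [qu, List.map_cons, List.map_nil, List.prod_cons, List.prod_nil, d0, d1]
    generalize sin (w - z + 3 * l) = s3 at *
    generalize sin (3 * l - (w - z)) = s3' at *
    generalize sin (2 * l - (w - z)) = s2 at *
    field_simp
  · show sin (w - z + 3 * l) = _
    simp [qu]

/-- prefactor of the half quanta -/
def cf (p q : ℂ) (x : Fin m → ℂ) (y : Fin M → ℂ) (w w' : ℂ) : ℂ :=
  kap (w - p) * kap (w' - q) * sin (w - q + 3 * l) * sin (w' - p + 3 * l) *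
    (∏ i, (1 / sin (w - x i) * sin (w' - x i + 3 * l))) *
    ∏ j, (sin (w - y j + 3 * l) * (1 / sin (w' - y j)))

theorem prod_map_mul (U : List ℂ) (f g : ℂ → ℂ) :
    (U.map fun u => f u * g u).prod = (U.map f).prod * (U.map g).prod := by
  induction U with
  | nil => simp
  | cons u U ih =>
    simp only [List.map_cons, List.prod_cons, ih]
    ring

/-- **spectator form of `Psi`** -/
theorem Psi_spec (p q : ℂ) {x : Fin m → ℂ} {y : Fin M → ℂ} (a : Fin m → SignType)
    (b : Fin M → SignType) {w w' : ℂ} (hwx : ∀ i, w.im ≠ (x i).im) (hwy : ∀ j, w.im ≠ (y j).im)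
    (hwx' : ∀ i, w'.im ≠ (x i).im) (hwy' : ∀ j, w'.im ≠ (y j).im) :
    Psi p q x y a b w w' = cf p q x y w w' *
      (((Us x a).map fun u => Ck (w - u) * Dk (w' - u)).prod *
        ((Us y b).map fun v => Dk (w - v) * Ck (w' - v)).prod) := by
  have e1 : ∏ i, (Pw (a i) (w - x i) * Rw (a i) (w' - x i)) =
      (∏ i, (1 / sin (w - x i) * sin (w' - x i + 3 * l))) *
        ((Us x a).map fun u => Ck (w - u) * Dk (w' - u)).prod := by
    rw [Us_prod, ← Finset.prod_mul_distrib]
    refine Finset.prod_congr rfl fun i _ => ?_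
    rw [Pw_spec _ (hwx i), Rw_spec _ (hwx' i), prod_map_mul]
    ring
  have e2 : ∏ j, (Rw (b j) (w - y j) * Pw (b j) (w' - y j)) =
      (∏ j, (sin (w - y j + 3 * l) * (1 / sin (w' - y j)))) *
        ((Us y b).map fun v => Dk (w - v) * Ck (w' - v)).prod := by
    rw [Us_prod, ← Finset.prod_mul_distrib]
    refine Finset.prod_congr rfl fun j _ => ?_
    rw [Pw_spec _ (hwy' j), Rw_spec _ (hwy j), prod_map_mul]
    ring
  unfold Psi cf
  rw [e1, e2]
  ring

/-- **`Psi` against the weights of the states** -/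
theorem sta_Psi (p q : ℂ) {x : Fin m → ℂ} {y : Fin M → ℂ} (hX hY : ℂ → ℂ) (a : Fin m → SignType)
    (b : Fin M → SignType) {w w' : ℂ} (hwx : ∀ i, w.im ≠ (x i).im) (hwy : ∀ j, w.im ≠ (y j).im)
    (hwx' : ∀ i, w'.im ≠ (x i).im) (hwy' : ∀ j, w'.im ≠ (y j).im) :
    sta x hX a * sta y hY b * crq x y a b * Psi p q x y a b w w' = cf p q x y w w' *
      (sta x (fun u => hX u * (Ck (w - u) * Dk (w' - u))) a *
        sta y (fun v => hY v * (Dk (w - v) * Ck (w' - v))) b * crq x y a b) := by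
  rw [sta_mul, sta_mul, Psi_spec p q a b hwx hwy hwx' hwy', Us_prod, Us_prod]
  ring

/-! ### the captured pair -/

/-- captured pair and quantum of the species of the second half quantum -/
def Tk (z : ℂ) : ℂ := sin (z - l) * sin (z + 2 * l) / (sin (2 * l - z) * sin (z + l))

/-- prefactor of the captured pair -/
def X0 (p q : ℂ) (y : Fin M → ℂ) (z : ℂ) : ℂ :=
  -sin (2 * l) ^ 2 / (sin (z - p + l) * sin (z - q)) * ∏ j, (sin (2 * l - (z - y j)) / sin (z - y j))

theorem Ty_spec (s : SignType) {w z : ℂ} (h : w.im ≠ z.im) : Ty s (w - z) =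
    sin (2 * l - (w - z)) / sin (w - z) * ((qu s z).map fun u => Tk (w - u)).prod := by
  have hi : (w - z).im ≠ 0 := by rw [sub_im]; exact sub_ne_zero.2 h
  have n0 : sin (w - z) ≠ 0 := sin_ne_im hi
  have n1 : sin (w - z + l) ≠ 0 := sin_ne_im (by simpa using hi)
  have n2 : sin (w - z + 2 * l) ≠ 0 := sin_ne_im (by simpa using hi)
  have n2' : sin (2 * l - (w - z)) ≠ 0 := sin_ne_im (by simpa using (neg_ne_zero.2 hi))
  have nm1 : sin (w - z - l) ≠ 0 := sin_ne_im (by simpa using hi)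
  have e1 : w - (z - (l : ℂ)) = w - z + l := by ring
  have e2 : sin (w - z - 2 * l) = -sin (2 * l - (w - z)) := by
    rw [← Complex.sin_neg]
    congr 1
    ring
  have e3 : sin (2 * l - (w - z + l)) = -sin (w - z - l) := by
    rw [← Complex.sin_neg]
    congr 1
    ring
  cases s
  · show sin (w - z - l) * sin (w - z + 2 * l) / (sin (w - z) * sin (w - z + l)) = _
    simp only [qu, List.map_cons, List.map_nil, List.prod_cons, List.prod_nil, Tk]
    generalize sin (2 * l - (w - z)) = s2' at *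
    field_simp
  · show -sin (w - z + 3 * l) / sin (w - z + l) = _
    simp only [qu, List.map_cons, List.map_nil, List.prod_cons, List.prod_nil, Tk, e1, e3]
    rw [show w - z + (l : ℂ) - l = w - z by ring, show w - z + (l : ℂ) + 2 * l = w - z + 3 * l by ring,
      show w - z + (l : ℂ) + l = w - z + 2 * l by ring]
    generalize sin (2 * l - (w - z)) = s2' at *
    generalize sin (w - z + 2 * l) = s2 at *
    field_simp
  · show -sin (w - z - 2 * l) / sin (w - z) = _
    rw [e2]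
    simp [qu]

theorem Xc_spec (p q : ℂ) {y : Fin M → ℂ} (b : Fin M → SignType) {z : ℂ}
    (hy : ∀ j, z.im ≠ (y j).im) :
    Xc p q y b z = X0 p q y z * ((Us y b).map fun v => Tk (z - v)).prod := by
  unfold Xc X0
  rw [Us_prod, mul_assoc, ← Finset.prod_mul_distrib]
  congr 1
  exact Finset.prod_congr rfl fun j _ => Ty_spec _ (hy j)

/-- **the captured pair `(z + 3 l, z)` against the weights of the states** -/
theorem sta_capt (p q : ℂ) {x : Fin m → ℂ} {y : Fin M → ℂ} (hX hY : ℂ → ℂ)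
    (a : Fin m → SignType) (b : Fin M → SignType) {z : ℂ} (hp : z.im ≠ p.im) (hq : z.im ≠ q.im)
    (hx : ∀ i, z.im ≠ (x i).im) (hy : ∀ j, z.im ≠ (y j).im) :
    sta x hX a * sta y hY b * crq x y a b * Psi p q x y a b (z + 3 * l) z = X0 p q y z *
      (sta x hX a * sta y (fun v => hY v * Tk (z - v)) b * crq x y a b) := by
  rw [Psi_capt p q x y a b hp hq hx, Xc_spec p q b hy, sta_mul, Us_prod]
  ring

/-- **the captured pair `(z, z + 3 l)` against the weights of the states** -/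
theorem sta_capt' (p q : ℂ) {x : Fin m → ℂ} {y : Fin M → ℂ} (hX hY : ℂ → ℂ)
    (a : Fin m → SignType) (b : Fin M → SignType) {z : ℂ} (hp : z.im ≠ p.im) (hq : z.im ≠ q.im)
    (hx : ∀ i, z.im ≠ (x i).im) (hy : ∀ j, z.im ≠ (y j).im) :
    sta x hX a * sta y hY b * crq x y a b * Psi p q x y a b z (z + 3 * l) = X0 q p x z *
      (sta x (fun u => hX u * Tk (z - u)) a * sta y hY b * crq x y a b) := by
  rw [Psi_symm, Psi_capt q p y x b a hq hp hy, Xc_spec q p a hx, sta_mul, Us_prod]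
  ring

end NUP1.Leg

end
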