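import Pool.Agent.NUP1L.Link6
import Pool.Agent.NUP1L.LegSum

/-!
# The two-point function `RE` as contour integrals over the half quanta of sums over the states
-/

set_option autoImplicit false
set_option linter.unusedSectionVars false

noncomputable section

open Complex MeasureTheory Finset

namespace NUP1.Leg

open NUTP (th ea)
open NUTP.Gas (gasF)

variable {m M : ℕ} {α β : ℝ}

/-- all heights distinct (`h`, `g` = ends with half quanta, `p`, `q` = the other ends) -/
structure Ht (p h q g : ℂ) (x : Fin m → ℂ) (y : Fin M → ℂ) : Prop where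
  xx : ∀ i j, i ≠ j → (x i).im ≠ (x j).im
  yy : ∀ i j, i ≠ j → (y i).im ≠ (y j).im
  xy : ∀ i j, (x i).im ≠ (y j).im
  hx : ∀ i, h.im ≠ (x i).im
  hy : ∀ j, h.im ≠ (y j).im
  gx : ∀ i, g.im ≠ (x i).im
  gy : ∀ j, g.im ≠ (y j).im
  hg : h.im ≠ g.im
  qx : ∀ i, q.im ≠ (x i).im
  py : ∀ j, p.im ≠ (y j).im

/-- real parts -/
structure Rp (h g : ℂ) (x : Fin m → ℂ) (y : Fin M → ℂ) : Prop where
  h : |h.re| ≤ l / 2
  g : |g.re| ≤ l / 2
  x : ∀ i, |(x i).re| ≤ l / 2
  y : ∀ j, |(y j).re| ≤ l / 2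

theorem Gz_im {z : ℂ} (h : z.im ≠ 0) : Gz z := fun k => sin_ne_im (by simpa using h)

theorem Gz_sub {z w : ℂ} (h : z.im ≠ w.im) : Gz (z - w) :=
  Gz_im (by rw [sub_im]; exact sub_ne_zero.2 h)

theorem Dat_of {p h q g : ℂ} {x : Fin m → ℂ} {y : Fin M → ℂ} (H : Ht p h q g x y)
    (R : Rp h g x y) {a : Fin m → SignType} {b : Fin M → SignType}
    (hn : ∑ i, nq (a i) + M = ∑ j, nq (b j) + m) : Dat h g x y a b :=
  Dat.of_im R.h R.g R.x R.y hn H.hx H.xx H.gy H.yy

/-- weight of a pair of states -/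
def Wst (hX hY : ℂ → ℂ) (x : Fin m → ℂ) (y : Fin M → ℂ)
    (c : (Fin m → SignType) × (Fin M → SignType)) : ℂ :=
  sta x hX c.1 * sta y hY c.2 * crq x y c.1 c.2

/-- sum over the states with half quanta at `w`, `w'` -/
def Gs (hX hY : ℂ → ℂ) (x : Fin m → ℂ) (y : Fin M → ℂ) (n n' : ℕ) (w w' : ℂ) : ℂ :=
  ∑ a ∈ St m n, ∑ b ∈ St M n', sta x (fun u => hX u * (Ck (w - u) * Dk (w' - u))) a *
    sta y (fun v => hY v * (Dk (w - v) * Ck (w' - v))) b * crq x y a b

/-- sum over the states with a captured pair `(z + 3 l, z)` -/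
def GsL (hX hY : ℂ → ℂ) (x : Fin m → ℂ) (y : Fin M → ℂ) (n n' : ℕ) (z : ℂ) : ℂ :=
  ∑ a ∈ St m n, ∑ b ∈ St M n', sta x hX a * sta y (fun v => hY v * Tk (z - v)) b * crq x y a b

/-- sum over the states with a captured pair `(z, z + 3 l)` -/
def GsR (hX hY : ℂ → ℂ) (x : Fin m → ℂ) (y : Fin M → ℂ) (n n' : ℕ) (z : ℂ) : ℂ :=
  ∑ a ∈ St m n, ∑ b ∈ St M n', sta x (fun u => hX u * Tk (z - u)) a * sta y hY b * crq x y a b

/-- the double integral over the lines of the half quanta, minus the two captured pairs -/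
def LegI (α β : ℝ) (h g : ℂ) (hX hY : ℂ → ℂ) (x : Fin m → ℂ) (y : Fin M → ℂ) (n n' : ℕ) : ℂ :=
  LI α (fun w => LI α (fun w' => Dk (w - w') * cf h g x y w w' * Gs hX hY x y n n' w w') -
      LI β (fun w' => Dk (w - w') * cf h g x y w w' * Gs hX hY x y n n' w w')) -
    LI β (fun w => LI α (fun w' => Dk (w - w') * cf h g x y w w' * Gs hX hY x y n n' w w') -
      LI β (fun w' => Dk (w - w') * cf h g x y w w' * Gs hX hY x y n n' w w')) -
    sin l / sin (2 * l) * (LI β (fun z => X0 h g y z * GsL hX hY x y n n' z) +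
      LI β (fun z => X0 g h x z * GsR hX hY x y n n' z))

theorem SSg_spec (h g : ℂ) (hX hY : ℂ → ℂ) {x : Fin m → ℂ} {y : Fin M → ℂ} (n n' : ℕ)
    {w w' : ℂ} (hwx : ∀ i, w.im ≠ (x i).im) (hwy : ∀ j, w.im ≠ (y j).im)
    (hwx' : ∀ i, w'.im ≠ (x i).im) (hwy' : ∀ j, w'.im ≠ (y j).im) :
    SSg h g x y (St m n ×ˢ St M n') (Wst hX hY x y) w w' =
      Dk (w - w') * cf h g x y w w' * Gs hX hY x y n n' w w' := by
  unfold SSg Gs Wst
  rw [Finset.sum_product, Finset.mul_sum]
  refine Finset.sum_congr rfl fun a _ => ?_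
  rw [Finset.mul_sum]
  refine Finset.sum_congr rfl fun b _ => ?_
  have := sta_Psi h g hX hY a b hwx hwy hwx' hwy'
  show sta x hX a * sta y hY b * crq x y a b * (Dk (w - w') * Psi h g x y a b w w') = _
  linear_combination (Dk (w - w')) * this

/-- almost every height is not one of finitely many -/
theorem ae_ht (h g : ℂ) (x : Fin m → ℂ) (y : Fin M → ℂ) : ∀ᵐ t : ℝ, t ≠ h.im ∧ t ≠ g.im ∧
    (∀ i, t ≠ (x i).im) ∧ ∀ j, t ≠ (y j).im := by
  have h1 := ((Set.finite_range fun i => (x i).im).insert g.im |>.insert h.im).countable.ae_notMem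
    (volume : Measure ℝ)
  have h2 := (Set.finite_range fun j => (y j).im).countable.ae_notMem (volume : Measure ℝ)
  filter_upwards [h1, h2] with t ht ht'
  simp only [Set.mem_insert_iff, Set.mem_range, not_or, not_exists] at ht ht'
  exact ⟨ht.1, ht.2.1, fun i h => ht.2.2 i h.symm, fun j h => ht' j h.symm⟩

/-- **the double residue for given numbers of quanta** -/
theorem legI_eq {p h q g : ℂ} {x : Fin m → ℂ} {y : Fin M → ℂ} (H : Ht p h q g x y)
    (R : Rp h g x y) (hX hY : ℂ → ℂ) (hα1 : 1 / 2 * l < α) (hα2 : α < 3 / 2 * l)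
    (hβ1 : -(9 / 2 * l) < β) (hβ2 : β < -(3 / 2 * l)) (h3 : 3 * l < α - β)
    (h5 : α - β < 5 * l) {n n' : ℕ} (hn : n + M = n' + m) :
    ∑ a ∈ St m n, ∑ b ∈ St M n', sta x hX a * sta y hY b * crq x y a b * MS h g x y a b =
      LegI α β h g hX hY x y n n' := by
  have hD : ∀ c ∈ St m n ×ˢ St M n', Dat h g x y c.1 c.2 := by
    intro c hc
    obtain ⟨h1, h2⟩ := Finset.mem_product.1 hc
    refine Dat_of H R ?_
    rw [(Finset.mem_filter.1 h1).2, (Finset.mem_filter.1 h2).2, hn]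
  have key := leg_sum (W := Wst hX hY x y) hD hα1 hα2 hβ1 hβ2 h3 h5
  have e0 : ∑ c ∈ St m n ×ˢ St M n', Wst hX hY x y c * (∑ μ, ∑ ν, mkw h g x c.1 y c.2 μ *
      mkw g h y c.2 x c.1 ν * Dk (mkp h x c.1 μ - mkp g y c.2 ν)) =
      ∑ a ∈ St m n, ∑ b ∈ St M n', sta x hX a * sta y hY b * crq x y a b * MS h g x y a b := by
    rw [Finset.sum_product]
    rfl
  rw [e0] at key
  rw [key]
  unfold LegI
  have hin : ∀ (s : ℝ) (w : ℂ), (∀ i, w.im ≠ (x i).im) → (∀ j, w.im ≠ (y j).im) →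
      LI s (SSg h g x y (St m n ×ˢ St M n') (Wst hX hY x y) w) =
      LI s (fun w' => Dk (w - w') * cf h g x y w w' * Gs hX hY x y n n' w w') := by
    intro s w h1 h2
    refine NUP1.LI_congr ?_
    filter_upwards [ae_ht h g x y] with t ht
    exact SSg_spec h g hX hY n n' h1 h2 (fun i => by rw [vlim]; exact ht.2.2.1 i)
      fun j => by rw [vlim]; exact ht.2.2.2 j
  have hout : ∀ s : ℝ, LI s (fun w =>
      LI α (SSg h g x y (St m n ×ˢ St M n') (Wst hX hY x y) w) -
        LI β (SSg h g x y (St m n ×ˢ St M n') (Wst hX hY x y) w)) =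
      LI s (fun w => LI α (fun w' => Dk (w - w') * cf h g x y w w' * Gs hX hY x y n n' w w') -
      LI β (fun w' => Dk (w - w') * cf h g x y w w' * Gs hX hY x y n n' w w')) := by
    intro s
    refine NUP1.LI_congr ?_
    filter_upwards [ae_ht h g x y] with t ht
    rw [hin α _ (fun i => by rw [vlim]; exact ht.2.2.1 i) fun j => by rw [vlim]; exact ht.2.2.2 j,
      hin β _ (fun i => by rw [vlim]; exact ht.2.2.1 i) fun j => by rw [vlim]; exact ht.2.2.2 j]
  rw [hout α, hout β]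
  have eL : LI β (fun z => ∑ c ∈ St m n ×ˢ St M n',
      Wst hX hY x y c * Psi h g x y c.1 c.2 (z + 3 * l) z) =
      LI β (fun z => X0 h g y z * GsL hX hY x y n n' z) := by
    refine NUP1.LI_congr ?_
    filter_upwards [ae_ht h g x y] with t ht
    rw [Finset.sum_product]
    unfold GsL Wst
    rw [Finset.mul_sum]
    refine Finset.sum_congr rfl fun a _ => ?_
    rw [Finset.mul_sum]
    refine Finset.sum_congr rfl fun b _ => ?_
    exact sta_capt h g hX hY a b (by rw [vlim]; exact ht.1) (by rw [vlim]; exact ht.2.1)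
      (fun i => by rw [vlim]; exact ht.2.2.1 i) fun j => by rw [vlim]; exact ht.2.2.2 j
  have eR : LI β (fun z => ∑ c ∈ St m n ×ˢ St M n',
      Wst hX hY x y c * Psi h g x y c.1 c.2 z (z + 3 * l)) =
      LI β (fun z => X0 g h x z * GsR hX hY x y n n' z) := by
    refine NUP1.LI_congr ?_
    filter_upwards [ae_ht h g x y] with t ht
    rw [Finset.sum_product]
    unfold GsR Wst
    rw [Finset.mul_sum]
    refine Finset.sum_congr rfl fun a _ => ?_
    rw [Finset.mul_sum]
    refine Finset.sum_congr rfl fun b _ => ?_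
    exact sta_capt' h g hX hY a b (by rw [vlim]; exact ht.1) (by rw [vlim]; exact ht.2.1)
      (fun i => by rw [vlim]; exact ht.2.2.1 i) fun j => by rw [vlim]; exact ht.2.2.2 j
  rw [eL, eR]

/-- grouping by the number of quanta -/
theorem sum_group (F : (Fin m → SignType) → (Fin M → SignType) → ℂ) (hmM : M ≤ m) :
    (∑ a : Fin m → SignType, ∑ b : Fin M → SignType,
      if ∑ i, nq (a i) + M = ∑ j, nq (b j) + m then F a b else 0) =
      ∑ n' ∈ Finset.range (2 * M + 1), ∑ a ∈ St m (n' + (m - M)), ∑ b ∈ St M n', F a b := by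
  have h2 : ∀ (k : ℕ) (c : Fin k → SignType), ∑ i, nq (c i) ≤ 2 * k := by
    intro k c
    have h2 : ∀ s : SignType, nq s ≤ 2 := by decide
    have h3 := Finset.sum_le_card_nsmul Finset.univ (fun i => nq (c i)) 2 (fun i _ => h2 _)
    simpa [mul_comm] using h3
  have e : ∀ n' : ℕ, ∑ a ∈ St m (n' + (m - M)), ∑ b ∈ St M n', F a b =
      ∑ a : Fin m → SignType, ∑ b : Fin M → SignType,
        if ∑ j, nq (b j) = n' then
          (if ∑ i, nq (a i) + M = ∑ j, nq (b j) + m then F a b else 0) else 0 := by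
    intro n'
    unfold St
    rw [Finset.sum_filter]
    refine Finset.sum_congr rfl fun a _ => ?_
    rw [Finset.sum_filter]
    by_cases ha : ∑ i, nq (a i) = n' + (m - M)
    · rw [if_pos ha]
      refine Finset.sum_congr rfl fun b _ => ?_
      by_cases hb : ∑ j, nq (b j) = n'
      · rw [if_pos hb, if_pos hb, if_pos (by omega)]
      · rw [if_neg hb, if_neg hb]
    · rw [if_neg ha]
      symm
      refine Finset.sum_eq_zero fun b _ => ?_
      by_cases hb : ∑ j, nq (b j) = n'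
      · rw [if_pos hb, if_neg (by omega)]
      · rw [if_neg hb]
  simp only [e]
  symm
  rw [Finset.sum_comm]
  refine Finset.sum_congr rfl fun a _ => ?_
  rw [Finset.sum_comm]
  refine Finset.sum_congr rfl fun b _ => ?_
  rw [Finset.sum_ite_eq, if_pos (Finset.mem_range.2 (by have := h2 M b; omega))]

/-- **The two-point function `RE` as integrals over the lines of the half quanta.** -/
theorem RE_leg {p h q g : ℂ} {x : Fin m → ℂ} {y : Fin M → ℂ} (H : Ht p h q g x y)
    (R : Rp h g x y) (hmM : M ≤ m) (hα1 : 1 / 2 * l < α) (hα2 : α < 3 / 2 * l)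
    (hβ1 : -(9 / 2 * l) < β) (hβ2 : β < -(3 / 2 * l)) (h3 : 3 * l < α - β)
    (h5 : α - β < 5 * l) :
    (gasF th 1 true (ea (-q)) (ea (-g))).RE (List.ofFn fun i => ea (-x i))
      (List.ofFn fun j => ea (-y j)) (ea (-p)) (ea (-h)) =
    sin l * (Bp h q x * Bp g p y) * ∑ n' ∈ Finset.range (2 * M + 1),
      LegI α β h g (hE (cc m) h p g q x y) (hE (cc M) g q h p y x) x y (n' + (m - M)) n' := by
  rw [RE_state (fun i j hij => Gz_sub (H.xx i j hij)) (fun i j hij => Gz_sub (H.yy i j hij))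
    (fun α β => by
      rcases α with _ | i <;> rcases β with _ | j
      · exact Gz_sub H.hg
      · exact Gz_sub (H.hy j)
      · exact Gz_sub fun h => H.gx i h.symm
      · exact Gz_sub (H.xy i j))
    (fun i => Gz_sub (H.hx i)) (fun i => Gz_sub (H.qx i)) (fun j => Gz_sub (H.gy j))
    (fun j => Gz_sub (H.py j))]
  congr 1
  rw [sum_group _ hmM]
  refine Finset.sum_congr rfl fun n' _ => ?_
  exact legI_eq H R _ _ hα1 hα2 hβ1 hβ2 h3 h5 (by omega)

end NUP1.Leg

end
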