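import Pool.Agent.NUP1.Main
import Pool.Agent.NUP1.Integ

/-!
# Double line integrals of functions with exponential decay
-/

set_option autoImplicit false
set_option linter.unusedSectionVars false

noncomputable section

open Complex MeasureTheory Filter Topology

namespace NUP1

variable {σ τ : ℝ}

/-- double line integral -/
def LL (σ τ : ℝ) (f : ℂ → ℂ → ℂ) : ℂ := LI σ fun w => LI τ (f w)

/-- decay on a pair of lines -/
def DB (σ τ C : ℝ) (f : ℂ → ℂ → ℂ) : Prop :=
  ∀ s t : ℝ, ‖f (vl σ s) (vl τ t)‖ ≤ C * (Real.exp (-|s|) * Real.exp (-|t|))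

/-- measurable with exponential decay on a pair of lines -/
def G2 (σ τ : ℝ) (f : ℂ → ℂ → ℂ) : Prop :=
  Measurable (Function.uncurry f) ∧ ∃ C : ℝ, DB σ τ C f

theorem ie : Integrable (fun t : ℝ => Real.exp (-|t|)) := by
  have := Bd.integrable_exp_neg_abs (κ := 1) one_pos
  simpa using this

theorem mvl (σ : ℝ) : Measurable (vl σ) := by
  unfold vl
  fun_prop

theorem meas_in {f : ℂ → ℂ → ℂ} (hf : Measurable (Function.uncurry f)) (w : ℂ) (τ : ℝ) :
    Measurable fun t : ℝ => f w (vl τ t) :=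
  hf.comp (measurable_const.prodMk (mvl τ))

theorem meas_out {f : ℂ → ℂ → ℂ} (hf : Measurable (Function.uncurry f)) (τ : ℝ) :
    Measurable fun w : ℂ => LI τ (f w) := by
  unfold LI
  refine Measurable.const_mul ?_ _
  have h : StronglyMeasurable (Function.uncurry fun (w : ℂ) (t : ℝ) => f w (vl τ t)) := by
    refine Measurable.stronglyMeasurable ?_
    exact hf.comp (measurable_fst.prodMk ((mvl τ).comp measurable_snd))
  exact (h.integral_prod_right' (ν := (volume : Measure ℝ))).measurable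

theorem norm_c : ‖((2 * Real.pi : ℂ))⁻¹‖ ≤ 1 := by
  rw [norm_inv, show (2 * Real.pi : ℂ) = ((2 * Real.pi : ℝ) : ℂ) by push_cast; rfl,
    Complex.norm_real, Real.norm_eq_abs, abs_of_pos (by positivity)]
  refine inv_le_one_of_one_le₀ ?_
  have := Real.pi_gt_three
  linarith

/-- value of `∫ exp (-|t|)` -/
def c0 : ℝ := ∫ t : ℝ, Real.exp (-|t|)

theorem c0_nonneg : 0 ≤ c0 := integral_nonneg fun t => (Real.exp_pos _).le

theorem LI_bound {f : ℂ → ℂ} {C : ℝ} (h : ∀ t : ℝ, ‖f (vl τ t)‖ ≤ C * Real.exp (-|t|)) :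
    ‖LI τ f‖ ≤ C * c0 := by
  unfold LI
  rw [norm_mul]
  have h1 : ‖∫ t : ℝ, f (vl τ t)‖ ≤ ∫ t : ℝ, C * Real.exp (-|t|) :=
    norm_integral_le_of_norm_le (ie.const_mul C) (Eventually.of_forall h)
  rw [integral_const_mul] at h1
  calc _ ≤ 1 * ‖∫ t : ℝ, f (vl τ t)‖ := by
        gcongr
        exact norm_c
    _ ≤ _ := by rw [one_mul]; exact h1

theorem DB.row {f : ℂ → ℂ → ℂ} {C : ℝ} (h : DB σ τ C f) (s : ℝ) :
    ‖LI τ (f (vl σ s))‖ ≤ C * c0 * Real.exp (-|s|) := by
  have := LI_bound (τ := τ) (f := f (vl σ s)) (C := C * Real.exp (-|s|)) fun t => by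
    have := h s t
    rwa [← mul_assoc] at this
  refine this.trans (le_of_eq (by ring))

theorem G2.inner {f : ℂ → ℂ → ℂ} (h : G2 σ τ f) (s : ℝ) :
    Integrable fun t : ℝ => f (vl σ s) (vl τ t) := by
  obtain ⟨hm, C, hC⟩ := h
  refine (ie.const_mul (C * Real.exp (-|s|))).mono' (meas_in hm _ _).aestronglyMeasurable
    (Eventually.of_forall fun t => ?_)
  have := hC s t
  rwa [← mul_assoc] at this

theorem G2.outer {f : ℂ → ℂ → ℂ} (h : G2 σ τ f) :
    Integrable fun s : ℝ => LI τ (f (vl σ s)) := by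
  obtain ⟨hm, C, hC⟩ := h
  refine (ie.const_mul (C * c0)).mono' ((meas_out hm τ).comp (mvl σ)).aestronglyMeasurable
    (Eventually.of_forall fun s => hC.row s)

theorem G2.joint {f : ℂ → ℂ → ℂ} (h : G2 σ τ f) :
    Integrable fun p : ℝ × ℝ => f (vl σ p.1) (vl τ p.2) := by
  obtain ⟨hm, C, hC⟩ := h
  refine ((ie.mul_prod ie).const_mul C).mono' ?_ (Eventually.of_forall fun p => hC p.1 p.2)
  exact (hm.comp (((mvl σ).comp measurable_fst).prodMk
    ((mvl τ).comp measurable_snd))).aestronglyMeasurable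

theorem LL_add {f g : ℂ → ℂ → ℂ} (hf : G2 σ τ f) (hg : G2 σ τ g) :
    LL σ τ (fun w w' => f w w' + g w w') = LL σ τ f + LL σ τ g := by
  unfold LL
  rw [← LI_add hf.outer hg.outer]
  refine LI_congr (Eventually.of_forall fun s => ?_)
  exact LI_add (hf.inner s) (hg.inner s)

theorem LL_mul (c : ℂ) (f : ℂ → ℂ → ℂ) : LL σ τ (fun w w' => c * f w w') = c * LL σ τ f := by
  unfold LL
  simp_rw [LI_mul]

theorem G2.add {f g : ℂ → ℂ → ℂ} (hf : G2 σ τ f) (hg : G2 σ τ g) :
    G2 σ τ fun w w' => f w w' + g w w' := by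
  obtain ⟨hm, C, hC⟩ := hf
  obtain ⟨hm', D, hD⟩ := hg
  refine ⟨hm.add hm', C + D, fun s t => ?_⟩
  refine (norm_add_le _ _).trans ?_
  rw [add_mul]
  exact add_le_add (hC s t) (hD s t)

theorem LL_congr {f g : ℂ → ℂ → ℂ} {E : Set ℝ} (hE : E.Countable)
    (h : ∀ s t : ℝ, s ∉ E → t ∉ E → f (vl σ s) (vl τ t) = g (vl σ s) (vl τ t)) :
    LL σ τ f = LL σ τ g := by
  have hae := hE.ae_notMem (volume : Measure ℝ)
  refine LI_congr ?_
  filter_upwards [hae] with s hs
  refine LI_congr ?_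
  filter_upwards [hae] with t ht
  exact h s t hs ht

/-- dominated convergence for double line integrals -/
theorem LL_tendsto {ι : Type*} {F : Filter ι} [F.IsCountablyGenerated] {f : ι → ℂ → ℂ → ℂ}
    {f0 : ℂ → ℂ → ℂ} {C : ℝ} (hm : ∀ᶠ e in F, Measurable (Function.uncurry (f e)))
    (hb : ∀ᶠ e in F, DB σ τ C (f e))
    (hl : ∀ s t : ℝ, Tendsto (fun e => f e (vl σ s) (vl τ t)) F (𝓝 (f0 (vl σ s) (vl τ t)))) :
    Tendsto (fun e => LL σ τ (f e)) F (𝓝 (LL σ τ f0)) := by
  have inner : ∀ s : ℝ, Tendsto (fun e => LI τ (f e (vl σ s))) F (𝓝 (LI τ (f0 (vl σ s)))) := by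
    intro s
    unfold LI
    refine Tendsto.const_mul _ ?_
    refine tendsto_integral_filter_of_dominated_convergence
      (fun t => C * Real.exp (-|s|) * Real.exp (-|t|)) ?_ ?_ (ie.const_mul _) ?_
    · filter_upwards [hm] with e he
      exact (meas_in he _ _).aestronglyMeasurable
    · filter_upwards [hb] with e he
      refine Eventually.of_forall fun t => ?_
      have := he s t
      rwa [← mul_assoc] at this
    · exact Eventually.of_forall fun t => hl s t
  unfold LL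
  rw [show LI σ (fun w => LI τ (f0 w)) = (2 * Real.pi : ℂ)⁻¹ * ∫ s : ℝ, LI τ (f0 (vl σ s)) from rfl]
  simp only [show ∀ e, LI σ (fun w => LI τ (f e w)) =
    (2 * Real.pi : ℂ)⁻¹ * ∫ s : ℝ, LI τ (f e (vl σ s)) from fun e => rfl]
  refine Tendsto.const_mul _ ?_
  refine tendsto_integral_filter_of_dominated_convergence
    (fun s => C * c0 * Real.exp (-|s|)) ?_ ?_ (ie.const_mul _) ?_
  · filter_upwards [hm] with e he
    exact ((meas_out he τ).comp (mvl σ)).aestronglyMeasurable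
  · filter_upwards [hb] with e he
    exact Eventually.of_forall fun s => he.row s
  · exact Eventually.of_forall fun s => inner s

/-- dominated convergence for line integrals -/
theorem LI_tendsto {ι : Type*} {F : Filter ι} [F.IsCountablyGenerated] {f : ι → ℂ → ℂ}
    {f0 : ℂ → ℂ} {C : ℝ} (hm : ∀ᶠ e in F, Measurable (f e))
    (hb : ∀ᶠ e in F, ∀ t : ℝ, ‖f e (vl τ t)‖ ≤ C * Real.exp (-|t|))
    (hl : ∀ t : ℝ, Tendsto (fun e => f e (vl τ t)) F (𝓝 (f0 (vl τ t)))) :
    Tendsto (fun e => LI τ (f e)) F (𝓝 (LI τ f0)) := by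
  unfold LI
  refine Tendsto.const_mul _ ?_
  refine tendsto_integral_filter_of_dominated_convergence
    (fun t => C * Real.exp (-|t|)) ?_ ?_ (ie.const_mul _) ?_
  · filter_upwards [hm] with e he
    exact (he.comp (mvl τ)).aestronglyMeasurable
  · filter_upwards [hb] with e he
    exact Eventually.of_forall he
  · exact Eventually.of_forall fun t => hl t

end NUP1

end
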