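import Pool.Agent.NUP1L.Final
import Pool.Agent.NUP1L.LL

/-!
# Uniform bounds of the prefactors and of the spectators
-/

set_option autoImplicit false
set_option linter.unusedSectionVars false

noncomputable section

open Complex MeasureTheory Filter Topology

namespace NUP1.N

open Bd (Ob chg wt pw pt oneL Dec cwo Hc Ql qg measurable_Hc measurable_Ql rl)
open Leg (Ck Dk kap)

variable {α β A B : ℝ}

/-! ### bounds on vertical lines -/

/-- `f` has growth `s` on the line `Re z = δ` -/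
def LB (δ s : ℝ) (f : ℂ → ℂ) : Prop :=
  ∃ C : ℝ, 0 ≤ C ∧ ∀ z : ℂ, z.re = δ → ‖f z‖ ≤ C * Real.exp (s * |z.im|)

theorem LB.mul {δ s t : ℝ} {f g : ℂ → ℂ} (hf : LB δ s f) (hg : LB δ t g) :
    LB δ (s + t) fun z => f z * g z := by
  obtain ⟨C, hC, h1⟩ := hf
  obtain ⟨D, hD, h2⟩ := hg
  refine ⟨C * D, mul_nonneg hC hD, fun z hz => ?_⟩
  rw [norm_mul]
  calc _ ≤ (C * Real.exp (s * |z.im|)) * (D * Real.exp (t * |z.im|)) :=
        mul_le_mul (h1 z hz) (h2 z hz) (norm_nonneg _) (mul_nonneg hC (Real.exp_pos _).le)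
    _ = _ := by
        rw [add_mul, Real.exp_add]
        ring

theorem LB.rate {δ s t : ℝ} {f : ℂ → ℂ} (hf : LB δ s f) (h : s = t) : LB δ t f := h ▸ hf

theorem LB.sin (δ c : ℝ) : LB δ 1 fun z => Complex.sin (z + c) := by
  refine ⟨1, zero_le_one, fun z _ => ?_⟩
  have := Bd.norm_sin_le_exp (z + c)
  rw [add_im, ofReal_im, add_zero] at this
  simpa using this

theorem LB.cos (δ : ℝ) : LB δ 1 fun z => Complex.cos z := by
  refine ⟨1, zero_le_one, fun z _ => ?_⟩
  have := Bd.norm_sin_le_exp (z + 4 * l)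
  rw [sin_p4] at this
  simpa using this

theorem LB.inv {δ c : ℝ} (h1 : δ + c ≠ 0) (h2 : |δ + c| < 8 * l) :
    LB δ (-1) fun z => 1 / Complex.sin (z + c) := by
  have hs : 0 < |Real.sin (δ + c)| := Bd.abs_sin_pos (abs_pos.2 h1) h2
  refine ⟨2 * Real.exp 0 / |Real.sin (δ + c)|, by positivity, fun z hz => ?_⟩
  have := inv_sin_unif (z := z) (c := -(c : ℂ)) hs (Y := 0) (by
    rw [hz, neg_re, ofReal_re, sub_neg_eq_add]) (by simp)
  rwa [sub_neg_eq_add, show -|z.im| = -1 * |z.im| by ring] at this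

theorem LB_Ck {δ : ℝ} (h1 : δ + l ≠ 0) (h2 : |δ + l| < 8 * l) : LB δ 1 Ck := by
  have h := ((LB.sin δ 0).mul (LB.sin δ (2 * l))).mul (LB.inv h1 h2)
  obtain ⟨C, hC, hb⟩ := h.rate (t := 1) (by norm_num)
  refine ⟨C, hC, fun z hz => ?_⟩
  have := hb z hz
  have e : Ck z = Complex.sin (z + (0 : ℝ)) * Complex.sin (z + ((2 * l : ℝ) : ℂ)) *
      (1 / Complex.sin (z + (l : ℝ))) := by
    unfold Leg.Ck
    push_cast
    rw [add_zero]
    ring
  rw [e]
  exact this

theorem LB_Dk {δ : ℝ} (h1 : |δ| < 5 * l) (h2 : |δ| ≠ 3 * l) : LB δ (-1) Dk := by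
  have hl := lpos
  obtain ⟨a1, a2⟩ := abs_lt.1 h1
  have n1 : δ + 3 * l ≠ 0 := by
    intro h
    refine h2 ?_
    rw [show δ = -(3 * l) by linarith, abs_neg, abs_of_pos (by positivity)]
  have n2 : δ + -(3 * l) ≠ 0 := by
    intro h
    refine h2 ?_
    rw [show δ = 3 * l by linarith, abs_of_pos (by positivity)]
  have h := ((LB.cos δ).mul (LB.inv (δ := δ) (c := 3 * l) n1
    (by rw [abs_lt]; constructor <;> linarith))).mul
    (LB.inv (δ := δ) (c := -(3 * l)) n2 (by rw [abs_lt]; constructor <;> linarith))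
  obtain ⟨C, hC, hb⟩ := h.rate (t := -1) (by norm_num)
  refine ⟨C, hC, fun z hz => ?_⟩
  have := hb z hz
  have e : Dk z = -(Complex.cos z * (1 / Complex.sin (z + ((3 * l : ℝ) : ℂ))) *
      (1 / Complex.sin (z + ((-(3 * l) : ℝ) : ℂ)))) := by
    unfold Leg.Dk
    push_cast
    rw [show 3 * (l : ℂ) - z = -(z + -(3 * l)) by ring, Complex.sin_neg,
      show 3 * (l : ℂ) + z = z + 3 * l by ring, div_eq_mul_inv, mul_inv, inv_neg]
    ring
  rw [e, norm_neg]
  exact this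

theorem LB_qg {δ : ℝ} (h : |δ| < 3 * l) : LB δ (-2) qg := by
  obtain ⟨C, hC, hb⟩ := Bd.qg_bound' δ h
  refine ⟨C, hC, fun z hz => ?_⟩
  have := hb z hz
  rwa [show -(2 * |z.im|) = -2 * |z.im| by ring] at this

/-- spectator of a captured pair -/
def Tk (z : ℂ) : ℂ := Complex.sin (z - l) * Complex.sin (z + 2 * l) /
  (Complex.sin (2 * l - z) * Complex.sin (z + l))

theorem LB_Tk {δ : ℝ} (h1 : δ + l ≠ 0) (h2 : |δ + l| < 8 * l) (h3 : δ + -(2 * l) ≠ 0)
    (h4 : |δ + -(2 * l)| < 8 * l) : LB δ 0 Tk := by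
  have h := ((LB.sin δ (-l)).mul (LB.sin δ (2 * l))).mul ((LB.inv h3 h4).mul (LB.inv h1 h2))
  obtain ⟨C, hC, hb⟩ := h.rate (t := 0) (by norm_num)
  refine ⟨C, hC, fun z hz => ?_⟩
  have := hb z hz
  have e : Tk z = -((Complex.sin (z + ((-l : ℝ) : ℂ)) * Complex.sin (z + ((2 * l : ℝ) : ℂ))) *
      ((1 / Complex.sin (z + ((-(2 * l) : ℝ) : ℂ))) * (1 / Complex.sin (z + (l : ℝ))))) := by
    unfold Tk
    push_cast
    rw [show z + -(l : ℂ) = z - l by ring, show z + -(2 * (l : ℂ)) = -(2 * l - z) by ring,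
      Complex.sin_neg, div_eq_mul_inv, mul_inv, one_div, one_div, inv_neg]
    ring
  rw [e, norm_neg]
  exact this

/-! ### spectators on the three lines -/

/-- the function `g w u` has growth `s` in the difference of the heights, for `Re w = σ` and `u` on
the three lines -/
def SB (α β σ s : ℝ) (g : ℂ → ℂ → ℂ) : Prop :=
  ∃ C : ℝ, 0 ≤ C ∧ ∀ w u : ℂ, w.re = σ → OnL α β u.re →
    ‖g w u‖ ≤ C * Real.exp (s * |u.im - w.im|)

theorem SB_of {σ s : ℝ} {g : ℂ → ℂ → ℂ} (h : ∀ ρ, OnL α β ρ → ∃ C : ℝ, 0 ≤ C ∧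
    ∀ w u : ℂ, w.re = σ → u.re = ρ → ‖g w u‖ ≤ C * Real.exp (s * |u.im - w.im|)) :
    SB α β σ s g := by
  obtain ⟨a, ha, h1⟩ := h α (Or.inl rfl)
  obtain ⟨b, hb, h2⟩ := h β (Or.inr (Or.inl rfl))
  obtain ⟨c, hc, h3⟩ := h (β + l) (Or.inr (Or.inr rfl))
  refine ⟨a + b + c, by positivity, fun w u hw hu => ?_⟩
  rcases hu with hu | hu | hu
  · exact (h1 w u hw hu).trans (mul_le_mul_of_nonneg_right (by linarith) (Real.exp_pos _).le)
  · exact (h2 w u hw hu).trans (mul_le_mul_of_nonneg_right (by linarith) (Real.exp_pos _).le)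
  · exact (h3 w u hw hu).trans (mul_le_mul_of_nonneg_right (by linarith) (Real.exp_pos _).le)

theorem SB.sub {σ s : ℝ} {f : ℂ → ℂ} (h : ∀ ρ, OnL α β ρ → LB (σ - ρ) s f) :
    SB α β σ s fun w u => f (w - u) := by
  refine SB_of fun ρ hρ => ?_
  obtain ⟨C, hC, hb⟩ := h ρ hρ
  refine ⟨C, hC, fun w u hw hu => ?_⟩
  have := hb (w - u) (by rw [sub_re, hw, hu])
  rwa [sub_im, abs_sub_comm] at this

theorem SB.sub' {σ s c : ℝ} {f : ℂ → ℂ} (h : ∀ ρ, OnL α β ρ → LB (ρ - (σ + c)) s f) :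
    SB α β σ s fun w u => f (u - (w + c)) := by
  refine SB_of fun ρ hρ => ?_
  obtain ⟨C, hC, hb⟩ := h ρ hρ
  refine ⟨C, hC, fun w u hw hu => ?_⟩
  have := hb (u - (w + c)) (by rw [sub_re, add_re, ofReal_re, hw, hu])
  rwa [sub_im, add_im, ofReal_im, add_zero] at this

section spec
variable (L : Ln α β A B)
include L

theorem SB_Ck_A : SB α β A 1 fun w u => Ck (w - u) := by
  have hl := lpos
  have w1 := L.w.lo
  have w2 := L.w.hi
  have l1 := L.a1
  have l2 := L.a2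
  refine SB.sub fun ρ hρ => LB_Ck ?_ ?_
  · rcases hρ with rfl | rfl | rfl <;> intro h <;> linarith
  · rw [abs_lt]
    rcases hρ with rfl | rfl | rfl <;> constructor <;> linarith

theorem SB_Ck_B : SB α β B 1 fun w u => Ck (w - u) := by
  have hl := lpos
  have w1 := L.w.lo
  have w2 := L.w.hi
  have l1 := L.b1
  have l2 := L.b2
  refine SB.sub fun ρ hρ => LB_Ck ?_ ?_
  · rcases hρ with rfl | rfl | rfl <;> intro h <;> linarith
  · rw [abs_lt]
    rcases hρ with rfl | rfl | rfl <;> constructor <;> linarith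

theorem SB_Dk_A : SB α β A (-1) fun w u => Dk (w - u) := by
  have hl := lpos
  have w1 := L.w.lo
  have w2 := L.w.hi
  have l1 := L.a1
  have l2 := L.a2
  refine SB.sub fun ρ hρ => ?_
  have h : |A - ρ| < 3 * l := by
    rw [abs_lt]
    rcases hρ with rfl | rfl | rfl <;> constructor <;> linarith
  exact LB_Dk (by linarith) h.ne

theorem SB_Dk_B : SB α β B (-1) fun w u => Dk (w - u) := by
  have hl := lpos
  have w1 := L.w.lo
  have w2 := L.w.hi
  have l1 := L.b1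
  have l2 := L.b2
  have l3 := L.b3
  refine SB.sub fun ρ hρ => LB_Dk ?_ ?_
  · rw [abs_lt]
    rcases hρ with rfl | rfl | rfl <;> constructor <;> linarith
  · rw [abs_of_neg (by rcases hρ with rfl | rfl | rfl <;> linarith)]
    rcases hρ with rfl | rfl | rfl <;> intro h <;> linarith

theorem SB_qg : SB α β B (-2) fun w u => qg (u - (w + 3 * l)) := by
  have hl := lpos
  have w1 := L.w.lo
  have w2 := L.w.hi
  have l2 := L.b2
  have l3 := L.b3
  have := SB.sub' (α := α) (β := β) (σ := B) (c := 3 * l) (s := -2) (f := qg) fun ρ hρ =>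
    LB_qg (by
      rw [abs_lt]
      rcases hρ with rfl | rfl | rfl <;> constructor <;> linarith)
  push_cast at this
  exact this

theorem SB_Cs : SB α β B 1 fun w u => Ck (u - (w + 3 * l)) := by
  have hl := lpos
  have w1 := L.w.lo
  have w2 := L.w.hi
  have l2 := L.b2
  have l3 := L.b3
  have l4 := L.b6
  have := SB.sub' (α := α) (β := β) (σ := B) (c := 3 * l) (s := 1) (f := Ck) fun ρ hρ =>
    LB_Ck (by
      rcases hρ with rfl | rfl | rfl
      · intro h; linarith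
      · intro h; linarith
      · intro h; exact l4 (by linarith)) (by
      rw [abs_lt]
      rcases hρ with rfl | rfl | rfl <;> constructor <;> linarith)
  push_cast at this
  exact this

theorem SB_Tk : SB α β B 0 fun w u => Tk (w - u) := by
  have hl := lpos
  have w1 := L.w.lo
  have w2 := L.w.hi
  have l1 := L.b1
  have l2 := L.b2
  refine SB.sub fun ρ hρ => LB_Tk ?_ ?_ ?_ ?_
  · rcases hρ with rfl | rfl | rfl <;> intro h <;> linarith
  · rw [abs_lt]
    rcases hρ with rfl | rfl | rfl <;> constructor <;> linarith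
  · rcases hρ with rfl | rfl | rfl <;> intro h <;> linarith
  · rw [abs_lt]
    rcases hρ with rfl | rfl | rfl <;> constructor <;> linarith

end spec

/-! ### the prefactors -/

/-- rows of the own species -/
def rA {m : ℕ} (x : Fin m → ℂ) (w : ℂ) : ℂ := ∏ i, 1 / sin (w - x i)

/-- rows of the other species -/
def rB {m : ℕ} (x : Fin m → ℂ) (w : ℂ) : ℂ := ∏ i, sin (w - x i + 3 * l)

/-- one half quantum with its rows, without the rows of the other species -/
def prc {m : ℕ} (p q : ℂ) (x : Fin m → ℂ) (w : ℂ) : ℂ :=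
  kap (w - p) * sin (w - q + 3 * l) * rA x w

/-- one half quantum with all rows -/
def pr1 {m M : ℕ} (p q : ℂ) (x : Fin m → ℂ) (y : Fin M → ℂ) (w : ℂ) : ℂ :=
  prc p q x w * rB y w

/-- a place whose distance from the strip `|Re| ≤ l / 2` is positive -/
def Far (σ : ℝ) : Prop := ∀ r : ℝ, |r| ≤ l / 2 → 0 < |σ - r| ∧ |σ - r| < 8 * l

/-- `c` is in the box -/
def Bx (R : ℝ) (c : ℂ) : Prop := |c.re| ≤ l / 2 ∧ |c.im| ≤ R

theorem inv_box {σ : ℝ} (hσ : Far σ) (R : ℝ) : ∃ C : ℝ, 0 ≤ C ∧ ∀ c : ℂ, Bx R c → ∀ z : ℂ,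
    z.re = σ → ‖1 / sin (z - c)‖ ≤ C * Real.exp (-|z.im|) := by
  have hl := lpos
  obtain ⟨s, hs, h⟩ := sin_low1 (σ := σ) (ρ1 := -(l / 2)) (ρ2 := l / 2) (by linarith)
    fun r h1 h2 => hσ r (abs_le.2 ⟨h1, h2⟩)
  refine ⟨2 * Real.exp R / s, by positivity, fun c hc z hz => ?_⟩
  obtain ⟨h1, h2⟩ := abs_le.1 hc.1
  refine inv_sin_unif hs ?_ hc.2
  rw [hz]
  exact h c.re h1 h2

theorem sin_box {R : ℝ} {c : ℂ} (hc : Bx R c) (z : ℂ) :
    ‖sin (z - c + 3 * l)‖ ≤ Real.exp R * Real.exp |z.im| := by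
  refine (Bd.norm_sin_le_exp _).trans ?_
  rw [← Real.exp_add]
  refine Real.exp_le_exp.2 ?_
  have h1 : (z - c + 3 * l).im = z.im - c.im := by simp
  rw [h1]
  have := abs_sub z.im c.im
  have := hc.2
  linarith

theorem rA_box {m : ℕ} {σ : ℝ} (hσ : Far σ) (R : ℝ) : ∃ C : ℝ, 0 ≤ C ∧ ∀ x : Fin m → ℂ,
    (∀ i, Bx R (x i)) → ∀ z : ℂ, z.re = σ → ‖rA x z‖ ≤ C * Real.exp (-(m * |z.im|)) := by
  obtain ⟨C, hC, h⟩ := inv_box hσ R
  refine ⟨C ^ m, by positivity, fun x hx z hz => ?_⟩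
  unfold rA
  rw [norm_prod]
  calc _ ≤ ∏ _i : Fin m, (C * Real.exp (-|z.im|)) :=
        Finset.prod_le_prod (fun i _ => norm_nonneg _) fun i _ => h (x i) (hx i) z hz
    _ = _ := by
        rw [Finset.prod_const, Finset.card_univ, Fintype.card_fin, mul_pow, ← Real.exp_nat_mul]
        congr 2
        ring

theorem rB_box {m : ℕ} {R : ℝ} {x : Fin m → ℂ} (hx : ∀ i, Bx R (x i)) (z : ℂ) :
    ‖rB x z‖ ≤ Real.exp R ^ m * Real.exp (m * |z.im|) := by
  unfold rB
  rw [norm_prod]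
  calc _ ≤ ∏ _i : Fin m, (Real.exp R * Real.exp |z.im|) :=
        Finset.prod_le_prod (fun i _ => norm_nonneg _) fun i _ => sin_box (hx i) z
    _ = _ := by
        rw [Finset.prod_const, Finset.card_univ, Fintype.card_fin, mul_pow,
          Real.exp_nat_mul |z.im| m]

theorem kap_box {σ : ℝ} (h1 : Far σ) (h2 : Far (σ - 2 * l)) (R : ℝ) : ∃ C : ℝ, 0 ≤ C ∧
    ∀ c : ℂ, Bx R c → ∀ z : ℂ, z.re = σ → ‖kap (z - c)‖ ≤ C * Real.exp (-(2 * |z.im|)) := by
  obtain ⟨C, hC, b1⟩ := inv_box h1 R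
  obtain ⟨D, hD, b2⟩ := inv_box h2 R
  refine ⟨‖sin (2 * l : ℂ)‖ * (C * D), by positivity, fun c hc z hz => ?_⟩
  have g1 := b1 c hc z hz
  have g2 := b2 c hc (z - 2 * l) (by simp [hz])
  have e : kap (z - c) = sin (2 * l) * (1 / sin (z - c) * (1 / sin (z - 2 * l - c))) := by
    unfold Leg.kap
    rw [show z - c - 2 * l = z - 2 * l - c by ring, div_eq_mul_inv, mul_inv]
    ring
  rw [e, norm_mul, norm_mul, mul_assoc]
  refine mul_le_mul_of_nonneg_left ?_ (norm_nonneg _)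
  have him : (z - 2 * l).im = z.im := by simp
  rw [him] at g2
  calc _ ≤ (C * Real.exp (-|z.im|)) * (D * Real.exp (-|z.im|)) :=
        mul_le_mul g1 g2 (norm_nonneg _) (mul_nonneg hC (Real.exp_pos _).le)
    _ = _ := by
        rw [show -(2 * |z.im|) = -|z.im| + -|z.im| by ring, Real.exp_add]
        ring

theorem prc_box {m : ℕ} {σ : ℝ} (h1 : Far σ) (h2 : Far (σ - 2 * l)) (R : ℝ) : ∃ C : ℝ, 0 ≤ C ∧
    ∀ (p q : ℂ) (x : Fin m → ℂ), Bx R p → Bx R q → (∀ i, Bx R (x i)) → ∀ z : ℂ, z.re = σ →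
      ‖prc p q x z‖ ≤ C * Real.exp (-((1 + m) * |z.im|)) := by
  obtain ⟨C, hC, b1⟩ := kap_box h1 h2 R
  obtain ⟨D, hD, b2⟩ := rA_box (m := m) h1 R
  refine ⟨C * Real.exp R * D, by positivity, fun p q x hp hq hx z hz => ?_⟩
  have g1 := b1 p hp z hz
  have g2 := sin_box hq z
  have g3 := b2 x hx z hz
  unfold prc
  rw [norm_mul, norm_mul]
  calc _ ≤ (C * Real.exp (-(2 * |z.im|))) * (Real.exp R * Real.exp |z.im|) *
        (D * Real.exp (-(m * |z.im|))) := by gcongr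
    _ = _ := by
        rw [show -((1 + (m : ℝ)) * |z.im|) = -(2 * |z.im|) + |z.im| + -(m * |z.im|) by ring,
          Real.exp_add, Real.exp_add]
        ring

theorem pr1_box {m M : ℕ} {σ : ℝ} (h1 : Far σ) (h2 : Far (σ - 2 * l)) (R : ℝ) : ∃ C : ℝ, 0 ≤ C ∧
    ∀ (p q : ℂ) (x : Fin m → ℂ) (y : Fin M → ℂ), Bx R p → Bx R q → (∀ i, Bx R (x i)) →
      (∀ i, Bx R (y i)) → ∀ z : ℂ, z.re = σ →
      ‖pr1 p q x y z‖ ≤ C * Real.exp (-((1 + m - M) * |z.im|)) := by
  obtain ⟨C, hC, b1⟩ := prc_box (m := m) h1 h2 R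
  refine ⟨C * Real.exp R ^ M, by positivity, fun p q x y hp hq hx hy z hz => ?_⟩
  have g1 := b1 p q x hp hq hx z hz
  have g2 := rB_box hy z
  unfold pr1
  rw [norm_mul]
  calc _ ≤ (C * Real.exp (-((1 + m) * |z.im|))) * (Real.exp R ^ M * Real.exp (M * |z.im|)) := by
        gcongr
    _ = _ := by
        rw [show -((1 + (m : ℝ) - M) * |z.im|) = -((1 + m) * |z.im|) + M * |z.im| by ring,
          Real.exp_add]
        ring

section far
variable (L : Ln α β A B)
include L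

theorem Far_A : Far A := by
  have hl := lpos
  intro r hr
  obtain ⟨h1, h2⟩ := abs_le.1 hr
  have := L.a3
  have := L.a4
  rw [abs_of_pos (by linarith)]
  constructor <;> linarith

theorem Far_A2 : Far (A - 2 * l) := by
  have hl := lpos
  intro r hr
  obtain ⟨h1, h2⟩ := abs_le.1 hr
  have := L.a3
  have := L.a4
  rw [abs_of_neg (by linarith)]
  constructor <;> linarith

theorem Far_B : Far B := by
  have hl := lpos
  intro r hr
  obtain ⟨h1, h2⟩ := abs_le.1 hr
  have := L.b4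
  have := L.b5
  rw [abs_of_neg (by linarith)]
  constructor <;> linarith

theorem Far_B2 : Far (B - 2 * l) := by
  have hl := lpos
  intro r hr
  obtain ⟨h1, h2⟩ := abs_le.1 hr
  have := L.b4
  have := L.b5
  rw [abs_of_neg (by linarith)]
  constructor <;> linarith

theorem Far_al : Far α := by
  have hl := lpos
  intro r hr
  obtain ⟨h1, h2⟩ := abs_le.1 hr
  have := L.e1
  have := L.a1
  have := L.a4
  rw [abs_of_pos (by linarith)]
  constructor <;> linarith

theorem Far_be : Far β := by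
  have hl := lpos
  intro r hr
  obtain ⟨h1, h2⟩ := abs_le.1 hr
  have := L.e2
  have := L.b1
  have := L.b4
  rw [abs_of_neg (by linarith)]
  constructor <;> linarith

theorem Far_bl : Far (β + l) := by
  have hl := lpos
  intro r hr
  obtain ⟨h1, h2⟩ := abs_le.1 hr
  have := L.e2
  have := L.b1
  have := L.b4
  rw [abs_of_neg (by linarith)]
  constructor <;> linarith

end far

end NUP1.N

end
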