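import Pool.Agent.NUP1L.LegGas
import Pool.Agent.NUP1L.FinalB

/-!
# The two-point function `RE` in terms of the double line integrals of `NUP1L.Final`
-/

set_option autoImplicit false
set_option linter.unusedSectionVars false

noncomputable section

open Complex MeasureTheory Finset

namespace NUP1.Leg

open NUTP (th ea)
open NUTP.Gas (gasF)
open NUP1.N (SP pr1 prc rA rB)

variable {m M : ℕ} {α β A B : ℝ}

theorem cf_pr1 (p q : ℂ) (x : Fin m → ℂ) (y : Fin M → ℂ) (w w' : ℂ) :
    cf p q x y w w' = pr1 p q x y w * pr1 q p y x w' := by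
  unfold cf pr1 prc rA rB
  rw [Finset.prod_mul_distrib, Finset.prod_mul_distrib]
  ring

theorem Gs_SP (hX hY : ℂ → ℂ) (x : Fin m → ℂ) (y : Fin M → ℂ) (n n' : ℕ) (w w' : ℂ) :
    Gs hX hY x y n n' w w' = SP x y hX hY n n' w w' := rfl

theorem Tk_N : Tk = NUP1.N.Tk := rfl

/-- the integrand of the half quanta -/
def FSP (p q : ℂ) (x : Fin m → ℂ) (y : Fin M → ℂ) (hX hY : ℂ → ℂ) (n n' : ℕ) (w w' : ℂ) : ℂ :=
  Dk (w - w') * (pr1 p q x y w * pr1 q p y x w') * SP x y hX hY n n' w w'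

/-- the sum of the double line integrals -/
def LegJ (A B : ℝ) (p q : ℂ) (x : Fin m → ℂ) (y : Fin M → ℂ) (hX hY : ℂ → ℂ) (n n' : ℕ) : ℂ :=
  LL A A (FSP p q x y hX hY n n') - LL A B (FSP p q x y hX hY n n') -
    LL B A (FSP p q x y hX hY n n') + LL B B (FSP p q x y hX hY n n') -
    sin l / sin (2 * l) * (LI B (fun z => X0 p q y z * GsL hX hY x y n n' z) +
      LI B (fun z => X0 q p x z * GsR hX hY x y n n' z))

/-- **the double residue for given numbers of quanta, double line integrals** -/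
theorem legJ_eq {p h q g : ℂ} {x : Fin m → ℂ} {y : Fin M → ℂ} (H : Ht p h q g x y)
    (R : Rp h g x y) (hX hY : ℂ → ℂ) (hα1 : 1 / 2 * l < A) (hα2 : A < 3 / 2 * l)
    (hβ1 : -(9 / 2 * l) < B) (hβ2 : B < -(3 / 2 * l)) (h3 : 3 * l < A - B)
    (h5 : A - B < 5 * l) {n n' : ℕ} (hn : n + M = n' + m) :
    ∑ a ∈ St m n, ∑ b ∈ St M n', sta x hX a * sta y hY b * crq x y a b * MS h g x y a b =
      LegJ A B h g x y hX hY n n' := by
  have hl := lpos
  have gA : Gl A := ⟨by linarith, hα2, Or.inr hα1⟩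
  have gB : Gl B := ⟨hβ1, by linarith, Or.inl hβ2⟩
  have a0 : ∀ s : ℝ, |s - s| < 5 * l ∧ |s - s| ≠ 3 * l := fun s => by
    rw [sub_self, abs_zero]
    constructor
    · positivity
    · exact (by positivity : (0 : ℝ) < 3 * l).ne
  have aAB : |A - B| < 5 * l ∧ |A - B| ≠ 3 * l := by
    rw [abs_of_pos (by linarith)]
    exact ⟨h5, h3.ne'⟩
  have aBA : |B - A| < 5 * l ∧ |B - A| ≠ 3 * l := by rwa [abs_sub_comm]
  have hD : ∀ c ∈ St m n ×ˢ St M n', Dat h g x y c.1 c.2 := by
    intro c hc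
    obtain ⟨h1, h2⟩ := Finset.mem_product.1 hc
    refine Dat_of H R ?_
    rw [(Finset.mem_filter.1 h1).2, (Finset.mem_filter.1 h2).2, hn]
  have key := legI_eq H R hX hY hα1 hα2 hβ1 hβ2 h3 h5 hn
  rw [key]
  -- the double integrals
  have hC : (Set.range (fun i => (x i).im) ∪ Set.range (fun j => (y j).im)).Countable :=
    ((Set.finite_range _).union (Set.finite_range _)).countable
  have e1 : ∀ s t : ℝ, LL s t (SSg h g x y (St m n ×ˢ St M n') (Wst hX hY x y)) =
      LL s t (FSP h g x y hX hY n n') := by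
    intro s t
    refine LL_congr hC fun u v hu hv => ?_
    simp only [Set.mem_union, Set.mem_range, not_or, not_exists] at hu hv
    rw [SSg_spec h g hX hY n n' (fun i => by rw [vlim]; exact fun h => hu.1 i h.symm)
      (fun j => by rw [vlim]; exact fun h => hu.2 j h.symm)
      (fun i => by rw [vlim]; exact fun h => hv.1 i h.symm)
      (fun j => by rw [vlim]; exact fun h => hv.2 j h.symm), cf_pr1]
    rfl
  have hin : ∀ (s t : ℝ), LI t (fun w => LI s (fun w' =>
      Dk (w - w') * cf h g x y w w' * Gs hX hY x y n n' w w')) =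
      LL t s (SSg h g x y (St m n ×ˢ St M n') (Wst hX hY x y)) := by
    intro s t
    rw [e1]
    refine LI_congr fun u => LI_congr fun v => ?_
    rw [cf_pr1]
    rfl
  have hI : ∀ (s t : ℝ), Gl t → Gl s → (|t - s| < 5 * l ∧ |t - s| ≠ 3 * l) →
      Integrable fun u : ℝ => LI s (fun w' =>
        Dk (vl t u - w') * cf h g x y (vl t u) w' * Gs hX hY x y n n' (vl t u) w') := by
    intro s t gt gs hst
    refine (SSg_outer (S := St m n ×ˢ St M n') (W := Wst hX hY x y) hD gt gs hst.1 hst.2).congr ?_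
    filter_upwards [hC.ae_notMem (volume : Measure ℝ)] with u hu
    simp only [Set.mem_union, Set.mem_range, not_or, not_exists] at hu
    refine NUP1.LI_congr ?_
    filter_upwards [hC.ae_notMem (volume : Measure ℝ)] with v hv
    simp only [Set.mem_union, Set.mem_range, not_or, not_exists] at hv
    exact SSg_spec h g hX hY n n' (fun i => by rw [vlim]; exact fun h => hu.1 i h.symm)
      (fun j => by rw [vlim]; exact fun h => hu.2 j h.symm)
      (fun i => by rw [vlim]; exact fun h => hv.1 i h.symm)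
      (fun j => by rw [vlim]; exact fun h => hv.2 j h.symm)
  unfold LegI LegJ
  rw [NUP1.LI_sub (hI A A gA gA (a0 A)) (hI B A gA gB aAB),
    NUP1.LI_sub (hI A B gB gA aBA) (hI B B gB gB (a0 B)), hin, hin, hin, hin, e1, e1, e1, e1]
  ring

/-- **The two-point function `RE` as double line integrals.** -/
theorem RE_LL {p h q g : ℂ} {x : Fin m → ℂ} {y : Fin M → ℂ} (H : Ht p h q g x y)
    (R : Rp h g x y) (hmM : M ≤ m) (hα1 : 1 / 2 * l < A) (hα2 : A < 3 / 2 * l)
    (hβ1 : -(9 / 2 * l) < B) (hβ2 : B < -(3 / 2 * l)) (h3 : 3 * l < A - B)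
    (h5 : A - B < 5 * l) :
    (gasF th 1 true (ea (-q)) (ea (-g))).RE (List.ofFn fun i => ea (-x i))
      (List.ofFn fun j => ea (-y j)) (ea (-p)) (ea (-h)) =
    sin l * (Bp h q x * Bp g p y) * ∑ n' ∈ Finset.range (2 * M + 1),
      LegJ A B h g x y (hE (cc m) h p g q x y) (hE (cc M) g q h p y x) (n' + (m - M)) n' := by
  rw [RE_leg H R hmM hα1 hα2 hβ1 hβ2 h3 h5]
  congr 1
  refine Finset.sum_congr rfl fun n' _ => ?_
  rw [← legJ_eq H R _ _ hα1 hα2 hβ1 hβ2 h3 h5 (by omega),
    legI_eq H R _ _ hα1 hα2 hβ1 hβ2 h3 h5 (by omega)]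

end NUP1.Leg

end
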