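import Pool.Agent.NUP1L.FinalE

/-!
# The eleven integrals are continuous in the rows, the ends and the one body functions
-/

set_option autoImplicit false
set_option linter.unusedSectionVars false

noncomputable section

open Complex MeasureTheory Filter Topology

namespace NUP1.N

open Bd (Ob chg wt pw pt oneL Dec cwo Hc Ql qg measurable_Hc measurable_Ql rl)
open Leg (Ck Dk kap)

variable {α β A B : ℝ}

/-! ### bounds of the one body functions -/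

section gb
variable {m : ℕ}

theorem gb_0 (L : Ln α β A B) (D κ R : ℝ) (m : ℕ) {σ τ : ℝ}
    (hσ : LnAB A B σ) (hτ : LnAB A B τ) : ∃ E : ℝ, 0 ≤ E ∧
    ∀ (p q : ℂ) (x y : Fin m → ℂ) (hX hY : ℂ → ℂ), UD α β B D κ R p q x y hX hY →
      ∀ w w' : ℂ, w.re = σ → w'.re = τ → ∀ z : ℂ, OnL α β z.re →
      ‖GXs hX x w w' z‖ ≤ E * Real.exp (-((κ + m) * |z.im|) + 1 * |z.im - w.im| +
        -1 * |z.im - w'.im|) ∧
      ‖GYs hY y w w' z‖ ≤ E * Real.exp (-((κ + m) * |z.im|) + -1 * |z.im - w.im| +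
        1 * |z.im - w'.im|) := by
  obtain ⟨G, hG, bG⟩ := Gr0_box L D κ R m
  obtain ⟨c1, p1, b1⟩ := SB_Ck L hσ
  obtain ⟨c2, p2, b2⟩ := SB_Dk L hτ
  obtain ⟨c3, p3, b3⟩ := SB_Dk L hσ
  obtain ⟨c4, p4, b4⟩ := SB_Ck L hτ
  have q1 : 0 ≤ G * (c1 * c2) := by positivity
  have q2 : 0 ≤ G * (c3 * c4) := by positivity
  refine ⟨G * (c1 * c2) + G * (c3 * c4), by positivity, fun p q x y hX hY U w w' hw hw' z hz => ?_⟩
  exact ⟨mono_c (spec2 hG p1 (bG p q x y hX hY U z hz) (b1 w z hw hz) (b2 w' z hw' hz))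
    (by linarith), mono_c (spec2 hG p3 (bG q p y x hY hX U.symm z hz) (b3 w z hw hz)
    (b4 w' z hw' hz)) (by linarith)⟩

theorem ckqg {c1 c3 : ℝ} (p1 : 0 ≤ c1) (_p3 : 0 ≤ c3)
    (b1 : ∀ w u : ℂ, w.re = B → OnL α β u.re → ‖Ck (w - u)‖ ≤ c1 * Real.exp (1 * |u.im - w.im|))
    (b3 : ∀ w u : ℂ, w.re = B → OnL α β u.re → ‖qg (u - (w + 3 * l))‖ ≤
      c3 * Real.exp (-2 * |u.im - w.im|)) :
    ∀ w z : ℂ, w.re = B → OnL α β z.re → ‖Ck (w - z) * qg (z - (w + 3 * l))‖ ≤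
      c1 * c3 * Real.exp (-1 * |z.im - w.im|) := by
  intro w z hw hz
  rw [norm_mul]
  calc _ ≤ (c1 * Real.exp (1 * |z.im - w.im|)) * (c3 * Real.exp (-2 * |z.im - w.im|)) :=
        mul_le_mul (b1 w z hw hz) (b3 w z hw hz) (norm_nonneg _) (by positivity)
    _ = _ := by
        rw [show -1 * |z.im - w.im| = 1 * |z.im - w.im| + -2 * |z.im - w.im| by ring,
          Real.exp_add]
        ring

theorem gb_P (L : Ln α β A B) (D κ R : ℝ) (m : ℕ) {τ : ℝ} (hτ : LnAB A B τ) : ∃ E : ℝ, 0 ≤ E ∧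
    ∀ (p q : ℂ) (x y : Fin m → ℂ) (hX hY : ℂ → ℂ), UD α β B D κ R p q x y hX hY →
      ∀ w w' : ℂ, w.re = B → w'.re = τ → ∀ z : ℂ, OnL α β z.re →
      ‖Gr0 hX x z * (Ck (w - z) * Dk (w' - z)) * qg (z - (w + 3 * l))‖ ≤
        E * Real.exp (-((κ + m) * |z.im|) + -1 * |z.im - w.im| + -1 * |z.im - w'.im|) ∧
      ‖Gr0 hY y z * Ck (w' - z) * Ck (z - (w + 3 * l))‖ ≤
        E * Real.exp (-((κ + m) * |z.im|) + 1 * |z.im - w.im| + 1 * |z.im - w'.im|) := by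
  obtain ⟨G, hG, bG⟩ := Gr0_box L D κ R m
  obtain ⟨c1, p1, b1⟩ := SB_Ck L (σ := B) (Or.inr rfl)
  obtain ⟨c2, p2, b2⟩ := SB_Dk L hτ
  obtain ⟨c3, p3, b3⟩ := SB_qg L
  obtain ⟨c4, p4, b4⟩ := SB_Ck L hτ
  obtain ⟨c5, p5, b5⟩ := SB_Cs L
  have q1 : 0 ≤ G * (c1 * c3 * c2) := by positivity
  have q2 : 0 ≤ G * (c5 * c4) := by positivity
  refine ⟨G * (c1 * c3 * c2) + G * (c5 * c4), by positivity,
    fun p q x y hX hY U w w' hw hw' z hz => ⟨?_, ?_⟩⟩
  · have h2 := spec2 hG (by positivity) (bG p q x y hX hY U z hz)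
      (ckqg p1 p3 b1 b3 w z hw hz) (b2 w' z hw' hz)
    rw [show Gr0 hX x z * (Ck (w - z) * Dk (w' - z)) * qg (z - (w + 3 * l)) =
      Gr0 hX x z * (Ck (w - z) * qg (z - (w + 3 * l)) * Dk (w' - z)) by ring]
    exact mono_c h2 (by linarith)
  · have h2 := spec2 hG p5 (bG q p y x hY hX U.symm z hz) (b5 w z hw hz) (b4 w' z hw' hz)
    rw [show Gr0 hY y z * Ck (w' - z) * Ck (z - (w + 3 * l)) =
      Gr0 hY y z * (Ck (z - (w + 3 * l)) * Ck (w' - z)) by ring]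
    exact mono_c h2 (by linarith)

theorem gb_P' (L : Ln α β A B) (D κ R : ℝ) (m : ℕ) {σ : ℝ} (hσ : LnAB A B σ) : ∃ E : ℝ, 0 ≤ E ∧
    ∀ (p q : ℂ) (x y : Fin m → ℂ) (hX hY : ℂ → ℂ), UD α β B D κ R p q x y hX hY →
      ∀ w w' : ℂ, w.re = σ → w'.re = B → ∀ z : ℂ, OnL α β z.re →
      ‖Gr0 hX x z * Ck (w - z) * Ck (z - (w' + 3 * l))‖ ≤
        E * Real.exp (-((κ + m) * |z.im|) + 1 * |z.im - w.im| + 1 * |z.im - w'.im|) ∧
      ‖Gr0 hY y z * (Dk (w - z) * Ck (w' - z)) * qg (z - (w' + 3 * l))‖ ≤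
        E * Real.exp (-((κ + m) * |z.im|) + -1 * |z.im - w.im| + -1 * |z.im - w'.im|) := by
  obtain ⟨G, hG, bG⟩ := Gr0_box L D κ R m
  obtain ⟨c1, p1, b1⟩ := SB_Ck L (σ := B) (Or.inr rfl)
  obtain ⟨c2, p2, b2⟩ := SB_Dk L hσ
  obtain ⟨c3, p3, b3⟩ := SB_qg L
  obtain ⟨c4, p4, b4⟩ := SB_Ck L hσ
  obtain ⟨c5, p5, b5⟩ := SB_Cs L
  have q1 : 0 ≤ G * (c4 * c5) := by positivity
  have q2 : 0 ≤ G * (c2 * (c1 * c3)) := by positivity
  refine ⟨G * (c4 * c5) + G * (c2 * (c1 * c3)), by positivity,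
    fun p q x y hX hY U w w' hw hw' z hz => ⟨?_, ?_⟩⟩
  · have h2 := spec2 hG p4 (bG p q x y hX hY U z hz) (b4 w z hw hz) (b5 w' z hw' hz)
    rw [show Gr0 hX x z * Ck (w - z) * Ck (z - (w' + 3 * l)) =
      Gr0 hX x z * (Ck (w - z) * Ck (z - (w' + 3 * l))) by ring]
    exact mono_c h2 (by linarith)
  · have h2 := spec2 hG p2 (bG q p y x hY hX U.symm z hz) (b2 w z hw hz)
      (ckqg p1 p3 b1 b3 w' z hw' hz)
    rw [show Gr0 hY y z * (Dk (w - z) * Ck (w' - z)) * qg (z - (w' + 3 * l)) =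
      Gr0 hY y z * (Dk (w - z) * (Ck (w' - z) * qg (z - (w' + 3 * l)))) by ring]
    exact mono_c h2 (by linarith)

theorem gb_PP (L : Ln α β A B) (D κ R : ℝ) (m : ℕ) : ∃ E : ℝ, 0 ≤ E ∧
    ∀ (p q : ℂ) (x y : Fin m → ℂ) (hX hY : ℂ → ℂ), UD α β B D κ R p q x y hX hY →
      ∀ w w' : ℂ, w.re = B → w'.re = B → ∀ z : ℂ, OnL α β z.re →
      ‖Gr0 hX x z * Ck (w - z) * qg (z - (w + 3 * l)) * Ck (z - (w' + 3 * l))‖ ≤
        E * Real.exp (-((κ + m) * |z.im|) + -1 * |z.im - w.im| + 1 * |z.im - w'.im|) ∧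
      ‖Gr0 hY y z * Ck (w' - z) * Ck (z - (w + 3 * l)) * qg (z - (w' + 3 * l))‖ ≤
        E * Real.exp (-((κ + m) * |z.im|) + 1 * |z.im - w.im| + -1 * |z.im - w'.im|) := by
  obtain ⟨G, hG, bG⟩ := Gr0_box L D κ R m
  obtain ⟨c1, p1, b1⟩ := SB_Ck L (σ := B) (Or.inr rfl)
  obtain ⟨c3, p3, b3⟩ := SB_qg L
  obtain ⟨c5, p5, b5⟩ := SB_Cs L
  have q1 : 0 ≤ G * (c1 * c3 * c5) := by positivity
  have q2 : 0 ≤ G * (c5 * (c1 * c3)) := by positivity
  refine ⟨G * (c1 * c3 * c5) + G * (c5 * (c1 * c3)), by positivity,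
    fun p q x y hX hY U w w' hw hw' z hz => ⟨?_, ?_⟩⟩
  · have h2 := spec2 hG (by positivity) (bG p q x y hX hY U z hz)
      (ckqg p1 p3 b1 b3 w z hw hz) (b5 w' z hw' hz)
    rw [show Gr0 hX x z * Ck (w - z) * qg (z - (w + 3 * l)) * Ck (z - (w' + 3 * l)) =
      Gr0 hX x z * (Ck (w - z) * qg (z - (w + 3 * l)) * Ck (z - (w' + 3 * l))) by ring]
    exact mono_c h2 (by linarith)
  · have h2 := spec2 hG p5 (bG q p y x hY hX U.symm z hz) (b5 w z hw hz)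
      (ckqg p1 p3 b1 b3 w' z hw' hz)
    rw [show Gr0 hY y z * Ck (w' - z) * Ck (z - (w + 3 * l)) * qg (z - (w' + 3 * l)) =
      Gr0 hY y z * (Ck (z - (w + 3 * l)) * (Ck (w' - z) * qg (z - (w' + 3 * l)))) by ring]
    exact mono_c h2 (by linarith)

end gb

/-! ### the family -/

/-- a family of data with uniform bounds and its limit -/
structure Fm {ι : Type*} (F : Filter ι) (α β B D κ R : ℝ) {m : ℕ} (p q : ι → ℂ)
    (x y : ι → Fin m → ℂ) (hX hY : ι → ℂ → ℂ) (p0 q0 : ℂ) (x0 y0 : Fin m → ℂ)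
    (hX0 hY0 : ℂ → ℂ) : Prop where
  U : ∀ᶠ e in F, UD α β B D κ R (p e) (q e) (x e) (y e) (hX e) (hY e)
  b1 : Bx R p0
  b2 : Bx R q0
  b3 : ∀ i, Bx R (x0 i)
  b4 : ∀ i, Bx R (y0 i)
  tp : Tendsto p F (𝓝 p0)
  tq : Tendsto q F (𝓝 q0)
  tx : ∀ i, Tendsto (fun e => x e i) F (𝓝 (x0 i))
  ty : ∀ i, Tendsto (fun e => y e i) F (𝓝 (y0 i))
  tX : ∀ z : ℂ, (OnL α β z.re ∨ z.re = B + 3 * l) → Tendsto (fun e => hX e z) F (𝓝 (hX0 z))
  tY : ∀ z : ℂ, (OnL α β z.re ∨ z.re = B + 3 * l) → Tendsto (fun e => hY e z) F (𝓝 (hY0 z))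

section
variable {ι : Type*} {F : Filter ι} {D κ R : ℝ} {m : ℕ} {p q : ι → ℂ}
    {x y : ι → Fin m → ℂ} {hX hY : ι → ℂ → ℂ} {p0 q0 : ℂ} {x0 y0 : Fin m → ℂ}
    {hX0 hY0 : ℂ → ℂ}

theorem Fm.symm (H : Fm F α β B D κ R p q x y hX hY p0 q0 x0 y0 hX0 hY0) :
    Fm F α β B D κ R q p y x hY hX q0 p0 y0 x0 hY0 hX0 :=
  ⟨H.U.mono fun _ h => h.symm, H.b2, H.b1, H.b4, H.b3, H.tq, H.tp, H.ty, H.tx, H.tY, H.tX⟩

theorem far_sin {σ : ℝ} (hσ : Far σ) {c z : ℂ} (hc : Bx R c) (hz : z.re = σ) : sin (z - c) ≠ 0 := by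
  have h1 := hσ c.re hc.1
  obtain ⟨a1, a2⟩ := abs_lt.1 h1.2
  refine sin_ne_re' ?_ ?_ ?_
  · rw [sub_re, hz]; linarith
  · rw [sub_re, hz]; linarith
  · rw [sub_re, hz]; exact abs_pos.1 h1.1

theorem t_inv {σ : ℝ} (hσ : Far σ) {c : ι → ℂ} {c0 z : ℂ} (hc : Bx R c0) (hz : z.re = σ)
    (h : Tendsto c F (𝓝 c0)) : Tendsto (fun e => 1 / sin (z - c e)) F (𝓝 (1 / sin (z - c0))) := by
  have hne := far_sin hσ hc hz
  have : ContinuousAt (fun u => 1 / sin (z - u)) c0 := by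
    have hd : DifferentiableAt ℂ (fun u => 1 / sin (z - u)) c0 := by
      fun_prop (disch := exact hne)
    exact hd.continuousAt
  exact this.tendsto.comp h

theorem t_sin {c : ι → ℂ} {c0 : ℂ} (z : ℂ) (h : Tendsto c F (𝓝 c0)) :
    Tendsto (fun e => sin (z - c e + 3 * l)) F (𝓝 (sin (z - c0 + 3 * l))) := by
  have : Continuous fun u : ℂ => sin (z - u + 3 * l) := by fun_prop
  exact (this.tendsto c0).comp h

theorem t_rA {σ : ℝ} (hσ : Far σ) {z : ℂ} (hz : z.re = σ) (hx : ∀ i, Bx R (x0 i))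
    (h : ∀ i, Tendsto (fun e => x e i) F (𝓝 (x0 i))) :
    Tendsto (fun e => rA (x e) z) F (𝓝 (rA x0 z)) :=
  tendsto_finsetProd _ fun i _ => t_inv hσ (hx i) hz (h i)

theorem t_rB (z : ℂ) (h : ∀ i, Tendsto (fun e => x e i) F (𝓝 (x0 i))) :
    Tendsto (fun e => rB (x e) z) F (𝓝 (rB x0 z)) :=
  tendsto_finsetProd _ fun i _ => t_sin z (h i)

theorem t_kap {σ : ℝ} (h1 : Far σ) (h2 : Far (σ - 2 * l)) {c : ι → ℂ} {c0 z : ℂ} (hc : Bx R c0)
    (hz : z.re = σ) (h : Tendsto c F (𝓝 c0)) :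
    Tendsto (fun e => kap (z - c e)) F (𝓝 (kap (z - c0))) := by
  have a1 := t_inv h1 hc hz h
  have a2 := t_inv h2 (z := z - 2 * l) hc (by simp [hz]) h
  have e : ∀ c : ℂ, kap (z - c) = sin (2 * l) * (1 / sin (z - c) * (1 / sin (z - 2 * l - c))) := by
    intro c
    unfold Leg.kap
    rw [show z - c - 2 * l = z - 2 * l - c by ring, div_eq_mul_inv, mul_inv]
    ring
  simp_rw [e]
  exact (a1.mul a2).const_mul _

theorem t_prc (H : Fm F α β B D κ R p q x y hX hY p0 q0 x0 y0 hX0 hY0) {σ : ℝ} (h1 : Far σ)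
    (h2 : Far (σ - 2 * l)) {z : ℂ} (hz : z.re = σ) :
    Tendsto (fun e => prc (p e) (q e) (x e) z) F (𝓝 (prc p0 q0 x0 z)) :=
  ((t_kap h1 h2 H.b1 hz H.tp).mul (t_sin z H.tq)).mul (t_rA h1 hz H.b3 H.tx)

theorem t_pr1 (H : Fm F α β B D κ R p q x y hX hY p0 q0 x0 y0 hX0 hY0) {σ : ℝ} (h1 : Far σ)
    (h2 : Far (σ - 2 * l)) {z : ℂ} (hz : z.re = σ) :
    Tendsto (fun e => pr1 (p e) (q e) (x e) (y e) z) F (𝓝 (pr1 p0 q0 x0 y0 z)) :=
  (t_prc H h1 h2 hz).mul (t_rB z H.ty)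

theorem t_Gr0 (L : Ln α β A B) (H : Fm F α β B D κ R p q x y hX hY p0 q0 x0 y0 hX0 hY0) {z : ℂ}
    (hz : OnL α β z.re) : Tendsto (fun e => Gr0 (hX e) (x e) z) F (𝓝 (Gr0 hX0 x0 z)) := by
  have hF : Far z.re := by
    rcases hz with hz | hz | hz <;> rw [hz]
    · exact Far_al L
    · exact Far_be L
    · exact Far_bl L
  exact (H.tX z (Or.inl hz)).mul (t_rA hF rfl H.b3 H.tx)

theorem t_XD (L : Ln α β A B) (H : Fm F α β B D κ R p q x y hX hY p0 q0 x0 y0 hX0 hY0) {z : ℂ}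
    (hz : z.re = B) : Tendsto (fun e => XD (p e) (q e) (y e) z) F (𝓝 (XD p0 q0 y0 z)) := by
  have e : ∀ (p q : ℂ) (y : Fin m → ℂ), XD p q y z =
      -sin (2 * l) ^ 2 * (1 / sin (z + l - p) * (1 / sin (z - q))) *
      ∏ j, (-sin (z - y j - 2 * l) * (1 / sin (z - y j))) := by
    intro p q y
    unfold XD
    rw [show z - p + l = z + l - p by ring, div_eq_mul_inv, mul_inv,
      Finset.prod_congr rfl fun j _ => div_eq_mul_one_div (-sin (z - y j - 2 * l)) (sin (z - y j))]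
    ring
  simp_rw [e]
  refine Tendsto.mul (Tendsto.const_mul _ ((t_inv (Far_Bl L) H.b1 (by simp [hz]) H.tp).mul
    (t_inv (Far_B L) H.b2 hz H.tq))) ?_
  refine tendsto_finsetProd _ fun i _ => Tendsto.mul ?_ (t_inv (Far_B L) (H.b4 i) hz (H.ty i))
  have : Continuous fun u : ℂ => -sin (z - u - 2 * l) := by fun_prop
  exact (this.tendsto (y0 i)).comp (H.ty i)

variable [F.IsCountablyGenerated]

theorem mGr (H : Fm F α β B D κ R p q x y hX hY p0 q0 x0 y0 hX0 hY0) (k : ℂ → ℂ)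
    (hk : Measurable k) : ∀ᶠ e in F, Measurable fun u => Gr0 (hX e) (x e) u * k u := by
  filter_upwards [H.U] with e he
  exact (Gr0_meas he.mX _).mul hk

theorem t_Z0 (L : Ln α β A B) (H : Fm F α β B D κ R p q x y hX hY p0 q0 x0 y0 hX0 hY0)
    (hK : 2 < κ + m) (n : ℕ) {σ τ : ℝ} (hσ : LnAB A B σ) (hτ : LnAB A B τ) {w w' : ℂ}
    (hw : w.re = σ) (hw' : w'.re = τ) :
    Tendsto (fun e => Z3 α β n n (GXs (hX e) (x e) w w') (GYs (hY e) (y e) w w')) F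
      (𝓝 (Z3 α β n n (GXs hX0 x0 w w') (GYs hY0 y0 w w'))) := by
  have w1 := L.w.lo
  have w2 := L.w.hi
  have hl := lpos
  obtain ⟨E, hE, hb⟩ := gb_0 L D κ R m hσ hτ
  refine Z3_tendsto_two (D := E) (κ := κ + m) (κ' := κ + m) (s1 := 1) (s2 := -1) (r1 := -1)
    (r2 := 1) (d0 := 0) (d1 := 0) (d2 := 0) (W := |w.im| + |w'.im|) (by linarith) (by linarith)
    (by norm_num) (by norm_num; linarith) (by norm_num; linarith)
    (mGr H _ ((Ck_meas w).mul (Dk_meas w'))) (mGr H.symm _ ((Dk_meas w).mul (Ck_meas w')))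
    (fun z hz => (t_Gr0 L H hz).mul_const _) (fun z hz => (t_Gr0 L H.symm hz).mul_const _)
    (fun _ => w.im) (fun _ => w'.im) (Eventually.of_forall fun _ => ⟨?_, ?_⟩) ?_ ?_
  · linarith [abs_nonneg w'.im]
  · linarith [abs_nonneg w.im]
  · filter_upwards [H.U] with e he
    exact fun z hz => (hb _ _ _ _ _ _ he w w' hw hw' z hz).1
  · filter_upwards [H.U] with e he
    exact fun z hz => (hb _ _ _ _ _ _ he w w' hw hw' z hz).2

theorem t_ZP (L : Ln α β A B) (H : Fm F α β B D κ R p q x y hX hY p0 q0 x0 y0 hX0 hY0)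
    (hK : 2 < κ + m) (n : ℕ) {τ : ℝ} (hτ : LnAB A B τ) {w w' : ℂ}
    (hw : w.re = B) (hw' : w'.re = τ) :
    Tendsto (fun e => ZP α β (x e) (y e) (hX e) (hY e) n n w w') F
      (𝓝 (ZP α β x0 y0 hX0 hY0 n n w w')) := by
  have w1 := L.w.lo
  have w2 := L.w.hi
  have hl := lpos
  unfold ZP
  by_cases hn : 1 ≤ n
  · simp only [if_pos hn]
    have e : ((n - 1 : ℕ) : ℝ) = (n : ℝ) - 1 := by
      rw [Nat.cast_sub hn]; norm_num
    obtain ⟨E, hE, hb⟩ := gb_P L D κ R m hτ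
    have mX : ∀ᶠ e in F, Measurable fun u => Gr0 (hX e) (x e) u * (Ck (w - u) * Dk (w' - u)) *
        qg (u - (w + 3 * l)) := by
      filter_upwards [H.U] with e he
      exact ((Gr0_meas he.mX _).mul ((Ck_meas w).mul (Dk_meas w'))).mul (qg_meas' _)
    have mY : ∀ᶠ e in F, Measurable fun v => Gr0 (hY e) (y e) v * Ck (w' - v) *
        Ck (v - (w + 3 * l)) := by
      filter_upwards [H.U] with e he
      exact ((Gr0_meas he.mY _).mul (Ck_meas w')).mul (Ck_meas' _)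
    refine Z3_tendsto_two (D := E) (κ := κ + m) (κ' := κ + m) (s1 := -1) (s2 := -1) (r1 := 1)
      (r2 := 1) (d0 := 0) (d1 := -1) (d2 := 0) (W := |w.im| + |w'.im|) (by linarith)
      (by linarith) (by rw [e]; ring) (by norm_num; linarith) (by norm_num; linarith) mX mY
      (fun z hz => ((t_Gr0 L H hz).mul_const _).mul_const _)
      (fun z hz => ((t_Gr0 L H.symm hz).mul_const _).mul_const _)
      (fun _ => w.im) (fun _ => w'.im) (Eventually.of_forall fun _ => ⟨?_, ?_⟩) ?_ ?_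
    · linarith [abs_nonneg w'.im]
    · linarith [abs_nonneg w.im]
    · filter_upwards [H.U] with e he
      exact fun z hz => (hb _ _ _ _ _ _ he w w' hw hw' z hz).1
    · filter_upwards [H.U] with e he
      exact fun z hz => (hb _ _ _ _ _ _ he w w' hw hw' z hz).2
  · simp only [if_neg hn]
    exact tendsto_const_nhds

theorem t_ZP' (L : Ln α β A B) (H : Fm F α β B D κ R p q x y hX hY p0 q0 x0 y0 hX0 hY0)
    (hK : 2 < κ + m) (n : ℕ) {σ : ℝ} (hσ : LnAB A B σ) {w w' : ℂ}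
    (hw : w.re = σ) (hw' : w'.re = B) :
    Tendsto (fun e => ZP' α β (x e) (y e) (hX e) (hY e) n n w w') F
      (𝓝 (ZP' α β x0 y0 hX0 hY0 n n w w')) := by
  have w1 := L.w.lo
  have w2 := L.w.hi
  have hl := lpos
  unfold ZP'
  by_cases hn : 1 ≤ n
  · simp only [if_pos hn]
    have e : ((n - 1 : ℕ) : ℝ) = (n : ℝ) - 1 := by
      rw [Nat.cast_sub hn]; norm_num
    obtain ⟨E, hE, hb⟩ := gb_P' L D κ R m hσ
    have mX : ∀ᶠ e in F, Measurable fun u => Gr0 (hX e) (x e) u * Ck (w - u) *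
        Ck (u - (w' + 3 * l)) := by
      filter_upwards [H.U] with e he
      exact ((Gr0_meas he.mX _).mul (Ck_meas w)).mul (Ck_meas' _)
    have mY : ∀ᶠ e in F, Measurable fun v => Gr0 (hY e) (y e) v * (Dk (w - v) * Ck (w' - v)) *
        qg (v - (w' + 3 * l)) := by
      filter_upwards [H.U] with e he
      exact ((Gr0_meas he.mY _).mul ((Dk_meas w).mul (Ck_meas w'))).mul (qg_meas' _)
    refine Z3_tendsto_two (D := E) (κ := κ + m) (κ' := κ + m) (s1 := 1) (s2 := 1) (r1 := -1)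
      (r2 := -1) (d0 := 0) (d1 := 0) (d2 := 1) (W := |w.im| + |w'.im|) (by linarith)
      (by linarith) (by rw [e]; ring) (by norm_num; linarith) (by norm_num; linarith) mX mY
      (fun z hz => ((t_Gr0 L H hz).mul_const _).mul_const _)
      (fun z hz => ((t_Gr0 L H.symm hz).mul_const _).mul_const _)
      (fun _ => w.im) (fun _ => w'.im) (Eventually.of_forall fun _ => ⟨?_, ?_⟩) ?_ ?_
    · linarith [abs_nonneg w'.im]
    · linarith [abs_nonneg w.im]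
    · filter_upwards [H.U] with e he
      exact fun z hz => (hb _ _ _ _ _ _ he w w' hw hw' z hz).1
    · filter_upwards [H.U] with e he
      exact fun z hz => (hb _ _ _ _ _ _ he w w' hw hw' z hz).2
  · simp only [if_neg hn]
    exact tendsto_const_nhds

theorem t_ZPP (L : Ln α β A B) (H : Fm F α β B D κ R p q x y hX hY p0 q0 x0 y0 hX0 hY0)
    (hK : 2 < κ + m) (n : ℕ) {w w' : ℂ} (hw : w.re = B) (hw' : w'.re = B) :
    Tendsto (fun e => ZPP α β (x e) (y e) (hX e) (hY e) n n w w') F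
      (𝓝 (ZPP α β x0 y0 hX0 hY0 n n w w')) := by
  have w1 := L.w.lo
  have w2 := L.w.hi
  have hl := lpos
  unfold ZPP
  by_cases hn : 1 ≤ n
  · simp only [if_pos (And.intro hn hn)]
    obtain ⟨E, hE, hb⟩ := gb_PP L D κ R m
    have mX : ∀ᶠ e in F, Measurable fun u => Gr0 (hX e) (x e) u * Ck (w - u) *
        qg (u - (w + 3 * l)) * Ck (u - (w' + 3 * l)) := by
      filter_upwards [H.U] with e he
      exact (((Gr0_meas he.mX _).mul (Ck_meas w)).mul (qg_meas' _)).mul (Ck_meas' _)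
    have mY : ∀ᶠ e in F, Measurable fun v => Gr0 (hY e) (y e) v * Ck (w' - v) *
        Ck (v - (w + 3 * l)) * qg (v - (w' + 3 * l)) := by
      filter_upwards [H.U] with e he
      exact (((Gr0_meas he.mY _).mul (Ck_meas w')).mul (Ck_meas' _)).mul (qg_meas' _)
    refine Z3_tendsto_two (D := E) (κ := κ + m) (κ' := κ + m) (s1 := -1) (s2 := 1) (r1 := 1)
      (r2 := -1) (d0 := 0) (d1 := 0) (d2 := 0) (W := |w.im| + |w'.im|) (by linarith)
      (by linarith) (by norm_num) (by norm_num; linarith) (by norm_num; linarith) mX mY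
      (fun z hz => (((t_Gr0 L H hz).mul_const _).mul_const _).mul_const _)
      (fun z hz => (((t_Gr0 L H.symm hz).mul_const _).mul_const _).mul_const _)
      (fun _ => w.im) (fun _ => w'.im) (Eventually.of_forall fun _ => ⟨?_, ?_⟩) ?_ ?_
    · linarith [abs_nonneg w'.im]
    · linarith [abs_nonneg w.im]
    · filter_upwards [H.U] with e he
      exact fun z hz => (hb _ _ _ _ _ _ he w w' hw hw' z hz).1
    · filter_upwards [H.U] with e he
      exact fun z hz => (hb _ _ _ _ _ _ he w w' hw hw' z hz).2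
  · simp only [if_neg (fun h : 1 ≤ n ∧ 1 ≤ n => hn h.1)]
    exact tendsto_const_nhds

theorem t_ZD (L : Ln α β A B) (H : Fm F α β B D κ R p q x y hX hY p0 q0 x0 y0 hX0 hY0)
    (hK : 2 < κ + m) (n : ℕ) {w : ℂ} (hw : w.re = B) :
    Tendsto (fun e => Z3 α β n n (Gr0 (hX e) (x e)) (fun v => Gr0 (hY e) (y e) v * Tk (w - v))) F
      (𝓝 (Z3 α β n n (Gr0 hX0 x0) (fun v => Gr0 hY0 y0 v * Tk (w - v)))) ∧
    Tendsto (fun e => Z3 α β n n (fun u => Gr0 (hX e) (x e) u * Tk (w - u)) (Gr0 (hY e) (y e))) F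
      (𝓝 (Z3 α β n n (fun u => Gr0 hX0 x0 u * Tk (w - u)) (Gr0 hY0 y0))) := by
  have w1 := L.w.lo
  have w2 := L.w.hi
  have hl := lpos
  obtain ⟨G, hG, bG⟩ := Gr0_box L D κ R m
  obtain ⟨c, pc, b⟩ := SB_Tk L
  have q1 : 0 ≤ G * c := by positivity
  have mT : Measurable fun u : ℂ => Tk (w - u) := m_Tk.comp (by fun_prop)
  have bT : ∀ z : ℂ, OnL α β z.re → ‖Tk (w - z)‖ ≤ c := by
    intro z hz
    have := b w z hw hz
    simpa using this
  have k1 : ∀ {p q : ℂ} {x y : Fin m → ℂ} {hX hY : ℂ → ℂ}, UD α β B D κ R p q x y hX hY →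
      ∀ z : ℂ, OnL α β z.re → ‖Gr0 hX x z‖ ≤ (G * c + G) * Real.exp (-((κ + m) * |z.im|)) :=
    fun U z hz => mono_c (bG _ _ _ _ _ _ U z hz) (by linarith)
  have k2 : ∀ {p q : ℂ} {x y : Fin m → ℂ} {hX hY : ℂ → ℂ}, UD α β B D κ R p q x y hX hY →
      ∀ z : ℂ, OnL α β z.re → ‖Gr0 hX x z * Tk (w - z)‖ ≤
        (G * c + G) * Real.exp (-((κ + m) * |z.im|)) := by
    intro p q x y hX hY U z hz
    rw [norm_mul]
    calc _ ≤ (G * Real.exp (-((κ + m) * |z.im|))) * c :=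
          mul_le_mul (bG p q x y hX hY U z hz) (bT z hz) (norm_nonneg _) (by positivity)
      _ = (G * c) * Real.exp (-((κ + m) * |z.im|)) := by ring
      _ ≤ _ := mul_le_mul_of_nonneg_right (by linarith) (Real.exp_pos _).le
  constructor
  · refine Z3_tendsto (D := G * c + G) (κ := κ + m) (κ' := κ + m) (by linarith) (by linarith)
      ?_ (mGr H.symm _ mT) (fun z hz => t_Gr0 L H hz)
      (fun z hz => (t_Gr0 L H.symm hz).mul_const _) ?_ ?_ (by linarith) (by linarith)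
    · filter_upwards [H.U] with e he
      exact Gr0_meas he.mX _
    · filter_upwards [H.U] with e he
      exact k1 he
    · filter_upwards [H.U] with e he
      exact k2 he.symm
  · refine Z3_tendsto (D := G * c + G) (κ := κ + m) (κ' := κ + m) (by linarith) (by linarith)
      (mGr H _ mT) ?_ (fun z hz => (t_Gr0 L H hz).mul_const _)
      (fun z hz => t_Gr0 L H.symm hz) ?_ ?_ (by linarith) (by linarith)
    · filter_upwards [H.U] with e he
      exact Gr0_meas he.mY _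
    · filter_upwards [H.U] with e he
      exact k2 he
    · filter_upwards [H.U] with e he
      exact k1 he.symm

/-! ### the eleven integrals -/

theorem t_I0 (L : Ln α β A B) (H : Fm F α β B D κ R p q x y hX hY p0 q0 x0 y0 hX0 hY0)
    (hK : 2 < κ + m) (n : ℕ) {σ τ : ℝ} (hσ : LnAB A B σ) (hτ : LnAB A B τ) :
    Tendsto (fun e => LL σ τ (I0 α β (p e) (q e) (x e) (y e) (hX e) (hY e) n n)) F
      (𝓝 (LL σ τ (I0 α β p0 q0 x0 y0 hX0 hY0 n n))) := by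
  obtain ⟨C, hC⟩ := db_I0 L D κ R n hK hσ hτ
  obtain ⟨f1, f2⟩ := Far_AB L hσ
  obtain ⟨f3, f4⟩ := Far_AB L hτ
  refine LL_tendsto (C := C) ?_ ?_ fun s t => ?_
  · filter_upwards [H.U] with e he
    exact m_I0 he.mX he.mY _ _ n n
  · filter_upwards [H.U] with e he
    exact hC _ _ _ _ _ _ he
  · exact (Tendsto.const_mul _ ((t_pr1 H f1 f2 (vlre σ s)).mul
      (t_pr1 H.symm f3 f4 (vlre τ t)))).mul (t_Z0 L H hK n hσ hτ (vlre _ _) (vlre _ _))

theorem t_IP (L : Ln α β A B) (H : Fm F α β B D κ R p q x y hX hY p0 q0 x0 y0 hX0 hY0)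
    (hK : 2 < κ + m) (n : ℕ) {τ : ℝ} (hτ : LnAB A B τ) :
    Tendsto (fun e => LL B τ (IP α β (p e) (q e) (x e) (y e) (hX e) (hY e) n n)) F
      (𝓝 (LL B τ (IP α β p0 q0 x0 y0 hX0 hY0 n n))) := by
  obtain ⟨C, hC⟩ := db_IP L D κ R n hK hτ
  obtain ⟨f1, f2⟩ := Far_AB L (σ := B) (Or.inr rfl)
  obtain ⟨f3, f4⟩ := Far_AB L hτ
  refine LL_tendsto (C := C) ?_ ?_ fun s t => ?_
  · filter_upwards [H.U] with e he
    exact m_IP he.mX he.mY _ _ n n
  · filter_upwards [H.U] with e he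
    exact hC _ _ _ _ _ _ he
  · exact (Tendsto.const_mul _ (Tendsto.const_mul _ (((t_prc H f1 f2 (vlre B s)).mul
      (H.tY _ (Or.inr (vl3_re B s)))).mul (t_pr1 H.symm f3 f4 (vlre τ t))))).mul
      (t_ZP L H hK n hτ (vlre _ _) (vlre _ _))

theorem t_IP' (L : Ln α β A B) (H : Fm F α β B D κ R p q x y hX hY p0 q0 x0 y0 hX0 hY0)
    (hK : 2 < κ + m) (n : ℕ) {σ : ℝ} (hσ : LnAB A B σ) :
    Tendsto (fun e => LL σ B (IP' α β (p e) (q e) (x e) (y e) (hX e) (hY e) n n)) F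
      (𝓝 (LL σ B (IP' α β p0 q0 x0 y0 hX0 hY0 n n))) := by
  obtain ⟨C, hC⟩ := db_IP' L D κ R n hK hσ
  obtain ⟨f1, f2⟩ := Far_AB L (σ := B) (Or.inr rfl)
  obtain ⟨f3, f4⟩ := Far_AB L hσ
  refine LL_tendsto (C := C) ?_ ?_ fun s t => ?_
  · filter_upwards [H.U] with e he
    exact m_IP' he.mX he.mY _ _ n n
  · filter_upwards [H.U] with e he
    exact hC _ _ _ _ _ _ he
  · exact (Tendsto.const_mul _ (Tendsto.const_mul _ ((t_pr1 H f3 f4 (vlre σ s)).mul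
      ((t_prc H.symm f1 f2 (vlre B t)).mul (H.tX _ (Or.inr (vl3_re B t))))))).mul
      (t_ZP' L H hK n hσ (vlre _ _) (vlre _ _))

theorem t_IPP (L : Ln α β A B) (H : Fm F α β B D κ R p q x y hX hY p0 q0 x0 y0 hX0 hY0)
    (hK : 2 < κ + m) (n : ℕ) :
    Tendsto (fun e => LL B B (IPP α β (p e) (q e) (x e) (y e) (hX e) (hY e) n n)) F
      (𝓝 (LL B B (IPP α β p0 q0 x0 y0 hX0 hY0 n n))) := by
  obtain ⟨C, hC⟩ := db_IPP L D κ R n hK
  obtain ⟨f1, f2⟩ := Far_AB L (σ := B) (Or.inr rfl)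
  refine LL_tendsto (C := C) ?_ ?_ fun s t => ?_
  · filter_upwards [H.U] with e he
    exact m_IPP he.mX he.mY _ _ n n
  · filter_upwards [H.U] with e he
    exact hC _ _ _ _ _ _ he
  · exact (Tendsto.const_mul _ (Tendsto.const_mul _ (((t_prc H f1 f2 (vlre B s)).mul
      (H.tY _ (Or.inr (vl3_re B s)))).mul ((t_prc H.symm f1 f2 (vlre B t)).mul
      (H.tX _ (Or.inr (vl3_re B t))))))).mul (t_ZPP L H hK n (vlre _ _) (vlre _ _))

theorem t_ID (L : Ln α β A B) (H : Fm F α β B D κ R p q x y hX hY p0 q0 x0 y0 hX0 hY0)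
    (hK : 2 < κ + m) (n : ℕ) :
    Tendsto (fun e => LI B (ID α β (p e) (q e) (x e) (y e) (hX e) (hY e) n n)) F
      (𝓝 (LI B (ID α β p0 q0 x0 y0 hX0 hY0 n n))) ∧
    Tendsto (fun e => LI B (ID' α β (p e) (q e) (x e) (y e) (hX e) (hY e) n n)) F
      (𝓝 (LI B (ID' α β p0 q0 x0 y0 hX0 hY0 n n))) := by
  obtain ⟨C, hC⟩ := db_ID L D κ R n hK
  constructor
  · refine LI_tendsto (C := C) ?_ ?_ fun t => ?_
    · filter_upwards [H.U] with e he
      exact m_ID he.mX he.mY _ _ n n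
    · filter_upwards [H.U] with e he
      exact fun t => (hC _ _ _ _ _ _ he t).1
    · exact (t_XD L H (vlre _ _)).mul (t_ZD L H hK n (vlre _ _)).1
  · refine LI_tendsto (C := C) ?_ ?_ fun t => ?_
    · filter_upwards [H.U] with e he
      exact m_ID' he.mX he.mY _ _ n n
    · filter_upwards [H.U] with e he
      exact fun t => (hC _ _ _ _ _ _ he t).2
    · exact (t_XD L H.symm (vlre _ _)).mul (t_ZD L H hK n (vlre _ _)).2

/-- **The eleven integrals converge.** -/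
theorem E11_tendsto (L : Ln α β A B) (H : Fm F α β B D κ R p q x y hX hY p0 q0 x0 y0 hX0 hY0)
    (hK : 2 < κ + m) (n : ℕ) :
    Tendsto (fun e => E11 α β (p e) (q e) (x e) (y e) (hX e) (hY e) n n A B) F
      (𝓝 (E11 α β p0 q0 x0 y0 hX0 hY0 n n A B)) := by
  have hA : LnAB A B A := Or.inl rfl
  have hB : LnAB A B B := Or.inr rfl
  unfold E11
  exact (((((t_I0 L H hK n hA hA).sub (t_I0 L H hK n hA hB)).sub (t_IP' L H hK n hA)).sub
    ((t_I0 L H hK n hB hA).add (t_IP L H hK n hA))).add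
    ((((t_I0 L H hK n hB hB).add (t_IP' L H hK n hB)).add (t_IP L H hK n hB)).add
      (t_IPP L H hK n))).sub
    (((t_ID L H hK n).1.add (t_ID L H hK n).2).const_mul _)

end

end NUP1.N

end
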