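import Pool.Agent.NUP1L.RowB
import Pool.Agent.NUP1L.FinalF
import Pool.Agent.NUP1L.FinalG

/-!
# The limit of the two-point function when the rows and the ends get equal heights
-/

set_option autoImplicit false
set_option linter.unusedSectionVars false

noncomputable section

open Complex MeasureTheory Filter Topology

namespace NUP1.Leg

open NUTP (th ea)
open NUTP.Gas (gasF)
open NUP1.N (Ln UD RD Fm E11 Bx OnL LnAB)

variable {m : ℕ}

theorem FF_eq (z : ℂ) : FF z = sin (z + 2 * l) * sin (z + 3 * l) * sin (z + 5 * l) *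
    sin (z + 6 * l) := by
  unfold FF
  simp only [snz]
  push_cast
  rfl

theorem tendsto_Bp {ι : Type*} {F : Filter ι} {r o : ι → ℂ} {r0 o0 : ℂ} {x : ι → Fin m → ℂ}
    {x0 : Fin m → ℂ} (tr : Tendsto r F (𝓝 r0)) (to' : Tendsto o F (𝓝 o0))
    (tx : ∀ i, Tendsto (fun e => x e i) F (𝓝 (x0 i))) :
    Tendsto (fun e => Bp (r e) (o e) (x e)) F (𝓝 (Bp r0 o0 x0)) := by
  have c1 : Continuous fun p : ℂ × ℂ × ℂ => sin l * EX p.1 p.2.1 p.2.2 := by
    unfold EX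
    fun_prop
  have c2 : Continuous FF := by
    rw [show FF = fun z => sin (z + 2 * l) * sin (z + 3 * l) * sin (z + 5 * l) *
      sin (z + 6 * l) from funext FF_eq]
    fun_prop
  unfold Bp
  refine (tendsto_finsetProd _ fun i _ => ?_).mul ?_
  · have h := (c1.tendsto (r0, o0, x0 i)).comp (tr.prodMk_nhds (to'.prodMk_nhds (tx i)))
    simp only [Function.comp_def] at h
    exact h
  · unfold NUP1.Grand.P
    refine tendsto_finsetProd _ fun i _ => tendsto_finsetProd _ fun j _ => ?_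
    by_cases h : i < j
    · simp only [if_pos h]
      exact (c2.tendsto _).comp ((tx i).sub (tx j))
    · simp only [if_neg h]
      exact tendsto_const_nhds

/-- uniform data from the box -/
theorem UD_hC {α β B b : ℝ} {D D' R : ℝ} (c : ℂ) {p h q g : ℂ} {x y : Fin m → ℂ}
    (h1 : Bx R h) (h4 : Bx R g)
    (hx : ∀ i, Bx R (x i)) (hy : ∀ i, Bx R (y i))
    (b1 : ∀ z : ℂ, (OnL α β z.re ∨ z.re = B + 3 * l) →
      ‖hC b c h p g q x y z‖ ≤ D * Real.exp (-((2 * b - m) * |z.im|)))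
    (b2 : ∀ z : ℂ, (OnL α β z.re ∨ z.re = B + 3 * l) →
      ‖hC b c g q h p y x z‖ ≤ D' * Real.exp (-((2 * b - m) * |z.im|))) :
    UD α β B (max D D') (2 * b - m) R h g x y (hC b c h p g q x y) (hC b c g q h p y x) :=
  ⟨h1, h4, hx, hy, meas_hC _ _ _ _ _ _ _ _, meas_hC _ _ _ _ _ _ _ _,
    fun z hz => (b1 z hz).trans (mul_le_mul_of_nonneg_right (le_max_left _ _) (Real.exp_pos _).le),
    fun z hz => (b2 z hz).trans (mul_le_mul_of_nonneg_right (le_max_right _ _) (Real.exp_pos _).le)⟩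

/-- **The two-point function `RE` for equal heights of the rows and the ends**: the eleven
integrals at the limit of the heights. -/
theorem RE_tendsto {ι : Type*} {F : Filter ι} [F.IsCountablyGenerated] {a b R : ℝ}
    (ha : a = 31 / 50 ∨ a = 5 / 4) (hb : 1 < b) (hb' : b ≤ 4 / 3)
    {p h q g : ι → ℂ} {x y : ι → Fin m → ℂ} {p0 h0 q0 g0 : ℂ} {x0 y0 : Fin m → ℂ}
    (H : ∀ᶠ e in F, Ht (p e) (h e) (q e) (g e) (x e) (y e))
    (B1 : ∀ᶠ e in F, Bx R (p e)) (B2 : ∀ᶠ e in F, Bx R (h e)) (B3 : ∀ᶠ e in F, Bx R (q e))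
    (B4 : ∀ᶠ e in F, Bx R (g e)) (B5 : ∀ᶠ e in F, ∀ i, Bx R (x e i))
    (B6 : ∀ᶠ e in F, ∀ i, Bx R (y e i))
    (b1 : Bx R p0) (b2 : Bx R h0) (b3 : Bx R q0) (b4 : Bx R g0) (b5 : ∀ i, Bx R (x0 i))
    (b6 : ∀ i, Bx R (y0 i))
    (t1 : Tendsto p F (𝓝 p0)) (t2 : Tendsto h F (𝓝 h0)) (t3 : Tendsto q F (𝓝 q0))
    (t4 : Tendsto g F (𝓝 g0)) (t5 : ∀ i, Tendsto (fun e => x e i) F (𝓝 (x0 i)))
    (t6 : ∀ i, Tendsto (fun e => y e i) F (𝓝 (y0 i))) :
    Tendsto (fun e => (gasF th 1 true (ea (-(q e))) (ea (-(g e)))).RE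
      (List.ofFn fun i => ea (-(x e i))) (List.ofFn fun j => ea (-(y e j))) (ea (-(p e)))
      (ea (-(h e)))) F
    (𝓝 (sin l * (Bp h0 q0 x0 * Bp g0 p0 y0) * ∑ n ∈ Finset.range (2 * m + 1),
      E11 (3 / 5 * l) (-(17 / 10) * l) h0 g0 x0 y0 (hC b (cc m) h0 p0 g0 q0 x0 y0)
        (hC b (cc m) g0 q0 h0 p0 y0 x0) n n (a * l) (-(11 / 4) * l))) := by
  have hl := lpos
  have L := NUP1.N.Ln_start ha
  have hb0 : 0 < b := by linarith
  -- the lines
  have hline : ∀ z : ℂ, (OnL (3 / 5 * l) (-(17 / 10) * l) z.re ∨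
      z.re = -(11 / 4) * l + 3 * l) → z.re ∈ K4 := by
    intro z hz
    simp only [K4, Set.mem_insert_iff, Set.mem_singleton_iff]
    rcases hz with (hz | hz | hz) | hz
    · exact Or.inl hz
    · exact Or.inr (Or.inl hz)
    · exact Or.inr (Or.inr (Or.inl hz))
    · exact Or.inr (Or.inr (Or.inr (by rw [hz]; ring)))
  obtain ⟨D, hD, bD⟩ := bd_hC Kok_K4 hb0 hb' (cc m) m m R
  have hκ : (2 * b + m - 2 * m : ℝ) = 2 * b - m := by ring
  have bD' : ∀ {r o r' o' : ℂ} {x y : Fin m → ℂ}, Bx R r → Bx R o → Bx R r' → Bx R o' →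
      (∀ i, Bx R (x i)) → (∀ i, Bx R (y i)) → ∀ z : ℂ,
      (OnL (3 / 5 * l) (-(17 / 10) * l) z.re ∨ z.re = -(11 / 4) * l + 3 * l) →
      ‖hC b (cc m) r o r' o' x y z‖ ≤ D * Real.exp (-((2 * b - m) * |z.im|)) := by
    intro r o r' o' x y h1 h2 h3 h4 h5 h6 z hz
    have := bD r o r' o' x y h1 h2 h3 h4 h5 h6 z (hline z hz)
    rwa [hκ] at this
  -- the family
  have hF : Fm F (3 / 5 * l) (-(17 / 10) * l) (-(11 / 4) * l) (max D D) (2 * b - m) R h g x y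
      (fun e => hC b (cc m) (h e) (p e) (g e) (q e) (x e) (y e))
      (fun e => hC b (cc m) (g e) (q e) (h e) (p e) (y e) (x e)) h0 g0 x0 y0
      (hC b (cc m) h0 p0 g0 q0 x0 y0) (hC b (cc m) g0 q0 h0 p0 y0 x0) := by
    refine ⟨?_, b2, b4, b5, b6, t2, t4, t5, t6, fun z hz => ?_, fun z hz => ?_⟩
    · filter_upwards [B1, B2, B3, B4, B5, B6] with e k1 k2 k3 k4 k5 k6
      exact UD_hC (cc m) k2 k4 k5 k6 (fun z hz => bD' k2 k1 k4 k3 k5 k6 z hz)
        fun z hz => bD' k4 k3 k2 k1 k6 k5 z hz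
    · exact tendsto_hC Kok_K4 (hline z hz) hb0 hb' (cc m) t2 t1 t4 t3 t5 t6 b2.1 b3.1
        fun i => (b5 i).1
    · exact tendsto_hC Kok_K4 (hline z hz) hb0 hb' (cc m) t4 t3 t2 t1 t6 t5 b4.1 b1.1
        fun i => (b6 i).1
  have hK : 2 < (2 * b - m : ℝ) + m := by linarith
  -- the limit of the integrals
  have hlim : Tendsto (fun e => sin l * (Bp (h e) (q e) (x e) * Bp (g e) (p e) (y e)) *
      ∑ n ∈ Finset.range (2 * m + 1), E11 (3 / 5 * l) (-(17 / 10) * l) (h e) (g e) (x e) (y e)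
        (hC b (cc m) (h e) (p e) (g e) (q e) (x e) (y e))
        (hC b (cc m) (g e) (q e) (h e) (p e) (y e) (x e)) n n (a * l) (-(11 / 4) * l)) F
      (𝓝 (sin l * (Bp h0 q0 x0 * Bp g0 p0 y0) * ∑ n ∈ Finset.range (2 * m + 1),
        E11 (3 / 5 * l) (-(17 / 10) * l) h0 g0 x0 y0 (hC b (cc m) h0 p0 g0 q0 x0 y0)
          (hC b (cc m) g0 q0 h0 p0 y0 x0) n n (a * l) (-(11 / 4) * l))) :=
    (tendsto_const_nhds.mul ((tendsto_Bp t2 t3 t5).mul (tendsto_Bp t4 t1 t6))).mul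
      (tendsto_finsetSum _ fun n _ => NUP1.N.E11_tendsto L hF hK n)
  refine hlim.congr' ?_
  filter_upwards [H, B1, B2, B3, B4, B5, B6] with e He k1 k2 k3 k4 k5 k6
  have hRp : Rp (h e) (g e) (x e) (y e) := ⟨k2.1, k4.1, fun i => (k5 i).1, fun i => (k6 i).1⟩
  rw [RE_LL He hRp le_rfl L.a3 L.a4 L.b4 L.b5 L.d1 L.d2]
  congr 1
  refine Finset.sum_congr rfl fun n _ => ?_
  rw [Nat.sub_self, add_zero, ← LegJ_hC b]
  refine (NUP1.N.LegJ_E11 L (κ := 2 * b - m) ?_ (κ₀ := 2 * b - m) (R := R) (D := max D D) ?_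
    hK).symm
  · have := RD_hC (R := R) (α := 3 / 5 * l) (β := -(17 / 10) * l) (b := b) (by linarith)
      (by linarith) (by linarith) (by linarith) hb0 hb' (cc m) (cc m) k2 k1 k4 k3 k4 k3 k2 k1 k5
      k6 He.xx He.yy (n := n) (n' := n) rfl
    rwa [hκ] at this
  · exact UD_hC (cc m) k2 k4 k5 k6 (fun z hz => bD' k2 k1 k4 k3 k5 k6 z hz)
      fun z hz => bD' k4 k3 k2 k1 k6 k5 z hz

end NUP1.Leg

end
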