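import Pool.Agent.NUP1L.Swap
import Pool.Agent.NUP1L.RowC
import Pool.Agent.NURow.Conv

/-!
# The eleven integrals at the rows `± l / 2`, any order of the rows, both signs of the ends
-/

set_option autoImplicit false
set_option linter.unusedSectionVars false

noncomputable section

open Complex MeasureTheory Filter Topology

namespace NUP1.Rws

open NUP1.N (Bx PE E11 UD Ln Ln_start OnL E11_swap E11_congr)
open Leg (hC hE hr thE cc cut K4 Kok_K4 bd_hC UD_hC)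
open NURow (x0 prod_x0 hX0 hY0 h0)

variable {m M : ℕ}

theorem hE_congr {x x' : Fin m → ℂ} {y y' : Fin M → ℂ} (h : PE x x') (h' : PE y y')
    (c r o r' o' : ℂ) : hE c r o r' o' x y = hE c r o r' o' x' y' := by
  funext u
  unfold Leg.hE Leg.hr
  rw [h fun v => 1 / sin (u - v - 2 * l), h' fun v => sin (u - v + 3 * l) ^ 2]

theorem cut_congr {x x' : Fin m → ℂ} (h : PE x x') (b : ℝ) : cut b x = cut b x' := by
  funext u
  unfold Leg.cut
  rw [NURow.phi_ofFn, NURow.phi_ofFn, h fun v => psi b (u - v)]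

theorem hC_congr {x x' : Fin m → ℂ} {y y' : Fin M → ℂ} (h : PE x x') (h' : PE y y') (b : ℝ)
    (c r o r' o' : ℂ) : hC b c r o r' o' x y = hC b c r o r' o' x' y' := by
  funext u
  unfold Leg.hC
  rw [hE_congr h h', cut_congr h]

theorem hC_x0 (b : ℝ) (M : ℕ) (r o r' o' : ℂ) :
    hC b (cc (2 * M)) r o r' o' (x0 M) (x0 M) = h0 b M r o r' o' := by
  funext u
  unfold Leg.hC Leg.cut NURow.h0
  rw [NURow.phi_ofFn]

/-- the eleven integrals at the rows `± l / 2` -/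
def EE (a b : ℝ) (M n : ℕ) : ℂ :=
  E11 (3 / 5 * l) (-(17 / 10) * l) (-((l : ℂ) / 2)) ((l : ℂ) / 2) (x0 M) (x0 M) (hX0 b M)
    (hY0 b M) n n (a * l) (-(11 / 4) * l)

theorem x0_box (M : ℕ) (i : Fin (2 * M)) : Bx 0 (x0 M i) := by
  have hl := lpos
  have e1 : ((l : ℂ) / 2).re = l / 2 := by
    rw [show (l : ℂ) / 2 = ((l / 2 : ℝ) : ℂ) by push_cast; rfl, ofReal_re]
  have e2 : ((l : ℂ) / 2).im = 0 := by
    rw [show (l : ℂ) / 2 = ((l / 2 : ℝ) : ℂ) by push_cast; rfl, ofReal_im]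
  unfold NURow.x0
  split_ifs
  · refine ⟨?_, ?_⟩
    · rw [e1, abs_of_pos (by linarith)]
    · rw [e2, abs_zero]
  · refine ⟨?_, ?_⟩
    · rw [neg_re, e1, abs_neg, abs_of_pos (by linarith)]
    · rw [neg_im, e2, neg_zero, abs_zero]

theorem l2_box : Bx 0 ((l : ℂ) / 2) ∧ Bx 0 (-((l : ℂ) / 2)) := by
  have hl := lpos
  have e1 : ((l : ℂ) / 2).re = l / 2 := by
    rw [show (l : ℂ) / 2 = ((l / 2 : ℝ) : ℂ) by push_cast; rfl, ofReal_re]
  have e2 : ((l : ℂ) / 2).im = 0 := by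
    rw [show (l : ℂ) / 2 = ((l / 2 : ℝ) : ℂ) by push_cast; rfl, ofReal_im]
  refine ⟨⟨?_, ?_⟩, ⟨?_, ?_⟩⟩
  · rw [e1, abs_of_pos (by linarith)]
  · rw [e2, abs_zero]
  · rw [neg_re, e1, abs_neg, abs_of_pos (by linarith)]
  · rw [neg_im, e2, neg_zero, abs_zero]

/-- **The eleven integrals of the alternating rows with the ends of `NU5`** are those of `NURow`. -/
theorem E11_eq_EE {a b : ℝ} (ha : a = 31 / 50 ∨ a = 5 / 4) (hb : 1 < b) (hb' : b ≤ 4 / 3) (M n : ℕ)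
    {x y : Fin (2 * M) → ℂ} (hx : PE x (x0 M)) (hy : PE y (x0 M)) :
    E11 (3 / 5 * l) (-(17 / 10) * l) ((l : ℂ) / 2) (-((l : ℂ) / 2)) x y
      (hC b (cc (2 * M)) ((l : ℂ) / 2) ((l : ℂ) / 2) (-((l : ℂ) / 2)) (-((l : ℂ) / 2)) x y)
      (hC b (cc (2 * M)) (-((l : ℂ) / 2)) (-((l : ℂ) / 2)) ((l : ℂ) / 2) ((l : ℂ) / 2) y x) n n
      (a * l) (-(11 / 4) * l) = EE a b M n := by
  have hb0 : 0 < b := by linarith
  rw [E11_congr hx hy, hC_congr hx hy, hC_congr hy hx]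
  obtain ⟨D, hD, bD⟩ := bd_hC Kok_K4 hb0 hb' (cc (2 * M)) (2 * M) (2 * M) 0
  have bD' : ∀ {r o r' o' : ℂ}, Bx 0 r → Bx 0 o → Bx 0 r' → Bx 0 o' → ∀ z : ℂ,
      (OnL (3 / 5 * l) (-(17 / 10) * l) z.re ∨ z.re = -(11 / 4) * l + 3 * l) →
      ‖hC b (cc (2 * M)) r o r' o' (x0 M) (x0 M) z‖ ≤
        D * Real.exp (-((2 * b - ((2 * M : ℕ) : ℝ)) * |z.im|)) := by
    intro r o r' o' h1 h2 h3 h4 z hz
    have hz' : z.re ∈ K4 := by
      simp only [K4, Set.mem_insert_iff, Set.mem_singleton_iff]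
      rcases hz with (hz | hz | hz) | hz
      · exact Or.inl hz
      · exact Or.inr (Or.inl hz)
      · exact Or.inr (Or.inr (Or.inl hz))
      · exact Or.inr (Or.inr (Or.inr (by rw [hz]; ring)))
    have := bD r o r' o' (x0 M) (x0 M) h1 h2 h3 h4 (x0_box M) (x0_box M) z hz'
    rwa [show (2 * b + ((2 * M : ℕ) : ℝ) - 2 * ((2 * M : ℕ) : ℝ) : ℝ) =
      2 * b - ((2 * M : ℕ) : ℝ) by ring] at this
  obtain ⟨c1, c2⟩ := l2_box
  have U := UD_hC (α := 3 / 5 * l) (β := -(17 / 10) * l) (B := -(11 / 4) * l) (b := b)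
    (cc (2 * M)) (p := (l : ℂ) / 2) (q := -((l : ℂ) / 2)) c1 c2 (x0_box M) (x0_box M)
    (bD' c1 c1 c2 c2) (bD' c2 c2 c1 c1)
  have hK : 2 < (2 * b - ((2 * M : ℕ) : ℝ)) + ((2 * M : ℕ) : ℝ) := by linarith
  rw [E11_swap (Ln_start ha) U hK n, hC_x0, hC_x0]
  rfl

end NUP1.Rws

end
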