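import Pool.Agent.NUP1L.Strip

/-!
# Two species, distinct rows, in any strip `l < α - β < 3 l`
-/

set_option autoImplicit false
set_option linter.unusedSectionVars false

noncomputable section

open Complex MeasureTheory

namespace NUP1.N

open Bd (Ob pt one oneL qg cwo Hc Ql Dec Z2 chg)

variable {α β κ : ℝ} {S : Finset Site} {g : ℂ → ℂ}

theorem cwo_diff (hw : Wd α β) (k : Ob) (t : ℝ) {z : ℂ} (h1 : β ≤ z.re) (h2 : z.re ≤ α) :
    DifferentiableAt ℂ (fun z => cwo k (z - pt α β k t)) z := by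
  have hl := lpos
  have h3 := hw.lo
  have h4 := hw.hi
  cases k
  · refine qg_diff ?_
    rw [abs_lt]
    show _ < z.re - (vl α t).re ∧ z.re - (vl α t).re < _
    rw [vlre]
    constructor <;> linarith
  · refine qg_diff ?_
    rw [abs_lt]
    show _ < z.re - (vl β t).re ∧ z.re - (vl β t).re < _
    rw [vlre]
    constructor <;> linarith
  · show DifferentiableAt ℂ (fun z => qg (z - vl (β + l) t) * qg (z - vl (β + l) t + l)) z
    refine DifferentiableAt.mul (qg_diff ?_) ?_
    · rw [abs_lt, vlre]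
      constructor <;> linarith
    · have e : (fun z : ℂ => qg (z - vl (β + l) t + l)) = fun z => qg (z - (vl (β + l) t - l)) := by
        funext z
        rw [show z - vl (β + l) t + l = z - (vl (β + l) t - l) by ring]
      rw [e]
      refine qg_diff ?_
      rw [abs_lt, sub_re, vlre, ofReal_re]
      constructor <;> linarith

theorem Hc_diff (hw : Wd α β) {r : ℕ} (k : Fin r → Ob) (t : Fin r → ℝ) {z : ℂ}
    (h1 : β ≤ z.re) (h2 : z.re ≤ α) : DifferentiableAt ℂ (Hc α β k t) z := by
  unfold Hc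
  have := DifferentiableAt.fun_finsetProd (𝕜 := ℂ) (u := Finset.univ)
    (f := fun i z => cwo (k i) (z - pt α β (k i) (t i))) (x := z)
    (fun i _ => cwo_diff hw (k i) (t i) h1 h2)
  exact this

theorem Gf_rows_cont {m : ℕ} {x : Fin m → ℂ} (hw : Wd α β) (hx : ∀ i j, i ≠ j → Sp (x i) (x j))
    (ox : ∀ i, Ok α β (Kd.R0, x i)) {h : ℂ → ℂ}
    (ah : ∀ z : ℂ, β ≤ z.re → z.re ≤ α → DifferentiableAt ℂ h z) {z : ℂ}
    (hz : z.re = α ∨ z.re = β ∨ z.re = β + l) : ContinuousAt (Gf (rows x) h) z := by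
  have hl := lpos
  have h3 := hw.lo
  have h4 := hw.hi
  have hz1 : β ≤ z.re ∧ z.re ≤ α := by rcases hz with hz | hz | hz <;> constructor <;> linarith
  have e : Gf (rows x) h = fun u => h u * ∏ i, 1 / sin (u - x i) := funext fun u => Gf_rows hx h u
  rw [e]
  refine (ah z hz1.1 hz1.2).continuousAt.mul ?_
  have hc : ∀ i ∈ (Finset.univ : Finset (Fin m)), ContinuousAt (fun u => 1 / sin (u - x i)) z := by
    intro i _
    obtain ⟨o1, o2, o3, o4⟩ := ox i
    have hne : sin (z - x i) ≠ 0 := by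
      refine sin_ne_re' ?_ ?_ ?_
      · simp only [sub_re]; linarith [hz1.1]
      · simp only [sub_re]; linarith [hz1.2]
      · simp only [sub_re]
        rcases hz with hz | hz | hz
        · rw [hz]; exact (sub_pos.2 o2).ne'
        · rw [hz]
          have : β - (x i).re < 0 := by linarith
          exact this.ne
        · rw [hz]; exact (sub_neg.2 o1).ne
    have hd : DifferentiableAt ℂ (fun u => 1 / sin (u - x i)) z := by
      fun_prop (disch := exact hne)
    exact hd.continuousAt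
  exact tendsto_finsetProd _ hc

theorem dec_of_gr (hw : Wd α β) {G : ℂ → ℂ} (hG : Gr α β (-κ) G)
    (hc : ∀ z : ℂ, (z.re = α ∨ z.re = β ∨ z.re = β + l) → ContinuousAt G z) : Dec α β κ G := by
  have hl := lpos
  have h3 := hw.lo
  obtain ⟨A, hA, ha⟩ := line_bound (σ := α) ⟨by linarith, le_rfl⟩ hG fun z hz => hc z (Or.inl hz)
  obtain ⟨B, hB, hb⟩ := line_bound (σ := β) ⟨le_rfl, by linarith⟩ hG fun z hz =>
    hc z (Or.inr (Or.inl hz))
  obtain ⟨C, hC, hc'⟩ := line_bound (σ := β + l) ⟨by linarith, by linarith⟩ hG fun z hz =>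
    hc z (Or.inr (Or.inr hz))
  refine ⟨A + B + C, by positivity, fun z hz => ?_⟩
  rcases hz with hz | hz | hz
  · exact (ha z hz).trans (mul_le_mul_of_nonneg_right (by linarith) (Real.exp_pos _).le)
  · exact (hb z hz).trans (mul_le_mul_of_nonneg_right (by linarith) (Real.exp_pos _).le)
  · exact (hc' z hz).trans (mul_le_mul_of_nonneg_right (by linarith) (Real.exp_pos _).le)

/-- one species with an analytic spectator: the sum over the states is the contour side -/
theorem states_K (hw : Wd α β) {m : ℕ} {x : Fin m → ℂ} (hx : ∀ i j, i ≠ j → Sp (x i) (x j))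
    (ox : ∀ i, Ok α β (Kd.R0, x i)) {h k : ℂ → ℂ}
    (ah : ∀ z : ℂ, β ≤ z.re → z.re ≤ α → DifferentiableAt ℂ h z)
    (ak : ∀ z : ℂ, β ≤ z.re → z.re ≤ α → DifferentiableAt ℂ k z) {κ κ' : ℝ}
    (gh : Gr α β (-κ) (Gf (rows x) h)) (gk : Gr α β (-κ') k) (n : ℕ)
    (hn : 2 * ((n : ℝ) - 1) < κ + κ') :
    ∑ a ∈ St m n, sta x h a * ((Us x a).map k).prod =
      K α β n (fun u => Gf (rows x) h u * k u) := by
  have e1 : (fun u => Gf (rows x) h u * k u) = Gf (rows x) (fun u => h u * k u) := by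
    funext u
    rw [Gf_mul]
  have g1 : Gr α β (-(κ + κ')) (Gf (rows x) (fun u => h u * k u)) := by
    rw [← e1]
    exact (gh.mul gk).mono (le_of_eq (by ring))
  have h1 := main hw n (rows_good hx ox (h := fun u => h u * k u)
    fun z h1 h2 => (ah z h1 h2).mul (ak z h1 h2)) hn g1
  rw [e1, h1, T_rows x hx]
  unfold St
  rw [Finset.sum_filter]
  refine Finset.sum_congr rfl fun a _ => ?_
  rw [Us_prod, sta_mul]

/-- **Two species, distinct rows: the sum over the states is the joint contour integral.** -/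
theorem assem (hw : Wd α β) {m M : ℕ} {x : Fin m → ℂ} {y : Fin M → ℂ}
    (hx : ∀ i j, i ≠ j → Sp (x i) (x j)) (hy : ∀ i j, i ≠ j → Sp (y i) (y j))
    (ox : ∀ i, Ok α β (Kd.R0, x i)) (oy : ∀ i, Ok α β (Kd.R0, y i)) {hX hY : ℂ → ℂ}
    (aX : ∀ z : ℂ, β ≤ z.re → z.re ≤ α → DifferentiableAt ℂ hX z)
    (aY : ∀ z : ℂ, β ≤ z.re → z.re ≤ α → DifferentiableAt ℂ hY z)
    (mX : Measurable hX) (mY : Measurable hY) {κ : ℝ} (hκ : 0 < κ)
    (gX : Gr α β (-κ) (Gf (rows x) hX)) (gY : Gr α β (-κ) (Gf (rows y) hY)) (n : ℕ) :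
    ∑ a ∈ St m n, ∑ b ∈ St M n, sta x hX a * sta y hY b * crq x y a b =
      Z2 α β n (Gf (rows x) hX) (Gf (rows y) hY) := by
  have hl := lpos
  have h3 := hw.lo
  have h4 := hw.hi
  have hmG : ∀ {m : ℕ} {x : Fin m → ℂ} {h : ℂ → ℂ}, Measurable h → Measurable (Gf (rows x) h) := by
    intro m x h hm
    unfold Gf
    refine hm.mul (Finset.measurable_prod _ fun b hb => ?_)
    obtain ⟨i, _, rfl⟩ := Finset.mem_image.1 hb
    show Measurable fun u => 1 / sin (u - x i)
    fun_prop
  have hlen : ∀ a ∈ St m n, (Us x a).length = n := fun a ha => by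
    rw [Us_length]
    exact (Finset.mem_filter.1 ha).2
  have hre : ∀ {m : ℕ} {x : Fin m → ℂ}, (∀ i, Ok α β (Kd.R0, x i)) → ∀ {a : Fin m → SignType}
      {u : ℂ}, u ∈ Us x a → β < u.re ∧ u.re < α := by
    intro m x ox a u hu
    obtain ⟨i, hi⟩ := Us_mem hu
    have := pts_re hw (ox i) (p := u) (by
      rcases hi with rfl | rfl
      · simp [pts]
      · simp [pts])
    exact this
  have key := Bd.two_species (α := α) (β := β) (by linarith) (by linarith) hκ (hmG mX) (hmG mY)
    (dec_of_gr hw gX fun z hz => Gf_rows_cont hw hx ox aX hz)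
    (dec_of_gr hw gY fun z hz => Gf_rows_cont hw hy oy aY hz) n (St m n) (St M n)
    (sta x hX) (sta y hY) (Us x) (Us y) hlen
    (fun a _ u hu => by
      obtain ⟨u1, u2⟩ := hre ox hu
      constructor <;> rw [abs_lt] <;> constructor <;> linarith)
    (fun a ha => by
      have h5 : ((n : ℕ) : ℝ) = (Us x a).length := by rw [hlen a ha]
      refine states_K hw hy oy aY (fun z h1 h2 => Ql_diff _ fun u hu => ?_) (κ' := 2 * n) gY ?_ n
        (by linarith)
      · obtain ⟨u1, u2⟩ := hre ox hu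
        rw [abs_lt]
        constructor <;> linarith
      · rw [h5]
        exact (gr_Ql (Us x a)).mono (le_of_eq (by ring)))
    (fun r' k' t' hk' => by
      refine states_K hw hx ox aX (fun z h1 h2 => Hc_diff hw k' t' h1 h2) (κ' := 2 * n) gX ?_ n
        (by linarith)
      have := gr_Hc (α := α) (β := β) k' t'
      rw [hk'] at this
      exact this.mono (le_of_eq (by ring)))
  rw [← key]
  refine Finset.sum_congr rfl fun a _ => ?_
  rw [Finset.mul_sum]
  refine Finset.sum_congr rfl fun b _ => ?_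
  rw [crq_eq]
  ring

end NUP1.N

end
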