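import Pool.Agent.NUP1L.GenRow
import Pool.Agent.NUP1L.Two3

/-!
# Two species, rows anywhere in the strip, different numbers of quanta
-/

set_option autoImplicit false
set_option linter.unusedSectionVars false

noncomputable section

open Complex MeasureTheory Filter Topology

namespace NUP1.N

open Bd (Ob chg wt pw pt oneL Dec cwo Hc Ql qg measurable_Hc measurable_Ql)

variable {α β : ℝ}

theorem gr0_mul {m : ℕ} (h k : ℂ → ℂ) (x : Fin m → ℂ) :
    Gr0 (fun u => h u * k u) x = fun u => Gr0 h x u * k u := by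
  funext u
  unfold Gr0
  ring

/-- decay on the lines of the one body function with rows -/
theorem Gr0_dec (hw : Wd α β) {m : ℕ} {h : ℂ → ℂ}
    (ah : ∀ z : ℂ, β ≤ z.re → z.re ≤ α → DifferentiableAt ℂ h z) {κ : ℝ} (gh : Gr α β (-κ) h)
    {x : Fin m → ℂ} (rx : ∀ i, β + l < (x i).re ∧ (x i).re < α) :
    Dec α β (κ + m) (Gr0 h x) := by
  have hl := lpos
  have w1 := hw.lo
  have w2 := hw.hi
  refine dec_of_gr hw (Gr0_gr gh x) fun z hz => ?_
  unfold Gr0
  have hz1 : β ≤ z.re := by rcases hz with hz | hz | hz <;> linarith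
  have hz2 : z.re ≤ α := by rcases hz with hz | hz | hz <;> linarith
  refine (ah z hz1 hz2).continuousAt.mul ?_
  have hc : ∀ i ∈ (Finset.univ : Finset (Fin m)), ContinuousAt (fun u => 1 / sin (u - x i)) z := by
    intro i _
    obtain ⟨o1, o2⟩ := rx i
    have hne : sin (z - x i) ≠ 0 := by
      refine sin_ne_re' ?_ ?_ ?_
      · simp only [sub_re]; linarith
      · simp only [sub_re]; linarith
      · simp only [sub_re]
        rcases hz with hz | hz | hz <;> rw [hz] <;> intro h' <;> linarith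
    have hd : DifferentiableAt ℂ (fun u => 1 / sin (u - x i)) z := by
      fun_prop (disch := exact hne)
    exact hd.continuousAt
  exact tendsto_finsetProd _ hc

/-- one species with two analytic spectators -/
theorem statesG (hw : Wd α β) {m : ℕ} {x : Fin m → ℂ}
    (hx : ∀ i j, i ≠ j → (x i).im ≠ (x j).im) (rx : ∀ i, β + l < (x i).re ∧ (x i).re < α)
    {h k : ℂ → ℂ} (mh : Measurable h) (mk : Measurable k)
    (ah : ∀ z : ℂ, β ≤ z.re → z.re ≤ α → DifferentiableAt ℂ h z)
    (ak : ∀ z : ℂ, β ≤ z.re → z.re ≤ α → DifferentiableAt ℂ k z) {κ κ' : ℝ}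
    (gh : Gr α β (-κ) h) (gk : Gr α β (-κ') k) (n : ℕ)
    (hn : 2 * ((n : ℝ) - 1) < κ + m + κ') :
    ∑ a ∈ St m n, sta x h a * ((Us x a).map k).prod =
      K α β n (fun u => Gr0 h x u * k u) := by
  rw [← gr0_mul, mainG hw (h := fun u => h u * k u) (mh.mul mk) (fun z h1 h2 => (ah z h1 h2).mul (ak z h1 h2))
    ((gh.mul gk).mono (κ' := -(κ + κ')) (le_of_eq (by ring))) n (by linarith) hx rx]
  refine Finset.sum_congr rfl fun a _ => ?_
  rw [Us_prod, sta_mul]

theorem Us_re (_hw : Wd α β) {m : ℕ} {x : Fin m → ℂ}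
    (rx : ∀ i, β + l < (x i).re ∧ (x i).re < α) {a : Fin m → SignType} {u : ℂ}
    (h : u ∈ Us x a) : β < u.re ∧ u.re < α := by
  have hl := lpos
  obtain ⟨i, hi⟩ := Us_mem h
  obtain ⟨r1, r2⟩ := rx i
  rcases hi with rfl | rfl
  · constructor <;> linarith
  · rw [sub_re, ofReal_re]
    constructor <;> linarith

theorem Us_lines (hw : Wd α β) {m : ℕ} {x : Fin m → ℂ}
    (rx : ∀ i, β + l < (x i).re ∧ (x i).re < α) {a : Fin m → SignType} {u : ℂ}
    (h : u ∈ Us x a) : |α - u.re| < 3 * l ∧ |β - u.re| < 3 * l := by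
  have w2 := hw.hi
  have w1 := hw.lo
  have hl := lpos
  obtain ⟨u1, u2⟩ := Us_re hw rx h
  constructor <;> rw [abs_lt] <;> constructor <;> linarith

theorem St_len {m n : ℕ} {x : Fin m → ℂ} {a : Fin m → SignType} (ha : a ∈ St m n) :
    (Us x a).length = n := by
  rw [Us_length]
  exact (Finset.mem_filter.1 ha).2

/-- **Two species, rows anywhere in the strip: the sum over the states is the joint contour
integral**, with analytic spectators and different numbers of quanta. -/
theorem assemG (hw : Wd α β) {m M : ℕ} {x : Fin m → ℂ} {y : Fin M → ℂ}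
    (hx : ∀ i j, i ≠ j → (x i).im ≠ (x j).im) (hy : ∀ i j, i ≠ j → (y i).im ≠ (y j).im)
    (rx : ∀ i, β + l < (x i).re ∧ (x i).re < α) (ry : ∀ i, β + l < (y i).re ∧ (y i).re < α)
    {hX hY : ℂ → ℂ} (aX : ∀ z : ℂ, β ≤ z.re → z.re ≤ α → DifferentiableAt ℂ hX z)
    (aY : ∀ z : ℂ, β ≤ z.re → z.re ≤ α → DifferentiableAt ℂ hY z)
    (mX : Measurable hX) (mY : Measurable hY) {κ κ' : ℝ}
    (gX : Gr α β (-κ) hX) (gY : Gr α β (-κ') hY) (n n' : ℕ)
    (c1 : 0 < κ + m + 2 * ((n' : ℝ) - n)) (c2 : 0 < κ' + M - 2 * ((n' : ℝ) - n)) :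
    ∑ a ∈ St m n, ∑ b ∈ St M n', sta x hX a * sta y hY b * crq x y a b =
      Z3 α β n n' (Gr0 hX x) (Gr0 hY y) := by
  have hl := lpos
  have w1 := hw.lo
  have w2 := hw.hi
  have w3 : l < α - β := by linarith
  have w4 : α - β < 3 * l := by linarith
  have dX := Gr0_dec hw aX gX rx
  have dY := Gr0_dec hw aY gY ry
  have e1 : ∀ a ∈ St m n, ∑ b ∈ St M n', sta x hX a * sta y hY b * crq x y a b =
      sta x hX a * K α β n' (fun v => Gr0 hY y v * Ql (Us x a) v) := by
    intro a ha
    rw [← statesG hw hy ry (k := Ql (Us x a)) (κ' := 2 * n) mY (measurable_Ql _) aY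
      (fun z h1 h2 => Ql_diff _ fun u hu => by
        obtain ⟨u1, u2⟩ := Us_re hw rx hu
        rw [abs_lt]
        constructor <;> linarith) gY
      (by
        have := gr_Ql (α := α) (β := β) (Us x a)
        rw [St_len ha] at this
        exact this.mono (le_of_eq (by ring))) n' (by linarith), Finset.mul_sum]
    refine Finset.sum_congr rfl fun b _ => ?_
    rw [crq_eq]
    ring
  rw [Finset.sum_congr rfl e1, lemA w3 w4 (Gr0_meas mY y) dY (n := n) (by linarith) (St m n)
    (sta x hX) (Us x) (fun a ha => St_len ha) (fun a _ u hu => Us_lines hw rx hu),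
    ← (lemB w3 w4 (Gr0_meas mX x) (Gr0_meas mY y) dX dY c1 c2).1]
  refine YI_congr fun r' k' hk' t' => ?_
  congr 1
  refine statesG hw hx rx mX (measurable_Hc α β k' t') aX
    (fun z h1 h2 => Hc_diff hw k' t' h1 h2) gX (κ' := 2 * n') ?_ n (by linarith)
  have := gr_Hc (α := α) (β := β) k' t'
  rw [hk'] at this
  exact this.mono (le_of_eq (by ring))

end NUP1.N

end
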