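import Pool.Agent.NUP1L.Mark

/-!
# The double residue of the two half quanta: analyticity and growth
-/

set_option autoImplicit false
set_option linter.unusedSectionVars false

noncomputable section

open Complex MeasureTheory Finset

namespace NUP1.Leg

variable {m M : ℕ}

/-! ### analyticity -/

theorem kn_diff {p z : ℂ} (hp : |p.re| ≤ l / 2) (h1 : -(9 / 2 * l) < z.re) (h2 : z.re < 3 / 2 * l) :
    DifferentiableAt ℂ (fun z => kn (z - p)) z := by
  have hl := lpos
  obtain ⟨p1, p2⟩ := abs_le.1 hp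
  have h : sin (z - p - 2 * l) ≠ 0 := by
    refine sin_ne_re' ?_ ?_ ?_
    · simp; linarith
    · simp; linarith
    · have : (z - p - 2 * l).re < 0 := by simp; linarith
      exact this.ne
  unfold kn
  fun_prop (disch := exact h)

theorem Rw_diff {y z : ℂ} (s : SignType) (hp : |y.re| ≤ l / 2) (h1 : -(9 / 2 * l) < z.re)
    (h2 : z.re < 3 / 2 * l) : DifferentiableAt ℂ (fun z => Rw s (z - y)) z := by
  have hl := lpos
  obtain ⟨p1, p2⟩ := abs_le.1 hp
  have k1 : sin (3 * l - (z - y)) ≠ 0 := by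
    refine sin_ne_re' ?_ ?_ ?_
    · simp; linarith
    · simp; linarith
    · have : 0 < (3 * l - (z - y)).re := by simp; linarith
      exact this.ne'
  have k2 : sin (2 * l - (z - y)) ≠ 0 := by
    refine sin_ne_re' ?_ ?_ ?_
    · simp; linarith
    · simp; linarith
    · have : 0 < (2 * l - (z - y)).re := by simp; linarith
      exact this.ne'
  cases s
  · show DifferentiableAt ℂ (fun z => cos (z - y) / sin (3 * l - (z - y))) z
    fun_prop (disch := exact k1)
  · show DifferentiableAt ℂ (fun z => 1 / sin (2 * l - (z - y))) z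
    fun_prop (disch := exact k2)
  · show DifferentiableAt ℂ (fun z => sin (z - y + 3 * l)) z
    fun_prop

theorem nm_diff {p z : ℂ} {x : Fin m → ℂ} (a : Fin m → SignType) (hp : |p.re| ≤ l / 2)
    (h1 : -(9 / 2 * l) < z.re) (h2 : z.re < 3 / 2 * l) (μ : Option (Fin m)) :
    DifferentiableAt ℂ (fun z => nm p x a μ z) z := by
  rcases μ with _ | i
  · exact kn_diff hp h1 h2
  · show DifferentiableAt ℂ (fun z => Pn (a i) (z - x i)) z
    cases a i
    · show DifferentiableAt ℂ (fun z => sin (z - x i + 2 * l)) z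
      fun_prop
    · show DifferentiableAt ℂ (fun z => sin (z - x i + 3 * l)) z
      fun_prop
    · show DifferentiableAt ℂ (fun _ => (1 : ℂ)) z
      fun_prop

theorem og_diff {q z : ℂ} {y : Fin M → ℂ} (b : Fin M → SignType) (hy : ∀ j, |(y j).re| ≤ l / 2)
    (h1 : -(9 / 2 * l) < z.re) (h2 : z.re < 3 / 2 * l) : DifferentiableAt ℂ (og q y b) z := by
  unfold og
  refine DifferentiableAt.mul (by fun_prop) ?_
  have := DifferentiableAt.fun_finsetProd (𝕜 := ℂ) (u := Finset.univ)
    (f := fun j z => Rw (b j) (z - y j)) (x := z)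
    (fun j _ => Rw_diff (b j) (hy j) h1 h2)
  exact this

theorem Nf_diff {p q z : ℂ} {x : Fin m → ℂ} {y : Fin M → ℂ} (a : Fin m → SignType)
    (b : Fin M → SignType) (hp : |p.re| ≤ l / 2) (hy : ∀ j, |(y j).re| ≤ l / 2)
    (h1 : -(9 / 2 * l) < z.re) (h2 : z.re < 3 / 2 * l) :
    DifferentiableAt ℂ (Nf p q x a y b) z := by
  unfold Nf
  refine DifferentiableAt.mul ?_ (og_diff b hy h1 h2)
  have := DifferentiableAt.fun_finsetProd (𝕜 := ℂ) (u := Finset.univ)
    (f := fun μ z => nm p x a μ z) (x := z) (fun μ _ => nm_diff a hp h1 h2 μ)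
  exact this

/-- real parts of the marks -/
theorem mkp_re {p : ℂ} {x : Fin m → ℂ} (a : Fin m → SignType) (hp : |p.re| ≤ l / 2)
    (hx : ∀ i, |(x i).re| ≤ l / 2) (μ : Option (Fin m)) :
    -(3 / 2 * l) ≤ (mkp p x a μ).re ∧ (mkp p x a μ).re ≤ 1 / 2 * l := by
  have hl := lpos
  rcases μ with _ | i
  · obtain ⟨p1, p2⟩ := abs_le.1 hp
    show -(3 / 2 * l) ≤ p.re ∧ p.re ≤ 1 / 2 * l
    constructor <;> linarith
  · obtain ⟨p1, p2⟩ := abs_le.1 (hx i)
    show -(3 / 2 * l) ≤ (mpl (a i) (x i)).re ∧ (mpl (a i) (x i)).re ≤ 1 / 2 * l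
    cases a i
    · show -(3 / 2 * l) ≤ (x i - l).re ∧ (x i - l).re ≤ 1 / 2 * l
      rw [sub_re, ofReal_re]
      constructor <;> linarith
    · show -(3 / 2 * l) ≤ (x i).re ∧ (x i).re ≤ 1 / 2 * l
      constructor <;> linarith
    · show -(3 / 2 * l) ≤ (x i).re ∧ (x i).re ≤ 1 / 2 * l
      constructor <;> linarith

/-- heights of the marks -/
theorem mkp_inj {p : ℂ} {x : Fin m → ℂ} (a : Fin m → SignType) (hp : ∀ i, p.im ≠ (x i).im)
    (hx : ∀ i j, i ≠ j → (x i).im ≠ (x j).im) : Function.Injective (mkp p x a) := by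
  have him : ∀ i, (mkp p x a (some i)).im = (x i).im := by
    intro i
    show (mpl (a i) (x i)).im = (x i).im
    cases a i
    · show (x i - l).im = (x i).im
      simp
    · rfl
    · rfl
  intro μ ν h
  rcases μ with _ | i <;> rcases ν with _ | j
  · rfl
  · exfalso
    refine hp j ?_
    rw [← him j, ← h]
    rfl
  · exfalso
    refine hp i ?_
    rw [← him i, h]
    rfl
  · have h2 := congrArg Complex.im h
    rw [him, him] at h2
    by_contra hne
    exact hx i j (fun h' => hne (by rw [h'])) h2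

/-- the function of one half quantum off its poles -/
theorem hf_diff {p q z : ℂ} {x : Fin m → ℂ} {y : Fin M → ℂ} (a : Fin m → SignType)
    (b : Fin M → SignType) (hp : |p.re| ≤ l / 2) (hx : ∀ i, |(x i).re| ≤ l / 2)
    (hy : ∀ j, |(y j).re| ≤ l / 2) (h1 : -(9 / 2 * l) < z.re) (h2 : z.re < 3 / 2 * l)
    (h3 : z.re < -(3 / 2 * l) ∨ 1 / 2 * l < z.re) :
    DifferentiableAt ℂ (hf p q x a y b) z := by
  have hl := lpos
  have e : hf p q x a y b = fun w =>
      Nf p q x a y b w * ∏ μ ∈ lv a, (sin (w - mkp p x a μ))⁻¹ := funext fun w => hf_Nf p q x a y b w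
  rw [e]
  refine DifferentiableAt.mul (Nf_diff a b hp hy h1 h2) ?_
  have := DifferentiableAt.fun_finsetProd (𝕜 := ℂ) (u := lv a)
    (f := fun μ z => (sin (z - mkp p x a μ))⁻¹) (x := z) (fun μ _ => by
      obtain ⟨r1, r2⟩ := mkp_re (p := p) a hp hx μ
      have hne : sin (z - mkp p x a μ) ≠ 0 := by
        refine sin_ne_re' ?_ ?_ ?_
        · rw [sub_re]; linarith
        · rw [sub_re]; linarith
        · rw [sub_re]
          rcases h3 with h3 | h3
          · have : z.re - (mkp p x a μ).re < 0 := by linarith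
            exact this.ne
          · have : 0 < z.re - (mkp p x a μ).re := by linarith
            exact this.ne'
      fun_prop (disch := exact hne))
  exact this

/-! ### growth -/

variable {α β κ : ℝ}

theorem gr_kap (p : ℂ) : Gr α β (-2) fun z => kap (z - p) := by
  have h := ((Gr.inv_sin (α := α) (β := β) p).mul (Gr.inv_sin (p + 2 * l))).cmul (sin (2 * l))
  have e : (-1 + -1 : ℝ) = -2 := by norm_num
  rw [e] at h
  refine h.congr 0 fun z _ _ _ => ?_
  unfold kap
  rw [show z - (p + 2 * l) = z - p - 2 * l by ring, div_eq_mul_inv, mul_inv]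

theorem gr_Pw (s : SignType) (x : ℂ) : Gr α β ((nq s : ℝ) - 1) fun z => Pw s (z - x) := by
  cases s
  · have h := (Gr.sin (α := α) (β := β) (x - 2 * l)).mul (Gr.inv_sin (x - l))
    refine (h.congr (g := fun z => Pw .zero (z - x)) 0 fun z _ _ _ => ?_).mono (le_of_eq ?_)
    · show sin (z - x + 2 * l) / sin (z - x + l) = _
      rw [show z - (x - 2 * l) = z - x + 2 * l by ring, show z - (x - l) = z - x + l by ring,
        div_eq_mul_inv]
    · simp [nq]
  · have h := Gr.sin (α := α) (β := β) (x - 3 * l)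
    refine (h.congr (g := fun z => Pw .neg (z - x)) 0 fun z _ _ _ => ?_).mono (le_of_eq ?_)
    · show sin (z - x + 3 * l) = _
      rw [show z - (x - 3 * l) = z - x + 3 * l by ring]
    · simp only [nq]
      norm_num
  · have h := Gr.inv_sin (α := α) (β := β) x
    refine (h.congr (g := fun z => Pw .pos (z - x)) 0 fun z _ _ _ => ?_).mono (le_of_eq ?_)
    · show 1 / sin (z - x) = _
      rw [one_div]
    · simp [nq]

theorem gr_Rw (s : SignType) (y : ℂ) : Gr α β (1 - (nq s : ℝ)) fun z => Rw s (z - y) := by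
  cases s
  · have h := ((Gr.sin (α := α) (β := β) (y - Real.pi / 2)).mul (Gr.inv_sin (y + 3 * l))).cmul (-1)
    refine (h.congr (g := fun z => Rw .zero (z - y)) 0 fun z _ _ _ => ?_).mono (le_of_eq ?_)
    · show cos (z - y) / sin (3 * l - (z - y)) = _
      have e1 : sin (z - (y - Real.pi / 2)) = cos (z - y) := by
        rw [show z - (y - (Real.pi : ℂ) / 2) = z - y + Real.pi / 2 by ring,
          Complex.sin_add_pi_div_two]
      have e2 : sin (3 * l - (z - y)) = -sin (z - (y + 3 * l)) := by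
        rw [← Complex.sin_neg]
        congr 1
        ring
      rw [e1, e2, div_eq_mul_inv, inv_neg]
      ring
    · simp [nq]
  · have h := (Gr.inv_sin (α := α) (β := β) (y + 2 * l)).cmul (-1)
    refine (h.congr (g := fun z => Rw .neg (z - y)) 0 fun z _ _ _ => ?_).mono (le_of_eq ?_)
    · show 1 / sin (2 * l - (z - y)) = _
      have e2 : sin (2 * l - (z - y)) = -sin (z - (y + 2 * l)) := by
        rw [← Complex.sin_neg]
        congr 1
        ring
      rw [e2, one_div, inv_neg]
      ring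
    · simp only [nq]
      norm_num
  · have h := Gr.sin (α := α) (β := β) (y - 3 * l)
    refine (h.congr (g := fun z => Rw .pos (z - y)) 0 fun z _ _ _ => ?_).mono (le_of_eq ?_)
    · show sin (z - y + 3 * l) = _
      rw [show z - (y - 3 * l) = z - y + 3 * l by ring]
    · simp [nq]

theorem gr_hf (p q : ℂ) (x : Fin m → ℂ) (a : Fin m → SignType) (y : Fin M → ℂ)
    (b : Fin M → SignType) (hn : ∑ i, nq (a i) + M = ∑ j, nq (b j) + m) :
    Gr α β (-1) (hf p q x a y b) := by
  have h1 := gr_kap (α := α) (β := β) p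
  have h2 := Gr.sin (α := α) (β := β) (q - 3 * l)
  have h3 := Gr.finProd (α := α) (β := β) (fun i z => Pw (a i) (z - x i))
    (fun i => (nq (a i) : ℝ) - 1) fun i => gr_Pw _ _
  have h4 := Gr.finProd (α := α) (β := β) (fun j z => Rw (b j) (z - y j))
    (fun j => 1 - (nq (b j) : ℝ)) fun j => gr_Rw _ _
  have h := ((h1.mul h2).mul h3).mul h4
  refine (h.congr (g := hf p q x a y b) 0 fun z _ _ _ => ?_).mono (le_of_eq ?_)
  · rw [hf_eq, show z - (q - 3 * l) = z - q + 3 * l by ring]
  · have hn' : (∑ i, (nq (a i) : ℝ)) + M = (∑ j, (nq (b j) : ℝ)) + m := by exact_mod_cast hn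
    rw [Finset.sum_sub_distrib, Finset.sum_sub_distrib]
    simp only [Finset.sum_const, Finset.card_univ, Fintype.card_fin, nsmul_eq_mul, mul_one]
    linarith

theorem Dk_neg (z : ℂ) : Dk (-z) = Dk z := by
  unfold Dk
  rw [Complex.cos_neg, sub_neg_eq_add, ← sub_eq_add_neg]
  ring

theorem Dk_comm (w w' : ℂ) : Dk (w - w') = Dk (w' - w) := by
  rw [← Dk_neg, neg_sub]

theorem gr_Dk (v : ℂ) : Gr α β (-1) fun z => Dk (z - v) := by
  have h1 := Gr.sin (α := α) (β := β) (v - Real.pi / 2)
  have h2 := Gr.inv_sin (α := α) (β := β) (v - 3 * l)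
  have h3 := Gr.inv_sin (α := α) (β := β) (v + 3 * l)
  have h := (h1.mul (h2.mul h3)).cmul (-1)
  refine (h.congr (g := fun z => Dk (z - v)) 0 fun z _ _ _ => ?_).mono (le_of_eq ?_)
  · unfold Dk
    have e1 : sin (z - (v - Real.pi / 2)) = cos (z - v) := by
      rw [show z - (v - (Real.pi : ℂ) / 2) = z - v + Real.pi / 2 by ring,
        Complex.sin_add_pi_div_two]
    have e2 : sin (3 * l - (z - v)) = -sin (z - (v + 3 * l)) := by
      rw [← Complex.sin_neg]
      congr 1
      ring
    have e3 : 3 * l + (z - v) = z - (v - 3 * l) := by ring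
    rw [e1, e2, e3, div_eq_mul_inv, mul_inv, inv_neg]
    ring
  · norm_num

theorem gr_Dk' (w : ℂ) : Gr α β (-1) fun z => Dk (w - z) :=
  (gr_Dk w).congr 0 fun z _ _ _ => Dk_comm w z

theorem Dk_ne {z : ℂ} (h1 : |z.re| < 5 * l) (h2 : |z.re| ≠ 3 * l) :
    sin (3 * l - z) * sin (3 * l + z) ≠ 0 := by
  have hl := lpos
  obtain ⟨a1, a2⟩ := abs_lt.1 h1
  have hne1 : z.re ≠ 3 * l := fun h => h2 (by rw [h, abs_of_pos (by positivity)])
  have hne2 : z.re ≠ -(3 * l) := fun h => h2 (by rw [h, abs_neg, abs_of_pos (by positivity)])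
  refine mul_ne_zero ?_ ?_
  · refine sin_ne_re' ?_ ?_ ?_
    · simp; linarith
    · simp; linarith
    · simp only [sub_re, mul_re, re_ofNat, ofReal_re, im_ofNat, ofReal_im, mul_zero, sub_zero]
      exact fun h => hne1 (by linarith)
  · refine sin_ne_re' ?_ ?_ ?_
    · simp; linarith
    · simp; linarith
    · simp only [add_re, mul_re, re_ofNat, ofReal_re, im_ofNat, ofReal_im, mul_zero, sub_zero]
      exact fun h => hne2 (by linarith)

theorem Dk_diff {z : ℂ} (h1 : |z.re| < 5 * l) (h2 : |z.re| ≠ 3 * l) : DifferentiableAt ℂ Dk z := by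
  have := Dk_ne h1 h2
  unfold Dk
  fun_prop (disch := exact this)

end NUP1.Leg

end
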