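import Pool.Agent.NUP1L.CapD
import Pool.Agent.NUP1L.Mark2

/-!
# Two species with spectators, one pole of the second kind in each species

The four cases: the spectators of `X` and of `Y` are analytic or have one pole right of the string
line.
-/

set_option autoImplicit false
set_option linter.unusedSectionVars false

noncomputable section

open Complex MeasureTheory Filter Topology

namespace NUP1.N

open Bd (Ob chg wt pw pt oneL Dec cwo Hc Ql qg measurable_Hc measurable_Ql rl)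
open Leg (Ck Dk)

variable {α β : ℝ}

/-! ### the additional factors -/

theorem Dk_meas (c : ℂ) : Measurable fun u => Dk (c - u) := by
  unfold Leg.Dk
  fun_prop

theorem Ck_meas' (c : ℂ) : Measurable fun u => Ck (u - c) := by
  unfold Leg.Ck
  fun_prop

theorem qg_meas' (c : ℂ) : Measurable fun u => qg (u - c) := by
  unfold Bd.qg
  fun_prop

theorem Ql_one (c v : ℂ) : Ql [c] v = qg (v - c) := by
  simp [Bd.Ql]

theorem gr_Ck' (c : ℂ) : Gr α β 1 fun u => Ck (u - c) := by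
  have h := ((Gr.sin (α := α) (β := β) c).mul (Gr.sin (c - 2 * l))).mul (Gr.inv_sin (c - l))
  refine (h.congr (g := fun u => Ck (u - c)) 0 fun z _ _ _ => ?_).mono (le_of_eq (by norm_num))
  unfold Leg.Ck
  rw [show z - (c - 2 * l) = z - c + 2 * l by ring, show z - (c - l) = z - c + l by ring,
    div_eq_mul_inv]

/-- decay of a product of a decaying function with a function of growth `μ` -/
theorem dec_mul (hw : Wd α β) {κ μ : ℝ} {G k : ℂ → ℂ} (hG : Dec α β κ G) (hk : Gr α β (-μ) k)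
    (ck : ∀ z : ℂ, (z.re = α ∨ z.re = β ∨ z.re = β + l) → ContinuousAt k z) :
    Dec α β (κ + μ) (fun u => G u * k u) :=
  hG.mul (dec_of_gr hw hk ck)

/-- the place of a pole of the second kind: right of the string line, its shadow left of it -/
structure Pl (α β : ℝ) (c : ℂ) : Prop where
  lo : β + l < c.re
  hi : c.re < α
  ne : c.re ≠ β + 2 * l

theorem Dk_cont_lines (hw : Wd α β) {c : ℂ} (hc : Pl α β c) (z : ℂ)
    (hz : z.re = α ∨ z.re = β ∨ z.re = β + l) : ContinuousAt (fun u => Dk (c - 3 * l - u)) z := by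
  have hl := lpos
  have w1 := hw.lo
  have w2 := hw.hi
  obtain ⟨c1, c2, c3⟩ := hc
  have e : (c - 3 * l - z).re = c.re - 3 * l - z.re := by simp
  have hd : DifferentiableAt ℂ Dk (c - 3 * l - z) := by
    refine Leg.Dk_diff ?_ ?_
    · rw [e, abs_lt]
      rcases hz with hz | hz | hz <;> rw [hz] <;> constructor <;> linarith
    · rw [e, abs_of_neg]
      · rcases hz with hz | hz | hz <;> rw [hz] <;> intro h' <;> linarith
      · rcases hz with hz | hz | hz <;> rw [hz] <;> linarith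
  have : DifferentiableAt ℂ (fun u => Dk (c - 3 * l - u)) z :=
    DifferentiableAt.comp (f := fun u => c - 3 * l - u) (g := Dk) z hd (by fun_prop)
  exact this.continuousAt

theorem Ck_cont_lines (hw : Wd α β) {c : ℂ} (hc : Pl α β c) (z : ℂ)
    (hz : z.re = α ∨ z.re = β ∨ z.re = β + l) : ContinuousAt (fun u => Ck (u - c)) z := by
  have hl := lpos
  have w1 := hw.lo
  have w2 := hw.hi
  obtain ⟨c1, c2, c3⟩ := hc
  have e : (z - c + l).re = z.re - c.re + l := by simp
  have hne : sin (z - c + l) ≠ 0 := by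
    refine sin_ne_re' ?_ ?_ ?_
    · rw [e]; rcases hz with hz | hz | hz <;> rw [hz] <;> linarith
    · rw [e]; rcases hz with hz | hz | hz <;> rw [hz] <;> linarith
    · rw [e]
      rcases hz with hz | hz | hz <;> rw [hz]
      · intro h'; linarith
      · intro h'; linarith
      · intro h'; exact c3 (by linarith)
  have : DifferentiableAt ℂ (fun u => Ck (u - c)) z := by
    unfold Leg.Ck
    fun_prop (disch := exact hne)
  exact this.continuousAt

theorem qg_diff_pl (hw : Wd α β) {c : ℂ} (hc : Pl α β c) (z : ℂ) (h1 : β ≤ z.re) (h2 : z.re ≤ α) :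
    DifferentiableAt ℂ (fun u => qg (u - c)) z := by
  have hl := lpos
  have w1 := hw.lo
  have w2 := hw.hi
  obtain ⟨c1, c2, c3⟩ := hc
  have := Ql_diff [c] (z := z) (fun u hu => by
    rw [List.mem_singleton] at hu
    rw [hu, abs_lt]
    constructor <;> linarith)
  have e : Ql [c] = fun u => qg (u - c) := funext fun u => Ql_one c u
  rwa [e] at this

theorem pl_lines (hw : Wd α β) {c : ℂ} (hc : Pl α β c) :
    |α - c.re| < 3 * l ∧ |β - c.re| < 3 * l := by
  have hl := lpos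
  have w1 := hw.lo
  have w2 := hw.hi
  obtain ⟨c1, c2, c3⟩ := hc
  constructor <;> rw [abs_lt] <;> constructor <;> linarith

theorem qg_comm (u v : ℂ) : qg (u - v) = qg (v - u) := by
  rw [← Bd.qg_neg, neg_sub]

/-! ### the X side -/

/-- `X` side, analytic spectator -/
theorem X_an (hw : Wd α β) {m : ℕ} {x : Fin m → ℂ} (hx : ∀ i j, i ≠ j → (x i).im ≠ (x j).im)
    (rx : ∀ i, β + l < (x i).re ∧ (x i).re < α) {hX : ℂ → ℂ}
    (aX : ∀ z : ℂ, β ≤ z.re → z.re ≤ α → DifferentiableAt ℂ hX z) (mX : Measurable hX)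
    {κ κ' : ℝ} (gX : Gr α β (-κ) hX) {GY : ℂ → ℂ} (mY : Measurable GY) (dY : Dec α β κ' GY)
    (n n' : ℕ) (c1 : 0 < κ + m + 2 * ((n' : ℝ) - n)) (c2 : 0 < κ' - 2 * ((n' : ℝ) - n)) :
    ∑ a ∈ St m n, sta x hX a * K α β n' (fun v => GY v * Ql (Us x a) v) =
      Z3 α β n n' (Gr0 hX x) GY := by
  have hl := lpos
  have w1 := hw.lo
  have w2 := hw.hi
  have w3 : l < α - β := by linarith
  have w4 : α - β < 3 * l := by linarith
  have dX := Gr0_dec hw aX gX rx
  rw [lemA w3 w4 mY dY (n := n) (by linarith) (St m n)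
    (sta x hX) (Us x) (fun a ha => St_len ha) (fun a _ u hu => Us_lines hw rx hu),
    ← (lemB w3 w4 (Gr0_meas mX x) mY dX dY c1 c2).1]
  refine YI_congr fun r' k' hk' t' => ?_
  congr 1
  refine statesG hw hx rx mX (measurable_Hc α β k' t') aX
    (fun z h1 h2 => Hc_diff hw k' t' h1 h2) gX (κ' := 2 * n') ?_ n (by linarith)
  have := gr_Hc (α := α) (β := β) k' t'
  rw [hk'] at this
  exact this.mono (le_of_eq (by ring))

/-- the states with a spectator, as `SZ` -/
theorem SZ_spec {m : ℕ} (x : Fin m → ℂ) (h k g : ℂ → ℂ) (n : ℕ) :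
    ∑ a ∈ St m n, sta x (fun u => h u * g u) a * ((Us x a).map k).prod =
      SZ x (fun u => (h u * k u) * g u) n := by
  rw [← St_SZ]
  refine Finset.sum_congr rfl fun a _ => ?_
  rw [Us_prod, ← sta_mul]
  congr 1
  funext u
  ring

/-- **`X` side, one pole of the second kind** -/
theorem X_cap (hw : Wd α β) {m : ℕ} {x : Fin m → ℂ} (hx : ∀ i j, i ≠ j → (x i).im ≠ (x j).im)
    (rx : ∀ i, β + l < (x i).re ∧ (x i).re < α) {hX : ℂ → ℂ}
    (aX : ∀ z : ℂ, β ≤ z.re → z.re ≤ α → DifferentiableAt ℂ hX z) (mX : Measurable hX)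
    {κ κ' : ℝ} (gX : Gr α β (-κ) hX) {GY : ℂ → ℂ} (mY : Measurable GY) (dY : Dec α β κ' GY)
    (n n' : ℕ) (c1 : 0 < κ + m + 1 + 2 * ((n' : ℝ) - n)) (c2 : 0 < κ' - 2 * ((n' : ℝ) - n))
    {c : ℂ} (hc : ∀ i, c.im ≠ (x i).im) (pc : Pl α β c) :
    ∑ a ∈ St m n, sta x (fun u => hX u * Dk (c - 3 * l - u)) a *
        K α β n' (fun v => GY v * Ql (Us x a) v) =
      Z3 α β n n' (fun u => Gr0 hX x u * Dk (c - 3 * l - u)) GY +
      sin l / sin (2 * l) * Gr0 hX x c * (if 1 ≤ n then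
        Z3 α β (n - 1) n' (fun u => Gr0 hX x u * Ck (u - c)) (fun v => GY v * qg (v - c))
        else 0) := by
  have hl := lpos
  have w1 := hw.lo
  have w2 := hw.hi
  have w3 : l < α - β := by linarith
  have w4 : α - β < 3 * l := by linarith
  have dX := Gr0_dec hw aX gX rx
  have dD : Dec α β (κ + m + 1) (fun u => Gr0 hX x u * Dk (c - 3 * l - u)) :=
    dec_mul hw dX (Leg.gr_Dk' _) (Dk_cont_lines hw pc)
  have dC : Dec α β (κ + m + -1) (fun u => Gr0 hX x u * Ck (u - c)) :=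
    dec_mul hw dX (by rw [neg_neg]; exact gr_Ck' c) (Ck_cont_lines hw pc)
  have dQ : Dec α β (κ' + 2) (fun v => GY v * Ql [c] v) := by
    have := dY.mul (Bd.Dec_Ql (by linarith) [c] fun u hu => by
      rw [List.mem_singleton] at hu
      rw [hu]
      exact pl_lines hw pc)
    exact this.congr_rate (by simp)
  have mD : Measurable fun u => Gr0 hX x u * Dk (c - 3 * l - u) :=
    (Gr0_meas mX x).mul (Dk_meas _)
  have mC : Measurable fun u => Gr0 hX x u * Ck (u - c) := (Gr0_meas mX x).mul (Ck_meas' c)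
  have hGH : ∀ {r : ℕ} (k : Fin r → Ob) (t : Fin r → ℝ) (u : ℂ),
      Gr0 (fun u => hX u * Hc α β k t u) x u = Gr0 hX x u * Hc α β k t u := by
    intro r k t u
    rw [gr0_mul]
  -- one species
  have e1 : ∀ (r' : ℕ) (k' : Fin r' → Ob), ∑ i, chg (k' i) = n' → ∀ t',
      (∑ a ∈ St m n, sta x (fun u => hX u * Dk (c - 3 * l - u)) a *
        ((Us x a).map fun u => Hc α β k' t' u).prod) =
      K α β n (fun u => (Gr0 hX x u * Dk (c - 3 * l - u)) * Hc α β k' t' u) -
      (-(sin l / sin (2 * l) * Gr0 hX x c)) * (Hc α β k' t' c *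
        Km α β n (fun u => (Gr0 hX x u * Ck (u - c)) * Hc α β k' t' u)) := by
    intro r' k' hk' t'
    have := gr_Hc (α := α) (β := β) k' t'
    rw [hk'] at this
    rw [SZ_spec, capD hw hx rx (h := fun u => hX u * Hc α β k' t' u) (κ := κ + 2 * n')
      (mX.mul (measurable_Hc α β k' t'))
      (fun z h1 h2 => (aX z h1 h2).mul (Hc_diff hw k' t' h1 h2))
      ((gX.mul this).mono (le_of_eq (by ring))) n (by linarith) hc ⟨pc.lo, pc.hi⟩ pc.ne, hGH]
    have f1 : (fun u => Gr0 (fun u => hX u * Hc α β k' t' u) x u * Dk (c - 3 * l - u)) =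
        fun u => (Gr0 hX x u * Dk (c - 3 * l - u)) * Hc α β k' t' u := by
      funext u
      rw [hGH]
      ring
    have f2 : (fun u => Gr0 (fun u => hX u * Hc α β k' t' u) x u * Ck (u - c)) =
        fun u => (Gr0 hX x u * Ck (u - c)) * Hc α β k' t' u := by
      funext u
      rw [hGH]
      ring
    rw [f1, f2]
    ring
  have B1 := lemB w3 w4 mD mY dD dY (n := n) (n' := n') (by linarith) c2
  rw [lemA w3 w4 mY dY (n := n) (by linarith) (St m n)
    (sta x fun u => hX u * Dk (c - 3 * l - u)) (Us x) (fun a ha => St_len ha)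
    (fun a _ u hu => Us_lines hw rx hu)]
  have e2 : YI α β n' (oneL α β GY) (fun _ k' t' => ∑ a ∈ St m n,
      sta x (fun u => hX u * Dk (c - 3 * l - u)) a *
        ((Us x a).map fun u => Hc α β k' t' u).prod) =
      YI α β n' (oneL α β GY) (fun _ k' t' =>
        K α β n (fun u => (Gr0 hX x u * Dk (c - 3 * l - u)) * Hc α β k' t' u) -
        (-(sin l / sin (2 * l) * Gr0 hX x c)) * (Hc α β k' t' c *
          Km α β n (fun u => (Gr0 hX x u * Ck (u - c)) * Hc α β k' t' u))) :=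
    YI_congr fun r' k' hk' t' => by rw [e1 r' k' hk' t']
  -- the captured part
  have fQ : ∀ {r' : ℕ} (k' : Fin r' → Ob) (t' : Fin r' → ℝ) (A : ℂ),
      Grand.f (pw α β) k' (oneL α β GY) t' * (Hc α β k' t' c * A) =
        Grand.f (pw α β) k' (oneL α β fun v => GY v * Ql [c] v) t' * A := by
    intro r' k' t' A
    rw [Bd.f_Ql]
    simp only [List.map_cons, List.map_nil, List.prod_cons, List.prod_nil, mul_one]
    ring
  have eQ : (fun v => GY v * Ql [c] v) = fun v => GY v * qg (v - c) := by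
    funext v
    rw [Ql_one]
  rw [e2]
  rcases n with _ | n
  · rw [if_neg (by norm_num), mul_zero, add_zero, ← B1.1]
    refine YI_congr fun r' k' _ t' => ?_
    simp [Km]
  · rw [if_pos (by omega)]
    have B2 := lemB (GY := fun v => GY v * Ql [c] v) w3 w4 mC (mY.mul (measurable_Ql [c])) dC dQ (n := n) (n' := n')
      (by push_cast at c1; linarith) (by push_cast at c2; linarith)
    rw [YI_sub, B1.1, sub_eq_add_neg, neg_mul, neg_neg]
    · congr 2
      rw [Nat.add_sub_cancel, ← eQ, ← B2.1]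
      unfold YI
      refine Finset.sum_congr rfl fun r' _ => ?_
      congr 1
      refine Finset.sum_congr rfl fun k' _ => ?_
      split_ifs with hk
      · congr 1
        refine integral_congr_ae (Filter.Eventually.of_forall fun t' => ?_)
        exact fQ k' t' _
      · rfl
    · exact fun r' k' hk' => B1.2 r' k' hk'
    · intro r' k' hk'
      refine (B2.2 r' k' hk').congr (Filter.Eventually.of_forall fun t' => ?_)
      exact (fQ k' t' _).symm

/-! ### the Y side -/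

/-- `Y` side, analytic spectator -/
theorem Y_an (hw : Wd α β) {m M : ℕ} {x : Fin m → ℂ} {y : Fin M → ℂ}
    (rx : ∀ i, β + l < (x i).re ∧ (x i).re < α)
    (hy : ∀ i j, i ≠ j → (y i).im ≠ (y j).im) (ry : ∀ i, β + l < (y i).re ∧ (y i).re < α)
    (hX : ℂ → ℂ) {hY : ℂ → ℂ} (aY : ∀ z : ℂ, β ≤ z.re → z.re ≤ α → DifferentiableAt ℂ hY z)
    (mY : Measurable hY) {κ' : ℝ} (gY : Gr α β (-κ') hY) (n n' : ℕ)
    (c2 : 2 * ((n' : ℝ) - 1) < κ' + M + 2 * n) :
    ∑ a ∈ St m n, ∑ b ∈ St M n', sta x hX a * sta y hY b * crq x y a b =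
      ∑ a ∈ St m n, sta x hX a * K α β n' (fun v => Gr0 hY y v * Ql (Us x a) v) := by
  have hl := lpos
  have w1 := hw.lo
  have w2 := hw.hi
  refine Finset.sum_congr rfl fun a ha => ?_
  rw [← statesG hw hy ry (k := Ql (Us x a)) (κ' := 2 * n) mY (measurable_Ql _) aY
    (fun z h1 h2 => Ql_diff _ fun u hu => by
      obtain ⟨u1, u2⟩ := Us_re hw rx hu
      rw [abs_lt]
      constructor <;> linarith) gY
    (by
      have := gr_Ql (α := α) (β := β) (Us x a)
      rw [St_len ha] at this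
      exact this.mono (le_of_eq (by ring))) n' (by linarith), Finset.mul_sum]
  refine Finset.sum_congr rfl fun b _ => ?_
  rw [crq_eq]
  ring

/-- **`Y` side, one pole of the second kind** -/
theorem Y_cap (hw : Wd α β) {m M : ℕ} {x : Fin m → ℂ} {y : Fin M → ℂ}
    (rx : ∀ i, β + l < (x i).re ∧ (x i).re < α)
    (hy : ∀ i j, i ≠ j → (y i).im ≠ (y j).im) (ry : ∀ i, β + l < (y i).re ∧ (y i).re < α)
    (hX : ℂ → ℂ) {hY : ℂ → ℂ} (aY : ∀ z : ℂ, β ≤ z.re → z.re ≤ α → DifferentiableAt ℂ hY z)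
    (mY : Measurable hY) {κ' : ℝ} (gY : Gr α β (-κ') hY) (n n' : ℕ)
    (c2 : 2 * ((n' : ℝ) - 1) < κ' + M + 1 + 2 * n)
    {c : ℂ} (hc : ∀ i, c.im ≠ (y i).im) (pc : Pl α β c) :
    ∑ a ∈ St m n, ∑ b ∈ St M n', sta x hX a * sta y (fun v => hY v * Dk (c - 3 * l - v)) b *
        crq x y a b =
      (∑ a ∈ St m n, sta x hX a *
        K α β n' (fun v => (Gr0 hY y v * Dk (c - 3 * l - v)) * Ql (Us x a) v)) +
      sin l / sin (2 * l) * Gr0 hY y c * (if 1 ≤ n' then
        ∑ a ∈ St m n, sta x (fun u => hX u * qg (u - c)) a *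
          K α β (n' - 1) (fun v => (Gr0 hY y v * Ck (v - c)) * Ql (Us x a) v) else 0) := by
  have hl := lpos
  have w1 := hw.lo
  have w2 := hw.hi
  have hGH : ∀ (U : List ℂ) (u : ℂ),
      Gr0 (fun u => hY u * Ql U u) y u = Gr0 hY y u * Ql U u := by
    intro U u
    rw [gr0_mul]
  have e1 : ∀ a ∈ St m n, ∑ b ∈ St M n', sta x hX a *
      sta y (fun v => hY v * Dk (c - 3 * l - v)) b * crq x y a b =
      sta x hX a * K α β n' (fun v => (Gr0 hY y v * Dk (c - 3 * l - v)) * Ql (Us x a) v) +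
      sin l / sin (2 * l) * Gr0 hY y c * (sta x (fun u => hX u * qg (u - c)) a *
        Km α β n' (fun v => (Gr0 hY y v * Ck (v - c)) * Ql (Us x a) v)) := by
    intro a ha
    have g1 := gr_Ql (α := α) (β := β) (Us x a)
    rw [St_len ha] at g1
    have e2 : ∑ b ∈ St M n', sta x hX a * sta y (fun v => hY v * Dk (c - 3 * l - v)) b *
        crq x y a b = sta x hX a * ∑ b ∈ St M n', sta y (fun v => hY v * Dk (c - 3 * l - v)) b *
          ((Us y b).map (Ql (Us x a))).prod := by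
      rw [Finset.mul_sum]
      refine Finset.sum_congr rfl fun b _ => ?_
      rw [crq_eq]
      ring
    rw [e2, SZ_spec, capD hw hy ry (h := fun u => hY u * Ql (Us x a) u) (κ := κ' + 2 * n)
      (mY.mul (measurable_Ql _))
      (fun z h1 h2 => (aY z h1 h2).mul (Ql_diff _ fun u hu => by
        obtain ⟨u1, u2⟩ := Us_re hw rx hu
        rw [abs_lt]
        constructor <;> linarith))
      ((gY.mul g1).mono (le_of_eq (by ring))) n' (by linarith) hc ⟨pc.lo, pc.hi⟩ pc.ne, hGH]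
    have f1 : (fun u => Gr0 (fun u => hY u * Ql (Us x a) u) y u * Dk (c - 3 * l - u)) =
        fun u => (Gr0 hY y u * Dk (c - 3 * l - u)) * Ql (Us x a) u := by
      funext u
      rw [hGH]
      ring
    have f2 : (fun u => Gr0 (fun u => hY u * Ql (Us x a) u) y u * Ck (u - c)) =
        fun u => (Gr0 hY y u * Ck (u - c)) * Ql (Us x a) u := by
      funext u
      rw [hGH]
      ring
    have f3 : sta x (fun u => hX u * qg (u - c)) a = sta x hX a * Ql (Us x a) c := by
      rw [sta_mul]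
      congr 1
      unfold Bd.Ql
      rw [Us_prod]
      refine Finset.prod_congr rfl fun i _ => ?_
      congr 1
      exact List.map_congr_left fun u _ => qg_comm _ _
    rw [f1, f2, f3]
    ring
  rw [Finset.sum_congr rfl e1, Finset.sum_add_distrib, ← Finset.mul_sum]
  congr 2
  rcases n' with _ | n'
  · rw [if_neg (by norm_num)]
    simp [Km]
  · rw [if_pos (by omega)]
    rfl

/-! ### the four cases -/

/-- `w` on the far line, `w'` on the near one: `Y` captured, `X` analytic -/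
theorem cap_Y (hw : Wd α β) {m M : ℕ} {x : Fin m → ℂ} {y : Fin M → ℂ}
    (hx : ∀ i j, i ≠ j → (x i).im ≠ (x j).im) (hy : ∀ i j, i ≠ j → (y i).im ≠ (y j).im)
    (rx : ∀ i, β + l < (x i).re ∧ (x i).re < α) (ry : ∀ i, β + l < (y i).re ∧ (y i).re < α)
    {hX hY : ℂ → ℂ} (aX : ∀ z : ℂ, β ≤ z.re → z.re ≤ α → DifferentiableAt ℂ hX z)
    (aY : ∀ z : ℂ, β ≤ z.re → z.re ≤ α → DifferentiableAt ℂ hY z)
    (mX : Measurable hX) (mY : Measurable hY) {κ κ' : ℝ}
    (gX : Gr α β (-κ) hX) (gY : Gr α β (-κ') hY) (n n' : ℕ)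
    (c1 : 0 < κ + m + 2 * ((n' : ℝ) - n)) (c2 : 0 < κ' + M + 1 - 2 * ((n' : ℝ) - n))
    {c : ℂ} (hc : ∀ i, c.im ≠ (y i).im) (pc : Pl α β c) :
    ∑ a ∈ St m n, ∑ b ∈ St M n', sta x hX a * sta y (fun v => hY v * Dk (c - 3 * l - v)) b *
        crq x y a b =
      Z3 α β n n' (Gr0 hX x) (fun v => Gr0 hY y v * Dk (c - 3 * l - v)) +
      sin l / sin (2 * l) * Gr0 hY y c * (if 1 ≤ n' then
        Z3 α β n (n' - 1) (fun u => Gr0 hX x u * qg (u - c)) (fun v => Gr0 hY y v * Ck (v - c))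
        else 0) := by
  have hl := lpos
  have w1 := hw.lo
  have w2 := hw.hi
  have dY := Gr0_dec hw aY gY ry
  have dD : Dec α β (κ' + M + 1) (fun v => Gr0 hY y v * Dk (c - 3 * l - v)) :=
    dec_mul hw dY (Leg.gr_Dk' _) (Dk_cont_lines hw pc)
  have dC : Dec α β (κ' + M + -1) (fun v => Gr0 hY y v * Ck (v - c)) :=
    dec_mul hw dY (by rw [neg_neg]; exact gr_Ck' c) (Ck_cont_lines hw pc)
  rw [Y_cap hw rx hy ry hX aY mY gY n n' (by linarith) hc pc,
    X_an (GY := fun v => Gr0 hY y v * Dk (c - 3 * l - v)) hw hx rx aX mX gX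
      ((Gr0_meas mY y).mul (Dk_meas _)) dD n n' c1 c2]
  congr 2
  split_ifs with h1
  · have e : ((n' - 1 : ℕ) : ℝ) = (n' : ℝ) - 1 := by
      rw [Nat.cast_sub h1]; norm_num
    have e2 : Gr0 (fun u => hX u * qg (u - c)) x = fun u => Gr0 hX x u * qg (u - c) := gr0_mul _ _ _
    rw [← e2]
    refine X_an (GY := fun v => Gr0 hY y v * Ck (v - c)) hw hx rx
      (hX := fun u => hX u * qg (u - c)) (κ := κ + 2)
      (fun z h1 h2 => (aX z h1 h2).mul (qg_diff_pl hw pc z h1 h2)) (mX.mul (qg_meas' c)) ?_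
      ((Gr0_meas mY y).mul (Ck_meas' c)) dC n (n' - 1) (by rw [e]; linarith) (by rw [e]; linarith)
    exact (gX.mul (gr_qg c)).mono (le_of_eq (by ring))
  · rfl

/-- `w` on the near line, `w'` on the far one: `X` captured, `Y` analytic -/
theorem cap_X (hw : Wd α β) {m M : ℕ} {x : Fin m → ℂ} {y : Fin M → ℂ}
    (hx : ∀ i j, i ≠ j → (x i).im ≠ (x j).im) (hy : ∀ i j, i ≠ j → (y i).im ≠ (y j).im)
    (rx : ∀ i, β + l < (x i).re ∧ (x i).re < α) (ry : ∀ i, β + l < (y i).re ∧ (y i).re < α)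
    {hX hY : ℂ → ℂ} (aX : ∀ z : ℂ, β ≤ z.re → z.re ≤ α → DifferentiableAt ℂ hX z)
    (aY : ∀ z : ℂ, β ≤ z.re → z.re ≤ α → DifferentiableAt ℂ hY z)
    (mX : Measurable hX) (mY : Measurable hY) {κ κ' : ℝ}
    (gX : Gr α β (-κ) hX) (gY : Gr α β (-κ') hY) (n n' : ℕ)
    (c1 : 0 < κ + m + 1 + 2 * ((n' : ℝ) - n)) (c2 : 0 < κ' + M - 2 * ((n' : ℝ) - n))
    {c : ℂ} (hc : ∀ i, c.im ≠ (x i).im) (pc : Pl α β c) :
    ∑ a ∈ St m n, ∑ b ∈ St M n', sta x (fun u => hX u * Dk (c - 3 * l - u)) a * sta y hY b *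
        crq x y a b =
      Z3 α β n n' (fun u => Gr0 hX x u * Dk (c - 3 * l - u)) (Gr0 hY y) +
      sin l / sin (2 * l) * Gr0 hX x c * (if 1 ≤ n then
        Z3 α β (n - 1) n' (fun u => Gr0 hX x u * Ck (u - c)) (fun v => Gr0 hY y v * qg (v - c))
        else 0) := by
  have dY := Gr0_dec hw aY gY ry
  rw [Y_an hw rx hy ry _ aY mY gY n n' (by linarith)]
  exact X_cap hw hx rx aX mX gX (Gr0_meas mY y) dY n n' c1 c2 hc pc

/-- both half quanta on the far line: both species captured -/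
theorem cap_XY (hw : Wd α β) {m M : ℕ} {x : Fin m → ℂ} {y : Fin M → ℂ}
    (hx : ∀ i j, i ≠ j → (x i).im ≠ (x j).im) (hy : ∀ i j, i ≠ j → (y i).im ≠ (y j).im)
    (rx : ∀ i, β + l < (x i).re ∧ (x i).re < α) (ry : ∀ i, β + l < (y i).re ∧ (y i).re < α)
    {hX hY : ℂ → ℂ} (aX : ∀ z : ℂ, β ≤ z.re → z.re ≤ α → DifferentiableAt ℂ hX z)
    (aY : ∀ z : ℂ, β ≤ z.re → z.re ≤ α → DifferentiableAt ℂ hY z)
    (mX : Measurable hX) (mY : Measurable hY) {κ κ' : ℝ}
    (gX : Gr α β (-κ) hX) (gY : Gr α β (-κ') hY) (n n' : ℕ)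
    (c1 : 0 < κ + m + 1 + 2 * ((n' : ℝ) - n)) (c2 : 0 < κ' + M + 1 - 2 * ((n' : ℝ) - n))
    {c c' : ℂ} (hc : ∀ i, c.im ≠ (y i).im) (pc : Pl α β c) (hc' : ∀ i, c'.im ≠ (x i).im)
    (pc' : Pl α β c') :
    ∑ a ∈ St m n, ∑ b ∈ St M n', sta x (fun u => hX u * Dk (c' - 3 * l - u)) a *
        sta y (fun v => hY v * Dk (c - 3 * l - v)) b * crq x y a b =
      Z3 α β n n' (fun u => Gr0 hX x u * Dk (c' - 3 * l - u))
        (fun v => Gr0 hY y v * Dk (c - 3 * l - v)) +
      sin l / sin (2 * l) * Gr0 hX x c' * (if 1 ≤ n then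
        Z3 α β (n - 1) n' (fun u => Gr0 hX x u * Ck (u - c'))
          (fun v => Gr0 hY y v * Dk (c - 3 * l - v) * qg (v - c')) else 0) +
      sin l / sin (2 * l) * Gr0 hY y c * (if 1 ≤ n' then
        Z3 α β n (n' - 1) (fun u => Gr0 hX x u * qg (u - c) * Dk (c' - 3 * l - u))
          (fun v => Gr0 hY y v * Ck (v - c)) +
        sin l / sin (2 * l) * (Gr0 hX x c' * qg (c' - c)) * (if 1 ≤ n then
          Z3 α β (n - 1) (n' - 1) (fun u => Gr0 hX x u * qg (u - c) * Ck (u - c'))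
            (fun v => Gr0 hY y v * Ck (v - c) * qg (v - c')) else 0) else 0) := by
  have dY := Gr0_dec hw aY gY ry
  have dD : Dec α β (κ' + M + 1) (fun v => Gr0 hY y v * Dk (c - 3 * l - v)) :=
    dec_mul hw dY (Leg.gr_Dk' _) (Dk_cont_lines hw pc)
  have dC : Dec α β (κ' + M + -1) (fun v => Gr0 hY y v * Ck (v - c)) :=
    dec_mul hw dY (by rw [neg_neg]; exact gr_Ck' c) (Ck_cont_lines hw pc)
  rw [Y_cap hw rx hy ry _ aY mY gY n n' (by linarith) hc pc,
    X_cap (GY := fun v => Gr0 hY y v * Dk (c - 3 * l - v)) hw hx rx aX mX gX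
      ((Gr0_meas mY y).mul (Dk_meas _)) dD n n' c1 c2 hc' pc']
  congr 2
  by_cases h1 : 1 ≤ n'
  · rw [if_pos h1, if_pos h1]
    have e : ((n' - 1 : ℕ) : ℝ) = (n' : ℝ) - 1 := by
      rw [Nat.cast_sub h1]; norm_num
    have e2 : Gr0 (fun u => hX u * qg (u - c)) x = fun u => Gr0 hX x u * qg (u - c) := gr0_mul _ _ _
    have key := X_cap (GY := fun v => Gr0 hY y v * Ck (v - c)) hw hx rx
      (hX := fun u => hX u * qg (u - c)) (κ := κ + 2)
      (fun z h1 h2 => (aX z h1 h2).mul (qg_diff_pl hw pc z h1 h2)) (mX.mul (qg_meas' c))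
      ((gX.mul (gr_qg c)).mono (le_of_eq (by ring)))
      ((Gr0_meas mY y).mul (Ck_meas' c)) dC n (n' - 1) (by rw [e]; linarith) (by rw [e]; linarith)
      hc' pc'
    rw [e2] at key
    refine Eq.trans (Finset.sum_congr rfl fun a _ => ?_) key
    congr 2
    funext u
    ring
  · rw [if_neg h1, if_neg h1]

end NUP1.N

end
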