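import Pool.Agent.NUP1L.Assem2
import Pool.Agent.NUP1L.LegDefs

/-!
# A spectator with one pole in the strip, first kind

`Ck (c - l - u)` has the simple pole `u = c`; a quantum at `c` switches it off.  The contour
integral over the lines is the sum over the states of the rows, plus one term with a quantum at `c`.
The place `c` may be anywhere in the strip `β < Re c < α`.
-/

set_option autoImplicit false
set_option linter.unusedSectionVars false

noncomputable section

open Complex MeasureTheory Filter Topology Metric Set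

namespace NUP1.N

open Bd (Ob chg wt pw pt oneL Dec rl)
open Leg (Ck)

variable {α β : ℝ}

/-- spectator with a quantum at its pole -/
def E1 (z : ℂ) : ℂ := -(sin (z + l) * sin (z + 3 * l) * sin (z - l))

theorem St_SZ {m : ℕ} (x : Fin m → ℂ) (h : ℂ → ℂ) (n : ℕ) :
    ∑ a ∈ St m n, sta x h a = SZ x h n := by
  unfold St SZ
  rw [Finset.sum_filter]
  refine Finset.sum_congr rfl fun a _ => ?_
  simp only [Nat.cast_inj]

theorem Ck_mul {z : ℂ} (h1 : sin (z + l) ≠ 0) (h2 : sin (z + 2 * l) ≠ 0) :
    Ck z * Ck (z + l) = sin z * sin (z + 3 * l) := by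
  unfold Leg.Ck
  rw [show z + l + 2 * l = z + 3 * l by ring, show z + l + l = z + 2 * l by ring]
  field_simp

theorem Ck_pole (c u : ℂ) : Ck (c - l - u) =
    -(sin (c - l - u) * sin (c + l - u)) * (1 / sin (u - c)) := by
  unfold Leg.Ck
  rw [show c - l - u + 2 * l = c + l - u by ring, show c - l - u + l = -(u - c) by ring,
    Complex.sin_neg, div_neg]
  ring

theorem f1_E1 {c u : ℂ} (h : u.im ≠ c.im) :
    -(sin (c - l - u) * sin (c + l - u)) * f1 (u - c) = E1 (c - l - u) := by
  have him : (u - c).im ≠ 0 := by rw [sub_im, sub_ne_zero]; exact h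
  have h1 : sin (u - c + l) ≠ 0 := sin_ne_im (by simpa using him)
  have h2 : sin (u - c - l) ≠ 0 := sin_ne_im (by simpa using him)
  unfold f1 E1
  rw [show c - l - u = -(u - c + l) by ring, show c + l - u = -(u - c - l) by ring,
    show -(u - c + l) + l = -(u - c) by ring,
    show -(u - c + l) + 3 * l = -(u - c - 2 * l) by ring,
    show -(u - c + l) - l = -(u - c + 2 * l) by ring]
  simp only [Complex.sin_neg]
  field_simp

theorem sta_congr' {m : ℕ} {x : Fin m → ℂ} {h k : ℂ → ℂ} (h1 : ∀ i, h (x i) = k (x i))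
    (h2 : ∀ i, h (x i - l) = k (x i - l)) (a : Fin m → SignType) : sta x h a = sta x k a := by
  unfold sta
  congr 1
  refine Finset.prod_congr rfl fun i _ => ?_
  cases a i
  · exact h1 i
  · simp only [sw, h1, h2]
  · rfl

theorem SZ_congr' {m : ℕ} {x : Fin m → ℂ} {h k : ℂ → ℂ} (h1 : ∀ i, h (x i) = k (x i))
    (h2 : ∀ i, h (x i - l) = k (x i - l)) (n : ℤ) : SZ x h n = SZ x k n := by
  unfold SZ
  refine Finset.sum_congr rfl fun a _ => ?_
  rw [sta_congr' h1 h2 a]

theorem sp_of_im {x y : ℂ} (h : x.im ≠ y.im) : Sp x y := by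
  have him : (x - y).im ≠ 0 := by rw [sub_im, sub_ne_zero]; exact h
  exact ⟨sin_ne_im him, sin_ne_im (by simpa using him), sin_ne_im (by simpa using him),
    sin_ne_im (by simpa using him), sin_ne_im (by simpa using him)⟩

theorem nq_pos : nq .pos = 0 := rfl
theorem nq_zero : nq .zero = 1 := rfl
theorem nq_neg : nq .neg = 2 := rfl
theorem sw_pos (h : ℂ → ℂ) (x : ℂ) : sw .pos h x = 1 := rfl
theorem sw_zero (h : ℂ → ℂ) (x : ℂ) : sw .zero h x = h x := rfl
theorem sw_neg (h : ℂ → ℂ) (x : ℂ) : sw .neg h x = rho / sin l * (h x * h (x - l)) := rfl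

/-- one more row `c`: its three states -/
theorem SZ_cons {m : ℕ} {x : Fin m → ℂ} {c : ℂ} (hc : ∀ i, c.im ≠ (x i).im) (h : ℂ → ℂ)
    (n : ℤ) : SZ (Fin.cons c x : Fin (m + 1) → ℂ) h n =
      SZ x (fun u => h u * (1 / sin (u - c))) n +
      h c * (∏ i, 1 / sin (c - x i)) * SZ x (fun u => h u * f1 (u - c)) (n - 1) +
      rho / sin l * (h c * h (c - l)) * ((∏ i, 1 / sin (c - x i)) * ∏ i, 1 / sin (c - l - x i)) *
        SZ x (fun u => h u * f2 (u - c)) (n - 2) := by
  rw [SZ_succ, sum_sign]
  simp only [Fin.cons_zero, Fin.cons_succ]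
  have e0 : ∀ a : Fin m → SignType, (∏ j, pr .pos (a j) c (x j)) * sta x h a =
      sta x (fun u => h u * (1 / sin (u - c))) a := by
    intro a
    rw [sta_mul, mul_comm]
    congr 1
    refine Finset.prod_congr rfl fun j _ => ?_
    rw [pr_pos]
  have e1 : ∀ a : Fin m → SignType, (∏ j, pr .zero (a j) c (x j)) * sta x h a =
      (∏ i, 1 / sin (c - x i)) * sta x (fun u => h u * f1 (u - c)) a := by
    intro a
    rw [sta_mul]
    have : ∏ j, pr .zero (a j) c (x j) = (∏ i, 1 / sin (c - x i)) *
        ∏ i, ((qu (a i) (x i)).map fun u => f1 (u - c)).prod := by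
      rw [← Finset.prod_mul_distrib]
      exact Finset.prod_congr rfl fun j _ => pr_zero _ (sp_of_im (hc j))
    rw [this]
    ring
  have e2 : ∀ a : Fin m → SignType, (∏ j, pr .neg (a j) c (x j)) * sta x h a =
      ((∏ i, 1 / sin (c - x i)) * ∏ i, 1 / sin (c - l - x i)) *
        sta x (fun u => h u * f2 (u - c)) a := by
    intro a
    rw [sta_mul]
    have : ∏ j, pr .neg (a j) c (x j) = ((∏ i, 1 / sin (c - x i)) * ∏ i, 1 / sin (c - l - x i)) *
        ∏ i, ((qu (a i) (x i)).map fun u => f2 (u - c)).prod := by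
      rw [← Finset.prod_mul_distrib, ← Finset.prod_mul_distrib]
      exact Finset.prod_congr rfl fun j _ => pr_neg _ (sp_of_im (hc j))
    rw [this]
    ring
  rw [← add_assoc]
  congr 1
  · congr 1
    · unfold SZ
      refine Finset.sum_congr rfl fun a _ => ?_
      rw [nq_pos, sw_pos, zero_add, one_mul, e0]
    · unfold SZ
      rw [Finset.mul_sum]
      refine Finset.sum_congr rfl fun a _ => ?_
      have : (((1 + ∑ i, nq (a i) : ℕ) : ℤ) = n) ↔ (((∑ i, nq (a i) : ℕ) : ℤ) = n - 1) := by
        push_cast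
        omega
      rw [nq_zero, sw_zero]
      simp only [this]
      split_ifs
      · rw [mul_assoc, e1]
        ring
      · simp
  · unfold SZ
    rw [Finset.mul_sum]
    refine Finset.sum_congr rfl fun a _ => ?_
    have : (((2 + ∑ i, nq (a i) : ℕ) : ℤ) = n) ↔ (((∑ i, nq (a i) : ℕ) : ℤ) = n - 2) := by
      push_cast
      omega
    rw [nq_neg, sw_neg]
    simp only [this]
    split_ifs
    · rw [mul_assoc, e2]
      ring
    · simp

theorem cons_im {m : ℕ} {x : Fin m → ℂ} {c : ℂ} (hx : ∀ i j, i ≠ j → (x i).im ≠ (x j).im)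
    (hc : ∀ i, c.im ≠ (x i).im) : ∀ i j, i ≠ j →
      ((Fin.cons c x : Fin (m + 1) → ℂ) i).im ≠ ((Fin.cons c x : Fin (m + 1) → ℂ) j).im := by
  intro i j hij
  rcases Fin.eq_zero_or_eq_succ i with rfl | ⟨i, rfl⟩ <;>
    rcases Fin.eq_zero_or_eq_succ j with rfl | ⟨j, rfl⟩
  · exact absurd rfl hij
  · simpa using hc j
  · simpa using (hc i).symm
  · simpa using hx i j fun h => hij (by rw [h])

theorem cons_re {m : ℕ} {x : Fin m → ℂ} {c : ℂ} {P : ℝ → Prop} (hx : ∀ i, P (x i).re)
    (hc : P c.re) : ∀ i, P ((Fin.cons c x : Fin (m + 1) → ℂ) i).re := by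
  intro i
  rcases Fin.eq_zero_or_eq_succ i with rfl | ⟨i, rfl⟩
  · simpa using hc
  · simpa using hx i

theorem Gr0_cons {m : ℕ} (h : ℂ → ℂ) (x : Fin m → ℂ) (c u : ℂ) :
    Gr0 h (Fin.cons c x : Fin (m + 1) → ℂ) u = Gr0 h x u * (1 / sin (u - c)) := by
  unfold Gr0
  rw [Fin.prod_univ_succ]
  simp only [Fin.cons_zero, Fin.cons_succ]
  ring

/-- the contour side of one species with one more pole `c` of the spectator, right of the string
line: all three states of the pole -/
theorem cap0 (hw : Wd α β) {m : ℕ} {x : Fin m → ℂ}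
    (hx : ∀ i j, i ≠ j → (x i).im ≠ (x j).im) (rx : ∀ i, β + l < (x i).re ∧ (x i).re < α)
    {h : ℂ → ℂ} (mh : Measurable h)
    (ah : ∀ z : ℂ, β ≤ z.re → z.re ≤ α → DifferentiableAt ℂ h z) {κ : ℝ}
    (gh : Gr α β (-κ) h) (n : ℕ) (hn : 2 * ((n : ℝ) - 1) < κ + m + 1)
    {c : ℂ} (hc : ∀ i, c.im ≠ (x i).im) (rc : β + l < c.re ∧ c.re < α) :
    K α β n (fun u => Gr0 h x u * (1 / sin (u - c))) =
      SZ x (fun u => h u * (1 / sin (u - c))) n +
      h c * (∏ i, 1 / sin (c - x i)) * SZ x (fun u => h u * f1 (u - c)) (n - 1) +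
      rho / sin l * (h c * h (c - l)) * ((∏ i, 1 / sin (c - x i)) * ∏ i, 1 / sin (c - l - x i)) *
        SZ x (fun u => h u * f2 (u - c)) (n - 2) := by
  have e : (fun u => Gr0 h x u * (1 / sin (u - c))) =
      Gr0 h (Fin.cons c x : Fin (m + 1) → ℂ) := funext fun u => (Gr0_cons h x c u).symm
  rw [e, mainG hw mh ah gh n (by push_cast; linarith) (cons_im hx hc)
    (cons_re (P := fun r => β + l < r ∧ r < α) rx rc), St_SZ, SZ_cons hc]

/-- the first kind of pole, right of the string line -/
theorem capC0 (hw : Wd α β) {m : ℕ} {x : Fin m → ℂ}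
    (hx : ∀ i j, i ≠ j → (x i).im ≠ (x j).im) (rx : ∀ i, β + l < (x i).re ∧ (x i).re < α)
    {h : ℂ → ℂ} (mh : Measurable h)
    (ah : ∀ z : ℂ, β ≤ z.re → z.re ≤ α → DifferentiableAt ℂ h z) {κ : ℝ}
    (gh : Gr α β (-κ) h) (n : ℕ) (hn : 2 * ((n : ℝ) - 1) < κ + m - 1)
    {c : ℂ} (hc : ∀ i, c.im ≠ (x i).im) (rc : β + l < c.re ∧ c.re < α) :
    K α β n (fun u => Gr0 h x u * Ck (c - l - u)) =
      SZ x (fun u => h u * Ck (c - l - u)) n +
      sin l ^ 2 * Gr0 h x c * SZ x (fun u => h u * E1 (c - l - u)) (n - 1) := by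
  set h' : ℂ → ℂ := fun u => h u * -(sin (c - l - u) * sin (c + l - u)) with hh'
  have mh' : Measurable h' := mh.mul (by fun_prop)
  have ah' : ∀ z : ℂ, β ≤ z.re → z.re ≤ α → DifferentiableAt ℂ h' z := fun z h1 h2 =>
    (ah z h1 h2).mul (by fun_prop)
  have gh' : Gr α β (-(κ - 2)) h' := by
    have g1 := ((Gr.sin (α := α) (β := β) (c - l)).mul (Gr.sin (c + l))).cmul (-1)
    refine (gh.mul g1).congr 0 (g := h') (fun z _ _ _ => ?_) |>.mono (le_of_eq (by ring))
    rw [hh']
    simp only
    rw [show c - l - z = -(z - (c - l)) by ring, show c + l - z = -(z - (c + l)) by ring,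
      Complex.sin_neg, Complex.sin_neg]
    ring
  have key := cap0 hw hx rx mh' ah' gh' n (by linarith) hc rc
  have e0 : (fun u => Gr0 h' x u * (1 / sin (u - c))) = fun u => Gr0 h x u * Ck (c - l - u) := by
    funext u
    rw [Ck_pole, hh']
    unfold Gr0
    ring
  have e1 : (fun u => h' u * (1 / sin (u - c))) = fun u => h u * Ck (c - l - u) := by
    funext u
    rw [Ck_pole, hh']
    ring
  have e2 : h' (c - l) = 0 := by
    rw [hh']
    simp
  have e3 : SZ x (fun u => h' u * f1 (u - c)) ((n : ℤ) - 1) =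
      SZ x (fun u => h u * E1 (c - l - u)) ((n : ℤ) - 1) := by
    refine SZ_congr' (fun i => ?_) (fun i => ?_) _
    · rw [hh']
      simp only
      rw [mul_assoc, f1_E1 (hc i).symm]
    · rw [hh']
      simp only
      rw [mul_assoc, f1_E1 (by simpa using (hc i).symm)]
  have e4 : h' c = sin l ^ 2 * h c := by
    rw [hh']
    simp only
    rw [show c - l - c = -(l : ℂ) by ring, show c + l - c = (l : ℂ) by ring, Complex.sin_neg]
    ring
  rw [e0, e1, e2, e3, e4] at key
  rw [key]
  unfold Gr0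
  ring

/-! ### crossing the string line -/

theorem exists_sep {m : ℕ} (x : Fin m → ℝ) (y : ℝ) (h : ∀ i, y ≠ x i) :
    ∃ δ : ℝ, 0 < δ ∧ ∀ i, δ ≤ |x i - y| := by
  rcases isEmpty_or_nonempty (Fin m) with he | he
  · exact ⟨1, one_pos, fun i => (he.false i).elim⟩
  · obtain ⟨i₀, hi₀⟩ := Finite.exists_min (fun i => |x i - y|)
    exact ⟨|x i₀ - y|, abs_pos.2 (sub_ne_zero.2 (h i₀).symm), hi₀⟩

theorem sin_low1 {σ ρ1 ρ2 : ℝ} (h12 : ρ1 ≤ ρ2)
    (h : ∀ r, ρ1 ≤ r → r ≤ ρ2 → 0 < |σ - r| ∧ |σ - r| < 8 * l) :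
    ∃ s : ℝ, 0 < s ∧ ∀ r : ℝ, ρ1 ≤ r → r ≤ ρ2 → s ≤ |Real.sin (σ - r)| := by
  have hpos : ∀ r ∈ Icc ρ1 ρ2, 0 < |Real.sin (σ - r)| := fun r hr =>
    Bd.abs_sin_pos (h r hr.1 hr.2).1 (h r hr.1 hr.2).2
  obtain ⟨r₀, hr₀, hmin⟩ := isCompact_Icc.exists_isMinOn (nonempty_Icc.2 h12)
    (f := fun r => |Real.sin (σ - r)|) (by fun_prop)
  exact ⟨|Real.sin (σ - r₀)|, hpos r₀ hr₀, fun r a b => hmin ⟨a, b⟩⟩

theorem norm_sin_sub_le {c z : ℂ} {Y : ℝ} (hy : |c.im| ≤ Y) :
    ‖sin (c - z)‖ ≤ Real.exp Y * Real.exp |z.im| := by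
  refine (norm_sin_le _).trans ?_
  rw [← Real.exp_add]
  refine Real.exp_le_exp.2 ?_
  rw [sub_im]
  have := abs_sub c.im z.im
  linarith

theorem Ck_bound {s Y : ℝ} (hs : 0 < s) {z c : ℂ} (h : s ≤ |Real.sin (z.re - c.re)|)
    (hy : |c.im| ≤ Y) : ‖Ck (c - l - z)‖ ≤ Real.exp Y ^ 2 * (2 * Real.exp Y / s) *
      Real.exp |z.im| := by
  rw [Ck_pole, norm_mul, norm_neg, norm_mul]
  have h1 := inv_sin_unif hs h hy
  have h2 := norm_sin_sub_le (c := c - l) (z := z) (Y := Y) (by simpa using hy)
  have h3 := norm_sin_sub_le (c := c + l) (z := z) (Y := Y) (by simpa using hy)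
  calc _ ≤ (Real.exp Y * Real.exp |z.im|) * (Real.exp Y * Real.exp |z.im|) *
        (2 * Real.exp Y / s * Real.exp (-|z.im|)) := by gcongr
    _ = Real.exp Y ^ 2 * (2 * Real.exp Y / s) *
        (Real.exp |z.im| * (Real.exp |z.im| * Real.exp (-|z.im|))) := by ring
    _ = _ := by rw [← Real.exp_add, add_neg_cancel, Real.exp_zero, mul_one]

theorem listprod_diff' {ι : Type*} (L : List ι) {f : ι → ℂ → ℂ} {c : ℂ}
    (h : ∀ r ∈ L, DifferentiableAt ℂ (f r) c) :
    DifferentiableAt ℂ (fun c => (L.map fun r => f r c).prod) c := by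
  induction L with
  | nil => exact differentiableAt_const _
  | cons r L ih =>
    simp only [List.map_cons, List.prod_cons]
    exact (h r (List.mem_cons_self ..)).mul (ih fun s hs => h s (List.mem_cons_of_mem _ hs))

theorem qu_im {a : SignType} {x u : ℂ} (h : u ∈ qu a x) : u.im = x.im := by
  cases a
  · simp only [qu, List.mem_singleton] at h
    rw [h]
  · simp only [qu, List.mem_cons, List.not_mem_nil, or_false] at h
    rcases h with rfl | rfl
    · rfl
    · simp
  · simp [qu] at h

theorem SZ_spec_diff {m : ℕ} {x : Fin m → ℂ} {h : ℂ → ℂ} {k : ℂ → ℂ → ℂ} {c₀ : ℂ}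
    (hk : ∀ i u, u.im = (x i).im → DifferentiableAt ℂ (fun c => k c u) c₀) (n : ℤ) :
    DifferentiableAt ℂ (fun c => SZ x (fun u => h u * k c u) n) c₀ := by
  unfold SZ
  refine DifferentiableAt.fun_sum fun a _ => ?_
  by_cases hn : ((∑ i, nq (a i) : ℕ) : ℤ) = n
  · simp only [if_pos hn, sta_mul]
    refine DifferentiableAt.const_mul ?_ _
    have := DifferentiableAt.fun_finsetProd (𝕜 := ℂ) (u := Finset.univ) (x := c₀)
      (f := fun (i : Fin m) c => ((qu (a i) (x i)).map (k c)).prod) (fun i _ => by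
        exact listprod_diff' (f := fun u c => k c u) _ fun u hu => hk i u (qu_im hu))
    exact this
  · simp only [if_neg hn]
    exact differentiableAt_const _

/-- the one body functions on the lines, with the removable pole of the strings removed -/
def HF (α β : ℝ) (G : ℂ → ℂ) (c : ℂ) : Ob → ℝ → ℂ
  | .A, t => G (pt α β .A t) * Ck (c - l - pt α β .A t)
  | .L, t => G (pt α β .L t) * Ck (c - l - pt α β .L t)
  | .S, t => (G (pt α β .S t) * G (pt α β .S t - l)) *
      (sin (c - l - pt α β .S t) * sin (c + 2 * l - pt α β .S t))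

theorem Ck_meas (c : ℂ) : Measurable fun u => Ck (c - u) := by
  unfold Leg.Ck
  fun_prop

theorem HF_meas {G : ℂ → ℂ} (hG : Measurable G) (c : ℂ) (k : Ob) :
    Measurable (HF α β G c k) := by
  have hp : ∀ k, Measurable (pt α β k) := fun k => Bd.measurable_pt α β k
  cases k
  · exact (hG.comp (hp .A)).mul ((Ck_meas (c - l)).comp (hp .A))
  · exact (hG.comp (hp .L)).mul ((Ck_meas (c - l)).comp (hp .L))
  · have h2 : Measurable fun t => G (pt α β .S t - l) := hG.comp ((hp .S).sub_const _)
    have h3 : Measurable fun t => sin (c - l - pt α β .S t) :=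
      Complex.measurable_sin.comp ((hp .S).const_sub _)
    have h4 : Measurable fun t => sin (c + 2 * l - pt α β .S t) :=
      Complex.measurable_sin.comp ((hp .S).const_sub _)
    exact ((hG.comp (hp .S)).mul h2).mul (h3.mul h4)

theorem HF_eq (hw : Wd α β) (G : ℂ → ℂ) {c : ℂ} (rc : β < c.re ∧ c.re < α)
    (rc' : c.re ≠ β + l) (k : Ob) (t : ℝ) :
    oneL α β (fun u => G u * Ck (c - l - u)) k t = HF α β G c k t := by
  have hl := lpos
  have w1 := hw.lo
  have w2 := hw.hi
  cases k
  · rfl
  · rfl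
  · show G (pt α β .S t) * Ck (c - l - pt α β .S t) *
      (G (pt α β .S t - l) * Ck (c - l - (pt α β .S t - l))) = _
    have hr : (pt α β .S t).re = β + l := by rw [Bd.pt_re]; rfl
    set z := pt α β .S t with hz
    have n1 : sin (c - l - z + l) ≠ 0 := by
      refine sin_ne_re' ?_ ?_ ?_
      · simp; linarith
      · simp; linarith
      · simp only [add_re, sub_re, ofReal_re, hr]
        intro h'
        exact rc' (by linarith)
    have n2 : sin (c - l - z + 2 * l) ≠ 0 := by
      refine sin_ne_re' ?_ ?_ ?_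
      · simp; linarith
      · simp; linarith
      · have : (c - l - z + 2 * l).re = c.re - β := by simp [hr]; ring
        rw [this]
        intro h'
        linarith
    have key := Ck_mul n1 n2
    rw [show c - l - (z - l) = c - l - z + l by ring]
    show _ = (G z * G (z - l)) * (sin (c - l - z) * sin (c + 2 * l - z))
    rw [show c + 2 * l - z = c - l - z + 3 * l by ring, ← key]
    ring

/-- **A spectator of the first kind**: `Ck (c - l - u)` with its pole `c` anywhere in the strip. -/
theorem capC (hw : Wd α β) {m : ℕ} {x : Fin m → ℂ}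
    (hx : ∀ i j, i ≠ j → (x i).im ≠ (x j).im) (rx : ∀ i, β + l < (x i).re ∧ (x i).re < α)
    {h : ℂ → ℂ} (mh : Measurable h)
    (ah : ∀ z : ℂ, β ≤ z.re → z.re ≤ α → DifferentiableAt ℂ h z) {κ : ℝ}
    (gh : Gr α β (-κ) h) (n : ℕ) (hn : 2 * ((n : ℝ) - 1) < κ + m - 1)
    {c : ℂ} (hc : ∀ i, c.im ≠ (x i).im) (rc : β < c.re ∧ c.re < α) (rc' : c.re ≠ β + l) :
    K α β n (fun u => Gr0 h x u * Ck (c - l - u)) =
      SZ x (fun u => h u * Ck (c - l - u)) n +
      sin l ^ 2 * Gr0 h x c * SZ x (fun u => h u * E1 (c - l - u)) (n - 1) := by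
  have hl := lpos
  have w1 := hw.lo
  have w2 := hw.hi
  have w3 : l < α - β := by linarith
  have w4 : α - β < 3 * l := by linarith
  obtain ⟨δ, hδ, hδi⟩ := exists_sep (fun i => (x i).im) c.im hc
  set y := c.im with hy
  obtain ⟨r₀, a1, a2⟩ := exists_between (show β + l < α by linarith)
  obtain ⟨r1, b1, b2⟩ := exists_between (lt_min rc.1 (show β < r₀ by linarith))
  obtain ⟨r2, b3, b4⟩ := exists_between (max_lt rc.2 a2)
  rw [lt_min_iff] at b2
  rw [max_lt_iff] at b3
  set Ω := Rc r1 r2 y δ with hΩ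
  have hΩo : IsOpen Ω := Rc_open _ _ _ _
  have hΩc : IsPreconnected Ω := (Rc_convex _ _ _ _).isPreconnected
  have him : ∀ c ∈ Ω, ∀ i, c.im ≠ (x i).im := by
    intro c hc i h'
    have h1 := hδi i
    rw [← h'] at h1
    exact absurd hc.2.2 (not_lt.2 h1)
  have hcΩ : c ∈ Ω := ⟨b2.1, b3.1, by rw [hy, sub_self, abs_zero]; exact hδ⟩
  have hz₀ : ((r₀ : ℂ) + y * I) ∈ Ω := by
    refine ⟨?_, ?_, ?_⟩
    · simpa using b2.2
    · simpa using b3.2
    · simpa using hδ
  have mG := Gr0_meas mh x
  obtain ⟨D0, hD0, hDb⟩ := Gr0_dec hw ah gh rx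
  -- uniform bounds of the spectator
  obtain ⟨sA, psA, hsA⟩ := sin_low1 (σ := α) (ρ1 := r1) (ρ2 := r2) (by linarith)
    fun r h1 h2 => by
      rw [abs_of_pos (by linarith)]
      constructor <;> linarith
  obtain ⟨sL, psL, hsL⟩ := sin_low1 (σ := β) (ρ1 := r1) (ρ2 := r2) (by linarith)
    fun r h1 h2 => by
      rw [abs_of_neg (by linarith)]
      constructor <;> linarith
  set Y := |y| + δ with hY
  have hYc : ∀ c ∈ Ω, |c.im| ≤ Y := by
    intro c hc
    have h1 := hc.2.2
    have := abs_sub_abs_le_abs_sub c.im y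
    linarith
  set CA := Real.exp Y ^ 2 * (2 * Real.exp Y / sA) with hCA
  set CL := Real.exp Y ^ 2 * (2 * Real.exp Y / sL) with hCL
  have pCA : 0 ≤ CA := by positivity
  have pCL : 0 ≤ CL := by positivity
  set D := D0 * CA + D0 * CL + (D0 * D0) * (Real.exp Y * Real.exp Y) with hD
  have hb : ∀ c ∈ Ω, ∀ k t, ‖HF α β (Gr0 h x) c k t‖ ≤
      D * Real.exp (-((κ + m - 1) * chg k * |t|)) := by
    intro c hc k t
    have hYY := hYc c hc
    have hr : (pt α β k t).re = rl α β k := Bd.pt_re α β k t
    have hi : (pt α β k t).im = t := Bd.pt_im α β k t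
    cases k
    · have g1 := hDb (pt α β .A t) (Or.inl (by rw [hr]; rfl))
      have g2 := Ck_bound psA (z := pt α β .A t) (c := c) (Y := Y)
        (by rw [hr]; exact hsA c.re hc.1.le hc.2.1.le) hYY
      rw [hi] at g1 g2
      show ‖Gr0 h x (pt α β .A t) * Ck (c - l - pt α β .A t)‖ ≤ _
      rw [norm_mul]
      calc _ ≤ (D0 * Real.exp (-((κ + m) * |t|))) * (CA * Real.exp |t|) := by gcongr
        _ = D0 * CA * Real.exp (-((κ + m - 1) * chg .A * |t|)) := by
            rw [show -((κ + m - 1) * chg .A * |t|) = -((κ + m) * |t|) + |t| by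
              simp only [chg]; push_cast; ring, Real.exp_add]
            ring
        _ ≤ _ := by
            refine mul_le_mul_of_nonneg_right ?_ (Real.exp_pos _).le
            rw [hD]
            have : 0 ≤ D0 * CL := by positivity
            have : 0 ≤ (D0 * D0) * (Real.exp Y * Real.exp Y) := by positivity
            linarith
    · have g1 := hDb (pt α β .L t) (Or.inr (Or.inl (by rw [hr]; rfl)))
      have g2 := Ck_bound psL (z := pt α β .L t) (c := c) (Y := Y)
        (by rw [hr]; exact hsL c.re hc.1.le hc.2.1.le) hYY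
      rw [hi] at g1 g2
      show ‖Gr0 h x (pt α β .L t) * Ck (c - l - pt α β .L t)‖ ≤ _
      rw [norm_mul]
      calc _ ≤ (D0 * Real.exp (-((κ + m) * |t|))) * (CL * Real.exp |t|) := by gcongr
        _ = D0 * CL * Real.exp (-((κ + m - 1) * chg .L * |t|)) := by
            rw [show -((κ + m - 1) * chg .L * |t|) = -((κ + m) * |t|) + |t| by
              simp only [chg]; push_cast; ring, Real.exp_add]
            ring
        _ ≤ _ := by
            refine mul_le_mul_of_nonneg_right ?_ (Real.exp_pos _).le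
            rw [hD]
            have : 0 ≤ D0 * CA := by positivity
            have : 0 ≤ (D0 * D0) * (Real.exp Y * Real.exp Y) := by positivity
            linarith
    · have g1 := hDb (pt α β .S t) (Or.inr (Or.inr (by rw [hr]; rfl)))
      have g2 := hDb (pt α β .S t - l) (Or.inr (Or.inl (by
        rw [sub_re, ofReal_re, hr]; simp [rl])))
      have g3 := norm_sin_sub_le (c := c - l) (z := pt α β .S t) (Y := Y) (by simpa using hYY)
      have g4 := norm_sin_sub_le (c := c + 2 * l) (z := pt α β .S t) (Y := Y) (by simpa using hYY)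
      rw [hi] at g1 g3 g4
      rw [sub_im, ofReal_im, sub_zero, hi] at g2
      show ‖(Gr0 h x (pt α β .S t) * Gr0 h x (pt α β .S t - l)) *
        (sin (c - l - pt α β .S t) * sin (c + 2 * l - pt α β .S t))‖ ≤ _
      rw [norm_mul, norm_mul, norm_mul]
      calc _ ≤ ((D0 * Real.exp (-((κ + m) * |t|))) * (D0 * Real.exp (-((κ + m) * |t|)))) *
            ((Real.exp Y * Real.exp |t|) * (Real.exp Y * Real.exp |t|)) := by gcongr
        _ = (D0 * D0) * (Real.exp Y * Real.exp Y) *
            Real.exp (-((κ + m - 1) * chg .S * |t|)) := by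
            have ee : Real.exp (-((κ + m - 1) * chg .S * |t|)) =
                (Real.exp (-((κ + m) * |t|)) * Real.exp (-((κ + m) * |t|))) *
                  (Real.exp |t| * Real.exp |t|) := by
              rw [← Real.exp_add, ← Real.exp_add, ← Real.exp_add]
              congr 1
              simp only [chg]
              push_cast
              ring
            rw [ee]
            ring
        _ ≤ _ := by
            refine mul_le_mul_of_nonneg_right ?_ (Real.exp_pos _).le
            rw [hD]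
            have : 0 ≤ D0 * CA := by positivity
            have : 0 ≤ D0 * CL := by positivity
            linarith
  -- differentiability of the lines
  have hd : ∀ k t, DifferentiableOn ℂ (fun c => HF α β (Gr0 h x) c k t) Ω := by
    intro k t c hc
    have hr : (pt α β k t).re = rl α β k := Bd.pt_re α β k t
    have hck : ∀ z : ℂ, sin (c - z) ≠ 0 → DifferentiableAt ℂ (fun c => Ck (c - l - z)) c := by
      intro z hz
      have hz' : sin (c - l - z + l) ≠ 0 := by
        rwa [show c - l - z + l = c - z by ring]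
      unfold Leg.Ck
      fun_prop (disch := exact hz')
    cases k
    · refine (DifferentiableAt.const_mul (hck _ ?_) _).differentiableWithinAt
      have e : rl α β .A = α := rfl
      refine sin_ne_re' ?_ ?_ ?_
      · rw [sub_re, hr, e]; have := hc.1; linarith
      · rw [sub_re, hr, e]; have := hc.2.1; linarith
      · rw [sub_re, hr, e]; have := hc.2.1; intro h'; linarith
    · refine (DifferentiableAt.const_mul (hck _ ?_) _).differentiableWithinAt
      have e : rl α β .L = β := rfl
      refine sin_ne_re' ?_ ?_ ?_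
      · rw [sub_re, hr, e]; have := hc.1; linarith
      · rw [sub_re, hr, e]; have := hc.2.1; linarith
      · rw [sub_re, hr, e]; have := hc.1; intro h'; linarith
    · have : DifferentiableAt ℂ (fun c => (Gr0 h x (pt α β .S t) * Gr0 h x (pt α β .S t - l)) *
        (sin (c - l - pt α β .S t) * sin (c + 2 * l - pt α β .S t))) c := by fun_prop
      exact this.differentiableWithinAt
  -- the closed form away from the string line
  have hK : ∀ c ∈ Ω, c.re ≠ β + l → K α β n (fun u => Gr0 h x u * Ck (c - l - u)) =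
      Grand.Z volume chg wt (pw α β) n (HF α β (Gr0 h x) c) := by
    intro c hc hne
    have e1 : oneL α β (fun u => Gr0 h x u * Ck (c - l - u)) = HF α β (Gr0 h x) c := by
      funext k t
      exact HF_eq hw _ ⟨b1.trans hc.1, hc.2.1.trans b4⟩ hne k t
    have hYY := hYc c hc
    have hdec : Dec α β (κ + m - 1) (fun u => Gr0 h x u * Ck (c - l - u)) := by
      have hs : ∃ s : ℝ, 0 < s ∧ ∀ σ : ℝ, OnL α β σ → s ≤ |Real.sin (σ - c.re)| := by
        have q1 := hc.1
        have q2 := hc.2.1
        have p1 : 0 < |Real.sin (α - c.re)| := Bd.abs_sin_pos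
          (by rw [abs_of_pos (by linarith)]; linarith)
          (by rw [abs_of_pos (by linarith)]; linarith)
        have p2 : 0 < |Real.sin (β - c.re)| := Bd.abs_sin_pos
          (by rw [abs_of_neg (by linarith)]; linarith)
          (by rw [abs_of_neg (by linarith)]; linarith)
        have p3 : 0 < |Real.sin (β + l - c.re)| := Bd.abs_sin_pos
          (abs_pos.2 (sub_ne_zero.2 hne.symm))
          (by rw [abs_lt]; constructor <;> linarith)
        refine ⟨min |Real.sin (α - c.re)| (min |Real.sin (β - c.re)| |Real.sin (β + l - c.re)|),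
          lt_min p1 (lt_min p2 p3), fun σ hσ => ?_⟩
        rcases hσ with rfl | rfl | rfl
        · exact min_le_left _ _
        · exact (min_le_right _ _).trans (min_le_left _ _)
        · exact (min_le_right _ _).trans (min_le_right _ _)
      obtain ⟨s, ps, hs⟩ := hs
      have h1 : Dec α β (κ + m) (Gr0 h x) := ⟨D0, hD0, hDb⟩
      have h2 : Dec α β (-1) (fun u => Ck (c - l - u)) := by
        refine ⟨Real.exp Y ^ 2 * (2 * Real.exp Y / s), by positivity, fun z hz => ?_⟩
        have := Ck_bound ps (z := z) (c := c) (Y := Y) (hs z.re hz) hYY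
        rwa [show -(-1 * |z.im|) = |z.im| by ring]
      exact (h1.mul h2).congr_rate (by ring)
    rw [← e1]
    exact Bd.K_closed' w3 w4 hn (mG.mul (Ck_meas (c - l))) hdec
  have key := cont w3 w4 hn hΩo hΩc (HF α β (Gr0 h x)) (fun c _ k => HF_meas mG c k) hb hd
    (Tn := fun c => SZ x (fun u => h u * Ck (c - l - u)) n +
      sin l ^ 2 * Gr0 h x c * SZ x (fun u => h u * E1 (c - l - u)) (n - 1)) (by
      intro c hc
      have hi := him c hc
      have hr1 : β ≤ c.re := (b1.trans hc.1).le
      have hr2 : c.re ≤ α := (hc.2.1.trans b4).le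
      refine DifferentiableAt.differentiableWithinAt ?_
      refine DifferentiableAt.add ?_ (DifferentiableAt.mul (DifferentiableAt.const_mul ?_ _) ?_)
      · refine SZ_spec_diff (k := fun c u => Ck (c - l - u)) (fun i u hu => ?_) _
        have hne : sin (c - l - u + l) ≠ 0 := by
          refine sin_ne_im ?_
          have := hi i
          simp only [add_im, sub_im, ofReal_im, hu, sub_zero, add_zero]
          exact sub_ne_zero.2 this
        unfold Leg.Ck
        fun_prop (disch := exact hne)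
      · unfold Gr0
        refine (ah c hr1 hr2).mul ?_
        have := DifferentiableAt.fun_finsetProd (𝕜 := ℂ) (u := Finset.univ) (x := c)
          (f := fun (i : Fin m) c => 1 / sin (c - x i)) (fun i _ => by
            have hne : sin (c - x i) ≠ 0 := sin_ne_im (by
              rw [sub_im]
              exact sub_ne_zero.2 (hi i))
            fun_prop (disch := exact hne))
        exact this
      · refine SZ_spec_diff (k := fun c u => E1 (c - l - u)) (fun i u hu => ?_) _
        unfold E1
        fun_prop)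
    hz₀ (by
      have hnb : {c : ℂ | c ∈ Ω ∧ β + l < c.re ∧ c.re < α} ∈ 𝓝 ((r₀ : ℂ) + y * I) := by
        refine Filter.inter_mem (hΩo.mem_nhds hz₀) ?_
        have hc : Continuous fun c : ℂ => c.re := continuous_re
        have o1 : IsOpen {c : ℂ | β + l < c.re ∧ c.re < α} :=
          (isOpen_lt continuous_const hc).inter (isOpen_lt hc continuous_const)
        refine o1.mem_nhds ?_
        simp only [Set.mem_ofPred_eq, add_re, ofReal_re, mul_re, I_re, I_im, ofReal_im, mul_zero,
          zero_mul, sub_zero, add_zero]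
        exact ⟨a1, a2⟩
      filter_upwards [hnb] with c hc
      obtain ⟨hc0, c1, c2⟩ := hc
      rw [← hK c hc0 (by intro h'; linarith)]
      exact capC0 hw hx rx mh ah gh n hn (him c hc0) ⟨c1, c2⟩)
    c hcΩ
  rw [hK c hcΩ rc', key]

end NUP1.N

end
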