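import Pool.Agent.NUP1L.CapC

/-!
# A spectator with one pole in the strip, second kind

`Dk (c - 3 l - u)` has the simple pole `u = c`, right of the string line.  The sum over the states of
the rows is the contour integral over the lines, plus one term with a quantum at `c`.
-/

set_option autoImplicit false
set_option linter.unusedSectionVars false

noncomputable section

open Complex MeasureTheory Filter Topology Metric Set

namespace NUP1.N

open Bd (Ob chg wt pw pt oneL Dec rl)
open Leg (Ck Dk)

variable {α β : ℝ}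

theorem sin_sub8 (z : ℂ) : sin (z + 8 * l) = -sin z := by
  have e : (8 * l : ℂ) = (Real.pi : ℂ) := by rw [pi_eq]; push_cast; ring
  rw [e, Complex.sin_add_pi]

theorem sin_p4 (z : ℂ) : sin (z + 4 * l) = cos z := by
  have e : (4 * l : ℂ) = (Real.pi : ℂ) / 2 := by rw [pi_eq]; push_cast; ring
  rw [e, Complex.sin_add_pi_div_two]

theorem Dk_pole (c u : ℂ) : Dk (c - 3 * l - u) =
    -(sin (u - c - l) / sin (u - c - 2 * l)) * (1 / sin (u - c)) := by
  unfold Leg.Dk
  have e1 : cos (c - 3 * l - u) = -sin (u - c - l) := by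
    rw [← Complex.cos_neg, show -(c - 3 * l - u) = u - c + 3 * l by ring, ← sin_p4,
      show u - c + 3 * l + 4 * l = u - c - l + 8 * l by ring, sin_sub8]
  have e2 : sin (3 * l - (c - 3 * l - u)) = -sin (u - c - 2 * l) := by
    rw [show 3 * l - (c - 3 * l - u) = u - c - 2 * l + 8 * l by ring, sin_sub8]
  have e3 : sin (3 * l + (c - 3 * l - u)) = -sin (u - c) := by
    rw [show 3 * l + (c - 3 * l - u) = -(u - c) by ring, Complex.sin_neg]
  rw [e1, e2, e3, neg_mul_neg, div_eq_mul_inv, mul_inv]
  ring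

/-- the contour side with one quantum less -/
def Km (α β : ℝ) : ℕ → (ℂ → ℂ) → ℂ
  | 0, _ => 0
  | n + 1, G => K α β n G

/-- **A spectator of the second kind**: `Dk (c - 3 l - u)` with its pole `c` right of the string
line and `c - l` left of it. -/
theorem capD (hw : Wd α β) {m : ℕ} {x : Fin m → ℂ}
    (hx : ∀ i j, i ≠ j → (x i).im ≠ (x j).im) (rx : ∀ i, β + l < (x i).re ∧ (x i).re < α)
    {h : ℂ → ℂ} (mh : Measurable h)
    (ah : ∀ z : ℂ, β ≤ z.re → z.re ≤ α → DifferentiableAt ℂ h z) {κ : ℝ}
    (gh : Gr α β (-κ) h) (n : ℕ) (hn : 2 * ((n : ℝ) - 1) < κ + m + 1)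
    {c : ℂ} (hc : ∀ i, c.im ≠ (x i).im) (rc : β + l < c.re ∧ c.re < α)
    (rc' : c.re ≠ β + 2 * l) :
    SZ x (fun u => h u * Dk (c - 3 * l - u)) n =
      K α β n (fun u => Gr0 h x u * Dk (c - 3 * l - u)) +
      sin l / sin (2 * l) * Gr0 h x c * Km α β n (fun u => Gr0 h x u * Ck (u - c)) := by
  have hl := lpos
  have w1 := hw.lo
  have w2 := hw.hi
  obtain ⟨rc1, rc2⟩ := rc
  have s1 : sin (l : ℂ) ≠ 0 := by
    refine sin_ne_re' ?_ ?_ ?_
    · rw [ofReal_re]; linarith
    · rw [ofReal_re]; linarith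
    · rw [ofReal_re]; exact hl.ne'
  have s2 : sin (2 * l : ℂ) ≠ 0 := by
    have e : (2 * l : ℂ).re = 2 * l := by simp
    refine sin_ne_re' ?_ ?_ ?_
    · rw [e]; linarith
    · rw [e]; linarith
    · rw [e]; positivity
  have s3 : sin (3 * l : ℂ) ≠ 0 := by
    have e : (3 * l : ℂ).re = 3 * l := by simp
    refine sin_ne_re' ?_ ?_ ?_
    · rw [e]; linarith
    · rw [e]; linarith
    · rw [e]; positivity
  set h' : ℂ → ℂ := fun u => h u * -(sin (u - c - l) / sin (u - c - 2 * l)) with hh'
  have mh' : Measurable h' := mh.mul (by fun_prop)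
  have ah' : ∀ z : ℂ, β ≤ z.re → z.re ≤ α → DifferentiableAt ℂ h' z := by
    intro z h1 h2
    have hne : sin (z - c - 2 * l) ≠ 0 := by
      have e : (z - c - 2 * l).re = z.re - c.re - 2 * l := by simp
      refine sin_ne_re' ?_ ?_ ?_
      · rw [e]; linarith
      · rw [e]; linarith
      · rw [e]; intro h'; linarith
    refine (ah z h1 h2).mul ?_
    fun_prop (disch := exact hne)
  have gh' : Gr α β (-κ) h' := by
    have g1 := ((Gr.sin (α := α) (β := β) (c + l)).mul (Gr.inv_sin (c + 2 * l))).cmul (-1)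
    refine (gh.mul g1).congr 0 (g := h') (fun z _ _ _ => ?_) |>.mono (le_of_eq (by ring))
    rw [hh']
    simp only
    rw [show z - (c + l) = z - c - l by ring, show z - (c + 2 * l) = z - c - 2 * l by ring,
      div_eq_mul_inv]
    ring
  have key := cap0 hw hx rx mh' ah' gh' n (by linarith) hc ⟨rc1, rc2⟩
  have e0 : (fun u => Gr0 h' x u * (1 / sin (u - c))) =
      fun u => Gr0 h x u * Dk (c - 3 * l - u) := by
    funext u
    rw [Dk_pole, hh']
    unfold Gr0
    ring
  have e1 : (fun u => h' u * (1 / sin (u - c))) = fun u => h u * Dk (c - 3 * l - u) := by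
    funext u
    rw [Dk_pole, hh']
    ring
  have e2 : h' c = -(sin l / sin (2 * l)) * h c := by
    rw [hh']
    simp only
    rw [sub_self, zero_sub, zero_sub, Complex.sin_neg, Complex.sin_neg, neg_div_neg_eq]
    ring
  have e3 : h' (c - l) = -(sin (2 * l) / sin (3 * l)) * h (c - l) := by
    rw [hh']
    simp only
    rw [show c - l - c - l = -(2 * l : ℂ) by ring, show c - l - c - 2 * l = -(3 * l : ℂ) by ring,
      Complex.sin_neg, Complex.sin_neg, neg_div_neg_eq]
    ring
  have ne : ∀ u : ℂ, u.im ≠ c.im → sin (u - c + l) ≠ 0 ∧ sin (u - c - l) ≠ 0 ∧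
      sin (u - c - 2 * l) ≠ 0 := by
    intro u hu
    have him : (u - c).im ≠ 0 := by rw [sub_im, sub_ne_zero]; exact hu
    exact ⟨sin_ne_im (by simpa using him), sin_ne_im (by simpa using him),
      sin_ne_im (by simpa using him)⟩
  have k1 : ∀ u : ℂ, u.im ≠ c.im → h' u * f1 (u - c) = h u * Ck (u - c) := by
    intro u hu
    obtain ⟨n1, n2, n3⟩ := ne u hu
    rw [hh']
    unfold f1 Leg.Ck
    simp only
    generalize sin (u - c + l) = a1 at n1 ⊢
    generalize sin (u - c - l) = a2 at n2 ⊢
    generalize sin (u - c - 2 * l) = a3 at n3 ⊢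
    field_simp
  have k2 : ∀ u : ℂ, u.im ≠ c.im → h' u * f2 (u - c) = -h u * E1 (c - l - l - u) := by
    intro u hu
    obtain ⟨n1, n2, n3⟩ := ne u hu
    have t1 : sin (c - l - l - u + l) = -sin (u - c + l) := by
      rw [← Complex.sin_neg]; congr 1; ring
    have t2 : sin (c - l - l - u + 3 * l) = -sin (u - c - l) := by
      rw [← Complex.sin_neg]; congr 1; ring
    have t3 : sin (c - l - l - u - l) = -sin (u - c + 3 * l) := by
      rw [← Complex.sin_neg]; congr 1; ring
    rw [hh']
    unfold f2 E1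
    rw [t1, t2, t3]
    simp only
    generalize sin (u - c + l) = a1 at n1 ⊢
    generalize sin (u - c - l) = a2 at n2 ⊢
    generalize sin (u - c - 2 * l) = a3 at n3 ⊢
    field_simp
  have k3 : ∀ u : ℂ, h u * Ck (u - c) = -h u * Ck (c - l - l - u) := by
    intro u
    have t1 : sin (c - l - l - u) = -sin (u - c + 2 * l) := by
      rw [← Complex.sin_neg]; congr 1; ring
    have t2 : sin (c - l - l - u + 2 * l) = -sin (u - c) := by
      rw [← Complex.sin_neg]; congr 1; ring
    have t3 : sin (c - l - l - u + l) = -sin (u - c + l) := by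
      rw [← Complex.sin_neg]; congr 1; ring
    unfold Leg.Ck
    rw [t1, t2, t3, neg_mul_neg, div_neg]
    ring
  have e4 : SZ x (fun u => h' u * f1 (u - c)) ((n : ℤ) - 1) =
      SZ x (fun u => -h u * Ck (c - l - l - u)) ((n : ℤ) - 1) := by
    refine SZ_congr' (fun i => ?_) (fun i => ?_) _
    · rw [k1 _ (hc i).symm, k3]
    · rw [k1 _ (by simpa using (hc i).symm), k3]
  have e5 : SZ x (fun u => h' u * f2 (u - c)) ((n : ℤ) - 2) =
      SZ x (fun u => -h u * E1 (c - l - l - u)) ((n : ℤ) - 2) := by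
    refine SZ_congr' (fun i => ?_) (fun i => ?_) _
    · rw [k2 _ (hc i).symm]
    · rw [k2 _ (by simpa using (hc i).symm)]
  rw [e0, e1, e2, e3, e4, e5] at key
  have hS : SZ x (fun u => -h u * Ck (c - l - l - u)) ((n : ℤ) - 1) =
      Km α β n (fun u => Gr0 h x u * Ck (u - c)) +
      sin l ^ 2 * Gr0 h x (c - l) *
        SZ x (fun u => -h u * E1 (c - l - l - u)) ((n : ℤ) - 2) := by
    have neg : ∀ (f : ℂ → ℂ) (k : ℤ), k < 0 → SZ x f k = 0 := by
      intro f k hk
      unfold SZ
      refine Finset.sum_eq_zero fun a _ => ?_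
      rw [if_neg]
      intro h'
      have : (0 : ℤ) ≤ ((∑ i, nq (a i) : ℕ) : ℤ) := Int.natCast_nonneg _
      omega
    rcases n with _ | n
    · rw [neg _ _ (by norm_num), neg _ _ (by norm_num)]
      simp [Km]
    · have h2 := capC hw hx rx (h := fun u => -h u) mh.neg
        (fun z h1 h2 => (ah z h1 h2).neg) (κ := κ) (by
          refine (gh.cmul (-1)).congr 0 (g := fun u => -h u) (fun z _ _ _ => ?_)
          ring) n (by push_cast at hn; linarith) (c := c - l)
        (by simpa using hc) (by
          rw [sub_re, ofReal_re]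
          constructor <;> linarith) (by
          rw [sub_re, ofReal_re]
          intro h'
          exact rc' (by linarith))
      have g0 : ∀ u, Gr0 (fun u => -h u) x u = -Gr0 h x u := by
        intro u
        unfold Gr0
        ring
      have g1 : (fun u => Gr0 (fun u => -h u) x u * Ck (c - l - l - u)) =
          fun u => Gr0 h x u * Ck (u - c) := by
        funext u
        have := k3 u
        unfold Gr0
        linear_combination (-(∏ i, 1 / sin (u - x i))) * this
      rw [g1, g0] at h2
      simp only [Km]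
      have c1 : (((n + 1 : ℕ) : ℤ) - 1) = (n : ℤ) := by push_cast; ring
      have c2 : (((n + 1 : ℕ) : ℤ) - 2) = (n : ℤ) - 1 := by push_cast; ring
      rw [c1, c2, h2]
      ring
  rw [hS] at key
  have hcl : Gr0 h x (c - l) = h (c - l) * ∏ i, 1 / sin (c - l - x i) := rfl
  have hcc : Gr0 h x c = h c * ∏ i, 1 / sin (c - x i) := rfl
  rw [key, hcl, hcc]
  unfold rho
  field_simp
  ring

end NUP1.N

end
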