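import Pool.Agent.NUP1L.FinalC

/-!
# The eleven integrands: bounds
-/

set_option autoImplicit false
set_option linter.unusedSectionVars false

noncomputable section

open Complex MeasureTheory Filter Topology

namespace NUP1.N

open Bd (Ob chg wt pw pt oneL Dec cwo Hc Ql qg measurable_Hc measurable_Ql rl)
open Leg (Ck Dk kap)

variable {α β A B : ℝ}

/-- a line of the half quanta -/
def LnAB (A B σ : ℝ) : Prop := σ = A ∨ σ = B

theorem SB_Ck (L : Ln α β A B) {σ : ℝ} (h : LnAB A B σ) : SB α β σ 1 fun w u => Ck (w - u) := by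
  rcases h with rfl | rfl
  · exact SB_Ck_A L
  · exact SB_Ck_B L

theorem SB_Dk (L : Ln α β A B) {σ : ℝ} (h : LnAB A B σ) :
    SB α β σ (-1) fun w u => Dk (w - u) := by
  rcases h with rfl | rfl
  · exact SB_Dk_A L
  · exact SB_Dk_B L

/-- product of the bound of `Gr0` with spectators -/
theorem spec2 {D K s t c1 c2 : ℝ} {g f1 f2 : ℂ} {a b z : ℝ} (hD : 0 ≤ D) (hc1 : 0 ≤ c1)
    (h1 : ‖g‖ ≤ D * Real.exp (-(K * |z|))) (h2 : ‖f1‖ ≤ c1 * Real.exp (s * |z - a|))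
    (h3 : ‖f2‖ ≤ c2 * Real.exp (t * |z - b|)) :
    ‖g * (f1 * f2)‖ ≤ (D * (c1 * c2)) * Real.exp (-(K * |z|) + s * |z - a| + t * |z - b|) := by
  rw [norm_mul, norm_mul]
  calc _ ≤ (D * Real.exp (-(K * |z|))) *
        ((c1 * Real.exp (s * |z - a|)) * (c2 * Real.exp (t * |z - b|))) := by gcongr
    _ = _ := by
        rw [Real.exp_add, Real.exp_add]
        ring

theorem mono_c {x a b e : ℝ} (h : x ≤ a * Real.exp e) (hab : a ≤ b) : x ≤ b * Real.exp e :=
  h.trans (mul_le_mul_of_nonneg_right hab (Real.exp_pos _).le)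

section zb
variable {m : ℕ}

/-- bound without captured quanta -/
theorem b_Z0 (L : Ln α β A B) (D κ R : ℝ) (n : ℕ) (hK : 2 < κ + m) {σ τ : ℝ}
    (hσ : LnAB A B σ) (hτ : LnAB A B τ) : ∃ C : ℝ, 0 ≤ C ∧
    ∀ (p q : ℂ) (x y : Fin m → ℂ) (hX hY : ℂ → ℂ), UD α β B D κ R p q x y hX hY →
      ∀ w w' : ℂ, w.re = σ → w'.re = τ →
      ‖Z3 α β n n (GXs hX x w w') (GYs hY y w w')‖ ≤ C := by
  have hl := lpos
  have w1 := L.w.lo
  have w2 := L.w.hi
  obtain ⟨G, hG, bG⟩ := Gr0_box L D κ R m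
  obtain ⟨c1, p1, b1⟩ := SB_Ck L hσ
  obtain ⟨c2, p2, b2⟩ := SB_Dk L hτ
  obtain ⟨c3, p3, b3⟩ := SB_Dk L hσ
  obtain ⟨c4, p4, b4⟩ := SB_Ck L hτ
  obtain ⟨C, hC, bC⟩ := Z3_le_spec (α := α) (β := β) (by linarith) (by linarith) n n
    (G * (c1 * c2) + G * (c3 * c4)) (κ + m) (κ + m) 1 (-1) (-1) 1 0 0 0 (by norm_num)
    (by norm_num; linarith) (by norm_num; linarith)
  refine ⟨C, hC, fun p q x y hX hY U w w' hw hw' => ?_⟩
  have q1 : 0 ≤ G * (c1 * c2) := by positivity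
  have q2 : 0 ≤ G * (c3 * c4) := by positivity
  have key := bC (GXs hX x w w') (GYs hY y w w') w.im w'.im
    (fun z hz => mono_c (spec2 hG p1 (bG p q x y hX hY U z hz) (b1 w z hw hz) (b2 w' z hw' hz))
      (by linarith))
    (fun z hz => mono_c (spec2 hG p3 (bG q p y x hY hX U.symm z hz) (b3 w z hw hz)
      (b4 w' z hw' hz)) (by linarith))
  refine key.trans (le_of_eq ?_)
  rw [show ((n : ℝ) * (1 - 2 * 0) + n * (-1 + 2 * 0)) * |w.im| +
    (n * (-1 - 2 * 0) + n * (1 + 2 * 0)) * |w'.im| -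
      2 * (0 * 0 * |w.im| + 0 * 0 * |w'.im| + 0 * 0 * |w.im - w'.im|) = 0 by ring, Real.exp_zero,
    mul_one]

/-- bound with a captured quantum of `Y` -/
theorem b_ZP (L : Ln α β A B) (D κ R : ℝ) (n : ℕ) (hK : 2 < κ + m) {τ : ℝ}
    (hτ : LnAB A B τ) : ∃ C : ℝ, 0 ≤ C ∧
    ∀ (p q : ℂ) (x y : Fin m → ℂ) (hX hY : ℂ → ℂ), UD α β B D κ R p q x y hX hY →
      ∀ w w' : ℂ, w.re = B → w'.re = τ →
      ‖ZP α β x y hX hY n n w w'‖ ≤ C * Real.exp (|w.im| - |w'.im|) := by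
  have hl := lpos
  have w1 := L.w.lo
  have w2 := L.w.hi
  by_cases hn : 1 ≤ n
  · obtain ⟨G, hG, bG⟩ := Gr0_box L D κ R m
    obtain ⟨c1, p1, b1⟩ := SB_Ck L (σ := B) (Or.inr rfl)
    obtain ⟨c2, p2, b2⟩ := SB_Dk L hτ
    obtain ⟨c3, p3, b3⟩ := SB_qg L
    obtain ⟨c4, p4, b4⟩ := SB_Ck L hτ
    obtain ⟨c5, p5, b5⟩ := SB_Cs L
    have e : ((n - 1 : ℕ) : ℝ) = (n : ℝ) - 1 := by
      rw [Nat.cast_sub hn]; norm_num
    obtain ⟨C, hC, bC⟩ := Z3_le_spec (α := α) (β := β) (by linarith) (by linarith) n (n - 1)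
      (G * (c1 * c3 * c2) + G * (c5 * c4)) (κ + m) (κ + m) (-1) (-1) 1 1 0 (-1) 0
      (by rw [e]; ring)
      (by norm_num; linarith) (by norm_num; linarith)
    refine ⟨C, hC, fun p q x y hX hY U w w' hw hw' => ?_⟩
    have q1 : 0 ≤ G * (c1 * c3 * c2) := by positivity
    have q2 : 0 ≤ G * (c5 * c4) := by positivity
    have key := bC
      (fun u => Gr0 hX x u * (Ck (w - u) * Dk (w' - u)) * qg (u - (w + 3 * l)))
      (fun v => Gr0 hY y v * Ck (w' - v) * Ck (v - (w + 3 * l))) w.im w'.im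
      (fun z hz => by
        have h1 : ‖Ck (w - z) * qg (z - (w + 3 * l))‖ ≤ c1 * c3 *
            Real.exp (-1 * |z.im - w.im|) := by
          rw [norm_mul]
          calc _ ≤ (c1 * Real.exp (1 * |z.im - w.im|)) * (c3 * Real.exp (-2 * |z.im - w.im|)) :=
                mul_le_mul (b1 w z hw hz) (b3 w z hw hz) (norm_nonneg _) (by positivity)
            _ = _ := by
                rw [show -1 * |z.im - w.im| = 1 * |z.im - w.im| + -2 * |z.im - w.im| by ring,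
                  Real.exp_add]
                ring
        have h2 := spec2 hG (by positivity) (bG p q x y hX hY U z hz) h1 (b2 w' z hw' hz)
        rw [show Gr0 hX x z * (Ck (w - z) * Dk (w' - z)) * qg (z - (w + 3 * l)) =
          Gr0 hX x z * (Ck (w - z) * qg (z - (w + 3 * l)) * Dk (w' - z)) by ring]
        exact mono_c h2 (by linarith))
      (fun z hz => by
        have h2 := spec2 hG p5 (bG q p y x hY hX U.symm z hz) (b5 w z hw hz) (b4 w' z hw' hz)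
        rw [show Gr0 hY y z * Ck (w' - z) * Ck (z - (w + 3 * l)) =
          Gr0 hY y z * (Ck (z - (w + 3 * l)) * Ck (w' - z)) by ring]
        exact mono_c h2 (by linarith))
    unfold ZP
    rw [if_pos hn]
    refine key.trans (le_of_eq ?_)
    rw [e]
    congr 2
    ring
  · refine ⟨0, le_rfl, fun p q x y hX hY U w w' hw hw' => ?_⟩
    unfold ZP
    rw [if_neg hn]
    simp

/-- bound with a captured quantum of `X` -/
theorem b_ZP' (L : Ln α β A B) (D κ R : ℝ) (n : ℕ) (hK : 2 < κ + m) {σ : ℝ}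
    (hσ : LnAB A B σ) : ∃ C : ℝ, 0 ≤ C ∧
    ∀ (p q : ℂ) (x y : Fin m → ℂ) (hX hY : ℂ → ℂ), UD α β B D κ R p q x y hX hY →
      ∀ w w' : ℂ, w.re = σ → w'.re = B →
      ‖ZP' α β x y hX hY n n w w'‖ ≤ C * Real.exp (|w'.im| - |w.im|) := by
  have hl := lpos
  have w1 := L.w.lo
  have w2 := L.w.hi
  by_cases hn : 1 ≤ n
  · obtain ⟨G, hG, bG⟩ := Gr0_box L D κ R m
    obtain ⟨c1, p1, b1⟩ := SB_Ck L (σ := B) (Or.inr rfl)
    obtain ⟨c2, p2, b2⟩ := SB_Dk L hσ
    obtain ⟨c3, p3, b3⟩ := SB_qg L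
    obtain ⟨c4, p4, b4⟩ := SB_Ck L hσ
    obtain ⟨c5, p5, b5⟩ := SB_Cs L
    have e : ((n - 1 : ℕ) : ℝ) = (n : ℝ) - 1 := by
      rw [Nat.cast_sub hn]; norm_num
    obtain ⟨C, hC, bC⟩ := Z3_le_spec (α := α) (β := β) (by linarith) (by linarith) (n - 1) n
      (G * (c4 * c5) + G * (c2 * (c1 * c3))) (κ + m) (κ + m) 1 1 (-1) (-1) 0 0 1
      (by rw [e]; ring)
      (by norm_num; linarith) (by norm_num; linarith)
    refine ⟨C, hC, fun p q x y hX hY U w w' hw hw' => ?_⟩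
    have q1 : 0 ≤ G * (c4 * c5) := by positivity
    have q2 : 0 ≤ G * (c2 * (c1 * c3)) := by positivity
    have key := bC
      (fun u => Gr0 hX x u * Ck (w - u) * Ck (u - (w' + 3 * l)))
      (fun v => Gr0 hY y v * (Dk (w - v) * Ck (w' - v)) * qg (v - (w' + 3 * l))) w.im w'.im
      (fun z hz => by
        have h2 := spec2 hG p4 (bG p q x y hX hY U z hz) (b4 w z hw hz) (b5 w' z hw' hz)
        rw [show Gr0 hX x z * Ck (w - z) * Ck (z - (w' + 3 * l)) =
          Gr0 hX x z * (Ck (w - z) * Ck (z - (w' + 3 * l))) by ring]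
        exact mono_c h2 (by linarith))
      (fun z hz => by
        have h1 : ‖Ck (w' - z) * qg (z - (w' + 3 * l))‖ ≤ c1 * c3 *
            Real.exp (-1 * |z.im - w'.im|) := by
          rw [norm_mul]
          calc _ ≤ (c1 * Real.exp (1 * |z.im - w'.im|)) *
                (c3 * Real.exp (-2 * |z.im - w'.im|)) :=
                mul_le_mul (b1 w' z hw' hz) (b3 w' z hw' hz) (norm_nonneg _) (by positivity)
            _ = _ := by
                rw [show -1 * |z.im - w'.im| = 1 * |z.im - w'.im| + -2 * |z.im - w'.im| by ring,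
                  Real.exp_add]
                ring
        have h2 := spec2 hG p2 (bG q p y x hY hX U.symm z hz) (b2 w z hw hz) h1
        rw [show Gr0 hY y z * (Dk (w - z) * Ck (w' - z)) * qg (z - (w' + 3 * l)) =
          Gr0 hY y z * (Dk (w - z) * (Ck (w' - z) * qg (z - (w' + 3 * l)))) by ring]
        exact mono_c h2 (by linarith))
    unfold ZP'
    rw [if_pos hn]
    refine key.trans (le_of_eq ?_)
    rw [e]
    congr 2
    ring
  · refine ⟨0, le_rfl, fun p q x y hX hY U w w' hw hw' => ?_⟩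
    unfold ZP'
    rw [if_neg hn]
    simp

/-- bound with both captured quanta -/
theorem b_ZPP (L : Ln α β A B) (D κ R : ℝ) (n : ℕ) (hK : 2 < κ + m) : ∃ C : ℝ, 0 ≤ C ∧
    ∀ (p q : ℂ) (x y : Fin m → ℂ) (hX hY : ℂ → ℂ), UD α β B D κ R p q x y hX hY →
      ∀ w w' : ℂ, w.re = B → w'.re = B →
      ‖ZPP α β x y hX hY n n w w'‖ ≤ C := by
  have hl := lpos
  have w1 := L.w.lo
  have w2 := L.w.hi
  by_cases hn : 1 ≤ n
  · obtain ⟨G, hG, bG⟩ := Gr0_box L D κ R m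
    obtain ⟨c1, p1, b1⟩ := SB_Ck L (σ := B) (Or.inr rfl)
    obtain ⟨c3, p3, b3⟩ := SB_qg L
    obtain ⟨c5, p5, b5⟩ := SB_Cs L
    obtain ⟨C, hC, bC⟩ := Z3_le_spec (α := α) (β := β) (by linarith) (by linarith) (n - 1) (n - 1)
      (G * (c1 * c3 * c5) + G * (c5 * (c1 * c3))) (κ + m) (κ + m) (-1) 1 1 (-1) 0 0 0
      (by norm_num) (by norm_num; linarith) (by norm_num; linarith)
    refine ⟨C, hC, fun p q x y hX hY U w w' hw hw' => ?_⟩
    have q1 : 0 ≤ G * (c1 * c3 * c5) := by positivity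
    have q2 : 0 ≤ G * (c5 * (c1 * c3)) := by positivity
    have h1 : ∀ w z : ℂ, w.re = B → OnL α β z.re → ‖Ck (w - z) * qg (z - (w + 3 * l))‖ ≤
        c1 * c3 * Real.exp (-1 * |z.im - w.im|) := by
      intro w z hw hz
      rw [norm_mul]
      calc _ ≤ (c1 * Real.exp (1 * |z.im - w.im|)) * (c3 * Real.exp (-2 * |z.im - w.im|)) :=
            mul_le_mul (b1 w z hw hz) (b3 w z hw hz) (norm_nonneg _) (by positivity)
        _ = _ := by
            rw [show -1 * |z.im - w.im| = 1 * |z.im - w.im| + -2 * |z.im - w.im| by ring,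
              Real.exp_add]
            ring
    have key := bC
      (fun u => Gr0 hX x u * Ck (w - u) * qg (u - (w + 3 * l)) * Ck (u - (w' + 3 * l)))
      (fun v => Gr0 hY y v * Ck (w' - v) * Ck (v - (w + 3 * l)) * qg (v - (w' + 3 * l)))
      w.im w'.im
      (fun z hz => by
        have h2 := spec2 hG (by positivity) (bG p q x y hX hY U z hz) (h1 w z hw hz)
          (b5 w' z hw' hz)
        rw [show Gr0 hX x z * Ck (w - z) * qg (z - (w + 3 * l)) * Ck (z - (w' + 3 * l)) =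
          Gr0 hX x z * (Ck (w - z) * qg (z - (w + 3 * l)) * Ck (z - (w' + 3 * l))) by ring]
        exact mono_c h2 (by linarith))
      (fun z hz => by
        have h2 := spec2 hG p5 (bG q p y x hY hX U.symm z hz) (b5 w z hw hz) (h1 w' z hw' hz)
        rw [show Gr0 hY y z * Ck (w' - z) * Ck (z - (w + 3 * l)) * qg (z - (w' + 3 * l)) =
          Gr0 hY y z * (Ck (z - (w + 3 * l)) * (Ck (w' - z) * qg (z - (w' + 3 * l)))) by ring]
        exact mono_c h2 (by linarith))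
    unfold ZPP
    rw [if_pos ⟨hn, hn⟩]
    refine key.trans (le_of_eq ?_)
    rw [show (((n - 1 : ℕ) : ℝ) * (-1 - 2 * 0) + ((n - 1 : ℕ) : ℝ) * (1 + 2 * 0)) * |w.im| +
      (((n - 1 : ℕ) : ℝ) * (1 - 2 * 0) + ((n - 1 : ℕ) : ℝ) * (-1 + 2 * 0)) * |w'.im| -
      2 * (0 * 0 * |w.im| + 0 * 0 * |w'.im| + 0 * 0 * |w.im - w'.im|) = 0 by ring, Real.exp_zero,
      mul_one]
  · refine ⟨0, le_rfl, fun p q x y hX hY U w w' hw hw' => ?_⟩
    unfold ZPP
    rw [if_neg fun h => hn h.1]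
    simp

/-- bound of the captured pairs -/
theorem b_ZD (L : Ln α β A B) (D κ R : ℝ) (n : ℕ) (hK : 2 < κ + m) : ∃ C : ℝ, 0 ≤ C ∧
    ∀ (p q : ℂ) (x y : Fin m → ℂ) (hX hY : ℂ → ℂ), UD α β B D κ R p q x y hX hY →
      ∀ w : ℂ, w.re = B →
      ‖Z3 α β n n (Gr0 hX x) (fun v => Gr0 hY y v * Tk (w - v))‖ ≤ C ∧
      ‖Z3 α β n n (fun u => Gr0 hX x u * Tk (w - u)) (Gr0 hY y)‖ ≤ C := by
  have hl := lpos
  have w1 := L.w.lo
  have w2 := L.w.hi
  obtain ⟨G, hG, bG⟩ := Gr0_box L D κ R m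
  obtain ⟨c, pc, b⟩ := SB_Tk L
  obtain ⟨C, hC, bC⟩ := Z3_le_spec (α := α) (β := β) (by linarith) (by linarith) n n
    (G * c + G) (κ + m) (κ + m) 0 0 0 0 0 0 0
    (by norm_num) (by norm_num; linarith) (by norm_num; linarith)
  refine ⟨C, hC, fun p q x y hX hY U w hw => ?_⟩
  have q1 : 0 ≤ G * c := by positivity
  have g1 : ∀ z : ℂ, OnL α β z.re → ‖Gr0 hX x z‖ ≤
      (G * c + G) * Real.exp (-((κ + m) * |z.im|) + 0 * |z.im - 0| + 0 * |z.im - 0|) := by
    intro z hz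
    rw [zero_mul, add_zero, add_zero]
    exact mono_c (bG p q x y hX hY U z hz) (by linarith)
  have g2 : ∀ z : ℂ, OnL α β z.re → ‖Gr0 hY y z‖ ≤
      (G * c + G) * Real.exp (-((κ + m) * |z.im|) + 0 * |z.im - 0| + 0 * |z.im - 0|) := by
    intro z hz
    rw [zero_mul, add_zero, add_zero]
    exact mono_c (bG q p y x hY hX U.symm z hz) (by linarith)
  have bT : ∀ z : ℂ, OnL α β z.re → ‖Tk (w - z)‖ ≤ c := by
    intro z hz
    have := b w z hw hz
    simpa using this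
  have g3 : ∀ z : ℂ, OnL α β z.re → ‖Gr0 hX x z * Tk (w - z)‖ ≤
      (G * c + G) * Real.exp (-((κ + m) * |z.im|) + 0 * |z.im - 0| + 0 * |z.im - 0|) := by
    intro z hz
    rw [zero_mul, add_zero, add_zero, norm_mul]
    calc _ ≤ (G * Real.exp (-((κ + m) * |z.im|))) * c :=
          mul_le_mul (bG p q x y hX hY U z hz) (bT z hz) (norm_nonneg _) (by positivity)
      _ = (G * c) * Real.exp (-((κ + m) * |z.im|)) := by ring
      _ ≤ _ := mul_le_mul_of_nonneg_right (by linarith) (Real.exp_pos _).le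
  have g4 : ∀ z : ℂ, OnL α β z.re → ‖Gr0 hY y z * Tk (w - z)‖ ≤
      (G * c + G) * Real.exp (-((κ + m) * |z.im|) + 0 * |z.im - 0| + 0 * |z.im - 0|) := by
    intro z hz
    rw [zero_mul, add_zero, add_zero, norm_mul]
    calc _ ≤ (G * Real.exp (-((κ + m) * |z.im|))) * c :=
          mul_le_mul (bG q p y x hY hX U.symm z hz) (bT z hz) (norm_nonneg _) (by positivity)
      _ = (G * c) * Real.exp (-((κ + m) * |z.im|)) := by ring
      _ ≤ _ := mul_le_mul_of_nonneg_right (by linarith) (Real.exp_pos _).le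
  have e0 : C * Real.exp (((n : ℝ) * (0 - 2 * 0) + n * (0 + 2 * 0)) * |(0 : ℝ)| +
      (n * (0 - 2 * 0) + n * (0 + 2 * 0)) * |(0 : ℝ)| -
      2 * (0 * 0 * |(0 : ℝ)| + 0 * 0 * |(0 : ℝ)| + 0 * 0 * |(0 : ℝ) - 0|)) = C := by
    rw [show ((n : ℝ) * (0 - 2 * 0) + n * (0 + 2 * 0)) * |(0 : ℝ)| +
      (n * (0 - 2 * 0) + n * (0 + 2 * 0)) * |(0 : ℝ)| -
      2 * (0 * 0 * |(0 : ℝ)| + 0 * 0 * |(0 : ℝ)| + 0 * 0 * |(0 : ℝ) - 0|) = 0 by ring,
      Real.exp_zero, mul_one]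
  constructor
  · have key := bC (Gr0 hX x) (fun v => Gr0 hY y v * Tk (w - v)) 0 0 g1 g4
    rwa [e0] at key
  · have key := bC (fun u => Gr0 hX x u * Tk (w - u)) (Gr0 hY y) 0 0 g3 g2
    rwa [e0] at key

end zb

end NUP1.N

end
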