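import Pool.Agent.NUP1L.FinalD

/-!
# The eleven integrands decay, uniformly in the data
-/

set_option autoImplicit false
set_option linter.unusedSectionVars false

noncomputable section

open Complex MeasureTheory Filter Topology

namespace NUP1.N

open Bd (Ob chg wt pw pt oneL Dec cwo Hc Ql qg measurable_Hc measurable_Ql rl)
open Leg (Ck Dk kap)

variable {α β A B : ℝ}

theorem Far_AB (L : Ln α β A B) {σ : ℝ} (h : LnAB A B σ) : Far σ ∧ Far (σ - 2 * l) := by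
  rcases h with rfl | rfl
  · exact ⟨Far_A L, Far_A2 L⟩
  · exact ⟨Far_B L, Far_B2 L⟩

theorem diff_AB (L : Ln α β A B) {σ τ : ℝ} (hσ : LnAB A B σ) (hτ : LnAB A B τ) :
    |σ - τ| < 5 * l ∧ |σ - τ| ≠ 3 * l := by
  have hl := lpos
  have d1 := L.d1
  have d2 := L.d2
  rcases hσ with rfl | rfl <;> rcases hτ with rfl | rfl
  · rw [sub_self, abs_zero]
    exact ⟨by positivity, by positivity⟩
  · rw [abs_of_pos (by linarith)]
    exact ⟨d2, d1.ne'⟩
  · rw [abs_of_neg (by linarith)]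
    exact ⟨by linarith, by intro h; linarith⟩
  · rw [sub_self, abs_zero]
    exact ⟨by positivity, by positivity⟩

theorem Ck_shift (L : Ln α β A B) {τ : ℝ} (hτ : LnAB A B τ) : LB (τ - (B + 3 * l)) 1 Ck := by
  have hl := lpos
  have d1 := L.d1
  have d2 := L.d2
  refine LB_Ck ?_ ?_
  · rcases hτ with rfl | rfl <;> intro h <;> linarith
  · rw [abs_lt]
    rcases hτ with rfl | rfl <;> constructor <;> linarith

theorem vl_sub_re (σ τ s t : ℝ) : (vl σ s - vl τ t).re = σ - τ := by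
  rw [sub_re, vlre, vlre]

theorem vl_sub_im (σ τ s t : ℝ) : (vl σ s - vl τ t).im = s - t := by
  rw [sub_im, vlim, vlim]

theorem vl3_re (σ s : ℝ) : (vl σ s + 3 * l).re = σ + 3 * l := by
  rw [add_re, vlre]
  simp

theorem vl3_im (σ s : ℝ) : (vl σ s + 3 * l).im = s := by
  rw [add_im, vlim]
  simp

/-- the mutual factor on the lines -/
theorem bD (L : Ln α β A B) {σ τ : ℝ} (hσ : LnAB A B σ) (hτ : LnAB A B τ) : ∃ C : ℝ, 0 ≤ C ∧
    ∀ s t : ℝ, ‖Dk (vl σ s - vl τ t)‖ ≤ C * Real.exp (-|s - t|) := by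
  obtain ⟨h1, h2⟩ := diff_AB L hσ hτ
  obtain ⟨C, hC, h⟩ := LB_Dk h1 h2
  refine ⟨C, hC, fun s t => ?_⟩
  have := h _ (vl_sub_re σ τ s t)
  rwa [vl_sub_im, show -1 * |s - t| = -|s - t| by ring] at this

/-- the factor of a half quantum and a captured quantum of its own species -/
theorem bC (L : Ln α β A B) {τ : ℝ} (hτ : LnAB A B τ) : ∃ C : ℝ, 0 ≤ C ∧
    ∀ s t : ℝ, ‖Ck (vl τ t - (vl B s + 3 * l))‖ ≤ C * Real.exp |t - s| := by
  obtain ⟨C, hC, h⟩ := Ck_shift L hτ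
  refine ⟨C, hC, fun s t => ?_⟩
  have := h (vl τ t - (vl B s + 3 * l)) (by rw [sub_re, vlre, vl3_re])
  rwa [sub_im, vlim, vl3_im, one_mul] at this

section
variable {m : ℕ}

/-- one half quantum with all rows -/
theorem bp1 (L : Ln α β A B) (D κ R : ℝ) (m : ℕ) {σ : ℝ} (hσ : LnAB A B σ) : ∃ C : ℝ, 0 ≤ C ∧
    ∀ (p q : ℂ) (x y : Fin m → ℂ) (hX hY : ℂ → ℂ), UD α β B D κ R p q x y hX hY →
      ∀ s : ℝ, ‖pr1 p q x y (vl σ s)‖ ≤ C * Real.exp (-|s|) := by
  obtain ⟨f1, f2⟩ := Far_AB L hσ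
  obtain ⟨C, hC, h⟩ := pr1_box (m := m) (M := m) f1 f2 R
  refine ⟨C, hC, fun p q x y hX hY U s => ?_⟩
  have := h p q x y U.bp U.bq U.bx U.bY (vl σ s) (vlre _ _)
  rwa [vlim, show -((1 + (m : ℝ) - m) * |s|) = -|s| by ring] at this

/-- one half quantum with a captured quantum -/
theorem bpc (L : Ln α β A B) (D κ R : ℝ) (m : ℕ) : ∃ C : ℝ, 0 ≤ C ∧
    ∀ (p q : ℂ) (x y : Fin m → ℂ) (hX hY : ℂ → ℂ), UD α β B D κ R p q x y hX hY →
      ∀ s : ℝ, ‖prc p q x (vl B s) * hY (vl B s + 3 * l)‖ ≤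
        C * Real.exp (-((1 + (κ + m)) * |s|)) := by
  obtain ⟨f1, f2⟩ := Far_AB L (σ := B) (Or.inr rfl)
  obtain ⟨C, hC, h⟩ := prc_box (m := m) f1 f2 R
  by_cases hD : 0 ≤ D
  · refine ⟨C * D, by positivity, fun p q x y hX hY U s => ?_⟩
    have g1 := h p q x U.bp U.bq U.bx (vl B s) (vlre _ _)
    have g2 := U.hY (vl B s + 3 * l) (Or.inr (vl3_re B s))
    rw [vlim] at g1
    rw [vl3_im] at g2
    rw [norm_mul]
    calc _ ≤ (C * Real.exp (-((1 + m) * |s|))) * (D * Real.exp (-(κ * |s|))) := by gcongr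
      _ = _ := by
          rw [show -((1 + (κ + m)) * |s|) = -((1 + m) * |s|) + -(κ * |s|) by ring, Real.exp_add]
          ring
  · exact ⟨0, le_rfl, fun p q x y hX hY U => absurd U.D0 hD⟩

theorem exp_le1 {a b : ℝ} (h : a ≤ b) : Real.exp a ≤ Real.exp b := Real.exp_le_exp.2 h

/-- no captured quantum -/
theorem db_I0 (L : Ln α β A B) (D κ R : ℝ) (n : ℕ) (hK : 2 < κ + m) {σ τ : ℝ}
    (hσ : LnAB A B σ) (hτ : LnAB A B τ) : ∃ C : ℝ,
    ∀ (p q : ℂ) (x y : Fin m → ℂ) (hX hY : ℂ → ℂ), UD α β B D κ R p q x y hX hY →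
      DB σ τ C (I0 α β p q x y hX hY n n) := by
  obtain ⟨d, hd, b1⟩ := bD L hσ hτ
  obtain ⟨c, hc, b2⟩ := bp1 L D κ R m hσ
  obtain ⟨c', hc', b3⟩ := bp1 L D κ R m hτ
  obtain ⟨z, hz, b4⟩ := b_Z0 L D κ R n hK hσ hτ
  refine ⟨d * (c * c') * z, fun p q x y hX hY U s t => ?_⟩
  have g1 : ‖Dk (vl σ s - vl τ t)‖ ≤ d := (b1 s t).trans (by
    have : Real.exp (-|s - t|) ≤ 1 := Real.exp_le_one_iff.2 (by linarith [abs_nonneg (s - t)])
    nlinarith)
  have g2 := b2 p q x y hX hY U s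
  have g3 := b3 q p y x hY hX U.symm t
  have g4 := b4 p q x y hX hY U (vl σ s) (vl τ t) (vlre _ _) (vlre _ _)
  unfold I0
  rw [norm_mul, norm_mul, norm_mul]
  calc _ ≤ d * ((c * Real.exp (-|s|)) * (c' * Real.exp (-|t|))) * z := by gcongr
    _ = _ := by ring

/-- captured quantum of `Y` -/
theorem db_IP (L : Ln α β A B) (D κ R : ℝ) (n : ℕ) (hK : 2 < κ + m) {τ : ℝ}
    (hτ : LnAB A B τ) : ∃ C : ℝ,
    ∀ (p q : ℂ) (x y : Fin m → ℂ) (hX hY : ℂ → ℂ), UD α β B D κ R p q x y hX hY →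
      DB B τ C (IP α β p q x y hX hY n n) := by
  obtain ⟨d, hd, b1⟩ := bD L (σ := B) (Or.inr rfl) hτ
  obtain ⟨e, he, b5⟩ := bC L hτ
  obtain ⟨c, hc, b2⟩ := bpc L D κ R m
  obtain ⟨c', hc', b3⟩ := bp1 L D κ R m hτ
  obtain ⟨z, hz, b4⟩ := b_ZP L D κ R n hK hτ
  refine ⟨‖(sin l / sin (2 * l) : ℂ)‖ * (d * e * (c * c')) * z, fun p q x y hX hY U s t => ?_⟩
  have g1 := b1 s t
  have g5 := b5 s t
  have g2 := b2 p q x y hX hY U s
  have g3 := b3 q p y x hY hX U.symm t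
  have g4 := b4 p q x y hX hY U (vl B s) (vl τ t) (vlre _ _) (vlre _ _)
  rw [vlim, vlim] at g4
  unfold IP
  rw [norm_mul, norm_mul, norm_mul, norm_mul, norm_mul]
  have hs := abs_nonneg s
  have ht := abs_nonneg t
  calc _ ≤ ‖(sin l / sin (2 * l) : ℂ)‖ * ((d * Real.exp (-|s - t|)) * (e * Real.exp |t - s|) *
        ((c * Real.exp (-((1 + (κ + m)) * |s|))) * (c' * Real.exp (-|t|)))) *
        (z * Real.exp (|s| - |t|)) := by gcongr
    _ = ‖(sin l / sin (2 * l) : ℂ)‖ * (d * e * (c * c')) * z *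
        Real.exp (-|s - t| + |t - s| + (-((1 + (κ + m)) * |s|) + -|t|) + (|s| - |t|)) := by
        rw [Real.exp_add, Real.exp_add, Real.exp_add, Real.exp_add]
        ring
    _ ≤ ‖(sin l / sin (2 * l) : ℂ)‖ * (d * e * (c * c')) * z * Real.exp (-|s| + -|t|) := by
        refine mul_le_mul_of_nonneg_left (exp_le1 ?_) (by positivity)
        rw [abs_sub_comm s t]
        nlinarith
    _ = _ := by rw [Real.exp_add]

/-- captured quantum of `X` -/
theorem db_IP' (L : Ln α β A B) (D κ R : ℝ) (n : ℕ) (hK : 2 < κ + m) {σ : ℝ}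
    (hσ : LnAB A B σ) : ∃ C : ℝ,
    ∀ (p q : ℂ) (x y : Fin m → ℂ) (hX hY : ℂ → ℂ), UD α β B D κ R p q x y hX hY →
      DB σ B C (IP' α β p q x y hX hY n n) := by
  obtain ⟨d, hd, b1⟩ := bD L hσ (τ := B) (Or.inr rfl)
  obtain ⟨e, he, b5⟩ := bC L hσ
  obtain ⟨c, hc, b2⟩ := bpc L D κ R m
  obtain ⟨c', hc', b3⟩ := bp1 L D κ R m hσ
  obtain ⟨z, hz, b4⟩ := b_ZP' L D κ R n hK hσ
  refine ⟨‖(sin l / sin (2 * l) : ℂ)‖ * (d * e * (c' * c)) * z, fun p q x y hX hY U s t => ?_⟩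
  have g1 := b1 s t
  have g5 := b5 t s
  have g2 := b2 q p y x hY hX U.symm t
  have g3 := b3 p q x y hX hY U s
  have g4 := b4 p q x y hX hY U (vl σ s) (vl B t) (vlre _ _) (vlre _ _)
  rw [vlim, vlim] at g4
  unfold IP'
  rw [norm_mul, norm_mul, norm_mul, norm_mul, norm_mul]
  have hs := abs_nonneg s
  have ht := abs_nonneg t
  calc _ ≤ ‖(sin l / sin (2 * l) : ℂ)‖ * ((d * Real.exp (-|s - t|)) * (e * Real.exp |s - t|) *
        ((c' * Real.exp (-|s|)) * (c * Real.exp (-((1 + (κ + m)) * |t|))))) *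
        (z * Real.exp (|t| - |s|)) := by gcongr
    _ = ‖(sin l / sin (2 * l) : ℂ)‖ * (d * e * (c' * c)) * z *
        Real.exp (-|s - t| + |s - t| + (-|s| + -((1 + (κ + m)) * |t|)) + (|t| - |s|)) := by
        rw [Real.exp_add, Real.exp_add, Real.exp_add, Real.exp_add]
        ring
    _ ≤ ‖(sin l / sin (2 * l) : ℂ)‖ * (d * e * (c' * c)) * z * Real.exp (-|s| + -|t|) := by
        refine mul_le_mul_of_nonneg_left (exp_le1 ?_) (by positivity)
        nlinarith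
    _ = _ := by rw [Real.exp_add]

/-- both captured quanta -/
theorem db_IPP (L : Ln α β A B) (D κ R : ℝ) (n : ℕ) (hK : 2 < κ + m) : ∃ C : ℝ,
    ∀ (p q : ℂ) (x y : Fin m → ℂ) (hX hY : ℂ → ℂ), UD α β B D κ R p q x y hX hY →
      DB B B C (IPP α β p q x y hX hY n n) := by
  have hB : LnAB A B B := Or.inr rfl
  obtain ⟨d, hd, b1⟩ := bD L hB hB
  obtain ⟨e, he, b5⟩ := bC L hB
  obtain ⟨c, hc, b2⟩ := bpc L D κ R m
  obtain ⟨z, hz, b4⟩ := b_ZPP L D κ R n hK
  obtain ⟨g, hg, b6⟩ := LB_qg (δ := B - B) (by rw [sub_self, abs_zero]; have := lpos; positivity)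
  refine ⟨‖((sin l / sin (2 * l)) ^ 2 : ℂ)‖ * (d * e * e * g * (c * c)) * z,
    fun p q x y hX hY U s t => ?_⟩
  have g1 := b1 s t
  have g5 := b5 s t
  have g5' := b5 t s
  have g2 := b2 p q x y hX hY U s
  have g2' := b2 q p y x hY hX U.symm t
  have g4 := b4 p q x y hX hY U (vl B s) (vl B t) (vlre _ _) (vlre _ _)
  have g6 := b6 (vl B s - vl B t) (vl_sub_re _ _ _ _)
  rw [vl_sub_im] at g6
  unfold IPP
  rw [norm_mul, norm_mul, norm_mul, norm_mul, norm_mul, norm_mul, norm_mul (prc p q x _ * _)]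
  have hs := abs_nonneg s
  have ht := abs_nonneg t
  have hst := abs_nonneg (s - t)
  calc _ ≤ ‖((sin l / sin (2 * l)) ^ 2 : ℂ)‖ * ((d * Real.exp (-|s - t|)) *
        (e * Real.exp |t - s|) * (e * Real.exp |s - t|) * (g * Real.exp (-2 * |s - t|)) *
        ((c * Real.exp (-((1 + (κ + m)) * |s|))) * (c * Real.exp (-((1 + (κ + m)) * |t|))))) *
        z := by gcongr
    _ = ‖((sin l / sin (2 * l)) ^ 2 : ℂ)‖ * (d * e * e * g * (c * c)) * z *
        Real.exp (-|s - t| + |t - s| + |s - t| + -2 * |s - t| +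
          (-((1 + (κ + m)) * |s|) + -((1 + (κ + m)) * |t|))) := by
        rw [Real.exp_add, Real.exp_add, Real.exp_add, Real.exp_add, Real.exp_add]
        ring
    _ ≤ ‖((sin l / sin (2 * l)) ^ 2 : ℂ)‖ * (d * e * e * g * (c * c)) * z *
        Real.exp (-|s| + -|t|) := by
        refine mul_le_mul_of_nonneg_left (exp_le1 ?_) (by positivity)
        rw [abs_sub_comm t s]
        nlinarith
    _ = _ := by rw [Real.exp_add]

theorem Far_Bl (L : Ln α β A B) : Far (B + l) := by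
  have hl := lpos
  intro r hr
  obtain ⟨h1, h2⟩ := abs_le.1 hr
  have := L.b4
  have := L.b5
  rw [abs_of_neg (by linarith [L.b1, L.e2])]
  constructor <;> linarith [L.b1, L.e2]

/-- the prefactor of a captured pair -/
theorem bXD (L : Ln α β A B) (D κ R : ℝ) (m : ℕ) : ∃ C : ℝ, 0 ≤ C ∧
    ∀ (p q : ℂ) (x y : Fin m → ℂ) (hX hY : ℂ → ℂ), UD α β B D κ R p q x y hX hY →
      ∀ s : ℝ, ‖XD p q y (vl B s)‖ ≤ C * Real.exp (-|s|) := by
  obtain ⟨C, hC, b1⟩ := inv_box (Far_B L) R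
  obtain ⟨E, hE, b2⟩ := inv_box (Far_Bl L) R
  refine ⟨‖(sin (2 * l) ^ 2 : ℂ)‖ * (E * C) * (Real.exp R * C) ^ m, by positivity,
    fun p q x y hX hY U s => ?_⟩
  have hw : (vl B s).re = B := vlre _ _
  have hwi : (vl B s).im = s := vlim _ _
  set w := vl B s with hwd
  have g1 := b1 q U.bq w hw
  have g2 := b2 p U.bp (w + l) (by simp [hw])
  have him : (w + l).im = s := by simp [hwi]
  rw [him] at g2
  rw [hwi] at g1
  have e1 : XD p q y w = -sin (2 * l) ^ 2 * (1 / sin (w + l - p) * (1 / sin (w - q))) *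
      ∏ j, (-sin (w - y j - 2 * l) / sin (w - y j)) := by
    unfold XD
    rw [show w - p + l = w + l - p by ring, div_eq_mul_inv, mul_inv]
    ring
  have e2 : ‖∏ j, (-sin (w - y j - 2 * l) / sin (w - y j))‖ ≤ (Real.exp R * C) ^ m := by
    rw [norm_prod]
    calc _ ≤ ∏ _j : Fin m, (Real.exp R * C) := by
          refine Finset.prod_le_prod (fun i _ => norm_nonneg _) fun j _ => ?_
          have h1 := b1 (y j) (U.bY j) w hw
          rw [hwi] at h1
          have h2 : ‖sin (w - y j - 2 * l)‖ ≤ Real.exp R * Real.exp |s| := by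
            refine (Bd.norm_sin_le_exp _).trans ?_
            rw [← Real.exp_add]
            refine Real.exp_le_exp.2 ?_
            have h3 : (w - y j - 2 * l).im = s - (y j).im := by simp [hwi]
            rw [h3]
            have := abs_sub s (y j).im
            have := (U.bY j).2
            linarith
          rw [div_eq_mul_one_div, norm_mul, norm_neg]
          calc _ ≤ (Real.exp R * Real.exp |s|) * (C * Real.exp (-|s|)) := by gcongr
            _ = Real.exp R * C * (Real.exp |s| * Real.exp (-|s|)) := by ring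
            _ = _ := by rw [← Real.exp_add, add_neg_cancel, Real.exp_zero, mul_one]
      _ = _ := by rw [Finset.prod_const, Finset.card_univ, Fintype.card_fin]
  rw [e1, norm_mul, norm_mul, norm_mul, norm_neg]
  have hs := abs_nonneg s
  calc _ ≤ ‖(sin (2 * l) ^ 2 : ℂ)‖ * ((E * Real.exp (-|s|)) * (C * Real.exp (-|s|))) *
        (Real.exp R * C) ^ m := by gcongr
    _ = ‖(sin (2 * l) ^ 2 : ℂ)‖ * (E * C) * (Real.exp R * C) ^ m *
        (Real.exp (-|s|) * Real.exp (-|s|)) := by ring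
    _ ≤ _ := by
        refine mul_le_mul_of_nonneg_left ?_ (by positivity)
        rw [← Real.exp_add]
        exact exp_le1 (by linarith)

/-- the captured pairs -/
theorem db_ID (L : Ln α β A B) (D κ R : ℝ) (n : ℕ) (hK : 2 < κ + m) : ∃ C : ℝ,
    ∀ (p q : ℂ) (x y : Fin m → ℂ) (hX hY : ℂ → ℂ), UD α β B D κ R p q x y hX hY →
      ∀ s : ℝ, ‖ID α β p q x y hX hY n n (vl B s)‖ ≤ C * Real.exp (-|s|) ∧
        ‖ID' α β p q x y hX hY n n (vl B s)‖ ≤ C * Real.exp (-|s|) := by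
  obtain ⟨c, hc, b1⟩ := bXD L D κ R m
  obtain ⟨z, hz, b2⟩ := b_ZD L D κ R n hK
  refine ⟨c * z, fun p q x y hX hY U s => ?_⟩
  obtain ⟨g1, g2⟩ := b2 p q x y hX hY U (vl B s) (vlre _ _)
  have h1 := b1 p q x y hX hY U s
  have h2 := b1 q p y x hY hX U.symm s
  constructor
  · unfold ID
    rw [norm_mul]
    calc _ ≤ (c * Real.exp (-|s|)) * z := by gcongr
      _ = _ := by ring
  · unfold ID'
    rw [norm_mul]
    calc _ ≤ (c * Real.exp (-|s|)) * z := by gcongr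
      _ = _ := by ring

end

end NUP1.N

end
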