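import Pool.Agent.NUP1.Two

/-!
# The joint integrals are holomorphic in a parameter of the one body functions
-/

set_option autoImplicit false
set_option linter.unusedSectionVars false

noncomputable section

open Complex MeasureTheory Filter Topology Metric Set

namespace NUP1.N

/-- An integral is holomorphic in a parameter, if the integrand is and is dominated. -/
theorem diffOn_integral {X : Type*} [MeasurableSpace X] {μ : Measure X} {Ω : Set ℂ}
    (hΩ : IsOpen Ω) {F : ℂ → X → ℂ} {g : X → ℝ} (hm : ∀ z ∈ Ω, AEStronglyMeasurable (F z) μ)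
    (hg : Integrable g μ) (hb : ∀ x, ∀ z ∈ Ω, ‖F z x‖ ≤ g x)
    (hd : ∀ x, DifferentiableOn ℂ (fun z => F z x) Ω) :
    DifferentiableOn ℂ (fun z => ∫ x, F z x ∂μ) Ω := by
  intro z₀ hz₀
  obtain ⟨r, hr, hr2⟩ := Metric.isOpen_iff.1 hΩ z₀ hz₀
  set ρ := r / 2 with hρ
  have hρ0 : 0 < ρ := by positivity
  have hsub : ball z₀ ρ ⊆ Ω := (ball_subset_ball (by rw [hρ]; linarith)).trans hr2
  have hsub2 : ∀ z ∈ ball z₀ ρ, closedBall z (ρ / 2) ⊆ Ω := by
    intro z hz w hw
    apply hr2
    rw [mem_ball] at hz ⊢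
    rw [mem_closedBall] at hw
    have := dist_triangle w z z₀
    linarith
  have hdat : ∀ x, ∀ z ∈ Ω, DifferentiableAt ℂ (fun z => F z x) z := fun x z hz =>
    (hd x).differentiableAt (hΩ.mem_nhds hz)
  have hderiv : ∀ x, ∀ z ∈ ball z₀ ρ, ‖deriv (fun z => F z x) z‖ ≤ g x / (ρ / 2) := by
    intro x z hz
    refine norm_deriv_le_of_forall_mem_sphere_norm_le (by positivity) ?_ ?_
    · refine DifferentiableOn.diffContOnCl_ball (U := Ω) (hd x) ?_
      exact hsub2 z hz
    · intro w hw
      exact hb x w (hsub2 z hz (sphere_subset_closedBall hw))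
  have hms : AEStronglyMeasurable (fun x => deriv (fun z => F z x) z₀) μ := by
    set e : ℕ → ℂ := fun n => ((ρ / (n + 2) : ℝ) : ℂ) with he
    have h2 : Tendsto e atTop (𝓝[≠] 0) := by
      rw [tendsto_nhdsWithin_iff]
      constructor
      · have h3 : Tendsto (fun n : ℕ => (ρ / (n + 2) : ℝ)) atTop (𝓝 0) := by
          have := (tendsto_const_nhds (x := ρ)).div_atTop
            (tendsto_atTop_add_const_right atTop (2 : ℝ) tendsto_natCast_atTop_atTop)
          exact this
        have h4 := (Complex.continuous_ofReal.tendsto 0).comp h3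
        rw [Complex.ofReal_zero] at h4
        exact h4
      · refine Eventually.of_forall fun n => ?_
        have : (ρ / (n + 2) : ℝ) ≠ 0 := by positivity
        exact Complex.ofReal_ne_zero.2 this
    have hlim : ∀ x, Tendsto (fun n : ℕ => (e n)⁻¹ * (F (z₀ + e n) x - F z₀ x)) atTop
        (𝓝 (deriv (fun z => F z x) z₀)) := by
      intro x
      have h1 := (hdat x z₀ hz₀).hasDerivAt
      rw [hasDerivAt_iff_tendsto_slope_zero] at h1
      exact h1.comp h2
    refine aestronglyMeasurable_of_tendsto_ae (u := (atTop : Filter ℕ))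
      (f := fun n x => (e n)⁻¹ * (F (z₀ + e n) x - F z₀ x)) ?_ (Eventually.of_forall hlim)
    intro n
    refine ((hm _ (hsub ?_)).sub (hm z₀ hz₀)).const_mul _
    rw [mem_ball, dist_eq_norm, add_sub_cancel_left, he]
    simp only
    rw [Complex.norm_real, Real.norm_eq_abs, abs_of_pos (by positivity),
      div_lt_iff₀ (by positivity)]
    have : (0 : ℝ) ≤ n := n.cast_nonneg
    nlinarith
  have key := hasDerivAt_integral_of_dominated_loc_of_deriv_le (μ := μ) (𝕜 := ℂ)
    (F := F) (F' := fun z x => deriv (fun z => F z x) z)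
    (x₀ := z₀) (bound := fun x => g x / (ρ / 2))
    (s := ball z₀ ρ) (ball_mem_nhds z₀ hρ0)
    (by
      filter_upwards [ball_mem_nhds z₀ hρ0] with z hz
      exact hm z (hsub hz))
    (hg.mono' (hm z₀ hz₀) (Eventually.of_forall fun x => hb x z₀ hz₀))
    hms (Eventually.of_forall fun x z hz => hderiv x z hz) (hg.div_const _)
    (Eventually.of_forall fun x z hz => (hdat x z (hsub hz)).hasDerivAt)
  exact key.2.differentiableAt.differentiableWithinAt

open NUP1.Bd (Ob chg wt pw pwz rl en pw_bounds f_norm_le en_le integrable_prod_exp measurable_f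
  chg_pos)

/-- majorant of the integrand, one species -/
theorem f_le {α β : ℝ} {C : ℝ} (hC : 1 ≤ C)
    (hp : ∀ (k k' : Ob) (z : ℂ), z.re = rl α β k - rl α β k' →
      ‖pwz k k' z‖ ≤ C * Real.exp (2 * (chg k * chg k' * |z.im|)))
    {n : ℕ} {D κ : ℝ} (h : Ob → ℝ → ℂ)
    (hh : ∀ k t, ‖h k t‖ ≤ D * Real.exp (-(κ * chg k * |t|)))
    {r : ℕ} (k : Fin r → Ob) (hk : ∑ i, chg (k i) = n) (t : Fin r → ℝ) :
    ‖Grand.f (pw α β) k h t‖ ≤ D ^ r * C ^ (r * r) *
      ∏ i, Real.exp (-((κ - 2 * ((n : ℝ) - 1)) * chg (k i) * |t i|)) := by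
  have hD : 0 ≤ D := by
    have := (norm_nonneg _).trans (hh .A 0)
    simpa using this
  refine (f_norm_le hC hp h hh k t).trans ?_
  refine mul_le_mul_of_nonneg_left ?_ (by positivity)
  rw [← Real.exp_sum, ← Real.exp_sum, ← Real.exp_add]
  refine Real.exp_le_exp.2 ?_
  have := en_le k t hk
  calc _ ≤ ∑ i, -(κ * chg (k i) * |t i|) + ∑ a, 2 * ((n : ℝ) - 1) * chg (k a) * |t a| := by
        linarith
    _ = _ := by
        rw [← Finset.sum_add_distrib]
        refine Finset.sum_congr rfl fun i _ => ?_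
        ring

/-- The closed form is holomorphic in a parameter of the one body functions. -/
theorem Z_diffOn {α β : ℝ} (h1 : l < α - β) (h2 : α - β < 3 * l) {n : ℕ} {D κ : ℝ}
    (hκ : 2 * ((n : ℝ) - 1) < κ) {Ω : Set ℂ} (hΩ : IsOpen Ω) (h : ℂ → Ob → ℝ → ℂ)
    (hm : ∀ c ∈ Ω, ∀ k, Measurable (h c k))
    (hb : ∀ c ∈ Ω, ∀ k t, ‖h c k t‖ ≤ D * Real.exp (-(κ * chg k * |t|)))
    (hd : ∀ k t, DifferentiableOn ℂ (fun c => h c k t) Ω) :
    DifferentiableOn ℂ (fun c => Grand.Z volume chg wt (pw α β) n (h c)) Ω := by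
  obtain ⟨C, hC, hp, -⟩ := pw_bounds h1 h2
  unfold Grand.Z
  refine DifferentiableOn.fun_sum fun r _ => ?_
  refine DifferentiableOn.const_mul ?_ _
  refine DifferentiableOn.fun_sum fun k _ => ?_
  by_cases hk : ∑ i, chg (k i) = n
  · simp only [if_pos hk]
    refine DifferentiableOn.const_mul ?_ _
    unfold Grand.I
    have hint := (integrable_prod_exp (fun i : Fin r => (κ - 2 * ((n : ℝ) - 1)) * chg (k i))
      (fun i => mul_pos (by linarith) (by exact_mod_cast chg_pos (k i)))).const_mul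
        (D ^ r * C ^ (r * r))
    refine diffOn_integral hΩ (fun c hc => (measurable_f (hm c hc) k).aestronglyMeasurable) hint
      (fun t c hc => f_le hC hp (h c) (hb c hc) k hk t) fun t => ?_
    unfold Grand.f
    refine DifferentiableOn.mul_const ?_ _
    have := DifferentiableOn.fun_finsetProd (𝕜 := ℂ) (u := Finset.univ) (s := Ω)
      (f := fun (i : Fin r) c => h c (k i) (t i)) (fun i _ => hd (k i) (t i))
    exact this
  · simp only [if_neg hk]
    exact differentiableOn_const _

end NUP1.N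

end
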