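import Pool.Agent.NUP1L.Assem
import Pool.Agent.NUP1L.Hol

/-!
# The exact contour identity for rows anywhere in the strip `β + l < Re x < α`

The rows only have to have different heights.  One species, any analytic spectator.
Proof: analytic continuation in one row after the other.
-/

set_option autoImplicit false
set_option linter.unusedSectionVars false

noncomputable section

open Complex MeasureTheory Filter Topology Metric Set

namespace NUP1.N

open NUP1.Bd (Ob chg wt pw pwz rl pt oneL one Dec)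

/-- analytic continuation of the closed form -/
theorem cont {α β : ℝ} (h1 : l < α - β) (h2 : α - β < 3 * l) {n : ℕ} {D κ : ℝ}
    (hκ : 2 * ((n : ℝ) - 1) < κ) {Ω : Set ℂ} (hΩ : IsOpen Ω) (hΩc : IsPreconnected Ω)
    (h : ℂ → Ob → ℝ → ℂ) (hm : ∀ c ∈ Ω, ∀ k, Measurable (h c k))
    (hb : ∀ c ∈ Ω, ∀ k t, ‖h c k t‖ ≤ D * Real.exp (-(κ * chg k * |t|)))
    (hd : ∀ k t, DifferentiableOn ℂ (fun c => h c k t) Ω) {Tn : ℂ → ℂ}
    (hT : DifferentiableOn ℂ Tn Ω) {z₀ : ℂ} (hz₀ : z₀ ∈ Ω)
    (base : ∀ᶠ c in 𝓝 z₀, Grand.Z volume chg wt (pw α β) n (h c) = Tn c) :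
    ∀ c ∈ Ω, Grand.Z volume chg wt (pw α β) n (h c) = Tn c := by
  have hZ := Z_diffOn h1 h2 hκ hΩ h hm hb hd
  exact (hZ.analyticOnNhd hΩ).eqOn_of_preconnected_of_eventuallyEq (hT.analyticOnNhd hΩ) hΩc hz₀ base

/-- an open rectangle -/
def Rc (r1 r2 y δ : ℝ) : Set ℂ := {c | r1 < c.re ∧ c.re < r2 ∧ |c.im - y| < δ}

theorem Rc_open (r1 r2 y δ : ℝ) : IsOpen (Rc r1 r2 y δ) := by
  unfold Rc
  refine (isOpen_lt continuous_const continuous_re).inter
    ((isOpen_lt continuous_re continuous_const).inter ?_)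
  exact isOpen_lt ((continuous_im.sub continuous_const).abs) continuous_const

theorem Rc_convex (r1 r2 y δ : ℝ) : Convex ℝ (Rc r1 r2 y δ) := by
  have e : Rc r1 r2 y δ = {c | r1 < c.re} ∩ ({c | c.re < r2} ∩ ({c | c.im < y + δ} ∩ {c | y - δ < c.im})) := by
    ext c
    simp only [Rc, Set.mem_ofPred_eq, mem_inter_iff, abs_lt]
    constructor
    · rintro ⟨a, b, c1, c2⟩
      exact ⟨a, b, by linarith, by linarith⟩
    · rintro ⟨a, b, c1, c2⟩
      exact ⟨a, b, by linarith, by linarith⟩
  rw [e]
  exact (convex_halfSpace_re_gt r1).inter ((convex_halfSpace_re_lt r2).inter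
    ((convex_halfSpace_im_lt _).inter (convex_halfSpace_im_gt _)))

/-- uniform bound of `1 / sin` away from the poles -/
theorem inv_sin_unif {s Y : ℝ} (hs : 0 < s) {z c : ℂ} (h : s ≤ |Real.sin (z.re - c.re)|)
    (hy : |c.im| ≤ Y) : ‖1 / sin (z - c)‖ ≤ 2 * Real.exp Y / s * Real.exp (-|z.im|) := by
  have h1 := Bd.le_norm_sin (z - c)
  rw [sub_re, sub_im] at h1
  have h2 : Real.exp (|z.im| - Y) / 2 ≤ Real.cosh (z.im - c.im) := by
    have h3 : |z.im| - Y ≤ |z.im - c.im| := by
      have := abs_sub_abs_le_abs_sub z.im c.im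
      linarith
    rw [← Real.cosh_abs]
    rw [Real.cosh_eq]
    have h4 := Real.exp_le_exp.2 h3
    have := Real.exp_pos (-|z.im - c.im|)
    linarith
  have h3 : s * (Real.exp (|z.im| - Y) / 2) ≤ ‖sin (z - c)‖ :=
    (mul_le_mul h h2 (by positivity) (abs_nonneg _)).trans h1
  rw [norm_div, norm_one, div_le_iff₀ (lt_of_lt_of_le (by positivity) h3)]
  calc (1 : ℝ) = (2 * Real.exp Y / s * Real.exp (-|z.im|)) * (s * (Real.exp (|z.im| - Y) / 2)) := by
        rw [Real.exp_sub, Real.exp_neg]
        field_simp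
    _ ≤ _ := mul_le_mul_of_nonneg_left h3 (by positivity)

/-! ### the sum over the states is holomorphic in one row -/

theorem q_diffAt {z : ℂ} (h : z.im ≠ 0) : DifferentiableAt ℂ q z := by
  have h1 : sin (z + l) ≠ 0 := sin_ne_im (by simpa using h)
  have h2 : sin (z - l) ≠ 0 := sin_ne_im (by simpa using h)
  unfold q
  fun_prop (disch := first | exact mul_ne_zero h1 h2 | assumption)

theorem q_comp_diff {f : ℂ → ℂ} {c : ℂ} (hf : DifferentiableAt ℂ f c) (h : (f c).im ≠ 0) :
    DifferentiableAt ℂ (fun c => q (f c)) c :=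
  (q_diffAt h).comp c hf

theorem is_comp_diff {f : ℂ → ℂ} {c : ℂ} (hf : DifferentiableAt ℂ f c) (h : (f c).im ≠ 0) :
    DifferentiableAt ℂ (fun c => 1 / sin (f c)) c := by
  have h1 : sin (f c) ≠ 0 := sin_ne_im h
  fun_prop (disch := exact h1)

theorem listprod_diff (L : List ℝ) {f : ℝ → ℂ → ℂ} {c : ℂ} (h : ∀ r, DifferentiableAt ℂ (f r) c) :
    DifferentiableAt ℂ (fun c => (L.map fun r => f r c).prod) c := by
  induction L with
  | nil => exact differentiableAt_const _
  | cons r L ih =>
    simp only [List.map_cons, List.prod_cons]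
    exact (h r).mul ih

/-- shifts of the quanta of a row -/
def sh : SignType → List ℝ
  | .pos => []
  | .zero => [0]
  | .neg => [0, l]

theorem qu_sh (a : SignType) (x : ℂ) : qu a x = (sh a).map fun r : ℝ => x - (r : ℂ) := by
  cases a <;> simp [qu, sh]

theorem pr_diff (a b : SignType) {X Y : ℂ → ℂ} {c : ℂ} (hX : DifferentiableAt ℂ X c)
    (hY : DifferentiableAt ℂ Y c) (h : (X c).im ≠ (Y c).im) :
    DifferentiableAt ℂ (fun c => pr a b (X c) (Y c)) c := by
  have h1 : (X c).im - (Y c).im ≠ 0 := sub_ne_zero.2 h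
  have h2 : (Y c).im - (X c).im ≠ 0 := sub_ne_zero.2 h.symm
  have d1 : ∀ r s : ℝ, DifferentiableAt ℂ (fun c => X c - r - (Y c - s)) c := fun r s =>
    (hX.sub_const _).sub (hY.sub_const _)
  have e1 : ∀ r : ℝ, DifferentiableAt ℂ (fun c => 1 / sin (X c - r - Y c)) c := fun r =>
    is_comp_diff ((hX.sub_const _).sub hY) (by simpa using h1)
  have e2 : ∀ r : ℝ, DifferentiableAt ℂ (fun c => 1 / sin (Y c - r - X c)) c := fun r =>
    is_comp_diff ((hY.sub_const _).sub hX) (by simpa using h2)
  have e3 : ∀ r s : ℝ, DifferentiableAt ℂ (fun c => q (X c - r - (Y c - s))) c := fun r s =>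
    q_comp_diff (d1 r s) (by simpa using h1)
  unfold pr
  simp only [qu_sh, List.map_map, Function.comp_def]
  refine ((listprod_diff _ e1).mul (listprod_diff _ e2)).mul ?_
  exact listprod_diff _ fun r => listprod_diff _ fun s => e3 r s

theorem sw_diff (a : SignType) {h : ℂ → ℂ} {X : ℂ → ℂ} {c : ℂ} (hX : DifferentiableAt ℂ X c)
    (h0 : DifferentiableAt ℂ h (X c)) (h1 : DifferentiableAt ℂ h (X c - l)) :
    DifferentiableAt ℂ (fun c => sw a h (X c)) c := by
  have e0 : DifferentiableAt ℂ (fun c => h (X c)) c := h0.comp c hX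
  have e1 : DifferentiableAt ℂ (fun c => h (X c - l)) c :=
    DifferentiableAt.comp (f := fun c => X c - l) c h1 (hX.sub_const _)
  cases a
  · exact e0
  · exact (e0.mul e1).const_mul _
  · exact differentiableAt_const _

theorem P_diff {r : ℕ} {f : Fin r → Fin r → ℂ → ℂ} {c : ℂ}
    (h : ∀ i j, i ≠ j → DifferentiableAt ℂ (f i j) c) :
    DifferentiableAt ℂ (fun c => Grand.P fun i j => f i j c) c := by
  unfold Grand.P
  have h1 : ∀ i, DifferentiableAt ℂ (fun c => ∏ j, if i < j then f i j c else 1) c := by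
    intro i
    have := DifferentiableAt.fun_finsetProd (𝕜 := ℂ) (u := Finset.univ) (x := c)
      (f := fun (j : Fin r) c => if i < j then f i j c else 1) (fun j _ => by
        by_cases hij : i < j
        · simp only [if_pos hij]
          exact h i j hij.ne
        · simp only [if_neg hij]
          exact differentiableAt_const _)
    exact this
  have := DifferentiableAt.fun_finsetProd (𝕜 := ℂ) (u := Finset.univ) (x := c)
    (f := fun (i : Fin r) c => ∏ j, if i < j then f i j c else 1) (fun i _ => h1 i)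
  exact this

theorem sta_diff {m : ℕ} {X : Fin m → ℂ → ℂ} {h : ℂ → ℂ} {c : ℂ}
    (hX : ∀ i, DifferentiableAt ℂ (X i) c)
    (h0 : ∀ i, DifferentiableAt ℂ h (X i c)) (h1 : ∀ i, DifferentiableAt ℂ h (X i c - l))
    (hne : ∀ i j, i ≠ j → (X i c).im ≠ (X j c).im) (a : Fin m → SignType) :
    DifferentiableAt ℂ (fun c => sta (fun i => X i c) h a) c := by
  unfold sta
  refine DifferentiableAt.mul ?_ ?_
  · have := DifferentiableAt.fun_finsetProd (𝕜 := ℂ) (u := Finset.univ) (x := c)
      (f := fun (i : Fin m) c => sw (a i) h (X i c)) (fun i _ => sw_diff (a i) (hX i) (h0 i) (h1 i))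
    exact this
  · exact P_diff (f := fun i j c => pr (a i) (a j) (X i c) (X j c)) fun i j hij =>
      pr_diff (a i) (a j) (hX i) (hX j) (hne i j hij)

/-! ### the lines stay away from the rows -/

/-- position on the lines -/
def OnL (α β σ : ℝ) : Prop := σ = α ∨ σ = β ∨ σ = β + l

theorem sin_low {α β : ℝ} (hw : Wd α β) {ρ1 ρ2 : ℝ} (h1 : β + l < ρ1) (h2 : ρ2 < α)
    (h12 : ρ1 ≤ ρ2) : ∃ s : ℝ, 0 < s ∧ ∀ σ r : ℝ, OnL α β σ → ρ1 ≤ r → r ≤ ρ2 →
      s ≤ |Real.sin (σ - r)| := by
  have hl := lpos
  have h3 := hw.lo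
  have h4 := hw.hi
  have key : ∀ σ : ℝ, OnL α β σ → ∃ s : ℝ, 0 < s ∧ ∀ r : ℝ, ρ1 ≤ r → r ≤ ρ2 →
      s ≤ |Real.sin (σ - r)| := by
    intro σ hσ
    have hpos : ∀ r ∈ Icc ρ1 ρ2, 0 < |Real.sin (σ - r)| := by
      intro r hr
      refine Bd.abs_sin_pos ?_ ?_
      · rw [abs_pos]
        rcases hσ with rfl | rfl | rfl
        · have := hr.2; linarith
        · have := hr.1; intro h; linarith
        · have := hr.1; intro h; linarith
      · have a1 := hr.1
        have a2 := hr.2
        rw [abs_lt]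
        rcases hσ with rfl | rfl | rfl
        · constructor <;> linarith
        · constructor <;> linarith
        · constructor <;> linarith
    obtain ⟨r₀, hr₀, hmin⟩ := isCompact_Icc.exists_isMinOn (nonempty_Icc.2 h12)
      (f := fun r => |Real.sin (σ - r)|) (by fun_prop)
    exact ⟨|Real.sin (σ - r₀)|, hpos r₀ hr₀, fun r a b => hmin ⟨a, b⟩⟩
  obtain ⟨s1, p1, q1⟩ := key α (Or.inl rfl)
  obtain ⟨s2, p2, q2⟩ := key β (Or.inr (Or.inl rfl))
  obtain ⟨s3, p3, q3⟩ := key (β + l) (Or.inr (Or.inr rfl))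
  refine ⟨min s1 (min s2 s3), lt_min p1 (lt_min p2 p3), fun σ r hσ a b => ?_⟩
  rcases hσ with rfl | rfl | rfl
  · exact (min_le_left _ _).trans (q1 r a b)
  · exact ((min_le_right _ _).trans (min_le_left _ _)).trans (q2 r a b)
  · exact ((min_le_right _ _).trans (min_le_right _ _)).trans (q3 r a b)

/-- the one body function with rows -/
def Gr0 {m : ℕ} (h : ℂ → ℂ) (x : Fin m → ℂ) (u : ℂ) : ℂ := h u * ∏ i, 1 / sin (u - x i)

theorem Gr0_meas {m : ℕ} {h : ℂ → ℂ} (mh : Measurable h) (x : Fin m → ℂ) :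
    Measurable (Gr0 h x) := by
  unfold Gr0
  refine mh.mul (Finset.measurable_prod _ fun i _ => ?_)
  fun_prop

theorem Gr0_gr {α β κ : ℝ} {m : ℕ} {h : ℂ → ℂ} (gh : Gr α β (-κ) h) (x : Fin m → ℂ) :
    Gr α β (-(κ + m)) (Gr0 h x) := by
  have h1 : Gr α β (∑ _i : Fin m, (-1 : ℝ)) (fun z => ∏ i : Fin m, 1 / sin (z - x i)) := by
    refine Gr.finProd (fun i z => 1 / sin (z - x i)) (fun _ => -1) fun i => ?_
    have := Gr.inv_sin (α := α) (β := β) (x i)
    simpa only [one_div] using this
  have := gh.mul h1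
  refine this.mono (le_of_eq ?_)
  rw [Finset.sum_const, Finset.card_univ, Fintype.card_fin, nsmul_eq_mul]
  ring

theorem is_diff_lines {α β : ℝ} (hw : Wd α β) {c z : ℂ} (h1 : β + l < c.re) (h2 : c.re < α)
    (hz : OnL α β z.re) : DifferentiableAt ℂ (fun c => 1 / sin (z - c)) c := by
  have hl := lpos
  have h3 := hw.lo
  have h4 := hw.hi
  have hne : sin (z - c) ≠ 0 := by
    refine sin_ne_re' ?_ ?_ ?_
    · simp only [sub_re]; rcases hz with hz | hz | hz <;> rw [hz] <;> linarith
    · simp only [sub_re]; rcases hz with hz | hz | hz <;> rw [hz] <;> linarith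
    · simp only [sub_re]
      rcases hz with hz | hz | hz <;> rw [hz] <;> intro h' <;> linarith
  fun_prop (disch := exact hne)

theorem oneL_lines {α β : ℝ} {G : ℂ → ℂ → ℂ} {Ω : Set ℂ}
    (h : ∀ z, OnL α β z.re → DifferentiableOn ℂ (fun c => G c z) Ω) (k : Ob) (t : ℝ) :
    DifferentiableOn ℂ (fun c => oneL α β (G c) k t) Ω := by
  cases k
  · exact h (pt α β .A t) (Or.inl (by rw [Bd.pt_re]; rfl))
  · exact h (pt α β .L t) (Or.inr (Or.inl (by rw [Bd.pt_re]; rfl)))
  · refine DifferentiableOn.mul (h (pt α β .S t) (Or.inr (Or.inr (by rw [Bd.pt_re]; rfl))))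
      (h (pt α β .S t - l) (Or.inr (Or.inl ?_)))
    rw [sub_re, ofReal_re, Bd.pt_re]
    simp [rl]

/-- **The exact contour identity, rows anywhere in the strip** (induction on the rows which do not
satisfy the conditions of the algebraic proof) -/
theorem mainG_aux {α β : ℝ} (hw : Wd α β) {m : ℕ} {h : ℂ → ℂ} (mh : Measurable h)
    (ah : ∀ z : ℂ, β ≤ z.re → z.re ≤ α → DifferentiableAt ℂ h z) {κ : ℝ} (gh : Gr α β (-κ) h)
    (n : ℕ) (hk : 2 * ((n : ℝ) - 1) < κ + m) (s : Finset (Fin m)) :
    ∀ x : Fin m → ℂ, (∀ i j, i ≠ j → (x i).im ≠ (x j).im) →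
      (∀ i, β + l < (x i).re ∧ (x i).re < α) → (∀ i, i ∉ s → Ok α β (Kd.R0, x i)) →
      K α β n (Gr0 h x) = ∑ a ∈ St m n, sta x h a := by
  classical
  have hl := lpos
  have w1 := hw.lo
  have w2 := hw.hi
  have sp : ∀ {x : Fin m → ℂ}, (∀ i j, i ≠ j → (x i).im ≠ (x j).im) → ∀ i j, i ≠ j →
      Sp (x i) (x j) := by
    intro x hx i j hij
    have him : (x i - x j).im ≠ 0 := by rw [sub_im, sub_ne_zero]; exact hx i j hij
    refine ⟨sin_ne_im him, sin_ne_im (by simpa using him), sin_ne_im (by simpa using him),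
      sin_ne_im (by simpa using him), sin_ne_im (by simpa using him)⟩
  induction s using Finset.induction_on with
  | empty =>
    intro x hx hr ho
    have hs := sp hx
    have e1 : Gr0 h x = Gf (rows x) h := funext fun u => (Gf_rows hs h u).symm
    have g1 : Gr α β (-(κ + m)) (Gf (rows x) h) := e1 ▸ Gr0_gr gh x
    rw [e1, main hw n (rows_good hs (fun i => ho i (Finset.notMem_empty i)) ah) hk g1, T_rows x hs]
    unfold St
    rw [Finset.sum_filter]
  | insert j s hj ih =>
    intro x hx hr ho
    -- distance of the heights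
    obtain ⟨δ, hδ, hδi⟩ : ∃ δ : ℝ, 0 < δ ∧ ∀ i, i ≠ j → δ ≤ |(x i).im - (x j).im| := by
      have : Nonempty (Fin m) := ⟨j⟩
      obtain ⟨i₀, hi₀⟩ := Finite.exists_min
        (fun i => if i = j then (1 : ℝ) else |(x i).im - (x j).im|)
      refine ⟨if i₀ = j then (1 : ℝ) else |(x i₀).im - (x j).im|, ?_, fun i hi => ?_⟩
      · split_ifs with h0
        · exact one_pos
        · exact abs_pos.2 (sub_ne_zero.2 (hx i₀ j h0))
      · have := hi₀ i
        simp only [if_neg hi] at this
        exact this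
    set y := (x j).im with hy
    -- a good position
    obtain ⟨r₀, a1, a2, a3, a4⟩ : ∃ r₀ : ℝ, β + l < r₀ ∧ r₀ < α ∧ α < r₀ + l ∧ r₀ - 2 * l < β := by
      have b1 : max (β + l) (α - l) < min α (β + 2 * l) := by
        rw [lt_min_iff, max_lt_iff, max_lt_iff]
        refine ⟨⟨?_, ?_⟩, ⟨?_, ?_⟩⟩ <;> linarith
      obtain ⟨r, c1, c2⟩ := exists_between b1
      rw [max_lt_iff] at c1
      rw [lt_min_iff] at c2
      exact ⟨r, c1.1, c2.1, by linarith [c1.2], by linarith [c2.2]⟩
    obtain ⟨xr1, xr2⟩ := hr j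
    obtain ⟨r1, c1, c2⟩ := exists_between (lt_min xr1 a1)
    obtain ⟨r2, c3, c4⟩ := exists_between (max_lt xr2 a2)
    rw [lt_min_iff] at c2
    rw [max_lt_iff] at c3
    set Ω := Rc r1 r2 y δ with hΩ
    have hΩo : IsOpen Ω := Rc_open _ _ _ _
    have hΩc : IsPreconnected Ω := (Rc_convex _ _ _ _).isPreconnected
    set X : ℂ → Fin m → ℂ := fun c => Function.update x j c with hX
    have Xj : ∀ c, X c j = c := fun c => Function.update_self j c x
    have Xi : ∀ c i, i ≠ j → X c i = x i := fun c i hi => Function.update_of_ne hi c x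
    have him : ∀ c ∈ Ω, ∀ i k, i ≠ k → (X c i).im ≠ (X c k).im := by
      intro c hc i k hik
      by_cases hi : i = j
      · subst hi
        rw [Xj, Xi c k hik.symm]
        intro h'
        have := hδi k hik.symm
        rw [← h'] at this
        exact absurd hc.2.2 (not_lt.2 this)
      · by_cases hkj : k = j
        · subst hkj
          rw [Xj, Xi c i hi]
          intro h'
          have := hδi i hi
          rw [h'] at this
          exact absurd hc.2.2 (not_lt.2 this)
        · rw [Xi c i hi, Xi c k hkj]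
          exact hx i k hik
    have hre : ∀ c ∈ Ω, ∀ i, β + l < (X c i).re ∧ (X c i).re < α := by
      intro c hc i
      by_cases hi : i = j
      · subst hi
        rw [Xj]
        exact ⟨c1.trans hc.1, hc.2.1.trans c4⟩
      · rw [Xi c i hi]
        exact hr i
    -- bounds
    have hdec : Dec α β κ h := dec_of_gr hw gh fun z hz => (ah z (by
      rcases hz with hz | hz | hz <;> linarith) (by
      rcases hz with hz | hz | hz <;> linarith)).continuousAt
    obtain ⟨D, hD, hDb⟩ := hdec
    have hE : ∀ i, ∃ E : ℝ, 0 ≤ E ∧ ∀ c ∈ Ω, ∀ z : ℂ, OnL α β z.re →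
        ‖1 / sin (z - X c i)‖ ≤ E * Real.exp (-|z.im|) := by
      intro i
      by_cases hi : i = j
      · obtain ⟨s0, hs0, hs⟩ := sin_low hw c1 c4 (c2.1.le.trans c3.1.le)
        refine ⟨2 * Real.exp (|y| + δ) / s0, by positivity, fun c hc z hz => ?_⟩
        rw [hi, Xj]
        refine inv_sin_unif hs0 (hs z.re c.re hz hc.1.le hc.2.1.le) ?_
        have h5 := abs_sub_abs_le_abs_sub c.im y
        have h6 := hc.2.2
        linarith
      · obtain ⟨s0, hs0, hs⟩ := sin_low hw (hr i).1 (hr i).2 le_rfl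
        refine ⟨2 * Real.exp |(x i).im| / s0, by positivity, fun c hc z hz => ?_⟩
        rw [Xi c i hi]
        exact inv_sin_unif hs0 (hs z.re (x i).re hz le_rfl le_rfl) le_rfl
    choose E hE0 hEb using hE
    have hG : ∀ c ∈ Ω, ∀ z : ℂ, OnL α β z.re →
        ‖Gr0 h (X c) z‖ ≤ (D * ∏ i, E i) * Real.exp (-((κ + m) * |z.im|)) := by
      intro c hc z hz
      unfold Gr0
      rw [norm_mul, norm_prod]
      have h5 : ∏ i, ‖1 / sin (z - X c i)‖ ≤ ∏ i, (E i * Real.exp (-|z.im|)) :=
        Finset.prod_le_prod (fun i _ => norm_nonneg _) fun i _ => hEb i c hc z hz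
      rw [Finset.prod_mul_distrib, Finset.prod_const, Finset.card_univ, Fintype.card_fin,
        ← Real.exp_nat_mul] at h5
      calc _ ≤ (D * Real.exp (-(κ * |z.im|))) * ((∏ i, E i) * Real.exp (m * -|z.im|)) :=
            mul_le_mul (hDb z hz) h5 (Finset.prod_nonneg fun i _ => norm_nonneg _)
              (by positivity)
        _ = _ := by
            rw [mul_mul_mul_comm, ← Real.exp_add]
            congr 2
            ring
    have w3 : l < α - β := by linarith
    have w4 : α - β < 3 * l := by linarith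
    have hK : ∀ c ∈ Ω, K α β n (Gr0 h (X c)) =
        Grand.Z volume chg wt (pw α β) n (oneL α β (Gr0 h (X c))) := fun c hc =>
      Bd.K_closed w3 w4 hk (Gr0_meas mh _) (hG c hc)
    have hz₀ : ((r₀ : ℂ) + y * I) ∈ Ω := by
      refine ⟨?_, ?_, ?_⟩
      · simpa using c2.2
      · simpa using c3.2
      · simpa using hδ
    have hxj : x j ∈ Ω := ⟨c2.1, c3.1, by rw [hy, sub_self, abs_zero]; exact hδ⟩
    have key := cont w3 w4 hk hΩo hΩc (fun c => oneL α β (Gr0 h (X c)))
      (fun c _ k => Bd.measurable_oneL α β (Gr0_meas mh _) k)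
      (fun c hc k t => Bd.oneL_bound (hG c hc) k t)
      (oneL_lines fun z hz => by
        unfold Gr0
        refine DifferentiableOn.const_mul ?_ _
        refine DifferentiableOn.fun_finsetProd fun i _ => ?_
        by_cases hi : i = j
        · intro c hc
          have e : (fun c => 1 / sin (z - X c i)) = fun c => 1 / sin (z - c) := by
            funext c
            rw [hi, Xj]
          rw [e]
          exact (is_diff_lines hw (c1.trans hc.1) (hc.2.1.trans c4) hz).differentiableWithinAt
        · have e : (fun c => 1 / sin (z - X c i)) = fun _ => 1 / sin (z - x i) := by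
            funext c
            rw [Xi c i hi]
          rw [e]
          exact differentiableOn_const _)
      (Tn := fun c => ∑ a ∈ St m n, sta (X c) h a)
      (DifferentiableOn.fun_sum fun a _ c hc => by
        have := sta_diff (X := fun i c => X c i) (h := h) (c := c) (fun i => by
          by_cases hi : i = j
          · have e : (fun c => X c i) = fun c => c := by
              funext c
              rw [hi, Xj]
            rw [e]
            exact differentiableAt_id
          · have e : (fun c => X c i) = fun _ => x i := by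
              funext c
              rw [Xi c i hi]
            rw [e]
            exact differentiableAt_const _)
          (fun i => ah _ (by have := (hre c hc i).1; linarith) (hre c hc i).2.le)
          (fun i => ah _ (by
              have := (hre c hc i).1
              rw [sub_re, ofReal_re]
              linarith) (by
              have := (hre c hc i).2
              rw [sub_re, ofReal_re]
              linarith))
          (him c hc) a
        exact this.differentiableWithinAt)
      hz₀ (by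
        have hnb : {c : ℂ | c ∈ Ω ∧ β + l < c.re ∧ c.re < α ∧ α < c.re + l ∧ c.re - 2 * l < β} ∈
            𝓝 ((r₀ : ℂ) + y * I) := by
          refine Filter.inter_mem (hΩo.mem_nhds hz₀) ?_
          have hc : Continuous fun c : ℂ => c.re := continuous_re
          have o1 : IsOpen {c : ℂ | β + l < c.re ∧ c.re < α ∧ α < c.re + l ∧ c.re - 2 * l < β} :=
            (isOpen_lt continuous_const hc).inter ((isOpen_lt hc continuous_const).inter
              ((isOpen_lt continuous_const (hc.add continuous_const)).inter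
              (isOpen_lt (hc.sub continuous_const) continuous_const)))
          refine o1.mem_nhds ?_
          simp only [Set.mem_ofPred_eq, add_re, ofReal_re, mul_re, I_re, I_im, ofReal_im, mul_zero,
            zero_mul, sub_zero, add_zero]
          exact ⟨a1, a2, a3, a4⟩
        filter_upwards [hnb] with c hc
        obtain ⟨hc0, b1, b2, b3, b4⟩ := hc
        rw [← hK c hc0]
        refine ih (X c) (him c hc0) (hre c hc0) fun i hi => ?_
        by_cases hij : i = j
        · rw [hij, Xj]
          exact ⟨b1, b2, b3, b4⟩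
        · rw [Xi c i hij]
          exact ho i (by
            rw [Finset.mem_insert, not_or]
            exact ⟨hij, hi⟩))
      (x j) hxj
    have e0 : X (x j) = x := Function.update_eq_self j x
    rw [← hK (x j) hxj, e0] at key
    exact key

/-- **The exact contour identity, one species, rows anywhere in the strip.** -/
theorem mainG {α β : ℝ} (hw : Wd α β) {m : ℕ} {h : ℂ → ℂ} (mh : Measurable h)
    (ah : ∀ z : ℂ, β ≤ z.re → z.re ≤ α → DifferentiableAt ℂ h z) {κ : ℝ} (gh : Gr α β (-κ) h)
    (n : ℕ) (hk : 2 * ((n : ℝ) - 1) < κ + m) {x : Fin m → ℂ}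
    (hx : ∀ i j, i ≠ j → (x i).im ≠ (x j).im) (hr : ∀ i, β + l < (x i).re ∧ (x i).re < α) :
    K α β n (Gr0 h x) = ∑ a ∈ St m n, sta x h a :=
  mainG_aux hw mh ah gh n hk Finset.univ x hx hr fun i hi => absurd (Finset.mem_univ i) hi

end NUP1.N

end
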