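import Pool.Agent.NUP1L.Mark3

/-!
# The double residue of the two half quanta
-/

set_option autoImplicit false
set_option linter.unusedSectionVars false

noncomputable section

open Complex MeasureTheory Finset

namespace NUP1.Leg

variable {m M : ℕ} {α β σ τ κ : ℝ}
variable {p q : ℂ} {x : Fin m → ℂ} {y : Fin M → ℂ} {a : Fin m → SignType} {b : Fin M → SignType}

/-! ### constants -/

theorem cos3 : cos (3 * l : ℂ) = sin l := by
  have e : (3 * l : ℂ) = (Real.pi : ℂ) / 2 - l := by
    rw [show (Real.pi : ℂ) = 8 * l by rw [pi_eq]; push_cast; ring]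
    ring
  rw [e, Complex.cos_pi_div_two_sub]

theorem sin_shift8 (z : ℂ) : sin (8 * l - z) = sin z := by
  have e : (8 * l : ℂ) = (Real.pi : ℂ) := by rw [pi_eq]; push_cast; ring
  rw [e, Complex.sin_pi_sub]

theorem sin_add8 (z : ℂ) : sin (z + 8 * l) = -sin z := by
  have e : (8 * l : ℂ) = (Real.pi : ℂ) := by rw [pi_eq]; push_cast; ring
  rw [e, Complex.sin_add_pi]

theorem sin_add4 (z : ℂ) : sin (z + 4 * l) = cos z := by
  have e : (4 * l : ℂ) = (Real.pi : ℂ) / 2 := by rw [pi_eq]; push_cast; ring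
  rw [e, Complex.sin_add_pi_div_two]

theorem sin6 : sin (6 * l : ℂ) = sin (2 * l) := by
  rw [← sin_shift8 (2 * l)]
  congr 1
  ring

/-! ### the first sums -/

theorem Dat.s1 (D : Dat p q x y a b) (hα1 : 1 / 2 * l < α) (_hα2 : α < 3 / 2 * l)
    (_hβ1 : -(9 / 2 * l) < β) (hβ2 : β < -(3 / 2 * l)) (h3 : α - β < 3 * l) (w : ℂ)
    (hw : w.re = α ∨ w.re = β) :
    LI α (Phi p q x y a b w) - LI β (Phi p q x y a b w) =
      hf p q x a y b w * ∑ ν, mkw q p y b x a ν * Dk (w - mkp q y b ν) := by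
  have hl := lpos
  have h := mark1 (α := α) (β := β) (by linarith) (by linarith) q p y b x a
    (fun μ => by
      obtain ⟨r1, r2⟩ := mkp_re (p := q) b D.hq D.hy μ
      constructor <;> linarith)
    D.iy (fun z h1 h2 => Nf_diff b a D.hq D.hx (by linarith) (by linarith))
    (fun z => Dk (w - z)) (fun z h1 h2 => by
      have hd : DifferentiableAt ℂ Dk (w - z) := by
        have hab : |(w - z).re| < 3 * l := by
          rw [sub_re, abs_lt]
          rcases hw with hw | hw <;> rw [hw] <;> constructor <;> linarith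
        exact Dk_diff (by linarith) hab.ne
      exact DifferentiableAt.comp (f := fun z => w - z) (g := Dk) z hd (by fun_prop))
    (κ := -2) (by norm_num)
    (((gr_hf q p y b x a D.symm.hn).mul (gr_Dk' w)).mono (by norm_num))
  obtain ⟨-, -, h⟩ := h
  rw [← h, mul_sub, ← LI_cmul, ← LI_cmul]
  congr 1
  · exact LI_congr fun t => by rw [Phi_eq]; ring
  · exact LI_congr fun t => by rw [Phi_eq]; ring

theorem Dat.s2 (D : Dat p q x y a b) (hα1 : 1 / 2 * l < α) (hα2 : α < 3 / 2 * l)
    (hβ1 : -(9 / 2 * l) < β) (hβ2 : β < -(3 / 2 * l)) (h3 : α - β < 3 * l) :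
    ∑ μ, ∑ ν, mkw p q x a y b μ * mkw q p y b x a ν * Dk (mkp p x a μ - mkp q y b ν) =
      LI α (fun w => LI α (Phi p q x y a b w) - LI β (Phi p q x y a b w)) -
        LI β (fun w => LI α (Phi p q x y a b w) - LI β (Phi p q x y a b w)) := by
  have hl := lpos
  have h := mark1 (α := α) (β := β) (by linarith) (by linarith) p q x a y b
    (fun μ => by
      obtain ⟨r1, r2⟩ := mkp_re (p := p) a D.hp D.hx μ
      constructor <;> linarith)
    D.ix (fun z h1 h2 => Nf_diff a b D.hp D.hy (by linarith) (by linarith))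
    (fun w => ∑ ν, mkw q p y b x a ν * Dk (w - mkp q y b ν)) (fun z h1 h2 => by
      have := DifferentiableAt.fun_sum (𝕜 := ℂ) (u := (univ : Finset (Option (Fin M))))
        (A := fun ν w => mkw q p y b x a ν * Dk (w - mkp q y b ν)) (x := z) (fun ν _ => by
          obtain ⟨r1, r2⟩ := mkp_re (p := q) b D.hq D.hy ν
          have hd : DifferentiableAt ℂ Dk (z - mkp q y b ν) := by
            have hab : |(z - mkp q y b ν).re| < 3 * l := by
              rw [sub_re, abs_lt]
              constructor <;> linarith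
            exact Dk_diff (by linarith) hab.ne
          exact (DifferentiableAt.comp (f := fun z => z - mkp q y b ν) (g := Dk) z hd
            (by fun_prop)).const_mul _)
      exact this)
    (κ := -2) (by norm_num)
    (((gr_hf p q x a y b D.hn).mul (Gr.sum univ (κ := -1)
      (F := fun ν w => mkw q p y b x a ν * Dk (w - mkp q y b ν))
      fun ν _ => (gr_Dk _).cmul _)).mono (by norm_num))
  obtain ⟨-, -, h⟩ := h
  have e1 : LI α (fun w => LI α (Phi p q x y a b w) - LI β (Phi p q x y a b w)) =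
      LI α fun w => hf p q x a y b w * ∑ ν, mkw q p y b x a ν * Dk (w - mkp q y b ν) :=
    LI_congr fun t => D.s1 hα1 hα2 hβ1 hβ2 h3 _ (Or.inl (vlre _ _))
  have e2 : LI β (fun w => LI α (Phi p q x y a b w) - LI β (Phi p q x y a b w)) =
      LI β fun w => hf p q x a y b w * ∑ ν, mkw q p y b x a ν * Dk (w - mkp q y b ν) :=
    LI_congr fun t => D.s1 hα1 hα2 hβ1 hβ2 h3 _ (Or.inr (vlre _ _))
  rw [e1, e2, h]
  refine Finset.sum_congr rfl fun μ _ => ?_
  rw [Finset.mul_sum]
  exact Finset.sum_congr rfl fun ν _ => by ring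

/-! ### moving the inner line -/

/-- the inner line passes the pole of the mutual factor -/
theorem Dat.s3 (D : Dat p q x y a b) (w : ℂ) (hw : w.re = α) {β' : ℝ} (hα1 : 1 / 2 * l < α)
    (_hα2 : α < 3 / 2 * l) (_hβ : -(9 / 2 * l) < β) (h5 : α - β < 5 * l) (h3 : β < α - 3 * l)
    (h4 : α - 3 * l < β') (hβ' : β' < -(3 / 2 * l)) :
    LI β' (Phi p q x y a b w) = LI β (Phi p q x y a b w) +
      sin l / sin (2 * l) * Psi p q x y a b w (w - 3 * l) := by
  have hl := lpos
  set B : Finset ℂ := {w - 3 * l} with hB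
  set H : ℂ → ℂ := fun z => cos (w - z) / sin (3 * l + (w - z)) * hf q p y b x a z with hH
  have eP : ∀ z : ℂ, H z * ∏ u ∈ B, (sin (z - u))⁻¹ = hf q p y b x a z * Dk (w - z) := by
    intro z
    rw [hB, Finset.prod_singleton, hH]
    simp only
    unfold Dk
    rw [show z - (w - 3 * l) = 3 * l - (w - z) by ring, div_eq_mul_inv, div_eq_mul_inv, mul_inv]
    ring
  have hd : ∀ z : ℂ, β ≤ z.re → z.re ≤ β' → DifferentiableAt ℂ H z := by
    intro z h1 h2
    have hne : sin (3 * l + (w - z)) ≠ 0 := by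
      have hre : (3 * l + (w - z)).re = 3 * l + α - z.re := by
        simp [hw]; ring
      refine sin_ne_re' ?_ ?_ ?_
      · rw [hre]; linarith
      · rw [hre]; linarith
      · rw [hre]
        have : 0 < 3 * l + α - z.re := by linarith
        exact this.ne'
    have h6 : DifferentiableAt ℂ (hf q p y b x a) z :=
      hf_diff b a D.hq D.hy D.hx (by linarith) (by linarith) (Or.inl (by linarith))
    have h7 : DifferentiableAt ℂ (fun z => cos (w - z) / sin (3 * l + (w - z))) z := by
      fun_prop (disch := exact hne)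
    exact h7.mul h6
  have hg : Gr β' β (-2) fun z => hf q p y b x a z * Dk (w - z) :=
    ((gr_hf q p y b x a D.symm.hn).mul (gr_Dk' w)).mono (by norm_num)
  obtain ⟨C, R, hC, hb⟩ := hg
  obtain ⟨-, -, e⟩ := line_res' (a := β') (b := β) (by linarith) (by rw [pi_eq]; linarith) B
    (fun u hu => by
      rw [hB, Finset.mem_singleton] at hu
      rw [hu]
      simp only [sub_re, mul_re, re_ofNat, ofReal_re, im_ofNat, ofReal_im, mul_zero, sub_zero, hw]
      constructor <;> linarith)
    H (fun z hz => (hd z hz.1 hz.2).continuousAt.continuousWithinAt)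
    (fun z hz => (hd z hz.1.le hz.2.le).differentiableWithinAt)
    ⟨C, 2, R, by norm_num, fun z h1 h2 h3 => by
      rw [eP]
      exact hb z h1 h2 h3⟩
  simp_rw [eP] at e
  rw [hB, Finset.sum_singleton, Finset.erase_singleton, Finset.prod_empty, mul_one, hH] at e
  simp only at e
  rw [show w - (w - 3 * l) = 3 * l by ring, show (3 * l + 3 * l : ℂ) = 6 * l by ring, cos3,
    sin6] at e
  have e1 : ∀ s : ℝ, LI s (Phi p q x y a b w) =
      hf p q x a y b w * LI s fun z => hf q p y b x a z * Dk (w - z) := by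
    intro s
    rw [← LI_cmul]
    exact LI_congr fun t => by rw [Phi_eq]; ring
  rw [e1, e1, Psi_eq]
  linear_combination (hf p q x a y b w) * e

/-- the inner line moves without passing a pole -/
theorem Dat.s5 (D : Dat p q x y a b) (w : ℂ) {β' : ℝ} (hβ : -(9 / 2 * l) < β) (h4 : β ≤ β')
    (hβ' : β' < -(3 / 2 * l)) (hw1 : w.re < β + 3 * l) (hw2 : β' - 3 * l < w.re) :
    LI β' (Phi p q x y a b w) = LI β (Phi p q x y a b w) := by
  have hl := lpos
  have hd : ∀ z : ℂ, β ≤ z.re → z.re ≤ β' → DifferentiableAt ℂ (Phi p q x y a b w) z := by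
    intro z h1 h2
    have e : Phi p q x y a b w = fun z => Dk (w - z) * (hf p q x a y b w * hf q p y b x a z) :=
      funext fun z => Phi_eq ..
    rw [e]
    have hd : DifferentiableAt ℂ Dk (w - z) := by
      have hab : |(w - z).re| < 3 * l := by
        rw [sub_re, abs_lt]
        constructor <;> linarith
      exact Dk_diff (by linarith) hab.ne
    have h6 : DifferentiableAt ℂ (hf q p y b x a) z :=
      hf_diff b a D.hq D.hy D.hx (by linarith) (by linarith) (Or.inl (by linarith))
    exact (DifferentiableAt.comp (f := fun z => w - z) (g := Dk) z hd (by fun_prop)).mul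
      (h6.const_mul _)
  have hg : Gr β' β (-2) (Phi p q x y a b w) := by
    refine ((((gr_hf q p y b x a D.symm.hn).mul (gr_Dk' w)).cmul
      (hf p q x a y b w)).congr 0 fun z _ _ _ => ?_).mono (by norm_num)
    rw [Phi_eq]
    ring
  obtain ⟨C, R, hC, hb⟩ := hg
  exact LI_shift h4 (Phi p q x y a b w)
    (fun z hz => (hd z hz.1 hz.2).continuousAt.continuousWithinAt)
    (fun z hz => (hd z hz.1.le hz.2.le).differentiableWithinAt)
    ⟨C, 2, R, by norm_num, fun z h1 h2 h3 => hb z h1 h2 h3⟩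

/-! ### the captured pair -/

/-- factor of a captured pair and a row of the species of the second half quantum -/
def Ty : SignType → ℂ → ℂ
  | .pos, z => -sin (z - 2 * l) / sin z
  | .zero, z => sin (z - l) * sin (z + 2 * l) / (sin z * sin (z + l))
  | .neg, z => -sin (z + 3 * l) / sin (z + l)

/-- function of a captured pair `(z + 3 l, z)` -/
def Xc (p q : ℂ) (y : Fin M → ℂ) (b : Fin M → SignType) (z : ℂ) : ℂ :=
  -sin (2 * l) ^ 2 / (sin (z - p + l) * sin (z - q)) * ∏ j, Ty (b j) (z - y j)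

theorem Pw_Rw (s : SignType) {z : ℂ} (h : z.im ≠ 0) : Pw s (z + 3 * l) * Rw s z = 1 := by
  cases s
  · show sin (z + 3 * l + 2 * l) / sin (z + 3 * l + l) * (cos z / sin (3 * l - z)) = 1
    have e1 : sin (z + 3 * l + 2 * l) = sin (3 * l - z) := by
      rw [← sin_shift8 (3 * l - z)]
      congr 1
      ring
    have e2 : sin (z + 3 * l + l) = cos z := by
      rw [← sin_add4]
      congr 1
      ring
    have n1 : sin (3 * l - z) ≠ 0 := sin_ne_im (by simpa using h)
    have n2 : cos z ≠ 0 := by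
      rw [← sin_add4]
      exact sin_ne_im (by simpa using h)
    rw [e1, e2]
    field_simp
  · show sin (z + 3 * l + 3 * l) * (1 / sin (2 * l - z)) = 1
    have e1 : sin (z + 3 * l + 3 * l) = sin (2 * l - z) := by
      rw [← sin_shift8 (2 * l - z)]
      congr 1
      ring
    have n1 : sin (2 * l - z) ≠ 0 := sin_ne_im (by simpa using h)
    rw [e1]
    field_simp
  · show 1 / sin (z + 3 * l) * sin (z + 3 * l) = 1
    have n1 : sin (z + 3 * l) ≠ 0 := sin_ne_im (by simpa using h)
    field_simp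

theorem Rw_Pw (s : SignType) (z : ℂ) : Rw s (z + 3 * l) * Pw s z = Ty s z := by
  cases s
  · show cos (z + 3 * l) / sin (3 * l - (z + 3 * l)) * (sin (z + 2 * l) / sin (z + l)) =
      sin (z - l) * sin (z + 2 * l) / (sin z * sin (z + l))
    have e1 : cos (z + 3 * l) = -sin (z - l) := by
      rw [← sin_add4, ← sin_add8]
      congr 1
      ring
    have e2 : sin (3 * l - (z + 3 * l)) = -sin z := by
      rw [← Complex.sin_neg]
      congr 1
      ring
    rw [e1, e2, neg_div_neg_eq, div_mul_div_comm]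
  · show 1 / sin (2 * l - (z + 3 * l)) * sin (z + 3 * l) = -sin (z + 3 * l) / sin (z + l)
    have e2 : sin (2 * l - (z + 3 * l)) = -sin (z + l) := by
      rw [← Complex.sin_neg]
      congr 1
      ring
    rw [e2]
    rw [one_div, inv_neg, neg_div, div_eq_mul_inv]
    ring
  · show sin (z + 3 * l + 3 * l) * (1 / sin z) = -sin (z - 2 * l) / sin z
    have e1 : sin (z + 3 * l + 3 * l) = -sin (z - 2 * l) := by
      rw [← sin_add8]
      congr 1
      ring
    rw [e1]
    ring

theorem Psi_capt (p q : ℂ) (x : Fin m → ℂ) (y : Fin M → ℂ) (a : Fin m → SignType)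
    (b : Fin M → SignType) {z : ℂ} (hp : z.im ≠ p.im) (hq : z.im ≠ q.im)
    (hx : ∀ i, z.im ≠ (x i).im) : Psi p q x y a b (z + 3 * l) z = Xc p q y b z := by
  have e1 : ∏ i, (Pw (a i) (z + 3 * l - x i) * Rw (a i) (z - x i)) = 1 := by
    refine Finset.prod_eq_one fun i _ => ?_
    rw [show z + 3 * l - x i = z - x i + 3 * l by ring]
    refine Pw_Rw _ ?_
    rw [sub_im]
    exact sub_ne_zero.2 (hx i)
  have e2 : ∏ j, (Rw (b j) (z + 3 * l - y j) * Pw (b j) (z - y j)) = ∏ j, Ty (b j) (z - y j) := by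
    refine Finset.prod_congr rfl fun j _ => ?_
    rw [show z + 3 * l - y j = z - y j + 3 * l by ring]
    exact Rw_Pw _ _
  have n1 : sin (z - p + 3 * l) ≠ 0 := sin_ne_im (by simpa using sub_ne_zero.2 hp)
  have n2 : sin (z - q - 2 * l) ≠ 0 := sin_ne_im (by simpa using sub_ne_zero.2 hq)
  have e3 : sin (z + 3 * l - q + 3 * l) = -sin (z - q - 2 * l) := by
    rw [← sin_add8]
    congr 1
    ring
  unfold Psi Xc
  rw [e1, e2, e3]
  unfold kap
  rw [show z + 3 * l - p = z - p + 3 * l by ring, show z - p + 3 * l - 2 * l = z - p + l by ring]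
  generalize sin (z - p + 3 * l) = s1 at n1 ⊢
  generalize sin (z - q - 2 * l) = s2 at n2 ⊢
  field_simp

theorem LI_capt (p q : ℂ) (x : Fin m → ℂ) (y : Fin M → ℂ) (a : Fin m → SignType)
    (b : Fin M → SignType) (s : ℝ) :
    LI s (fun z => Psi p q x y a b (z + 3 * l) z) = LI s (Xc p q y b) := by
  refine NUP1.LI_congr ?_
  have h := ((Set.finite_range fun i => (x i).im).insert q.im |>.insert p.im).countable.ae_notMem
    (volume : Measure ℝ)
  filter_upwards [h] with t ht
  simp only [Set.mem_insert_iff, Set.mem_range, not_or, not_exists] at ht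
  refine Psi_capt p q x y a b ?_ ?_ fun i => ?_
  · rw [vlim]; exact ht.1
  · rw [vlim]; exact ht.2.1
  · rw [vlim]; exact fun h => ht.2.2 i h.symm

theorem gr_Ty (s : SignType) (y : ℂ) : Gr α β 0 fun z => Ty s (z - y) := by
  cases s
  · have h := ((Gr.sin (α := α) (β := β) (y + l)).mul (Gr.sin (y - 2 * l))).mul
      ((Gr.inv_sin y).mul (Gr.inv_sin (y - l)))
    refine (h.congr (g := fun z => Ty .zero (z - y)) 0 fun z _ _ _ => ?_).mono (le_of_eq ?_)
    · show sin (z - y - l) * sin (z - y + 2 * l) / (sin (z - y) * sin (z - y + l)) = _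
      rw [show z - (y + l) = z - y - l by ring, show z - (y - 2 * l) = z - y + 2 * l by ring,
        show z - (y - l) = z - y + l by ring, div_eq_mul_inv, mul_inv]
    · norm_num
  · have h := ((Gr.sin (α := α) (β := β) (y - 3 * l)).mul (Gr.inv_sin (y - l))).cmul (-1)
    refine (h.congr (g := fun z => Ty .neg (z - y)) 0 fun z _ _ _ => ?_).mono (le_of_eq ?_)
    · show -sin (z - y + 3 * l) / sin (z - y + l) = _
      rw [show z - (y - 3 * l) = z - y + 3 * l by ring, show z - (y - l) = z - y + l by ring,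
        div_eq_mul_inv]
      ring
    · norm_num
  · have h := ((Gr.sin (α := α) (β := β) (y + 2 * l)).mul (Gr.inv_sin y)).cmul (-1)
    refine (h.congr (g := fun z => Ty .pos (z - y)) 0 fun z _ _ _ => ?_).mono (le_of_eq ?_)
    · show -sin (z - y - 2 * l) / sin (z - y) = _
      rw [show z - (y + 2 * l) = z - y - 2 * l by ring, div_eq_mul_inv]
      ring
    · norm_num

theorem gr_Xc (p q : ℂ) (y : Fin M → ℂ) (b : Fin M → SignType) : Gr α β (-2) (Xc p q y b) := by
  have h1 := ((Gr.inv_sin (α := α) (β := β) (p - l)).mul (Gr.inv_sin q)).cmul (-sin (2 * l) ^ 2)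
  have h2 := Gr.finProd (α := α) (β := β) (fun j z => Ty (b j) (z - y j)) (fun _ => (0 : ℝ))
    fun j => gr_Ty _ _
  refine ((h1.mul h2).congr (g := Xc p q y b) 0 fun z _ _ _ => ?_).mono (le_of_eq ?_)
  · unfold Xc
    rw [show z - (p - l) = z - p + l by ring, div_eq_mul_inv, mul_inv]
  · simp only [Finset.sum_const_zero]
    norm_num

theorem Xc_diff {p q z : ℂ} {y : Fin M → ℂ} (b : Fin M → SignType) (hp : |p.re| ≤ l / 2)
    (hq : |q.re| ≤ l / 2) (hy : ∀ j, |(y j).re| ≤ l / 2) (h1 : -(9 / 2 * l) < z.re)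
    (h2 : z.re < -(3 / 2 * l)) : DifferentiableAt ℂ (Xc p q y b) z := by
  have hl := lpos
  have key : ∀ u : ℂ, |u.re| ≤ l / 2 → sin (z - u) ≠ 0 ∧ sin (z - u + l) ≠ 0 := by
    intro u hu
    obtain ⟨u1, u2⟩ := abs_le.1 hu
    constructor
    · refine sin_ne_re' ?_ ?_ ?_
      · simp; linarith
      · simp; linarith
      · have : (z - u).re < 0 := by simp; linarith
        exact this.ne
    · refine sin_ne_re' ?_ ?_ ?_
      · simp; linarith
      · simp; linarith
      · have : (z - u + l).re < 0 := by simp; linarith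
        exact this.ne
  obtain ⟨-, p2⟩ := key p hp
  obtain ⟨q1, -⟩ := key q hq
  unfold Xc
  refine DifferentiableAt.mul ?_ ?_
  · have hne : sin (z - p + l) * sin (z - q) ≠ 0 := mul_ne_zero p2 q1
    fun_prop (disch := exact hne)
  · have := DifferentiableAt.fun_finsetProd (𝕜 := ℂ) (u := Finset.univ)
      (f := fun j z => Ty (b j) (z - y j)) (x := z) (fun j _ => by
        obtain ⟨y1, y2⟩ := key (y j) (hy j)
        have y3 : sin (z - y j) * sin (z - y j + l) ≠ 0 := mul_ne_zero y1 y2
        cases b j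
        · show DifferentiableAt ℂ (fun z => sin (z - y j - l) * sin (z - y j + 2 * l) /
            (sin (z - y j) * sin (z - y j + l))) z
          fun_prop (disch := exact y3)
        · show DifferentiableAt ℂ (fun z => -sin (z - y j + 3 * l) / sin (z - y j + l)) z
          fun_prop (disch := exact y2)
        · show DifferentiableAt ℂ (fun z => -sin (z - y j - 2 * l) / sin (z - y j)) z
          fun_prop (disch := exact y1))
    exact this

theorem Dat.s6 (D : Dat p q x y a b) (hα2 : α < 3 / 2 * l) (hβ : -(9 / 2 * l) < β)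
    (h3 : β < α - 3 * l) :
    LI α (fun w => Psi p q x y a b w (w - 3 * l)) =
      LI β (fun z => Psi p q x y a b (z + 3 * l) z) := by
  have hl := lpos
  have e1 : LI α (fun w => Psi p q x y a b w (w - 3 * l)) =
      LI (α - 3 * l) (fun z => Psi p q x y a b (z + 3 * l) z) := by
    unfold LI
    congr 1
    refine integral_congr_ae (Filter.Eventually.of_forall fun t => ?_)
    simp only
    have e : vl α t = vl (α - 3 * l) t + 3 * l := by
      unfold vl
      push_cast
      ring
    rw [e, add_sub_cancel_right]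
  have hd : ∀ z : ℂ, β ≤ z.re → z.re ≤ α - 3 * l → DifferentiableAt ℂ (Xc p q y b) z :=
    fun z h1 h2 => Xc_diff b D.hp D.hq D.hy (by linarith) (by linarith)
  obtain ⟨C, R, hC, hb⟩ := gr_Xc (α := α - 3 * l) (β := β) p q y b
  rw [e1, LI_capt, LI_capt]
  exact LI_shift h3.le (Xc p q y b)
    (fun z hz => (hd z hz.1 hz.2).continuousAt.continuousWithinAt)
    (fun z hz => (hd z hz.1.le hz.2.le).differentiableWithinAt)
    ⟨C, 2, R, by norm_num, fun z h1 h2 h3 => hb z h1 h2 h3⟩

/-! ### the double residue -/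

/-- the data of a state from distinct heights -/
theorem Dat.of_im (hp : |p.re| ≤ l / 2) (hq : |q.re| ≤ l / 2) (hx : ∀ i, |(x i).re| ≤ l / 2)
    (hy : ∀ j, |(y j).re| ≤ l / 2) (hn : ∑ i, nq (a i) + M = ∑ j, nq (b j) + m)
    (ipx : ∀ i, p.im ≠ (x i).im) (ix : ∀ i j, i ≠ j → (x i).im ≠ (x j).im)
    (iqy : ∀ j, q.im ≠ (y j).im) (iy : ∀ i j, i ≠ j → (y i).im ≠ (y j).im) :
    Dat p q x y a b :=
  ⟨hp, hq, hx, hy, hn, (mkp_inj a ipx ix).injOn, (mkp_inj b iqy iy).injOn⟩

/-- **The double residue of the two half quanta for a fixed state of the rows.** -/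
theorem mark2 (D : Dat p q x y a b) (hα1 : 1 / 2 * l < α) (hα2 : α < 3 / 2 * l)
    (hβ1 : -(9 / 2 * l) < β) (hβ2 : β < -(3 / 2 * l)) (h3 : 3 * l < α - β)
    (h5 : α - β < 5 * l) :
    ∑ μ, ∑ ν, mkw p q x a y b μ * mkw q p y b x a ν * Dk (mkp p x a μ - mkp q y b ν) =
      LI α (fun w => LI α (Phi p q x y a b w) - LI β (Phi p q x y a b w)) -
        LI β (fun w => LI α (Phi p q x y a b w) - LI β (Phi p q x y a b w)) -
      sin l / sin (2 * l) * (LI β (fun z => Psi p q x y a b (z + 3 * l) z) +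
        LI β (fun z => Psi p q x y a b z (z + 3 * l))) := by
  have hl := lpos
  obtain ⟨γ, hγ1, hγ2⟩ : ∃ γ : ℝ, α - 3 * l < γ ∧ γ < -(3 / 2 * l) :=
    exists_between (by linarith)
  have gα : Gl α := ⟨by linarith, hα2, Or.inr hα1⟩
  have gβ : Gl β := ⟨hβ1, by linarith, Or.inl hβ2⟩
  have gγ : Gl γ := ⟨by linarith, by linarith, Or.inl hγ2⟩
  have a0 : ∀ s : ℝ, |s - s| < 5 * l ∧ |s - s| ≠ 3 * l := fun s => by
    rw [sub_self, abs_zero]
    constructor
    · positivity
    · exact (by positivity : (0 : ℝ) < 3 * l).ne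
  have aαβ : |α - β| < 5 * l ∧ |α - β| ≠ 3 * l := by
    rw [abs_of_pos (by linarith)]
    exact ⟨h5, h3.ne'⟩
  have aβα : |β - α| < 5 * l ∧ |β - α| ≠ 3 * l := by rwa [abs_sub_comm]
  have aαγ : |α - γ| < 5 * l ∧ |α - γ| ≠ 3 * l := by
    have : |α - γ| < 3 * l := by rw [abs_lt]; constructor <;> linarith
    exact ⟨by linarith, this.ne⟩
  have aγα : |γ - α| < 5 * l ∧ |γ - α| ≠ 3 * l := by rwa [abs_sub_comm]
  have aβγ : |β - γ| < 5 * l ∧ |β - γ| ≠ 3 * l := by
    have : |β - γ| < 3 * l := by rw [abs_lt]; constructor <;> linarith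
    exact ⟨by linarith, this.ne⟩
  have aγβ : |γ - β| < 5 * l ∧ |γ - β| ≠ 3 * l := by rwa [abs_sub_comm]
  -- four pairs of lines
  have split : ∀ {s t : ℝ}, Gl s → Gl t → (|s - t| < 5 * l ∧ |s - t| ≠ 3 * l) →
      LI s (fun w => LI s (Phi p q x y a b w) - LI t (Phi p q x y a b w)) =
        LI s (fun w => LI s (Phi p q x y a b w)) - LI s (fun w => LI t (Phi p q x y a b w)) :=
    fun {s t} hs ht h => NUP1.LI_sub (D.outer hs hs (a0 s).1 (a0 s).2) (D.outer hs ht h.1 h.2)
  have split' : ∀ {s t : ℝ}, Gl s → Gl t → (|s - t| < 5 * l ∧ |s - t| ≠ 3 * l) →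
      LI s (fun w => LI t (Phi p q x y a b w) - LI s (Phi p q x y a b w)) =
        LI s (fun w => LI t (Phi p q x y a b w)) - LI s (fun w => LI s (Phi p q x y a b w)) :=
    fun {s t} hs ht h => NUP1.LI_sub (D.outer hs ht h.1 h.2) (D.outer hs hs (a0 s).1 (a0 s).2)
  -- the pole of the mutual factor
  have cap : ∀ {m M : ℕ} {p q : ℂ} {x : Fin m → ℂ} {y : Fin M → ℂ} {a : Fin m → SignType}
      {b : Fin M → SignType}, Dat p q x y a b →
      LI α (fun w => LI γ (Phi p q x y a b w)) = LI α (fun w => LI β (Phi p q x y a b w)) +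
        sin l / sin (2 * l) * LI β (fun z => Psi p q x y a b (z + 3 * l) z) := by
    intro m M p q x y a b D
    have e1 : LI α (fun w => LI γ (Phi p q x y a b w) - LI β (Phi p q x y a b w)) =
        LI α (fun w => sin l / sin (2 * l) * Psi p q x y a b w (w - 3 * l)) :=
      LI_congr fun t => by
        rw [D.s3 (vl α t) (vlre _ _) hα1 hα2 hβ1 h5 (by linarith) hγ1 hγ2]
        ring
    rw [NUP1.LI_sub (D.outer gα gγ aαγ.1 aαγ.2) (D.outer gα gβ aαβ.1 aαβ.2), LI_cmul,
      D.s6 hα2 hβ1 (by linarith)] at e1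
    rw [← e1]
    ring
  have m1 : LI γ (fun w => LI α (Phi p q x y a b w)) = LI β (fun w => LI α (Phi p q x y a b w)) +
      sin l / sin (2 * l) * LI β (fun z => Psi p q x y a b z (z + 3 * l)) := by
    rw [D.swap gγ gα aγα.1 aγα.2, cap D.symm, D.swap gβ gα aβα.1 aβα.2]
    simp_rw [Psi_symm p q x y a b]
  have m2 : LI γ (fun w => LI γ (Phi p q x y a b w)) = LI β (fun w => LI β (Phi p q x y a b w)) := by
    have e1 : LI γ (fun w => LI γ (Phi p q x y a b w)) = LI γ (fun w => LI β (Phi p q x y a b w)) :=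
      LI_congr fun t => D.s5 (vl γ t) hβ1 (by linarith) hγ2 (by rw [vlre]; linarith)
        (by rw [vlre]; linarith)
    have e2 : LI β (fun w => LI γ (Phi q p y x b a w)) = LI β (fun w => LI β (Phi q p y x b a w)) :=
      LI_congr fun t => D.symm.s5 (vl β t) hβ1 (by linarith) hγ2 (by rw [vlre]; linarith)
        (by rw [vlre]; linarith)
    rw [e1, D.swap gγ gβ aγβ.1 aγβ.2, e2, D.symm.swap gβ gβ (a0 β).1 (a0 β).2]
  rw [D.s2 hα1 hα2 (by linarith : -(9 / 2 * l) < γ) hγ2 (by linarith), split gα gγ aαγ,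
    split' gγ gα aγα, split gα gβ aαβ, split' gβ gα aβα, cap D, m1, m2]
  ring

end NUP1.Leg

end
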