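import Pool.Agent.NUP1L.FinalB
import Pool.Agent.NUP1L.Mark4

/-!
# The half quanta as spectators of the quanta

For fixed places of the half quanta the state sum is a state sum whose one body functions carry the
factors `Ck`, `Dk` (two half quanta) or `Tk` (captured pair).
-/

set_option autoImplicit false

noncomputable section

open Complex MeasureTheory Finset

namespace NUP1.N

open Leg (Ck Dk Pw Rw kap Psi Phi Xc Ty)

variable {m M : ℕ}

/-! ### one row -/

theorem Pw_sp (s : SignType) {w x : ℂ} (h : w.im ≠ x.im) :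
    Pw s (w - x) = 1 / sin (w - x) * ((qu s x).map fun u => Ck (w - u)).prod := by
  have h' : ∀ c : ℝ, sin (w - x + c) ≠ 0 := fun c =>
    sin_ne_im (by simpa using sub_ne_zero.2 h)
  have n0 : sin (w - x) ≠ 0 := by simpa using h' 0
  have n1 : sin (w - x + l) ≠ 0 := h' l
  have n2 : sin (w - x + 2 * l) ≠ 0 := by simpa using h' (2 * l)
  cases s
  · simp only [qu, List.map_cons, List.map_nil, List.prod_cons, List.prod_nil, mul_one]
    show sin (w - x + 2 * l) / sin (w - x + l) = 1 / sin (w - x) *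
      (sin (w - x) * sin (w - x + 2 * l) / sin (w - x + l))
    field_simp
  · simp only [qu, List.map_cons, List.map_nil, List.prod_cons, List.prod_nil, mul_one]
    rw [show Pw .neg (w - x) = sin (w - x + 3 * l) from rfl]
    unfold Leg.Ck
    rw [show w - (x - l) = w - x + l by ring, show w - x + l + 2 * l = w - x + 3 * l by ring,
      show w - x + l + (l : ℂ) = w - x + 2 * l by ring]
    generalize sin (w - x) = s0 at *
    generalize sin (w - x + l) = s1 at *
    generalize sin (w - x + 2 * l) = s2 at *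
    field_simp
  · simp [qu, Pw]

theorem cos_add1 (z : ℂ) : cos (z + l) = sin (3 * l - z) := by
  rw [← Leg.sin_add4, ← Leg.sin_shift8 (3 * l - z)]
  congr 1
  ring

theorem Rw_sp (s : SignType) {w y : ℂ} (h : w.im ≠ y.im) :
    Rw s (w - y) = sin (w - y + 3 * l) * ((qu s y).map fun v => Dk (w - v)).prod := by
  have h' : ∀ c : ℝ, sin (w - y + c) ≠ 0 := fun c =>
    sin_ne_im (by simpa using sub_ne_zero.2 h)
  have h'' : ∀ c : ℝ, sin (c - (w - y)) ≠ 0 := fun c =>
    sin_ne_im (by simpa using sub_ne_zero.2 h.symm)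
  have n3 : sin (w - y + 3 * l) ≠ 0 := by simpa using h' (3 * l)
  have n4 : cos (w - y) ≠ 0 := by
    rw [← Leg.sin_add4]
    simpa using h' (4 * l)
  have m3 : sin (3 * l - (w - y)) ≠ 0 := by simpa using h'' (3 * l)
  have m2 : sin (2 * l - (w - y)) ≠ 0 := by simpa using h'' (2 * l)
  cases s
  · simp only [qu, List.map_cons, List.map_nil, List.prod_cons, List.prod_nil, mul_one]
    rw [show Rw .zero (w - y) = cos (w - y) / sin (3 * l - (w - y)) from rfl]
    unfold Leg.Dk
    rw [show 3 * (l : ℂ) + (w - y) = w - y + 3 * l by ring]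
    generalize sin (w - y + 3 * l) = s3 at *
    generalize sin (3 * l - (w - y)) = t3 at *
    generalize cos (w - y) = c at *
    field_simp
  · simp only [qu, List.map_cons, List.map_nil, List.prod_cons, List.prod_nil, mul_one]
    rw [show Rw .neg (w - y) = 1 / sin (2 * l - (w - y)) from rfl]
    unfold Leg.Dk
    rw [show w - (y - l) = w - y + l by ring, cos_add1,
      show 3 * (l : ℂ) - (w - y + l) = 2 * l - (w - y) by ring,
      show 3 * (l : ℂ) + (w - y + l) = w - y + 4 * l by ring, Leg.sin_add4,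
      show 3 * (l : ℂ) + (w - y) = w - y + 3 * l by ring]
    generalize sin (w - y + 3 * l) = s3 at *
    generalize sin (3 * l - (w - y)) = t3 at *
    generalize sin (2 * l - (w - y)) = t2 at *
    generalize cos (w - y) = c at *
    field_simp
  · simp [qu, Rw]

theorem Ty_sp (s : SignType) {z y : ℂ} (h : z.im ≠ y.im) :
    Ty s (z - y) = -sin (z - y - 2 * l) / sin (z - y) * ((qu s y).map fun v => Tk (z - v)).prod := by
  have h' : ∀ c : ℝ, sin (z - y + c) ≠ 0 := fun c =>
    sin_ne_im (by simpa using sub_ne_zero.2 h)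
  have n0 : sin (z - y) ≠ 0 := by simpa using h' 0
  have n1 : sin (z - y + l) ≠ 0 := h' l
  have n2 : sin (z - y + 2 * l) ≠ 0 := by simpa using h' (2 * l)
  have n5 : sin (z - y - 2 * l) ≠ 0 := by simpa [sub_eq_add_neg] using h' (-(2 * l))
  have n6 : sin (z - y - l) ≠ 0 := by simpa [sub_eq_add_neg] using h' (-l)
  have e2 : sin (2 * l - (z - y)) = -sin (z - y - 2 * l) := by
    rw [← Complex.sin_neg]
    congr 1
    ring
  cases s
  · simp only [qu, List.map_cons, List.map_nil, List.prod_cons, List.prod_nil, mul_one]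
    rw [show Ty .zero (z - y) = sin (z - y - l) * sin (z - y + 2 * l) /
      (sin (z - y) * sin (z - y + l)) from rfl]
    unfold Tk
    rw [e2]
    generalize sin (z - y) = s0 at *
    generalize sin (z - y + l) = s1 at *
    generalize sin (z - y + 2 * l) = s2 at *
    generalize sin (z - y - 2 * l) = t2 at *
    generalize sin (z - y - l) = t1 at *
    field_simp
  · have e1 : sin (2 * l - (z - y + l)) = -sin (z - y - l) := by
      rw [← Complex.sin_neg]
      congr 1
      ring
    simp only [qu, List.map_cons, List.map_nil, List.prod_cons, List.prod_nil, mul_one]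
    rw [show Ty .neg (z - y) = -sin (z - y + 3 * l) / sin (z - y + l) from rfl]
    unfold Tk
    rw [show z - (y - l) = z - y + l by ring, e1, e2, show z - y + l - (l : ℂ) = z - y by ring,
      show z - y + l + 2 * (l : ℂ) = z - y + 3 * l by ring,
      show z - y + l + (l : ℂ) = z - y + 2 * l by ring]
    generalize sin (z - y) = s0 at *
    generalize sin (z - y + l) = s1 at *
    generalize sin (z - y + 2 * l) = s2 at *
    generalize sin (z - y - 2 * l) = t2 at *
    generalize sin (z - y - l) = t1 at *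
    field_simp
  · simp [qu, Leg.Ty]

/-! ### all rows -/

theorem Psi_sp (p q : ℂ) {x : Fin m → ℂ} {y : Fin M → ℂ} (a : Fin m → SignType)
    (b : Fin M → SignType) {w w' : ℂ} (h1 : ∀ i, w.im ≠ (x i).im) (h2 : ∀ j, w.im ≠ (y j).im)
    (h3 : ∀ i, w'.im ≠ (x i).im) (h4 : ∀ j, w'.im ≠ (y j).im) :
    Psi p q x y a b w w' = (pr1 p q x y w * pr1 q p y x w') *
      (∏ i, ((qu (a i) (x i)).map fun u => Ck (w - u) * Dk (w' - u)).prod) *
      ∏ j, ((qu (b j) (y j)).map fun v => Dk (w - v) * Ck (w' - v)).prod := by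
  have e1 : ∏ i, (Pw (a i) (w - x i) * Rw (a i) (w' - x i)) = rA x w * rB x w' *
      ∏ i, ((qu (a i) (x i)).map fun u => Ck (w - u) * Dk (w' - u)).prod := by
    unfold rA rB
    rw [← Finset.prod_mul_distrib, ← Finset.prod_mul_distrib]
    refine Finset.prod_congr rfl fun i _ => ?_
    rw [Pw_sp _ (h1 i), Rw_sp _ (h3 i), List.prod_map_mul]
    ring
  have e2 : ∏ j, (Rw (b j) (w - y j) * Pw (b j) (w' - y j)) = rB y w * rA y w' *
      ∏ j, ((qu (b j) (y j)).map fun v => Dk (w - v) * Ck (w' - v)).prod := by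
    unfold rA rB
    rw [← Finset.prod_mul_distrib, ← Finset.prod_mul_distrib]
    refine Finset.prod_congr rfl fun j _ => ?_
    rw [Rw_sp _ (h2 j), Pw_sp _ (h4 j), List.prod_map_mul]
    ring
  unfold Leg.Psi pr1 prc
  rw [e1, e2]
  ring

/-- prefactor of a captured pair -/
def X0 {M : ℕ} (p q : ℂ) (y : Fin M → ℂ) (z : ℂ) : ℂ :=
  -sin (2 * l) ^ 2 / (sin (z - p + l) * sin (z - q)) * ∏ j, (-sin (z - y j - 2 * l) / sin (z - y j))

theorem Xc_sp (p q : ℂ) {y : Fin M → ℂ} (b : Fin M → SignType) {z : ℂ}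
    (h : ∀ j, z.im ≠ (y j).im) :
    Xc p q y b z = X0 p q y z * ∏ j, ((qu (b j) (y j)).map fun v => Tk (z - v)).prod := by
  unfold Leg.Xc X0
  rw [mul_assoc, ← Finset.prod_mul_distrib]
  congr 1
  exact Finset.prod_congr rfl fun j _ => Ty_sp _ (h j)

/-! ### the state sums -/

/-- **(i)** the two half quanta on their lines -/
theorem SS_spec (p q : ℂ) {x : Fin m → ℂ} {y : Fin M → ℂ} (hX hY : ℂ → ℂ) (n n' : ℕ) {w w' : ℂ}
    (h1 : ∀ i, w.im ≠ (x i).im) (h2 : ∀ j, w.im ≠ (y j).im) (h3 : ∀ i, w'.im ≠ (x i).im)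
    (h4 : ∀ j, w'.im ≠ (y j).im) :
    ∑ a ∈ St m n, ∑ b ∈ St M n', sta x hX a * sta y hY b * crq x y a b *
      Phi p q x y a b w w' =
      Dk (w - w') * (pr1 p q x y w * pr1 q p y x w') * SP x y hX hY n n' w w' := by
  unfold SP
  rw [Finset.mul_sum]
  refine Finset.sum_congr rfl fun a _ => ?_
  rw [Finset.mul_sum]
  refine Finset.sum_congr rfl fun b _ => ?_
  rw [sta_mul, sta_mul]
  unfold Leg.Phi
  rw [Psi_sp p q a b h1 h2 h3 h4]
  ring

/-- **(ii)** the captured pair, second half quantum at `z` -/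
theorem SL_spec (p q : ℂ) {x : Fin m → ℂ} {y : Fin M → ℂ} (hX hY : ℂ → ℂ) (n n' : ℕ) {z : ℂ}
    (hp : z.im ≠ p.im) (hq : z.im ≠ q.im) (h1 : ∀ i, z.im ≠ (x i).im)
    (h2 : ∀ j, z.im ≠ (y j).im) :
    ∑ a ∈ St m n, ∑ b ∈ St M n', sta x hX a * sta y hY b * crq x y a b *
      Psi p q x y a b (z + 3 * l) z =
      X0 p q y z * ∑ a ∈ St m n, ∑ b ∈ St M n', sta x hX a *
        sta y (fun v => hY v * Tk (z - v)) b * crq x y a b := by
  rw [Finset.mul_sum]
  refine Finset.sum_congr rfl fun a _ => ?_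
  rw [Finset.mul_sum]
  refine Finset.sum_congr rfl fun b _ => ?_
  rw [sta_mul, Leg.Psi_capt p q x y a b hp hq h1, Xc_sp p q b h2]
  ring

/-- **(iii)** the captured pair, first half quantum at `z` -/
theorem SR_spec (p q : ℂ) {x : Fin m → ℂ} {y : Fin M → ℂ} (hX hY : ℂ → ℂ) (n n' : ℕ) {z : ℂ}
    (hp : z.im ≠ p.im) (hq : z.im ≠ q.im) (h1 : ∀ i, z.im ≠ (x i).im)
    (h2 : ∀ j, z.im ≠ (y j).im) :
    ∑ a ∈ St m n, ∑ b ∈ St M n', sta x hX a * sta y hY b * crq x y a b *
      Psi p q x y a b z (z + 3 * l) =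
      X0 q p x z * ∑ a ∈ St m n, ∑ b ∈ St M n', sta x (fun u => hX u * Tk (z - u)) a *
        sta y hY b * crq x y a b := by
  rw [Finset.mul_sum]
  refine Finset.sum_congr rfl fun a _ => ?_
  rw [Finset.mul_sum]
  refine Finset.sum_congr rfl fun b _ => ?_
  rw [sta_mul, Leg.Psi_symm, Leg.Psi_capt q p y x b a hq hp h2, Xc_sp q p a h1]
  ring

end NUP1.N

end
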