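import Pool.Agent.NUP1L.Mark4
import Pool.Agent.NUTP.Bridge
import Pool.Agent.NUTP.Gas.Base

/-!
# The gas of the two-point functions and the half quanta: tables

`bs s` = state of a full line of charge `s`, `mkd s` = the same line marked.
-/

set_option autoImplicit false
set_option linter.unusedSectionVars false
set_option linter.unusedSimpArgs false

noncomputable section

open Complex

namespace NUP1.Leg

open NUTP (sn th ea lam cs)
open NUTP.Gas (ff ef gg xf xx w1)

/-- state of a full line -/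
def bs : SignType → NUTP.Gas.K
  | .pos => .p
  | .zero => .z
  | .neg => .n

/-- marked full line (`neg` has no mark) -/
def mkd : SignType → NUTP.Gas.K
  | .pos => .a
  | .zero => .b
  | .neg => .n

theorem th8 : th ^ 8 = -1 := NUTP.th8

theorem lam_eq : (lam : ℂ) = (l : ℂ) := rfl

theorem snz (k : ℕ) (z : ℂ) : sn th k (ea z) = sin (z + k * l) := NUTP.sn_ea k z

theorem e_m1 (z : ℂ) : sin (z - l) = -sn th 7 (ea z) := by
  rw [snz, show z + ((7 : ℕ) : ℂ) * l = z - l + 8 * l by push_cast; ring, sin_add8, neg_neg]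

/-- all differences of two lines are generic -/
def Gz (z : ℂ) : Prop := ∀ k : ℕ, sin (z + k * l) ≠ 0

theorem Gz.ne {z : ℂ} (h : Gz z) (k : ℕ) : sn th k (ea z) ≠ 0 := by
  rw [snz]
  exact h k

theorem Gz.neg {z : ℂ} (h : Gz z) : Gz (-z) := by
  intro k h0
  refine h (7 * k) ?_
  rw [Complex.sin_eq_zero_iff] at h0 ⊢
  obtain ⟨n, hn⟩ := h0
  refine ⟨k - n, ?_⟩
  rw [pi_eq] at hn ⊢
  push_cast at hn ⊢
  linear_combination -hn

/-! ### the factors in terms of `sn` -/

theorem z0 (z : ℂ) : sin z = sn th 0 (ea z) := by rw [snz]; simp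
theorem z1 (z : ℂ) : sin (z + l) = sn th 1 (ea z) := by rw [snz]; simp
theorem z2 (z : ℂ) : sin (z + 2 * l) = sn th 2 (ea z) := by rw [snz]; simp
theorem z3 (z : ℂ) : sin (z + 3 * l) = sn th 3 (ea z) := by rw [snz]; simp
theorem z4 (z : ℂ) : cos z = sn th 4 (ea z) := by rw [snz, ← sin_add4]; simp
theorem z5 (z : ℂ) : sin (3 * l - z) = sn th 5 (ea z) := by
  rw [snz, ← sin_shift8]
  congr 1
  push_cast
  ring
theorem z6 (z : ℂ) : sin (2 * l - z) = sn th 6 (ea z) := by
  rw [snz, ← sin_shift8]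
  congr 1
  push_cast
  ring
theorem z7 (z : ℂ) : sin (l - z) = sn th 7 (ea z) := by
  rw [snz, ← sin_shift8]
  congr 1
  push_cast
  ring
theorem m1 (z : ℂ) : sin (z - l) = -sn th 7 (ea z) := e_m1 z
theorem m2 (z : ℂ) : sin (z - 2 * l) = -sn th 6 (ea z) := by
  rw [← z6, ← Complex.sin_neg]
  congr 1
  ring
theorem m3 (z : ℂ) : sin (z - 3 * l) = -sn th 5 (ea z) := by
  rw [← z5, ← Complex.sin_neg]
  congr 1
  ring

/-! ### `Pw` and `Rw` at `z` and at `z - l` -/

theorem Pw0 (t : SignType) (z : ℂ) : Pw t z = match t with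
    | .pos => 1 / sn th 0 (ea z)
    | .zero => sn th 2 (ea z) / sn th 1 (ea z)
    | .neg => sn th 3 (ea z) := by
  cases t
  · show sin (z + 2 * l) / sin (z + l) = _
    rw [z2, z1]
  · show sin (z + 3 * l) = _
    rw [z3]
  · show 1 / sin z = _
    rw [z0]

theorem Pw1 (t : SignType) (z : ℂ) : Pw t (z - l) = match t with
    | .pos => -(1 / sn th 7 (ea z))
    | .zero => sn th 1 (ea z) / sn th 0 (ea z)
    | .neg => sn th 2 (ea z) := by
  cases t
  · show sin (z - l + 2 * l) / sin (z - l + l) = _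
    rw [show z - (l : ℂ) + 2 * l = z + l by ring, show z - (l : ℂ) + l = z by ring, z1, z0]
  · show sin (z - l + 3 * l) = _
    rw [show z - (l : ℂ) + 3 * l = z + 2 * l by ring, z2]
  · show 1 / sin (z - l) = _
    rw [m1, one_div, inv_neg, one_div]

theorem Rw0 (t : SignType) (z : ℂ) : Rw t z = match t with
    | .pos => sn th 3 (ea z)
    | .zero => sn th 4 (ea z) / sn th 5 (ea z)
    | .neg => 1 / sn th 6 (ea z) := by
  cases t
  · show cos z / sin (3 * l - z) = _
    rw [z4, z5]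
  · show 1 / sin (2 * l - z) = _
    rw [z6]
  · show sin (z + 3 * l) = _
    rw [z3]

theorem Rw1 (t : SignType) (z : ℂ) : Rw t (z - l) = match t with
    | .pos => sn th 2 (ea z)
    | .zero => sn th 3 (ea z) / sn th 4 (ea z)
    | .neg => 1 / sn th 5 (ea z) := by
  cases t
  · show cos (z - l) / sin (3 * l - (z - l)) = _
    have e1 : cos (z - l) = sn th 3 (ea z) := by
      rw [← sin_add4, ← z3]
      congr 1
      ring
    have e2 : sin (3 * l - (z - l)) = sn th 4 (ea z) := by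
      rw [← z4, ← sin_add4, ← sin_shift8]
      congr 1
      ring
    rw [e1, e2]
  · show 1 / sin (2 * l - (z - l)) = _
    rw [show 2 * (l : ℂ) - (z - l) = 3 * l - z by ring, z5]
  · show sin (z - l + 3 * l) = _
    rw [show z - (l : ℂ) + 3 * l = z + 2 * l by ring, z2]

/-- `sn` of the inverse line -/
theorem sni (z : ℂ) : sn th 0 (ea (-z)) = -sn th 0 (ea z) ∧ sn th 1 (ea (-z)) = sn th 7 (ea z) ∧
    sn th 2 (ea (-z)) = sn th 6 (ea z) ∧ sn th 3 (ea (-z)) = sn th 5 (ea z) ∧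
    sn th 4 (ea (-z)) = sn th 4 (ea z) ∧ sn th 5 (ea (-z)) = sn th 3 (ea z) ∧
    sn th 6 (ea (-z)) = sn th 2 (ea z) ∧ sn th 7 (ea (-z)) = sn th 1 (ea z) := by
  rw [NUTP.ea_neg]
  exact ⟨NUTP.Gas.sn_inv0 th8 _, NUTP.Gas.sn_inv1 th8 _, NUTP.Gas.sn_inv2 th8 _,
    NUTP.Gas.sn_inv3 th8 _, NUTP.Gas.sn_inv4 th8 _, NUTP.Gas.sn_inv5 th8 _,
    NUTP.Gas.sn_inv6 th8 _, NUTP.Gas.sn_inv7 th8 _⟩

theorem mpl_pos (z : ℂ) : mpl .pos z = z := rfl
theorem mpl_zero (z : ℂ) : mpl .zero z = z - l := rfl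
theorem mpl_neg (z : ℂ) : mpl .neg z = z := rfl

theorem mpl_sub (s : SignType) (z w : ℂ) : mpl s z - w = mpl s (z - w) := by
  cases s
  · show z - l - w = z - w - l
    ring
  · rfl
  · rfl

/-! ### own world -/

/-- marked full line and full line -/
theorem t1 {s : SignType} (hs : s ≠ .neg) (t : SignType) {z : ℂ} (hz : Gz z) :
    ff th (mkd s) (bs t) (ea z) = ff th (bs s) (bs t) (ea z) * Pw t (mpl s z) := by
  have n0 := hz.ne 0
  have n1 := hz.ne 1
  have n7 := hz.ne 7
  rcases s with _ | _ | _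
  · show ff th .b (bs t) (ea z) = ff th .z (bs t) (ea z) * Pw t (z - l)
    rw [Pw1]
    rcases t with _ | _ | _ <;> simp only [bs, ff] <;> field_simp
  · exact absurd rfl hs
  · show ff th .a (bs t) (ea z) = ff th .p (bs t) (ea z) * Pw t z
    rw [Pw0]
    rcases t with _ | _ | _ <;> simp only [bs, ff] <;> field_simp

/-- full line and marked full line -/
theorem t1' {s : SignType} (hs : s ≠ .neg) (t : SignType) {z : ℂ} (hz : Gz z) :
    ff th (bs t) (mkd s) (ea z) = ff th (bs t) (bs s) (ea z) * Pw t (mpl s (-z)) := by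
  have n0 := hz.ne 0
  have n1 := hz.ne 1
  have n7 := hz.ne 7
  obtain ⟨i0, i1, i2, i3, i4, i5, i6, i7⟩ := sni z
  rcases s with _ | _ | _
  · show ff th (bs t) .b (ea z) = ff th (bs t) .z (ea z) * Pw t (-z - l)
    rw [Pw1]
    rcases t with _ | _ | _ <;> simp only [bs, ff, i0, i1, i2, i3, i4, i5, i6, i7] <;> field_simp
  · exact absurd rfl hs
  · show ff th (bs t) .a (ea z) = ff th (bs t) .p (ea z) * Pw t (-z)
    rw [Pw0]
    rcases t with _ | _ | _ <;> simp only [bs, ff, i0, i1, i2, i3, i4, i5, i6, i7] <;> field_simp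

theorem sn21 : sn th 2 1 = sin (2 * l) := by
  rw [← NUTP.ea_zero, snz]
  congr 1
  push_cast
  ring

theorem sn11 : sn th 1 1 = sin l := by
  rw [← NUTP.ea_zero, snz]
  congr 1
  push_cast
  ring

/-- empty end and marked full line, `z` = end - line -/
theorem t2 {s : SignType} (hs : s ≠ .neg) {z : ℂ} (hz : Gz z) :
    ef th .re (mkd s) (ea z) = -(ef th .re (bs s) (ea z) * kap (mpl s (-z))) := by
  have n0 := hz.ne 0
  have n1 := hz.ne 1
  have n2 := hz.ne 2
  have n3 := hz.ne 3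
  obtain ⟨i0, i1, i2, i3, i4, i5, i6, i7⟩ := sni z
  rcases s with _ | _ | _
  · show -(sn th 2 1 / sn th 1 (ea z)) = -(sn th 3 (ea z) * kap (-z - l))
    have e : kap (-z - l) = sn th 2 1 / (sn th 1 (ea z) * sn th 3 (ea z)) := by
      unfold kap
      rw [m1, show -z - (l : ℂ) - 2 * l = -z - 3 * l by ring, m3, i7, i5, sn21, neg_mul_neg]
    rw [e]
    field_simp
  · exact absurd rfl hs
  · show -(sn th 2 1 * sn th 3 (ea z) / sn th 0 (ea z)) =
      -(sn th 2 (ea z) * sn th 3 (ea z) * kap (-z))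
    have e : kap (-z) = sn th 2 1 / (sn th 0 (ea z) * sn th 2 (ea z)) := by
      unfold kap
      rw [z0 (-z), m2, i0, i6, sn21, neg_mul_neg]
    rw [e]
    field_simp

/-- marked empty end and full line -/
theorem t3 (t : SignType) {z : ℂ} (hz : Gz z) :
    ef th .rE (bs t) (ea z) = ef th .re (bs t) (ea z) * Pw t z := by
  have n0 := hz.ne 0
  have n1 := hz.ne 1
  rw [Pw0]
  rcases t with _ | _ | _ <;> simp only [bs, ef] <;> field_simp

/-- occupied end on the left and marked full line -/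
theorem t4 (s : SignType) (u : ℂ) : ef th .ro (NUTP.Gas.mir (mkd s)) u =
    ef th .ro (NUTP.Gas.mir (bs s)) u := by
  rcases s with _ | _ | _ <;> rfl

/-! ### the other world -/

theorem Dk0 (z : ℂ) : Dk z = sn th 4 (ea z) / (sn th 5 (ea z) * sn th 3 (ea z)) := by
  unfold Dk
  rw [z4, z5, add_comm (3 * (l : ℂ)) z, z3]

theorem Dkm (z : ℂ) : Dk (z - l) = sn th 3 (ea z) / (sn th 4 (ea z) * sn th 2 (ea z)) := by
  unfold Dk
  have e1 : cos (z - l) = sn th 3 (ea z) := by
    rw [← sin_add4, ← z3]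
    congr 1
    ring
  have e2 : sin (3 * l - (z - l)) = sn th 4 (ea z) := by
    rw [← z4, ← sin_add4, ← sin_shift8]
    congr 1
    ring
  rw [e1, e2, show 3 * (l : ℂ) + (z - l) = z + 2 * l by ring, z2]

theorem Dkp (z : ℂ) : Dk (z + l) = sn th 5 (ea z) / (sn th 6 (ea z) * sn th 4 (ea z)) := by
  obtain ⟨i0, i1, i2, i3, i4, i5, i6, i7⟩ := sni z
  rw [← Dk_neg, show -(z + (l : ℂ)) = -z - l by ring, Dkm, i3, i4, i2, mul_comm]

/-- marked in the first world -/
theorem t5a {s : SignType} (hs : s ≠ .neg) (t : SignType) {z : ℂ} (hz : Gz z) :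
    gg th (mkd s) (bs t) (ea z) = gg th (bs s) (bs t) (ea z) * Rw t (mpl s z) := by
  have n4 := hz.ne 4
  have n5 := hz.ne 5
  have n6 := hz.ne 6
  rcases s with _ | _ | _
  · show gg th .b (bs t) (ea z) = gg th .z (bs t) (ea z) * Rw t (z - l)
    rw [Rw1]
    rcases t with _ | _ | _ <;> simp only [bs, gg] <;> field_simp
  · exact absurd rfl hs
  · show gg th .a (bs t) (ea z) = gg th .p (bs t) (ea z) * Rw t z
    rw [Rw0]
    rcases t with _ | _ | _ <;> simp only [bs, gg] <;> field_simp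

/-- marked in the second world -/
theorem t5b (s : SignType) {t : SignType} (ht : t ≠ .neg) {z : ℂ} (hz : Gz z) :
    gg th (bs s) (mkd t) (ea z) = gg th (bs s) (bs t) (ea z) * Rw s (mpl t (-z)) := by
  have n2 := hz.ne 2
  have n3 := hz.ne 3
  have n4 := hz.ne 4
  obtain ⟨i0, i1, i2, i3, i4, i5, i6, i7⟩ := sni z
  rcases t with _ | _ | _
  · show gg th (bs s) .b (ea z) = gg th (bs s) .z (ea z) * Rw s (-z - l)
    rw [Rw1]
    rcases s with _ | _ | _ <;> simp only [bs, gg, i0, i1, i2, i3, i4, i5, i6, i7] <;> field_simp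
  · exact absurd rfl ht
  · show gg th (bs s) .a (ea z) = gg th (bs s) .p (ea z) * Rw s (-z)
    rw [Rw0]
    rcases s with _ | _ | _ <;> simp only [bs, gg, i0, i1, i2, i3, i4, i5, i6, i7] <;> field_simp

/-- marked in both worlds -/
theorem t5c {s t : SignType} (hs : s ≠ .neg) (ht : t ≠ .neg) {z : ℂ} (hz : Gz z) (x y : ℂ)
    (hxy : x - y = z) :
    gg th (mkd s) (mkd t) (ea z) = gg th (bs s) (bs t) (ea z) * Rw t (mpl s z) *
      Rw s (mpl t (-z)) * Dk (mpl s x - mpl t y) := by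
  have n2 := hz.ne 2
  have n3 := hz.ne 3
  have n4 := hz.ne 4
  have n5 := hz.ne 5
  have n6 := hz.ne 6
  obtain ⟨i0, i1, i2, i3, i4, i5, i6, i7⟩ := sni z
  rcases s with _ | _ | _
  · rcases t with _ | _ | _
    · show gg th .b .b (ea z) = gg th .z .z (ea z) * Rw .zero (z - l) * Rw .zero (-z - l) *
        Dk (x - l - (y - l))
      rw [show x - (l : ℂ) - (y - l) = z by rw [← hxy]; ring, Rw1, Rw1, Dk0]
      simp only [gg, i0, i1, i2, i3, i4, i5, i6, i7]
      field_simp
    · exact absurd rfl ht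
    · show gg th .b .a (ea z) = gg th .z .p (ea z) * Rw .pos (z - l) * Rw .zero (-z) *
        Dk (x - l - y)
      rw [show x - (l : ℂ) - y = z - l by rw [← hxy]; ring, Rw1, Rw0, Dkm]
      simp only [gg, i0, i1, i2, i3, i4, i5, i6, i7]
      field_simp
  · exact absurd rfl hs
  · rcases t with _ | _ | _
    · show gg th .a .b (ea z) = gg th .p .z (ea z) * Rw .zero z * Rw .pos (-z - l) *
        Dk (x - (y - l))
      rw [show x - (y - (l : ℂ)) = z + l by rw [← hxy]; ring, Rw0, Rw1, Dkp]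
      simp only [gg, i0, i1, i2, i3, i4, i5, i6, i7]
      field_simp
    · exact absurd rfl ht
    · show gg th .a .a (ea z) = gg th .p .p (ea z) * Rw .pos z * Rw .pos (-z) * Dk (x - y)
      rw [hxy, Rw0, Rw0, Dk0]
      simp only [gg, i0, i1, i2, i3, i4, i5, i6, i7]
      field_simp

/-- marked empty end and full line of the other world, `z` = line - end -/
theorem t6a (t : SignType) {z : ℂ} (hz : Gz z) :
    xf th .rE (bs t) (ea z) = xf th .re (bs t) (ea z) * Rw t (-z) := by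
  have n2 := hz.ne 2
  have n3 := hz.ne 3
  obtain ⟨i0, i1, i2, i3, i4, i5, i6, i7⟩ := sni z
  rw [Rw0]
  rcases t with _ | _ | _ <;> simp only [bs, xf, i0, i1, i2, i3, i4, i5, i6, i7] <;> field_simp

theorem t6b {t : SignType} (ht : t ≠ .neg) (z : ℂ) :
    xf th .re (mkd t) (ea z) = xf th .re (bs t) (ea z) * sin (mpl t z + 3 * l) := by
  rcases t with _ | _ | _
  · show sn th 2 (ea z) * sn th 3 (ea z) = sn th 3 (ea z) * sin (z - l + 3 * l)
    rw [show z - (l : ℂ) + 3 * l = z + 2 * l by ring, z2]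
    ring
  · exact absurd rfl ht
  · show sn th 3 (ea z) = 1 * sin (z + 3 * l)
    rw [z3, one_mul]

theorem t6c {t : SignType} (ht : t ≠ .neg) {z : ℂ} (hz : Gz z) :
    xf th .rE (mkd t) (ea z) = xf th .re (bs t) (ea z) * Rw t (-z) * sin (mpl t z + 3 * l) *
      Dk (mpl t z) := by
  have n2 := hz.ne 2
  have n3 := hz.ne 3
  have n4 := hz.ne 4
  have n5 := hz.ne 5
  obtain ⟨i0, i1, i2, i3, i4, i5, i6, i7⟩ := sni z
  rw [Rw0]
  rcases t with _ | _ | _
  · show sn th 3 (ea z) = sn th 3 (ea z) * (sn th 4 (ea (-z)) / sn th 5 (ea (-z))) *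
      sin (z - l + 3 * l) * Dk (z - l)
    rw [show z - (l : ℂ) + 3 * l = z + 2 * l by ring, z2, Dkm, i4, i5]
    field_simp
  · exact absurd rfl ht
  · show sn th 4 (ea z) = 1 * sn th 3 (ea (-z)) * sin (z + 3 * l) * Dk z
    rw [z3, Dk0, i3]
    field_simp

/-- occupied end on the left and marked full line of the other world -/
theorem t9 (s : SignType) (u : ℂ) : xf th .ro (NUTP.Gas.mir (mkd s)) u =
    xf th .ro (NUTP.Gas.mir (bs s)) u := by
  rcases s with _ | _ | _ <;> rfl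

/-- the two empty ends -/
theorem t8 {z : ℂ} (hz : Gz z) : xx th .rE .rE (ea z) =
    sin (z + 3 * l) * sin (-z + 3 * l) * Dk z := by
  have n3 := hz.ne 3
  have n5 := hz.ne 5
  obtain ⟨i0, i1, i2, i3, i4, i5, i6, i7⟩ := sni z
  show sn th 4 (ea z) = _
  rw [z3, z3, Dk0, i3]
  field_simp

theorem t8a (z : ℂ) : xx th .rE .re (ea z) = sin (z + 3 * l) := (z3 z).symm

theorem t8b (z : ℂ) : xx th .re .rE (ea z) = sin (-z + 3 * l) := by
  show sn th 5 (ea z) = _
  rw [z3, (sni z).2.2.2.1]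

/-- own weights -/
theorem w1_mkd {s : SignType} (hs : s ≠ .neg) : w1 th (mkd s) = w1 th (bs s) * mrc s := by
  rcases s with _ | _ | _
  · show sn th 1 1 = 1 * sin l
    rw [sn11, one_mul]
  · exact absurd rfl hs
  · show sn th 1 1 = sn th 1 1 * 1
    rw [mul_one]

end NUP1.Leg

end
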