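import Pool.Agent.NUP1L.Link1

/-!
# The gas of the two-point functions and the half quanta: sums over the states
-/

set_option autoImplicit false
set_option linter.unusedSectionVars false

noncomputable section

open Complex Finset

namespace NUP1.Leg

open NUTP (sn th ea lam cs)
open NUTP.Gas (Cf Ty sm sm_F sm_re sm_lo sm_congr sm_zero sm_cons Cmp tt fl ow ow1 cr cr1 own crs w1)
open NUP1.Grand (P)

/-! ### sums over states -/

theorem sumS (f : SignType → ℂ) : ∑ s, f s = f .pos + (f .zero + f .neg) := by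
  have e : (Finset.univ : Finset SignType) = {.pos, .zero, .neg} := by decide
  rw [e, Finset.sum_insert (by decide), Finset.sum_insert (by decide), Finset.sum_singleton]

theorem sum_cons {m : ℕ} (f : (Fin (m + 1) → SignType) → ℂ) :
    ∑ a, f a = ∑ s : SignType, ∑ a : Fin m → SignType, f (Fin.cons s a) := by
  rw [← (Fin.consEquiv fun _ : Fin (m + 1) => SignType).sum_comp, Fintype.sum_prod_type]
  rfl

theorem tt_nonneg {L : List ℂ} {e : Cf} (h : Cmp (fl L) e) : 0 ≤ tt NUTP.Gas.mk e := by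
  induction L generalizing e with
  | nil =>
    cases h
    exact le_rfl
  | cons x L ih =>
    cases h with
    | cons h1 h2 =>
      have h3 := ih h2
      obtain ⟨h4, h5⟩ := h1
      rename_i c e
      have h6 : tt NUTP.Gas.mk (c :: e) = NUTP.Gas.mk c.2 + tt NUTP.Gas.mk e := by simp [tt]
      have h7 : 0 ≤ NUTP.Gas.mk c.2 := by
        simp only [Ty.st, List.mem_cons, List.not_mem_nil, or_false] at h5
        rcases h5 with h | h | h | h | h <;> rw [h] <;> decide
      rw [h6]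
      omega

theorem tt_cons' (q : NUTP.Gas.K → ℤ) (c : ℂ × NUTP.Gas.K) (e : Cf) :
    tt q (c :: e) = q c.2 + tt q e := by simp [tt]

/-- no mark -/
theorem sm_un {m : ℕ} (x : Fin m → ℂ) (φ : Cf → ℂ) :
    sm (fl (List.ofFn x)) (fun e => if tt NUTP.Gas.mk e = 0 then φ e else 0) =
      ∑ a : Fin m → SignType, φ (List.ofFn fun i => (x i, bs (a i))) := by
  induction m generalizing φ with
  | zero =>
    simp [fl, sm, tt]
  | succ m ih =>
    rw [List.ofFn_succ]
    show sm ((x 0, Ty.F) :: fl (List.ofFn fun i => x i.succ)) _ = _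
    rw [sm_F]
    have key : ∀ k : NUTP.Gas.K, NUTP.Gas.mk k = 0 →
        sm (fl (List.ofFn fun i : Fin m => x i.succ)) (fun e =>
          if tt NUTP.Gas.mk ((x 0, k) :: e) = 0 then φ ((x 0, k) :: e) else 0) =
        ∑ a : Fin m → SignType, φ ((x 0, k) :: List.ofFn fun i => (x i.succ, bs (a i))) := by
      intro k hk
      rw [← ih (fun i => x i.succ) fun e => φ ((x 0, k) :: e)]
      refine sm_congr fun e _ => ?_
      rw [tt_cons', hk, zero_add]
    have key' : ∀ k : NUTP.Gas.K, NUTP.Gas.mk k = 1 →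
        sm (fl (List.ofFn fun i : Fin m => x i.succ)) (fun e =>
          if tt NUTP.Gas.mk ((x 0, k) :: e) = 0 then φ ((x 0, k) :: e) else 0) = 0 := by
      intro k hk
      refine (sm_congr (ψ := fun _ => (0 : ℂ)) fun e he => ?_).trans (sm_zero _)
      have := tt_nonneg he
      rw [if_neg]
      rw [tt_cons', hk]
      omega
    rw [key .p rfl, key .z rfl, key .n rfl, key' .a rfl, key' .b rfl, sum_cons, sumS]
    simp only [add_zero, List.ofFn_succ, Fin.cons_zero, Fin.cons_succ, bs]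

/-- one mark -/
theorem sm_mk {m : ℕ} (x : Fin m → ℂ) (φ : Cf → ℂ) :
    sm (fl (List.ofFn x)) (fun e => if tt NUTP.Gas.mk e = 1 then φ e else 0) =
      ∑ a : Fin m → SignType, ∑ i : Fin m, if a i ≠ .neg then
        φ (List.ofFn fun j => (x j, if j = i then mkd (a j) else bs (a j))) else 0 := by
  induction m generalizing φ with
  | zero =>
    simp [fl, sm, tt]
  | succ m ih =>
    rw [List.ofFn_succ]
    show sm ((x 0, Ty.F) :: fl (List.ofFn fun i => x i.succ)) _ = _
    rw [sm_F]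
    have key : ∀ k : NUTP.Gas.K, NUTP.Gas.mk k = 0 →
        sm (fl (List.ofFn fun i : Fin m => x i.succ)) (fun e =>
          if tt NUTP.Gas.mk ((x 0, k) :: e) = 1 then φ ((x 0, k) :: e) else 0) =
        ∑ a : Fin m → SignType, ∑ i : Fin m, if a i ≠ .neg then φ ((x 0, k) ::
          List.ofFn fun j => (x j.succ, if j = i then mkd (a j) else bs (a j))) else 0 := by
      intro k hk
      rw [← ih (fun i => x i.succ) fun e => φ ((x 0, k) :: e)]
      refine sm_congr fun e _ => ?_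
      rw [tt_cons', hk, zero_add]
    have key' : ∀ k : NUTP.Gas.K, NUTP.Gas.mk k = 1 →
        sm (fl (List.ofFn fun i : Fin m => x i.succ)) (fun e =>
          if tt NUTP.Gas.mk ((x 0, k) :: e) = 1 then φ ((x 0, k) :: e) else 0) =
        ∑ a : Fin m → SignType, φ ((x 0, k) :: List.ofFn fun i => (x i.succ, bs (a i))) := by
      intro k hk
      rw [← sm_un (fun i => x i.succ) fun e => φ ((x 0, k) :: e)]
      refine sm_congr fun e _ => ?_
      have h : (tt NUTP.Gas.mk ((x 0, k) :: e) = 1) ↔ tt NUTP.Gas.mk e = 0 := by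
        rw [tt_cons', hk]
        omega
      simp only [h]
    rw [key .p rfl, key .z rfl, key .n rfl, key' .a rfl, key' .b rfl, sum_cons, sumS]
    simp only [Fin.sum_univ_succ, List.ofFn_succ, Fin.cons_zero, Fin.cons_succ, bs, mkd,
      Fin.succ_inj, (Fin.succ_ne_zero _).symm, if_true, if_false, Finset.sum_add_distrib,
      reduceCtorEq, ne_eq, not_true_eq_false, not_false_eq_true, Finset.sum_const_zero, Fin.succ_ne_zero]
    ring

/-- state of the empty end -/
def k0 {m : ℕ} (μ : Option (Fin m)) : NUTP.Gas.K := if μ = none then .rE else .re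

/-- state of a full line -/
def kk {m : ℕ} (a : Fin m → SignType) (μ : Option (Fin m)) (i : Fin m) : NUTP.Gas.K :=
  if μ = some i then mkd (a i) else bs (a i)

/-- configuration of a world: empty end on the right, occupied end on the left, full lines -/
def Lf {m : ℕ} (r o : ℂ) (x : Fin m → ℂ) (k : NUTP.Gas.K) (κ : Fin m → NUTP.Gas.K) : Cf :=
  (r, k) :: (o, .lo) :: List.ofFn fun i => (x i, κ i)

/-- the states of a world -/
theorem sm_world {m : ℕ} (r o : ℂ) (x : Fin m → ℂ) (φ : Cf → ℂ) :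
    sm ((r, .re) :: (o, .lo) :: fl (List.ofFn x))
      (fun e => if tt NUTP.Gas.mk e = 0 then φ e else 0) =
      ∑ a : Fin m → SignType, ∑ μ : Option (Fin m), if live a μ = true then
        φ (Lf r o x (k0 μ) (kk a μ)) else 0 := by
  rw [sm_re, sm_lo, sm_lo]
  have e1 : sm (fl (List.ofFn x)) (fun e => if tt NUTP.Gas.mk ((r, .re) :: (o, .lo) :: e) = 0 then
      φ ((r, .re) :: (o, .lo) :: e) else 0) = ∑ a : Fin m → SignType, ∑ i : Fin m,
        if a i ≠ .neg then φ (Lf r o x (k0 (some i)) (kk a (some i))) else 0 := by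
    have h := sm_mk x fun e => φ ((r, .re) :: (o, .lo) :: e)
    have e2 : ∀ (a : Fin m → SignType) (i : Fin m), Lf r o x (k0 (some i)) (kk a (some i)) =
        (r, .re) :: (o, .lo) :: List.ofFn fun j => (x j, if j = i then mkd (a j) else bs (a j)) := by
      intro a i
      unfold Lf k0 kk
      simp only [reduceCtorEq, if_false, Option.some.injEq, eq_comm]
    simp only [e2]
    rw [← h]
    refine sm_congr fun e _ => ?_
    have h' : (tt NUTP.Gas.mk ((r, .re) :: (o, .lo) :: e) = 0) ↔ tt NUTP.Gas.mk e = 1 := by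
      rw [tt_cons', tt_cons']
      show (-1 : ℤ) + (0 + tt NUTP.Gas.mk e) = 0 ↔ _
      omega
    simp only [h']
  have e3 : sm (fl (List.ofFn x)) (fun e => if tt NUTP.Gas.mk ((r, .rE) :: (o, .lo) :: e) = 0 then
      φ ((r, .rE) :: (o, .lo) :: e) else 0) = ∑ a : Fin m → SignType,
        φ (Lf r o x (k0 (none : Option (Fin m))) (kk a none)) := by
    have h := sm_un x fun e => φ ((r, .rE) :: (o, .lo) :: e)
    have e2 : ∀ (a : Fin m → SignType), Lf r o x (k0 (none : Option (Fin m))) (kk a none) =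
        (r, .rE) :: (o, .lo) :: List.ofFn fun j => (x j, bs (a j)) := by
      intro a
      unfold Lf k0 kk
      simp
    simp only [e2]
    rw [← h]
    refine sm_congr fun e _ => ?_
    have h' : (tt NUTP.Gas.mk ((r, .rE) :: (o, .lo) :: e) = 0) ↔ tt NUTP.Gas.mk e = 0 := by
      rw [tt_cons', tt_cons']
      show (0 : ℤ) + (0 + tt NUTP.Gas.mk e) = 0 ↔ _
      omega
    simp only [h']
  rw [e1, e3, ← Finset.sum_add_distrib]
  refine Finset.sum_congr rfl fun a _ => ?_
  rw [Fintype.sum_option]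
  simp only [live, if_true, decide_eq_true_eq]
  ring

/-! ### weights -/

theorem ow_ofFn (θ : ℂ) {m : ℕ} (x : Fin m → ℂ) (κ : Fin m → NUTP.Gas.K) :
    ow θ (List.ofFn fun i => (x i, κ i)) =
      (∏ i, w1 θ (κ i)) * P fun i j => own θ (κ i) (κ j) (x i / x j) := by
  induction m with
  | zero => simp [ow, NUP1.Grand.P_zero]
  | succ m ih =>
    rw [List.ofFn_succ, P_succ, Fin.prod_univ_succ]
    show w1 θ (κ 0) * ow1 θ (x 0) (κ 0) (List.ofFn fun i : Fin m => (x i.succ, κ i.succ)) *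
      ow θ (List.ofFn fun i : Fin m => (x i.succ, κ i.succ)) = _
    rw [ih (fun i => x i.succ) fun i => κ i.succ]
    have e : ow1 θ (x 0) (κ 0) (List.ofFn fun i : Fin m => (x i.succ, κ i.succ)) =
        ∏ i : Fin m, own θ (κ 0) (κ i.succ) (x 0 / x i.succ) := by
      unfold ow1
      rw [List.map_ofFn, List.prod_ofFn]
      rfl
    rw [e]
    ring

theorem ow1_ofFn (θ : ℂ) {m : ℕ} (z : ℂ) (k : NUTP.Gas.K) (x : Fin m → ℂ)
    (κ : Fin m → NUTP.Gas.K) : ow1 θ z k (List.ofFn fun i => (x i, κ i)) =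
      ∏ i, own θ k (κ i) (z / x i) := by
  unfold ow1
  rw [List.map_ofFn, List.prod_ofFn]
  rfl

theorem cr1_ofFn (θ : ℂ) {m : ℕ} (z : ℂ) (k : NUTP.Gas.K) (x : Fin m → ℂ)
    (κ : Fin m → NUTP.Gas.K) : cr1 θ z k (List.ofFn fun i => (x i, κ i)) =
      ∏ i, crs θ k (κ i) (z / x i) := by
  unfold cr1
  rw [List.map_ofFn, List.prod_ofFn]
  rfl

/-- factors of a world -/
theorem ow_Lf (θ : ℂ) {m : ℕ} (r o : ℂ) (x : Fin m → ℂ) (k : NUTP.Gas.K)
    (κ : Fin m → NUTP.Gas.K) : ow θ (Lf r o x k κ) =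
      (w1 θ k * (own θ k .lo (r / o) * ∏ i, own θ k (κ i) (r / x i))) *
      ((w1 θ .lo * ∏ i, own θ .lo (κ i) (o / x i)) *
        ((∏ i, w1 θ (κ i)) * P fun i j => own θ (κ i) (κ j) (x i / x j))) := by
  unfold Lf
  rw [ow, ow, ow_ofFn]
  have e : ow1 θ r k ((o, .lo) :: List.ofFn fun i => (x i, κ i)) =
      own θ k .lo (r / o) * ∏ i, own θ k (κ i) (r / x i) := by
    rw [← ow1_ofFn]
    simp [ow1]
  rw [show ((r, k) : ℂ × NUTP.Gas.K).1 = r from rfl,
    show ((r, k) : ℂ × NUTP.Gas.K).2 = k from rfl, e,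
    show ((o, NUTP.Gas.K.lo) : ℂ × NUTP.Gas.K).1 = o from rfl,
    show ((o, NUTP.Gas.K.lo) : ℂ × NUTP.Gas.K).2 = .lo from rfl, ow1_ofFn]

/-- factors between the worlds -/
theorem cr_Lf (θ : ℂ) {m M : ℕ} (r o r' o' : ℂ) (x : Fin m → ℂ) (y : Fin M → ℂ)
    (k k' : NUTP.Gas.K) (κ : Fin m → NUTP.Gas.K) (κ' : Fin M → NUTP.Gas.K) :
    cr θ (Lf r o x k κ) (Lf r' o' y k' κ') =
      (crs θ k k' (r / r') * (crs θ k .lo (r / o') * ∏ j, crs θ k (κ' j) (r / y j))) *
      ((crs θ .lo k' (o / r') * (crs θ .lo .lo (o / o') * ∏ j, crs θ .lo (κ' j) (o / y j))) *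
      ((∏ i, crs θ (κ i) k' (x i / r')) * ((∏ i, crs θ (κ i) .lo (x i / o')) *
        ∏ i, ∏ j, crs θ (κ i) (κ' j) (x i / y j)))) := by
  have e : ∀ (z : ℂ) (c : NUTP.Gas.K), cr1 θ z c (Lf r' o' y k' κ') =
      crs θ c k' (z / r') * (crs θ c .lo (z / o') * ∏ j, crs θ c (κ' j) (z / y j)) := by
    intro z c
    unfold Lf
    rw [← cr1_ofFn]
    simp [cr1]
  have e2 : cr θ (Lf r o x k κ) (Lf r' o' y k' κ') = cr1 θ r k (Lf r' o' y k' κ') *
      (cr1 θ o .lo (Lf r' o' y k' κ') * ∏ i, cr1 θ (x i) (κ i) (Lf r' o' y k' κ')) := by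
    unfold cr
    show (List.map (fun c => cr1 θ c.1 c.2 (Lf r' o' y k' κ'))
      ((r, k) :: (o, .lo) :: List.ofFn fun i => (x i, κ i))).prod = _
    rw [List.map_cons, List.map_cons, List.prod_cons, List.prod_cons, List.map_ofFn,
      List.prod_ofFn]
    rfl
  rw [e2]
  simp only [e]
  rw [Finset.prod_mul_distrib, Finset.prod_mul_distrib]

end NUP1.Leg

end
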