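import Pool.Agent.NUP1L.Link2

/-!
# The gas of the two-point functions and the half quanta: factoring out the marks
-/

set_option autoImplicit false
set_option linter.unusedSectionVars false

noncomputable section

open Complex Finset

namespace NUP1.Leg

open NUTP (sn th ea lam cs)
open NUTP.Gas (Cf Ty ff ef gg xf xx cls ow cr own crs w1)
open NUP1.Grand (P)

/-! ### products -/

theorem prod_one {m : ℕ} (i : Fin m) (F G : Fin m → ℂ) (c : ℂ) (h1 : F i = G i * c)
    (h2 : ∀ j, j ≠ i → F j = G j) : ∏ j, F j = (∏ j, G j) * c := by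
  rw [← Finset.mul_prod_erase univ F (mem_univ i), ← Finset.mul_prod_erase univ G (mem_univ i), h1,
    Finset.prod_congr rfl fun j hj => h2 j (Finset.ne_of_mem_erase hj)]
  ring

theorem P_one {m : ℕ} (i : Fin m) (F G : Fin m → Fin m → ℂ) (c : Fin m → ℂ)
    (h1 : ∀ j, j ≠ i → F i j = G i j * c j) (h2 : ∀ j, j ≠ i → F j i = G j i * c j)
    (h3 : ∀ j k, j ≠ i → k ≠ i → F j k = G j k) : P F = P G * ∏ j ∈ univ.erase i, c j := by
  have e : ∀ j k : Fin m, (if j < k then F j k else 1) = (if j < k then G j k else 1) *
      ((if j = i then (if i < k then c k else 1) else 1) *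
        (if k = i then (if j < i then c j else 1) else 1)) := by
    intro j k
    by_cases hj : j = i
    · subst hj
      by_cases hk : k = j
      · subst hk
        simp
      · rw [if_pos rfl, if_neg hk]
        by_cases hjk : j < k
        · rw [if_pos hjk, if_pos hjk, if_pos hjk, h1 k hk]
          ring
        · rw [if_neg hjk, if_neg hjk, if_neg hjk]
          ring
    · rw [if_neg hj]
      by_cases hk : k = i
      · subst hk
        rw [if_pos rfl]
        by_cases hjk : j < k
        · rw [if_pos hjk, if_pos hjk, if_pos hjk, h2 j hj]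
          ring
        · rw [if_neg hjk, if_neg hjk, if_neg hjk]
          ring
      · rw [if_neg hk]
        by_cases hjk : j < k
        · rw [if_pos hjk, if_pos hjk, h3 j k hj hk]
          ring
        · rw [if_neg hjk, if_neg hjk]
          ring
  unfold P
  simp only [e, Finset.prod_mul_distrib]
  congr 1
  have e1 : ∏ j : Fin m, ∏ k : Fin m, (if j = i then (if i < k then c k else 1) else 1) =
      ∏ k : Fin m, (if i < k then c k else 1) := by
    rw [Finset.prod_comm]
    exact Finset.prod_congr rfl fun k _ => by rw [Finset.prod_ite_eq' univ i]; simp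
  have e2 : ∏ j : Fin m, ∏ k : Fin m, (if k = i then (if j < i then c j else 1) else 1) =
      ∏ j : Fin m, (if j < i then c j else 1) :=
    Finset.prod_congr rfl fun j _ => by rw [Finset.prod_ite_eq' univ i]; simp
  rw [e1, e2, ← Finset.prod_mul_distrib, ← Finset.mul_prod_erase univ _ (mem_univ i)]
  rw [if_neg (lt_irrefl i), one_mul, one_mul]
  refine Finset.prod_congr rfl fun j hj => ?_
  have hne := Finset.ne_of_mem_erase hj
  rcases lt_or_gt_of_ne hne with h | h
  · rw [if_pos h, if_neg (not_lt.2 h.le), one_mul]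
  · rw [if_neg (not_lt.2 h.le), if_pos h, mul_one]

theorem prod_erase_none {m : ℕ} (f : Option (Fin m) → ℂ) :
    ∏ ν ∈ univ.erase none, f ν = ∏ i, f (some i) := by
  have e : univ.erase (none : Option (Fin m)) = univ.map Function.Embedding.some := by
    ext x
    cases x <;> simp
  rw [e, Finset.prod_map]
  rfl

theorem prod_erase_some {m : ℕ} (i : Fin m) (f : Option (Fin m) → ℂ) :
    ∏ ν ∈ univ.erase (some i), f ν = f none * ∏ j ∈ univ.erase i, f (some j) := by
  have e : univ.erase (some i : Option (Fin m)) =
      insert none ((univ.erase i).map Function.Embedding.some) := by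
    ext x
    cases x <;> simp
  rw [e, Finset.prod_insert (by simp), Finset.prod_map]
  rfl

/-- product over the objects of both worlds -/
theorem prod_two {A B : Type*} [Fintype A] [Fintype B] [DecidableEq A] [DecidableEq B] (μ : A)
    (ν : B) (F G : A → B → ℂ) (c : B → ℂ) (d : A → ℂ) (e : ℂ)
    (h : ∀ α β, F α β = G α β * (if α = μ then c β else 1) * (if β = ν then d α else 1) *
      (if α = μ ∧ β = ν then e else 1)) :
    ∏ α, ∏ β, F α β = (∏ α, ∏ β, G α β) * (∏ β, c β) * (∏ α, d α) * e := by
  simp only [h, Finset.prod_mul_distrib]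
  have e1 : ∏ α : A, ∏ β : B, (if α = μ then c β else 1) = ∏ β, c β := by
    rw [Finset.prod_comm]
    exact Finset.prod_congr rfl fun β _ => by rw [Finset.prod_ite_eq' univ μ]; simp
  have e2 : ∏ α : A, ∏ β : B, (if β = ν then d α else 1) = ∏ α, d α :=
    Finset.prod_congr rfl fun α _ => by rw [Finset.prod_ite_eq' univ ν]; simp
  have e3 : ∏ α : A, ∏ β : B, (if α = μ ∧ β = ν then e else 1) = e := by
    have : ∀ α : A, ∏ β : B, (if α = μ ∧ β = ν then e else 1) = if α = μ then e else 1 := by
      intro α
      by_cases hα : α = μ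
      · simp [hα]
      · simp [hα]
    simp only [this]
    rw [Finset.prod_ite_eq' univ μ]
    simp
  rw [e1, e2, e3]

/-! ### classes -/

theorem cls_bs (s : SignType) : cls (bs s) = .f := by cases s <;> rfl
theorem cls_mkd (s : SignType) : cls (mkd s) = .f := by cases s <;> rfl

theorem own_ff {θ : ℂ} {k k' : NUTP.Gas.K} (h : cls k = .f) (h' : cls k' = .f) (u : ℂ) :
    own θ k k' u = ff θ k k' u := by
  unfold own
  rw [h, h']

theorem own_ef {θ : ℂ} {k k' : NUTP.Gas.K} (h : cls k = .r) (h' : cls k' = .f) (u : ℂ) :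
    own θ k k' u = ef θ k k' u := by
  unfold own
  rw [h, h']

theorem own_lf {θ : ℂ} {k' : NUTP.Gas.K} (h' : cls k' = .f) (u : ℂ) :
    own θ .lo k' u = ef θ .ro (NUTP.Gas.mir k') u⁻¹ := by
  unfold own
  rw [h']
  rfl

theorem crs_ff {θ : ℂ} {k k' : NUTP.Gas.K} (h : cls k = .f) (h' : cls k' = .f) (u : ℂ) :
    crs θ k k' u = gg θ k k' u := by
  unfold crs
  rw [h, h']

theorem crs_rf {θ : ℂ} {k k' : NUTP.Gas.K} (h : cls k = .r) (h' : cls k' = .f) (u : ℂ) :
    crs θ k k' u = xf θ k k' u⁻¹ := by
  unfold crs
  rw [h, h']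

theorem crs_fr {θ : ℂ} {k k' : NUTP.Gas.K} (h : cls k = .f) (h' : cls k' = .r) (u : ℂ) :
    crs θ k k' u = xf θ k' k u := by
  unfold crs
  rw [h, h']

theorem crs_lf {θ : ℂ} {k' : NUTP.Gas.K} (h' : cls k' = .f) (u : ℂ) :
    crs θ .lo k' u = xf θ .ro (NUTP.Gas.mir k') u := by
  unfold crs
  rw [h']
  rfl

theorem crs_fl {θ : ℂ} {k : NUTP.Gas.K} (h : cls k = .f) (u : ℂ) :
    crs θ k .lo u = xf θ .ro (NUTP.Gas.mir k) u⁻¹ := by
  unfold crs
  rw [h]
  rfl

/-! ### own world -/

variable {m M : ℕ}

theorem kk_none (a : Fin m → SignType) (i : Fin m) : kk a none i = bs (a i) := by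
  unfold kk
  rw [if_neg (by simp)]

theorem kk_self (a : Fin m → SignType) (i : Fin m) : kk a (some i) i = mkd (a i) := by
  unfold kk
  rw [if_pos rfl]

theorem kk_ne (a : Fin m → SignType) {i j : Fin m} (h : j ≠ i) : kk a (some i) j = bs (a j) := by
  unfold kk
  rw [if_neg]
  simpa using h.symm

theorem cls_kk (a : Fin m → SignType) (μ : Option (Fin m)) (i : Fin m) : cls (kk a μ i) = .f := by
  unfold kk
  split_ifs
  · exact cls_mkd _
  · exact cls_bs _

/-- the world `f` with its mark factored out -/
theorem own_mark {r o : ℂ} {x : Fin m → ℂ} {a : Fin m → SignType} {μ : Option (Fin m)}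
    (hμ : live a μ = true) (gx : ∀ i j, i ≠ j → Gz (x i - x j)) (gr : ∀ i, Gz (r - x i)) :
    ow th (Lf (ea r) (ea o) (fun i => ea (x i)) (k0 μ) (kk a μ)) =
      -(ow th (Lf (ea r) (ea o) (fun i => ea (x i)) .re fun i => bs (a i)) *
        (mkc a μ * ∏ ν ∈ univ.erase μ, fc r x a ν (mkp r x a μ))) := by
  rcases μ with _ | i
  · rw [prod_erase_none]
    show ow th (Lf (ea r) (ea o) (fun i => ea (x i)) .rE (kk a none)) = _
    have e0 : kk a none = fun i => bs (a i) := funext fun i => kk_none a i
    rw [e0, ow_Lf, ow_Lf]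
    have e1 : ∏ i, own th .rE (bs (a i)) (ea r / ea (x i)) =
        (∏ i, own th .re (bs (a i)) (ea r / ea (x i))) * ∏ i, Pw (a i) (r - x i) := by
      rw [← Finset.prod_mul_distrib]
      refine Finset.prod_congr rfl fun i _ => ?_
      rw [own_ef rfl (cls_bs _), own_ef rfl (cls_bs _), ← NUTP.ea_sub, t3 _ (gr i)]
    rw [e1]
    show _ = -(_ * (-1 * ∏ i, Pw (a i) (r - x i)))
    have e2 : own th .rE .lo (ea r / ea o) = own th .re .lo (ea r / ea o) := rfl
    have e3 : w1 th .rE = w1 th .re := rfl
    rw [e2, e3]
    ring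
  · have hne : a i ≠ .neg := by simpa [live] using hμ
    rw [prod_erase_some]
    show ow th (Lf (ea r) (ea o) (fun i => ea (x i)) .re (kk a (some i))) =
      -(_ * (mrc (a i) * (kap (mpl (a i) (x i) - r) * ∏ j ∈ univ.erase i,
        Pw (a j) (mpl (a i) (x i) - x j))))
    rw [ow_Lf, ow_Lf]
    have e1 : ∏ j, own th .re (kk a (some i) j) (ea r / ea (x j)) =
        (∏ j, own th .re (bs (a j)) (ea r / ea (x j))) * -kap (mpl (a i) (x i) - r) := by
      refine prod_one i _ _ _ ?_ fun j hj => ?_
      · rw [kk_self, own_ef rfl (cls_mkd _), own_ef rfl (cls_bs _), ← NUTP.ea_sub, t2 hne (gr i),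
          mpl_sub, neg_sub]
        ring
      · rw [kk_ne a hj]
    have e2 : ∏ j, own th .lo (kk a (some i) j) (ea o / ea (x j)) =
        ∏ j, own th .lo (bs (a j)) (ea o / ea (x j)) := by
      refine Finset.prod_congr rfl fun j _ => ?_
      rw [own_lf (cls_kk _ _ _), own_lf (cls_bs _)]
      by_cases hj : j = i
      · rw [hj, kk_self, t4]
      · rw [kk_ne a hj]
    have e3 : ∏ j, w1 th (kk a (some i) j) = (∏ j, w1 th (bs (a j))) * mrc (a i) := by
      refine prod_one i _ _ _ ?_ fun j hj => ?_
      · rw [kk_self, w1_mkd hne]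
      · rw [kk_ne a hj]
    have e4 : (P fun j k => own th (kk a (some i) j) (kk a (some i) k) (ea (x j) / ea (x k))) =
        (P fun j k => own th (bs (a j)) (bs (a k)) (ea (x j) / ea (x k))) *
          ∏ j ∈ univ.erase i, Pw (a j) (mpl (a i) (x i) - x j) := by
      refine P_one i _ _ _ (fun j hj => ?_) (fun j hj => ?_) fun j k hj hk => ?_
      · rw [kk_self, kk_ne a hj, own_ff (cls_mkd _) (cls_bs _), own_ff (cls_bs _) (cls_bs _),
          ← NUTP.ea_sub, t1 hne _ (gx i j hj.symm), mpl_sub]
      · rw [kk_self, kk_ne a hj, own_ff (cls_bs _) (cls_mkd _), own_ff (cls_bs _) (cls_bs _),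
          ← NUTP.ea_sub, t1' hne _ (gx j i hj), mpl_sub, neg_sub]
      · rw [kk_ne a hj, kk_ne a hk]
    rw [e1, e2, e3, e4]
    ring

/-! ### the two worlds -/

/-- lines of the objects with states -/
def oz (r : ℂ) (x : Fin m → ℂ) : Option (Fin m) → ℂ
  | none => r
  | some i => x i

/-- states of the objects -/
def okm (a : Fin m → SignType) (μ : Option (Fin m)) : Option (Fin m) → NUTP.Gas.K
  | none => k0 μ
  | some i => kk a μ i

/-- states of the objects without marks -/
def okb (a : Fin m → SignType) : Option (Fin m) → NUTP.Gas.K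
  | none => .re
  | some i => bs (a i)

/-- factor of a mark with the objects of the other world -/
def Rf (q : ℂ) (y : Fin M → ℂ) (b : Fin M → SignType) : Option (Fin M) → ℂ → ℂ
  | none, w => sin (w - q + 3 * l)
  | some j, w => Rw (b j) (w - y j)

theorem og_Rf (q : ℂ) (y : Fin M → ℂ) (b : Fin M → SignType) (w : ℂ) :
    og q y b w = ∏ β, Rf q y b β w := by
  rw [Fintype.prod_option]
  rfl

theorem ea_inv_div (z w : ℂ) : (ea z / ea w)⁻¹ = ea (w - z) := by
  rw [inv_div, ← NUTP.ea_sub]

/-- one pair of objects of different worlds -/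
theorem crs_mark {r r' : ℂ} {x : Fin m → ℂ} {y : Fin M → ℂ} {a : Fin m → SignType}
    {b : Fin M → SignType} {μ : Option (Fin m)} {ν : Option (Fin M)} (hμ : live a μ = true)
    (hν : live b ν = true) (g : ∀ α β, Gz (oz r x α - oz r' y β)) (α : Option (Fin m))
    (β : Option (Fin M)) :
    crs th (okm a μ α) (okm b ν β) (ea (oz r x α) / ea (oz r' y β)) =
      crs th (okb a α) (okb b β) (ea (oz r x α) / ea (oz r' y β)) *
        (if α = μ then Rf r' y b β (mkp r x a μ) else 1) *
        (if β = ν then Rf r x a α (mkp r' y b ν) else 1) *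
        (if α = μ ∧ β = ν then Dk (mkp r x a μ - mkp r' y b ν) else 1) := by
  have hl1 : ∀ i, live a (some i) = true → a i ≠ .neg := fun i h => by simpa [live] using h
  have hl2 : ∀ i, live b (some i) = true → b i ≠ .neg := fun i h => by simpa [live] using h
  have gz := g α β
  rcases α with _ | i <;> rcases β with _ | j
  · -- the two empty ends
    show crs th (k0 μ) (k0 ν) (ea r / ea r') = crs th .re .re (ea r / ea r') * _ * _ * _
    have hz : Gz (r - r') := gz
    have c0 : ∀ k k' : NUTP.Gas.K, cls k = .r → cls k' = .r →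
        crs th k k' (ea r / ea r') = xx th k k' (ea (r - r')) := by
      intro k k' h h'
      rw [← NUTP.ea_sub]
      unfold crs
      rw [h, h']
    have c1 : crs th .re .re (ea r / ea r') = 1 := by rw [c0 _ _ rfl rfl]; rfl
    rw [c1]
    by_cases hm : μ = none
    · subst hm
      by_cases hn : ν = none
      · subst hn
        simp only [if_true, and_self]
        show crs th .rE .rE (ea r / ea r') = 1 * sin (r - r' + 3 * l) * sin (r' - r + 3 * l) *
          Dk (r - r')
        rw [c0 _ _ rfl rfl, t8 hz, neg_sub]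
        ring
      · have hn' : ¬ (none = ν) := fun h => hn h.symm
        simp only [if_true, hn', if_false, and_false]
        have k1 : k0 ν = .re := if_neg hn
        rw [k1]
        show crs th .rE .re (ea r / ea r') = 1 * sin (r - r' + 3 * l) * 1 * 1
        rw [c0 _ _ rfl rfl, t8a]
        ring
    · have hm' : ¬ (none = μ) := fun h => hm h.symm
      have k1 : k0 μ = .re := if_neg hm
      simp only [hm', if_false, false_and]
      rw [k1]
      by_cases hn : ν = none
      · subst hn
        simp only [if_true]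
        show crs th .re .rE (ea r / ea r') = 1 * 1 * sin (r' - r + 3 * l) * 1
        rw [c0 _ _ rfl rfl, t8b, neg_sub]
        ring
      · have hn' : ¬ (none = ν) := fun h => hn h.symm
        have k2 : k0 ν = .re := if_neg hn
        simp only [hn', if_false]
        rw [k2, c1]
        ring
  · -- empty end of the first world and a full line of the second
    show crs th (k0 μ) (kk b ν j) (ea r / ea (y j)) = crs th .re (bs (b j)) (ea r / ea (y j)) *
      _ * _ * _
    have hz : Gz (y j - r) := by
      have := gz.neg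
      rwa [neg_sub] at this
    rw [crs_rf (by unfold k0; split_ifs <;> rfl) (cls_kk _ _ _), crs_rf rfl (cls_bs _), ea_inv_div]
    by_cases hm : μ = none
    · subst hm
      by_cases hn : some j = ν
      · subst hn
        have hb := hl2 j hν
        simp only [if_true, and_self]
        rw [kk_self]
        show xf th .rE (mkd (b j)) (ea (y j - r)) = xf th .re (bs (b j)) (ea (y j - r)) *
          Rw (b j) (r - y j) * sin (mpl (b j) (y j) - r + 3 * l) * Dk (r - mpl (b j) (y j))
        rw [t6c hb hz, mpl_sub, neg_sub, Dk_comm r, mpl_sub]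
      · simp only [if_true, hn, if_false, and_false]
        have e1 : kk b ν j = bs (b j) := by
          unfold kk
          rw [if_neg fun h => hn h.symm]
        rw [e1]
        show xf th .rE (bs (b j)) (ea (y j - r)) = xf th .re (bs (b j)) (ea (y j - r)) *
          Rw (b j) (r - y j) * 1 * 1
        rw [t6a _ hz, neg_sub]
        ring
    · have hm' : ¬ (none = μ) := fun h => hm h.symm
      have k1 : k0 μ = .re := if_neg hm
      simp only [hm', if_false, false_and]
      rw [k1]
      by_cases hn : some j = ν
      · subst hn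
        have hb := hl2 j hν
        simp only [if_true]
        rw [kk_self]
        show xf th .re (mkd (b j)) (ea (y j - r)) = xf th .re (bs (b j)) (ea (y j - r)) *
          1 * sin (mpl (b j) (y j) - r + 3 * l) * 1
        rw [t6b hb, mpl_sub]
        ring
      · simp only [hn, if_false]
        have e1 : kk b ν j = bs (b j) := by
          unfold kk
          rw [if_neg fun h => hn h.symm]
        rw [e1]
        ring
  · -- full line of the first world and the empty end of the second
    show crs th (kk a μ i) (k0 ν) (ea (x i) / ea r') = crs th (bs (a i)) .re (ea (x i) / ea r') *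
      _ * _ * _
    have hz : Gz (x i - r') := gz
    rw [crs_fr (cls_kk _ _ _) (by unfold k0; split_ifs <;> rfl), crs_fr (cls_bs _) rfl,
      ← NUTP.ea_sub]
    by_cases hn : ν = none
    · subst hn
      by_cases hm : some i = μ
      · subst hm
        have ha := hl1 i hμ
        simp only [if_true, and_self]
        rw [kk_self]
        show xf th .rE (mkd (a i)) (ea (x i - r')) = xf th .re (bs (a i)) (ea (x i - r')) *
          sin (mpl (a i) (x i) - r' + 3 * l) * Rw (a i) (r' - x i) * Dk (mpl (a i) (x i) - r')
        rw [t6c ha hz, mpl_sub, neg_sub]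
        ring
      · simp only [if_true, hm, if_false, false_and]
        have e1 : kk a μ i = bs (a i) := by
          unfold kk
          rw [if_neg fun h => hm h.symm]
        rw [e1]
        show xf th .rE (bs (a i)) (ea (x i - r')) = xf th .re (bs (a i)) (ea (x i - r')) *
          1 * Rw (a i) (r' - x i) * 1
        rw [t6a _ hz, neg_sub]
        ring
    · have hn' : ¬ (none = ν) := fun h => hn h.symm
      have k1 : k0 ν = .re := if_neg hn
      simp only [hn', if_false, and_false]
      rw [k1]
      by_cases hm : some i = μ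
      · subst hm
        have ha := hl1 i hμ
        simp only [if_true]
        rw [kk_self]
        show xf th .re (mkd (a i)) (ea (x i - r')) = xf th .re (bs (a i)) (ea (x i - r')) *
          sin (mpl (a i) (x i) - r' + 3 * l) * 1 * 1
        rw [t6b ha, mpl_sub]
        ring
      · simp only [hm, if_false]
        have e1 : kk a μ i = bs (a i) := by
          unfold kk
          rw [if_neg fun h => hm h.symm]
        rw [e1]
        ring
  · -- two full lines
    show crs th (kk a μ i) (kk b ν j) (ea (x i) / ea (y j)) =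
      crs th (bs (a i)) (bs (b j)) (ea (x i) / ea (y j)) * _ * _ * _
    have hz : Gz (x i - y j) := gz
    rw [crs_ff (cls_kk _ _ _) (cls_kk _ _ _), crs_ff (cls_bs _) (cls_bs _), ← NUTP.ea_sub]
    by_cases hm : some i = μ
    · subst hm
      have ha := hl1 i hμ
      rw [kk_self]
      by_cases hn : some j = ν
      · subst hn
        have hb := hl2 j hν
        rw [kk_self]
        simp only [if_true, and_self]
        show gg th (mkd (a i)) (mkd (b j)) (ea (x i - y j)) =
          gg th (bs (a i)) (bs (b j)) (ea (x i - y j)) * Rw (b j) (mpl (a i) (x i) - y j) *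
          Rw (a i) (mpl (b j) (y j) - x i) * Dk (mpl (a i) (x i) - mpl (b j) (y j))
        rw [t5c ha hb hz (x i) (y j) rfl, mpl_sub (a i) (x i) (y j), mpl_sub (b j) (y j) (x i),
          neg_sub]
      · simp only [if_true, hn, if_false, and_false]
        have e1 : kk b ν j = bs (b j) := by
          unfold kk
          rw [if_neg fun h => hn h.symm]
        rw [e1]
        show gg th (mkd (a i)) (bs (b j)) (ea (x i - y j)) =
          gg th (bs (a i)) (bs (b j)) (ea (x i - y j)) * Rw (b j) (mpl (a i) (x i) - y j) * 1 * 1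
        rw [t5a ha _ hz, mpl_sub]
        ring
    · have e0 : kk a μ i = bs (a i) := by
        unfold kk
        rw [if_neg fun h => hm h.symm]
      rw [e0]
      by_cases hn : some j = ν
      · subst hn
        have hb := hl2 j hν
        rw [kk_self]
        simp only [hm, if_true, if_false, false_and]
        show gg th (bs (a i)) (mkd (b j)) (ea (x i - y j)) =
          gg th (bs (a i)) (bs (b j)) (ea (x i - y j)) * 1 * Rw (a i) (mpl (b j) (y j) - x i) * 1
        rw [t5b _ hb hz, mpl_sub, neg_sub]
        ring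
      · simp only [hm, hn, if_false, false_and]
        have e1 : kk b ν j = bs (b j) := by
          unfold kk
          rw [if_neg fun h => hn h.symm]
        rw [e1]
        ring

/-- the factors between the worlds with the marks factored out -/
theorem cr_mark {r r' o o' : ℂ} {x : Fin m → ℂ} {y : Fin M → ℂ} {a : Fin m → SignType}
    {b : Fin M → SignType} {μ : Option (Fin m)} {ν : Option (Fin M)} (hμ : live a μ = true)
    (hν : live b ν = true) (g : ∀ α β, Gz (oz r x α - oz r' y β)) :
    cr th (Lf (ea r) (ea o) (fun i => ea (x i)) (k0 μ) (kk a μ))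
      (Lf (ea r') (ea o') (fun j => ea (y j)) (k0 ν) (kk b ν)) =
    cr th (Lf (ea r) (ea o) (fun i => ea (x i)) .re fun i => bs (a i))
      (Lf (ea r') (ea o') (fun j => ea (y j)) .re fun j => bs (b j)) *
      (og r' y b (mkp r x a μ) * og r x a (mkp r' y b ν) * Dk (mkp r x a μ - mkp r' y b ν)) := by
  have key := prod_two μ ν
    (fun α β => crs th (okm a μ α) (okm b ν β) (ea (oz r x α) / ea (oz r' y β)))
    (fun α β => crs th (okb a α) (okb b β) (ea (oz r x α) / ea (oz r' y β)))
    (fun β => Rf r' y b β (mkp r x a μ)) (fun α => Rf r x a α (mkp r' y b ν))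
    (Dk (mkp r x a μ - mkp r' y b ν)) (crs_mark hμ hν g)
  rw [← og_Rf, ← og_Rf] at key
  simp only [Fintype.prod_option, okm, okb, oz] at key
  rw [cr_Lf, cr_Lf]
  have e1 : ∀ k : NUTP.Gas.K, cls k = .r → crs th k .lo (ea r / ea o') = 1 := by
    intro k hk
    unfold crs
    rw [hk]
    rfl
  have e2 : ∀ k : NUTP.Gas.K, cls k = .r → crs th .lo k (ea o / ea r') = 1 := by
    intro k hk
    unfold crs
    rw [hk]
    rfl
  have c0 : cls (k0 μ) = .r := by unfold k0; split_ifs <;> rfl
  have c1 : cls (k0 ν) = .r := by unfold k0; split_ifs <;> rfl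
  have e3 : ∏ j, crs th .lo (kk b ν j) (ea o / ea (y j)) =
      ∏ j, crs th .lo (bs (b j)) (ea o / ea (y j)) := by
    refine Finset.prod_congr rfl fun j _ => ?_
    rw [crs_lf (cls_kk _ _ _), crs_lf (cls_bs _)]
    unfold kk
    split_ifs
    · rw [t9]
    · rfl
  have e4 : ∏ i, crs th (kk a μ i) .lo (ea (x i) / ea o') =
      ∏ i, crs th (bs (a i)) .lo (ea (x i) / ea o') := by
    refine Finset.prod_congr rfl fun i _ => ?_
    rw [crs_fl (cls_kk _ _ _), crs_fl (cls_bs _)]
    unfold kk
    split_ifs
    · rw [t9]
    · rfl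
  rw [e1 _ c0, e2 _ c1, e1 .re rfl, e2 .re rfl, e3, e4]
  rw [Finset.prod_mul_distrib, Finset.prod_mul_distrib] at key
  set A := ∏ j, crs th .lo (bs (b j)) (ea o / ea (y j))
  set B := ∏ i, crs th (bs (a i)) .lo (ea (x i) / ea o')
  set C := crs th .lo .lo (ea o / ea o')
  linear_combination (A * B * C) * key

end NUP1.Leg

end
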