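import Pool.Agent.NUP1L.Link5
import Pool.Agent.NUTP.Gas.Mirror

/-!
# The function `RE` of the gas of the two-point functions
-/

set_option autoImplicit false
set_option linter.unusedSectionVars false

noncomputable section

open Complex Finset

namespace NUTP.Gas

variable {θ χ : ℂ}

/-- inverse line -/
def it (t : ℂ × Ty) : ℂ × Ty := (t.1⁻¹, t.2)
def ic (c : ℂ × K) : ℂ × K := (c.1⁻¹, c.2)

lemma own_inv (hθ : θ ^ 8 = -1) (k l : K) (u : ℂ) : own θ⁻¹ k l u = own θ k l u⁻¹ := by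
  have h := fun (k l : K) (u : ℂ) => ff_mm hθ k l u⁻¹
  have h1 := fun (k l : K) (u : ℂ) => ef_mm hθ k l u⁻¹
  have h2 := fun (k l : K) (u : ℂ) => ee_mm hθ k l u⁻¹
  simp only [inv_inv] at h h1 h2
  unfold own
  rcases cls k <;> rcases cls l <;> simp only [h, h1, h2]

lemma crs_inv (hθ : θ ^ 8 = -1) (k l : K) (u : ℂ) : crs θ⁻¹ k l u = crs θ k l u⁻¹ := by
  have h : ∀ k l u, gg θ⁻¹ k l u = gg θ k l u⁻¹ := fun k l u => by
    cases k <;> cases l <;> simp only [gg, sn_th_inv hθ]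
  have h1 := fun (k l : K) (u : ℂ) => xf_mm hθ k l u⁻¹
  have h2 : ∀ k l u, xx θ⁻¹ k l u = xx θ k l u⁻¹ := fun k l u => by
    unfold xx
    cases isM k <;> cases isM l <;> simp only [sn_th_inv hθ]
  simp only [inv_inv] at h1
  unfold crs
  rcases cls k <;> rcases cls l <;> simp only [h, h1, h2]

lemma sm_it {M : Type*} [AddCommMonoid M] (X : List (ℂ × Ty)) (φ : Cf → M) :
    sm (X.map it) φ = sm X fun e => φ (e.map ic) := by
  induction X generalizing φ with
  | nil => rfl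
  | cons t X ih =>
    rw [List.map_cons, sm_cons, sm_cons]
    congr 1
    exact List.map_congr_left fun k _ => ih _

lemma tt_ic (q : K → ℤ) (e : Cf) : tt q (e.map ic) = tt q e := by
  unfold tt
  rw [List.map_map]
  rfl

lemma ow_ic (hθ : θ ^ 8 = -1) (e : Cf) : ow θ (e.map ic) = ow θ⁻¹ e := by
  induction e with
  | nil => rfl
  | cons c e ih =>
    rw [List.map_cons]
    simp only [ow]
    rw [ih]
    congr 2
    · show w1 θ c.2 = w1 θ⁻¹ c.2
      cases c.2 <;> simp only [w1, sn_m1 hθ]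
    · unfold ow1
      rw [List.map_map]
      congr 1
      refine List.map_congr_left fun d _ => ?_
      show own θ c.2 d.2 (c.1⁻¹ / d.1⁻¹) = own θ⁻¹ c.2 d.2 (c.1 / d.1)
      rw [own_inv hθ, inv_div, inv_div_inv]

lemma cr_ic (hθ : θ ^ 8 = -1) (e f : Cf) : cr θ (e.map ic) (f.map ic) = cr θ⁻¹ e f := by
  unfold cr
  rw [List.map_map]
  congr 1
  refine List.map_congr_left fun c _ => ?_
  change cr1 θ c.1⁻¹ c.2 (f.map ic) = cr1 θ⁻¹ c.1 c.2 f
  unfold cr1
  rw [List.map_map]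
  congr 1
  refine List.map_congr_left fun d _ => ?_
  show crs θ c.2 d.2 (c.1⁻¹ / d.1⁻¹) = crs θ⁻¹ c.2 d.2 (c.1 / d.1)
  rw [crs_inv hθ, inv_div, inv_div_inv]

/-- all lines inverted -/
theorem gas_it (hθ : θ ^ 8 = -1) (X Y : List (ℂ × Ty)) :
    gas θ χ (X.map it) (Y.map it) = gas θ⁻¹ χ X Y := by
  unfold gas
  rw [sm_it, sn_m1 hθ]
  congr 1
  refine sm_congr' fun e => ?_
  rw [sm_it]
  refine sm_congr' fun f => ?_
  unfold tm
  rw [tt_ic, tt_ic, tt_ic, tt_ic, tt_ic, tt_ic, ow_ic hθ, ow_ic hθ, cr_ic hθ]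

lemma fl_it (L : List ℂ) : (fl L).map it = fl (L.map fun x => x⁻¹) := by
  unfold fl
  rw [List.map_map, List.map_map]
  rfl

/-- **`RE` is the gas with the empty ends on the right and all lines inverted** -/
theorem RE_eq (hθ : θ ^ 8 = -1) (q g : ℂ) (I J : List ℂ) (p h : ℂ) :
    (gasF θ χ true q g).RE I J p h =
      gas θ χ⁻¹ ((h⁻¹, .re) :: (p⁻¹, .lo) :: fl (I.map fun x => x⁻¹))
        ((g⁻¹, .re) :: (q⁻¹, .lo) :: fl (J.map fun x => x⁻¹)) := by
  have h1 := congrArg (fun F : Fam => F.ER I J h p) (gasF_mir (χ := χ) hθ true q g)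
  have h2 : (gasF θ χ true q g).RE I J p h = (gasF θ⁻¹ χ⁻¹ false g q).ER I J h p := h1
  rw [h2, ← fl_it, ← fl_it]
  exact (gas_it hθ ((h, .re) :: (p, .lo) :: fl I) ((g, .re) :: (q, .lo) :: fl J)).symm

end NUTP.Gas

namespace NUP1.Leg

open NUTP (th ea)
open NUTP.Gas (gasF)

variable {m M : ℕ}

/-- **The two-point function `RE` (χ = 1) as a sum over the states of the rows and the marks.** -/
theorem RE_state {p h q g : ℂ} {x : Fin m → ℂ} {y : Fin M → ℂ}
    (gx : ∀ i j, i ≠ j → Gz (x i - x j)) (gy : ∀ i j, i ≠ j → Gz (y i - y j))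
    (gg : ∀ α β, Gz (oz h x α - oz g y β)) (g1 : ∀ i, Gz (h - x i)) (g2 : ∀ i, Gz (q - x i))
    (g3 : ∀ j, Gz (g - y j)) (g4 : ∀ j, Gz (p - y j)) :
    (gasF th 1 true (ea (-q)) (ea (-g))).RE (List.ofFn fun i => ea (-x i))
      (List.ofFn fun j => ea (-y j)) (ea (-p)) (ea (-h)) =
    sin l * (Bp h q x * Bp g p y) * ∑ a : Fin m → SignType, ∑ b : Fin M → SignType,
      if ∑ i, nq (a i) + M = ∑ j, nq (b j) + m then
        sta x (hE (cc m) h p g q x y) a * sta y (hE (cc M) g q h p y x) b * crq x y a b *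
          MS h g x y a b else 0 := by
  rw [NUTP.Gas.RE_eq NUTP.th8, inv_one]
  have e : ∀ z : ℂ, (ea (-z))⁻¹ = ea z := fun z => by rw [← NUTP.ea_neg, neg_neg]
  have el : ∀ {k : ℕ} (z : Fin k → ℂ), ((List.ofFn fun i => ea (-z i)).map fun x => x⁻¹) =
      List.ofFn fun i => ea (z i) := by
    intro k z
    rw [List.map_ofFn]
    congr 1
    funext i
    exact e _
  rw [e, e, e, e, el, el]
  exact gas_state gx gy gg g1 g2 g3 g4

end NUP1.Leg

end
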