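import Pool.Agent.NUP1L.LegDefs
import Pool.Agent.NUP1.LineRes
import Pool.Agent.NUP1.Rate
import Pool.Agent.NUP1.Assem

/-!
# The double residue of the two half quanta for a fixed state of the rows
-/

set_option autoImplicit false
set_option linter.unusedSectionVars false

noncomputable section

open Complex MeasureTheory Finset

namespace NUP1.Leg

variable {m M : ℕ}

/-! ### marks -/

/-- `kap` without the factor `1 / sin z` -/
def kn (z : ℂ) : ℂ := sin (2 * l) / sin (z - 2 * l)

/-- `Pw` without its polar factor -/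
def Pn : SignType → ℂ → ℂ
  | .pos, _ => 1
  | .zero, z => sin (z + 2 * l)
  | .neg, z => sin (z + 3 * l)

/-- place of a mark -/
def mkp (p : ℂ) (x : Fin m → ℂ) (a : Fin m → SignType) : Option (Fin m) → ℂ
  | none => p
  | some i => mpl (a i) (x i)

/-- residue constant of a mark -/
def mkc (a : Fin m → SignType) : Option (Fin m) → ℂ
  | none => -1
  | some i => mrc (a i)

/-- factor of a place -/
def fc (p : ℂ) (x : Fin m → ℂ) (a : Fin m → SignType) : Option (Fin m) → ℂ → ℂ
  | none, w => kap (w - p)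
  | some i, w => Pw (a i) (w - x i)

/-- numerator of the factor of a place -/
def nm (p : ℂ) (x : Fin m → ℂ) (a : Fin m → SignType) : Option (Fin m) → ℂ → ℂ
  | none, w => kn (w - p)
  | some i, w => Pn (a i) (w - x i)

/-- does the place carry a pole -/
def live (a : Fin m → SignType) : Option (Fin m) → Bool
  | none => true
  | some i => decide (a i ≠ .neg)

/-- factor of the other end and the rows of the other species -/
def og (q : ℂ) (y : Fin M → ℂ) (b : Fin M → SignType) (w : ℂ) : ℂ :=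
  sin (w - q + 3 * l) * ∏ j, Rw (b j) (w - y j)

/-- function of one half quantum -/
def hf (p q : ℂ) (x : Fin m → ℂ) (a : Fin m → SignType) (y : Fin M → ℂ) (b : Fin M → SignType)
    (w : ℂ) : ℂ := (∏ μ, fc p x a μ w) * og q y b w

/-- weight of a mark: the residue of `hf` -/
def mkw (p q : ℂ) (x : Fin m → ℂ) (a : Fin m → SignType) (y : Fin M → ℂ) (b : Fin M → SignType)
    (μ : Option (Fin m)) : ℂ :=
  mkc a μ * (∏ ν ∈ univ.erase μ, fc p x a ν (mkp p x a μ)) * og q y b (mkp p x a μ)

theorem hf_eq (p q : ℂ) (x : Fin m → ℂ) (a : Fin m → SignType) (y : Fin M → ℂ)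
    (b : Fin M → SignType) (w : ℂ) : hf p q x a y b w =
      kap (w - p) * sin (w - q + 3 * l) * (∏ i, Pw (a i) (w - x i)) * ∏ j, Rw (b j) (w - y j) := by
  unfold hf og
  rw [Fintype.prod_option]
  simp only [fc]
  ring

theorem Psi_eq (p q : ℂ) (x : Fin m → ℂ) (y : Fin M → ℂ) (a : Fin m → SignType)
    (b : Fin M → SignType) (w w' : ℂ) :
    Psi p q x y a b w w' = hf p q x a y b w * hf q p y b x a w' := by
  rw [hf_eq, hf_eq]
  unfold Psi
  rw [Finset.prod_mul_distrib, Finset.prod_mul_distrib]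
  ring

theorem Psi_symm (p q : ℂ) (x : Fin m → ℂ) (y : Fin M → ℂ) (a : Fin m → SignType)
    (b : Fin M → SignType) (w w' : ℂ) :
    Psi p q x y a b w w' = Psi q p y x b a w' w := by
  rw [Psi_eq, Psi_eq, mul_comm]

theorem fc_eq (p : ℂ) (x : Fin m → ℂ) (a : Fin m → SignType) (μ : Option (Fin m)) (w : ℂ) :
    fc p x a μ w = nm p x a μ w * if live a μ then (sin (w - mkp p x a μ))⁻¹ else 1 := by
  rcases μ with _ | i
  · simp only [fc, nm, live, mkp, kap, kn, if_true]
    rw [div_eq_mul_inv, div_eq_mul_inv, mul_inv]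
    ring
  · simp only [fc, nm, live, mkp]
    rcases h : a i with _ | _ | _
    · show sin (w - x i + 2 * l) / sin (w - x i + l) = sin (w - x i + 2 * l) *
        if decide (SignType.zero ≠ .neg) then (sin (w - (x i - l)))⁻¹ else 1
      rw [if_pos (by decide), div_eq_mul_inv, show w - (x i - (l : ℂ)) = w - x i + l by ring]
    · show sin (w - x i + 3 * l) = sin (w - x i + 3 * l) *
        if decide (SignType.neg ≠ .neg) then (sin (w - x i))⁻¹ else 1
      rw [if_neg (by decide), mul_one]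
    · show 1 / sin (w - x i) = 1 * if decide (SignType.pos ≠ .neg) then (sin (w - x i))⁻¹ else 1
      rw [if_pos (by decide), one_div, one_mul]

/-- the residue constant is the numerator at the mark -/
theorem mkc_eq (p : ℂ) (x : Fin m → ℂ) (a : Fin m → SignType) (μ : Option (Fin m))
    (h : live a μ = true) : nm p x a μ (mkp p x a μ) = mkc a μ := by
  have hs : sin (2 * l : ℂ) ≠ 0 := by
    have hl := NUP1.lpos
    have : Real.sin (2 * l) ≠ 0 := by
      apply ne_of_gt
      apply Real.sin_pos_of_pos_of_lt_pi (by positivity)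
      unfold l
      linarith [Real.pi_pos]
    have e : (sin (2 * l : ℂ)) = ((Real.sin (2 * l) : ℝ) : ℂ) := by push_cast; rfl
    rw [e]
    exact_mod_cast this
  rcases μ with _ | i
  · simp only [nm, mkp, mkc, kn]
    rw [sub_self, zero_sub, sin_neg, div_neg, div_self hs]
  · simp only [nm, mkp, mkc]
    rcases h' : a i with _ | _ | _
    · show sin (x i - l - x i + 2 * l) = sin l
      congr 1
      ring
    · simp [live, h'] at h
    · rfl

theorem mkc_dead (a : Fin m → SignType) (μ : Option (Fin m)) (h : live a μ = false) :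
    mkc a μ = 0 := by
  rcases μ with _ | i
  · simp [live] at h
  · have h' : a i = .neg := by simpa [live] using h
    show mrc (a i) = 0
    rw [h']
    rfl

/-- numerator of `hf` -/
def Nf (p q : ℂ) (x : Fin m → ℂ) (a : Fin m → SignType) (y : Fin M → ℂ) (b : Fin M → SignType)
    (w : ℂ) : ℂ := (∏ μ, nm p x a μ w) * og q y b w

/-- live marks -/
def lv (a : Fin m → SignType) : Finset (Option (Fin m)) := univ.filter fun μ => live a μ = true

theorem hf_Nf (p q : ℂ) (x : Fin m → ℂ) (a : Fin m → SignType) (y : Fin M → ℂ)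
    (b : Fin M → SignType) (w : ℂ) : hf p q x a y b w =
      Nf p q x a y b w * ∏ μ ∈ lv a, (sin (w - mkp p x a μ))⁻¹ := by
  unfold hf Nf lv
  rw [Finset.prod_filter]
  simp_rw [fc_eq]
  rw [Finset.prod_mul_distrib]
  ring

theorem mem_lv (a : Fin m → SignType) (μ : Option (Fin m)) : μ ∈ lv a ↔ live a μ = true := by
  simp [lv]

/-- the residue of `hf` at a mark -/
theorem mkw_eq (p q : ℂ) (x : Fin m → ℂ) (a : Fin m → SignType) (y : Fin M → ℂ)
    (b : Fin M → SignType) (μ : Option (Fin m)) (h : μ ∈ lv a) : mkw p q x a y b μ =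
      Nf p q x a y b (mkp p x a μ) * ∏ ν ∈ (lv a).erase μ, (sin (mkp p x a μ - mkp p x a ν))⁻¹ := by
  have h1 := mkc_eq p x a μ ((mem_lv a μ).1 h)
  unfold mkw Nf
  rw [← h1]
  have e1 : ∏ ν ∈ univ.erase μ, fc p x a ν (mkp p x a μ) =
      (∏ ν ∈ univ.erase μ, nm p x a ν (mkp p x a μ)) *
        ∏ ν ∈ (lv a).erase μ, (sin (mkp p x a μ - mkp p x a ν))⁻¹ := by
    have e2 : (lv a).erase μ = (univ.erase μ).filter fun ν => live a ν = true := by
      unfold lv
      rw [Finset.filter_erase]
    rw [e2, Finset.prod_filter, ← Finset.prod_mul_distrib]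
    exact Finset.prod_congr rfl fun ν _ => fc_eq p x a ν _
  rw [e1, ← Finset.mul_prod_erase univ (fun ν => nm p x a ν (mkp p x a μ)) (Finset.mem_univ μ)]
  ring

/-- **one half quantum in front of an analytic spectator** -/
theorem mark1 {α β : ℝ} (h0 : β ≤ α) (hw : α - β < 8 * l) (p q : ℂ) (x : Fin m → ℂ)
    (a : Fin m → SignType) (y : Fin M → ℂ) (b : Fin M → SignType)
    (hB : ∀ μ, β < (mkp p x a μ).re ∧ (mkp p x a μ).re < α)
    (hinj : Set.InjOn (mkp p x a) (lv a))
    (hN : ∀ z : ℂ, β ≤ z.re → z.re ≤ α → DifferentiableAt ℂ (Nf p q x a y b) z) (K : ℂ → ℂ)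
    (hK : ∀ z : ℂ, β ≤ z.re → z.re ≤ α → DifferentiableAt ℂ K z) {κ : ℝ} (hκ : κ < 0)
    (gr : Gr α β κ fun z => hf p q x a y b z * K z) :
    Integrable (fun t : ℝ => hf p q x a y b (vl α t) * K (vl α t)) ∧
    Integrable (fun t : ℝ => hf p q x a y b (vl β t) * K (vl β t)) ∧
    LI α (fun z => hf p q x a y b z * K z) - LI β (fun z => hf p q x a y b z * K z) =
      ∑ μ, mkw p q x a y b μ * K (mkp p x a μ) := by
  classical
  have hinj' : ∀ μ ∈ lv a, ∀ ν ∈ lv a, mkp p x a μ = mkp p x a ν → μ = ν := fun μ h1 ν h2 h =>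
    hinj (Finset.mem_coe.2 h1) (Finset.mem_coe.2 h2) h
  set B : Finset ℂ := (lv a).image (mkp p x a) with hBd
  have eB : ∀ z : ℂ, ∏ u ∈ B, (sin (z - u))⁻¹ = ∏ μ ∈ lv a, (sin (z - mkp p x a μ))⁻¹ := by
    intro z
    rw [hBd, Finset.prod_image]
    exact fun μ h1 ν h2 h => hinj' μ h1 ν h2 h
  have eh : ∀ z : ℂ, hf p q x a y b z * K z =
      (Nf p q x a y b z * K z) * ∏ u ∈ B, (sin (z - u))⁻¹ := by
    intro z
    rw [eB, hf_Nf]
    ring
  have hd : ∀ z : ℂ, β ≤ z.re → z.re ≤ α →
      DifferentiableAt ℂ (fun z => Nf p q x a y b z * K z) z := fun z h1 h2 =>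
    (hN z h1 h2).mul (hK z h1 h2)
  obtain ⟨C, R, hC, hb⟩ := gr
  obtain ⟨i1, i2, e⟩ := line_res' (a := α) (b := β) h0 (by rw [pi_eq]; exact hw) B
    (fun u hu => by
      rw [hBd] at hu
      obtain ⟨μ, _, rfl⟩ := Finset.mem_image.1 hu
      exact hB μ)
    (fun z => Nf p q x a y b z * K z)
    (fun z hz => (hd z hz.1 hz.2).continuousAt.continuousWithinAt)
    (fun z hz => (hd z hz.1.le hz.2.le).differentiableWithinAt)
    ⟨C, -κ, R, by linarith, fun z h1 h2 h3 => by
      rw [← eh, neg_neg]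
      exact hb z h1 h2 h3⟩
  refine ⟨?_, ?_, ?_⟩
  · simp_rw [eh]
    exact i1
  · simp_rw [eh]
    exact i2
  · simp_rw [eh]
    rw [e, hBd, Finset.sum_image (fun μ h1 ν h2 h => hinj' μ h1 ν h2 h)]
    have e3 : ∑ μ, mkw p q x a y b μ * K (mkp p x a μ) =
        ∑ μ ∈ lv a, mkw p q x a y b μ * K (mkp p x a μ) := by
      symm
      refine Finset.sum_subset (Finset.subset_univ _) fun μ _ h => ?_
      have : live a μ = false := by
        rw [mem_lv] at h
        simpa using h
      unfold mkw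
      rw [mkc_dead a μ this]
      ring
    rw [e3]
    refine Finset.sum_congr rfl fun μ hμ => ?_
    rw [mkw_eq p q x a y b μ hμ]
    have e4 : ∏ u ∈ ((lv a).image (mkp p x a)).erase (mkp p x a μ), (sin (mkp p x a μ - u))⁻¹ =
        ∏ ν ∈ (lv a).erase μ, (sin (mkp p x a μ - mkp p x a ν))⁻¹ := by
      have e5 : ((lv a).image (mkp p x a)).erase (mkp p x a μ) =
          ((lv a).erase μ).image (mkp p x a) := by
        ext u
        simp only [Finset.mem_erase, Finset.mem_image]
        constructor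
        · rintro ⟨h1, ν, h2, rfl⟩
          exact ⟨ν, ⟨fun h => h1 (by rw [h]), h2⟩, rfl⟩
        · rintro ⟨ν, ⟨h1, h2⟩, rfl⟩
          exact ⟨fun h => h1 (hinj' ν h2 μ hμ h), ν, h2, rfl⟩
      rw [e5, Finset.prod_image]
      exact fun ν h1 ξ h2 h => hinj' ν (Finset.mem_of_mem_erase h1) ξ (Finset.mem_of_mem_erase h2) h
    rw [e4]
    ring

end NUP1.Leg

end
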