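import Pool.Agent.NUP1L.Mark2

/-!
# The double residue of the two half quanta: lines and Fubini
-/

set_option autoImplicit false
set_option linter.unusedSectionVars false

noncomputable section

open Complex MeasureTheory Finset

namespace NUP1.Leg

variable {m M : ℕ} {α β σ τ κ : ℝ}

/-! ### lines -/

/-- lines without poles of the half quanta -/
def Gl (σ : ℝ) : Prop := -(9 / 2 * l) < σ ∧ σ < 3 / 2 * l ∧ (σ < -(3 / 2 * l) ∨ 1 / 2 * l < σ)

/-- the data of a state of the rows -/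
structure Dat (p q : ℂ) (x : Fin m → ℂ) (y : Fin M → ℂ) (a : Fin m → SignType)
    (b : Fin M → SignType) : Prop where
  hp : |p.re| ≤ l / 2
  hq : |q.re| ≤ l / 2
  hx : ∀ i, |(x i).re| ≤ l / 2
  hy : ∀ j, |(y j).re| ≤ l / 2
  hn : ∑ i, nq (a i) + M = ∑ j, nq (b j) + m
  ix : Set.InjOn (mkp p x a) (lv a)
  iy : Set.InjOn (mkp q y b) (lv b)

variable {p q : ℂ} {x : Fin m → ℂ} {y : Fin M → ℂ} {a : Fin m → SignType} {b : Fin M → SignType}

theorem Dat.symm (D : Dat p q x y a b) : Dat q p y x b a :=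
  ⟨D.hq, D.hp, D.hy, D.hx, D.hn.symm, D.iy, D.ix⟩

theorem LI_cmul (c : ℂ) (f : ℂ → ℂ) : LI σ (fun w => c * f w) = c * LI σ f := by
  unfold LI
  rw [integral_const_mul]
  ring

theorem LI_congr {f g : ℂ → ℂ} (h : ∀ t : ℝ, f (vl σ t) = g (vl σ t)) : LI σ f = LI σ g := by
  unfold LI
  congr 1
  exact integral_congr_ae (Filter.Eventually.of_forall h)

theorem LI_sub' {f g : ℂ → ℂ} (hf : Integrable fun t : ℝ => f (vl σ t))
    (hg : Integrable fun t : ℝ => g (vl σ t)) :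
    LI σ (fun w => f w - g w) = LI σ f - LI σ g := by
  unfold LI
  rw [integral_sub hf hg]
  ring

theorem LI_add' {f g : ℂ → ℂ} (hf : Integrable fun t : ℝ => f (vl σ t))
    (hg : Integrable fun t : ℝ => g (vl σ t)) :
    LI σ (fun w => f w + g w) = LI σ f + LI σ g := by
  unfold LI
  rw [integral_add hf hg]
  ring

theorem vl_sub (s t : ℝ) : vl σ s - vl τ t = vl (σ - τ) (s - t) := by
  unfold vl
  push_cast
  ring

theorem cont_vl (f : ℂ → ℂ) (h : ∀ z : ℂ, z.re = σ → DifferentiableAt ℂ f z) :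
    Continuous fun t : ℝ => f (vl σ t) := by
  rw [continuous_iff_continuousAt]
  intro t
  refine ContinuousAt.comp (g := f) (f := fun t : ℝ => vl σ t) (h _ (vlre σ t)).continuousAt ?_
  unfold vl
  fun_prop

theorem bd_vl (f : ℂ → ℂ) (h : ∀ z : ℂ, z.re = σ → DifferentiableAt ℂ f z)
    (hg : Gr σ σ (-κ) f) : ∃ C : ℝ, 0 ≤ C ∧ ∀ t : ℝ, ‖f (vl σ t)‖ ≤ C * Real.exp (-κ * |t|) := by
  obtain ⟨D, hD, hb⟩ := line_bound (α := σ) (β := σ) (κ := κ) ⟨le_rfl, le_rfl⟩ hg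
    fun z hz => (h z hz).continuousAt
  refine ⟨D, hD, fun t => ?_⟩
  have := hb (vl σ t) (vlre σ t)
  rwa [vlim, ← neg_mul] at this

theorem Dat.df (D : Dat p q x y a b) (hs : Gl σ) (z : ℂ) (hz : z.re = σ) :
    DifferentiableAt ℂ (hf p q x a y b) z :=
  hf_diff a b D.hp D.hx D.hy (by rw [hz]; exact hs.1) (by rw [hz]; exact hs.2.1)
    (by rw [hz]; exact hs.2.2)

theorem Dat.cont (D : Dat p q x y a b) (hs : Gl σ) :
    Continuous fun t : ℝ => hf p q x a y b (vl σ t) :=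
  cont_vl _ (D.df hs)

theorem Dat.bd (D : Dat p q x y a b) (hs : Gl σ) :
    ∃ C : ℝ, 0 ≤ C ∧ ∀ t : ℝ, ‖hf p q x a y b (vl σ t)‖ ≤ C * Real.exp (-1 * |t|) :=
  bd_vl _ (D.df hs) (gr_hf p q x a y b D.hn)

theorem Dk_cont (h1 : |σ| < 5 * l) (h2 : |σ| ≠ 3 * l) : Continuous fun t : ℝ => Dk (vl σ t) :=
  cont_vl _ fun z hz => Dk_diff (by rw [hz]; exact h1) (by rw [hz]; exact h2)

theorem Dk_bd (h1 : |σ| < 5 * l) (h2 : |σ| ≠ 3 * l) :
    ∃ C : ℝ, 0 ≤ C ∧ ∀ t : ℝ, ‖Dk (vl σ t)‖ ≤ C := by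
  obtain ⟨C, hC, h⟩ := bd_vl (σ := σ) (κ := 1) Dk
    (fun z hz => Dk_diff (by rw [hz]; exact h1) (by rw [hz]; exact h2))
    ((gr_Dk (α := σ) (β := σ) 0).congr (g := Dk) 0 fun z _ _ _ => by rw [sub_zero])
  refine ⟨C, hC, fun t => (h t).trans ?_⟩
  have : Real.exp (-1 * |t|) ≤ 1 := Real.exp_le_one_iff.2 (by linarith [abs_nonneg t])
  nlinarith

theorem Phi_eq (p q : ℂ) (x : Fin m → ℂ) (y : Fin M → ℂ) (a : Fin m → SignType)
    (b : Fin M → SignType) (w w' : ℂ) : Phi p q x y a b w w' =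
      Dk (w - w') * (hf p q x a y b w * hf q p y b x a w') := by
  unfold Phi
  rw [Psi_eq]

theorem Phi_symm (p q : ℂ) (x : Fin m → ℂ) (y : Fin M → ℂ) (a : Fin m → SignType)
    (b : Fin M → SignType) (w w' : ℂ) :
    Phi p q x y a b w w' = Phi q p y x b a w' w := by
  rw [Phi_eq, Phi_eq, Dk_comm]
  ring

theorem Dat.prod (D : Dat p q x y a b) (hs : Gl σ) (ht : Gl τ) (h1 : |σ - τ| < 5 * l)
    (h2 : |σ - τ| ≠ 3 * l) :
    Integrable (fun s : ℝ × ℝ => Phi p q x y a b (vl σ s.1) (vl τ s.2))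
      ((volume : Measure ℝ).prod (volume : Measure ℝ)) := by
  obtain ⟨A, hA, ha⟩ := D.bd hs
  obtain ⟨B, hB, hb⟩ := D.symm.bd ht
  obtain ⟨C, hC, hc⟩ := Dk_bd h1 h2
  have i1 : Integrable (fun s : ℝ × ℝ => Real.exp (-1 * |s.1|) * Real.exp (-1 * |s.2|))
      ((volume : Measure ℝ).prod (volume : Measure ℝ)) :=
    (integrable_exp_neg_abs one_pos).mul_prod (integrable_exp_neg_abs one_pos)
  refine (i1.const_mul (C * (A * B))).mono' ?_ (Filter.Eventually.of_forall fun s => ?_)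
  · refine Continuous.aestronglyMeasurable ?_
    simp_rw [Phi_eq, vl_sub]
    refine ((Dk_cont h1 h2).comp (by fun_prop : Continuous fun s : ℝ × ℝ => s.1 - s.2)).mul ?_
    exact ((D.cont hs).comp continuous_fst).mul ((D.symm.cont ht).comp continuous_snd)
  · rw [Phi_eq, vl_sub, norm_mul, norm_mul]
    calc ‖Dk (vl (σ - τ) (s.1 - s.2))‖ * (‖hf p q x a y b (vl σ s.1)‖ * ‖hf q p y b x a (vl τ s.2)‖)
        ≤ C * ((A * Real.exp (-1 * |s.1|)) * (B * Real.exp (-1 * |s.2|))) := by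
          refine mul_le_mul (hc _) (mul_le_mul (ha _) (hb _) (norm_nonneg _) (by positivity))
            (by positivity) hC
      _ = _ := by ring

/-- integrability of the inner integral -/
theorem Dat.outer (D : Dat p q x y a b) (hs : Gl σ) (ht : Gl τ) (h1 : |σ - τ| < 5 * l)
    (h2 : |σ - τ| ≠ 3 * l) :
    Integrable fun t : ℝ => LI τ (Phi p q x y a b (vl σ t)) := by
  unfold LI
  exact (D.prod hs ht h1 h2).integral_prod_left.const_mul _

theorem Dat.inner (D : Dat p q x y a b) (_hs : Gl σ) (ht : Gl τ) (h1 : |σ - τ| < 5 * l)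
    (h2 : |σ - τ| ≠ 3 * l) (w : ℂ) (hw : w.re = σ) :
    Integrable fun t : ℝ => Phi p q x y a b w (vl τ t) := by
  obtain ⟨B, hB, hb⟩ := D.symm.bd ht
  obtain ⟨C, hC, hc⟩ := Dk_bd h1 h2
  have hw' : w = vl σ w.im := by
    apply Complex.ext
    · rw [vlre, hw]
    · rw [vlim]
  rw [hw']
  refine (((integrable_exp_neg_abs one_pos).const_mul
    (C * (‖hf p q x a y b (vl σ w.im)‖ * B)))).mono' ?_ (Filter.Eventually.of_forall fun t => ?_)
  · refine Continuous.aestronglyMeasurable ?_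
    simp_rw [Phi_eq, vl_sub]
    exact ((Dk_cont h1 h2).comp (by fun_prop : Continuous fun s : ℝ => w.im - s)).mul
      (continuous_const.mul (D.symm.cont ht))
  · rw [Phi_eq, vl_sub, norm_mul, norm_mul]
    calc ‖Dk (vl (σ - τ) (w.im - t))‖ * (‖hf p q x a y b (vl σ w.im)‖ * ‖hf q p y b x a (vl τ t)‖)
        ≤ C * (‖hf p q x a y b (vl σ w.im)‖ * (B * Real.exp (-1 * |t|))) := by
          refine mul_le_mul (hc _) (mul_le_mul le_rfl (hb _) (norm_nonneg _) (norm_nonneg _))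
            (by positivity) hC
      _ = _ := by ring

theorem Dat.swap (D : Dat p q x y a b) (hs : Gl σ) (ht : Gl τ) (h1 : |σ - τ| < 5 * l)
    (h2 : |σ - τ| ≠ 3 * l) :
    LI σ (fun w => LI τ (Phi p q x y a b w)) = LI τ fun w' => LI σ (Phi q p y x b a w') := by
  have h := D.prod hs ht h1 h2
  unfold LI
  rw [integral_const_mul, integral_const_mul]
  congr 2
  rw [integral_integral_swap h]
  simp_rw [Phi_symm p q x y a b]

end NUP1.Leg

end
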