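import Pool.Agent.NUP1L.FinalE

/-!
# Exchange of the two half quanta, dependence on the rows

`E11_swap`: the eleven integrals are symmetric under the exchange of the two species together with
the two half quanta.  `E11_congr`: they depend on the rows only through products over the rows.
-/

set_option autoImplicit false
set_option linter.unusedSectionVars false

noncomputable section

open Complex MeasureTheory Filter Topology

namespace NUP1

/-! ### double line integrals -/

/-- Fubini -/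
theorem LL_swap {σ τ : ℝ} {f : ℂ → ℂ → ℂ} (h : G2 σ τ f) :
    LL σ τ f = LL τ σ fun w w' => f w' w := by
  have e : ∀ (σ τ : ℝ) (f : ℂ → ℂ → ℂ), LL σ τ f =
      (2 * Real.pi : ℂ)⁻¹ * ((2 * Real.pi : ℂ)⁻¹ * ∫ s : ℝ, ∫ t : ℝ, f (vl σ s) (vl τ t)) := by
    intro σ τ f
    rw [← integral_const_mul]
    rfl
  rw [e, e, integral_integral_swap h.joint]

namespace N

open Bd (Ob chg wt pw pt oneL Dec cwo Hc Ql qg measurable_Hc measurable_Ql rl X2 F2 cwz qg_neg)
open Leg (Ck Dk kap)

/-! ### exchange of the species -/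

theorem cwz_neg (k k' : Ob) (z : ℂ) : cwz k k' z = cwz k' k (-z) := by
  have h1 : qg (-z + l) = qg (z - l) := by
    rw [← qg_neg]
    congr 1
    ring
  have h2 : qg (-z - l) = qg (z + l) := by
    rw [← qg_neg]
    congr 1
    ring
  cases k <;> cases k' <;> simp only [cwz, qg_neg, h1, h2]
  ring

theorem X2_swap (α β : ℝ) {r r' : ℕ} (k : Fin r → Ob) (k' : Fin r' → Ob) (t : Fin r → ℝ)
    (t' : Fin r' → ℝ) : X2 α β k k' t t' = X2 α β k' k t' t := by
  unfold Bd.X2
  rw [Finset.prod_comm]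
  refine Finset.prod_congr rfl fun j _ => Finset.prod_congr rfl fun i _ => ?_
  rw [cwz_neg, neg_sub]

theorem F2_swap (α β : ℝ) (GX GY : ℂ → ℂ) {r r' : ℕ} (k : Fin r → Ob) (k' : Fin r' → Ob)
    (p : (Fin r → ℝ) × (Fin r' → ℝ)) :
    F2 α β GX GY k k' p = F2 α β GY GX k' k p.swap := by
  unfold Bd.F2
  rw [X2_swap]
  simp only [Prod.fst_swap, Prod.snd_swap]
  ring

/-- **Exchange of the two species.** -/
theorem Z3_swap (α β : ℝ) (n n' : ℕ) (GX GY : ℂ → ℂ) :
    Z3 α β n n' GX GY = Z3 α β n' n GY GX := by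
  have hI : ∀ {r r' : ℕ} (k : Fin r → Ob) (k' : Fin r' → Ob),
      ∫ p, F2 α β GX GY k k' p ∂((Measure.pi fun _ => volume).prod
        (Measure.pi fun _ => volume)) =
      ∫ p, F2 α β GY GX k' k p ∂((Measure.pi fun _ => volume).prod
        (Measure.pi fun _ => volume)) := by
    intro r r' k k'
    rw [← integral_prod_swap]
    refine integral_congr_ae (Eventually.of_forall fun p => ?_)
    exact F2_swap α β GX GY k k' p.swap
  have e1 : ∀ (n n' : ℕ) (J : ∀ r r' : ℕ, (Fin r → Ob) → (Fin r' → Ob) → ℂ),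
      (∑ r' ∈ Finset.range (n' + 1), ((r'.factorial : ℕ) : ℂ)⁻¹ * ∑ k' : Fin r' → Ob,
        if ∑ i, chg (k' i) = n' then (∏ i, wt (k' i)) *
          ∑ r ∈ Finset.range (n + 1), ((r.factorial : ℕ) : ℂ)⁻¹ * ∑ k : Fin r → Ob,
            if ∑ i, chg (k i) = n then (∏ i, wt (k i)) * J r r' k k' else 0
        else 0) =
      ∑ r' ∈ Finset.range (n' + 1), ∑ r ∈ Finset.range (n + 1), ∑ k' : Fin r' → Ob,
        ∑ k : Fin r → Ob, ((r'.factorial : ℕ) : ℂ)⁻¹ * ((r.factorial : ℕ) : ℂ)⁻¹ *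
          (if ∑ i, chg (k' i) = n' then (∏ i, wt (k' i)) else 0) *
          (if ∑ i, chg (k i) = n then (∏ i, wt (k i)) else 0) * J r r' k k' := by
    intro n n' J
    refine Finset.sum_congr rfl fun r' _ => ?_
    rw [Finset.mul_sum, Finset.sum_comm]
    refine Finset.sum_congr rfl fun k' _ => ?_
    split_ifs with h
    · rw [Finset.mul_sum, Finset.mul_sum]
      refine Finset.sum_congr rfl fun r _ => ?_
      rw [Finset.mul_sum, Finset.mul_sum, Finset.mul_sum]
      refine Finset.sum_congr rfl fun k _ => ?_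
      split_ifs with h'
      · ring
      · ring
    · simp
  unfold Z3
  rw [e1 n n' fun r r' k k' => _, e1 n' n fun r r' k k' => _, Finset.sum_comm]
  refine Finset.sum_congr rfl fun r _ => Finset.sum_congr rfl fun r' _ => ?_
  rw [Finset.sum_comm]
  refine Finset.sum_congr rfl fun k _ => Finset.sum_congr rfl fun k' _ => ?_
  rw [hI]
  ring

theorem Dk_neg (z : ℂ) : Dk (-z) = Dk z := by
  unfold Leg.Dk
  rw [Complex.cos_neg, sub_neg_eq_add, ← sub_eq_add_neg, mul_comm (sin (3 * l + z))]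

theorem Dk_comm (w w' : ℂ) : Dk (w - w') = Dk (w' - w) := by
  rw [← Dk_neg, neg_sub]

variable {α β A B : ℝ} {m M : ℕ}

section sw
variable (p q : ℂ) (x : Fin m → ℂ) (y : Fin M → ℂ) (hX hY : ℂ → ℂ) (n n' : ℕ) (w w' : ℂ)

theorem I0_swap : I0 α β p q x y hX hY n n' w w' = I0 α β q p y x hY hX n' n w' w := by
  unfold I0
  rw [Dk_comm, Z3_swap]
  have e1 : GYs hY y w w' = GXs hY y w' w := by
    funext u
    unfold GYs GXs
    ring
  have e2 : GXs hX x w w' = GYs hX x w' w := by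
    funext u
    unfold GYs GXs
    ring
  rw [e1, e2]
  ring

theorem ZP_swap : ZP' α β x y hX hY n n' w w' = ZP α β y x hY hX n' n w' w := by
  unfold ZP' ZP
  split_ifs
  · rw [Z3_swap]
    congr 1
    funext v
    ring
  · rfl

theorem IP_swap : IP' α β p q x y hX hY n n' w w' = IP α β q p y x hY hX n' n w' w := by
  unfold IP' IP
  rw [Dk_comm, ZP_swap]
  ring

theorem ZPP_swap : ZPP α β x y hX hY n n' w w' = ZPP α β y x hY hX n' n w' w := by
  unfold ZPP
  by_cases h : 1 ≤ n ∧ 1 ≤ n'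
  · rw [if_pos h, if_pos h.symm, Z3_swap]
    congr 1
    · funext v
      ring
    · funext v
      ring
  · rw [if_neg h, if_neg fun h' => h h'.symm]

theorem IPP_swap : IPP α β p q x y hX hY n n' w w' = IPP α β q p y x hY hX n' n w' w := by
  unfold IPP
  rw [Dk_comm, ZPP_swap, qg_comm]
  ring

theorem ID_swap : ID α β p q x y hX hY n n' w = ID' α β q p y x hY hX n' n w := by
  unfold ID ID'
  rw [Z3_swap]

end sw

/-- **Exchange of the two half quanta.** -/
theorem E11_swap (L : Ln α β A B) {D κ R : ℝ} {p q : ℂ} {x y : Fin m → ℂ} {hX hY : ℂ → ℂ}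
    (U : UD α β B D κ R p q x y hX hY) (hK : 2 < κ + m) (n : ℕ) :
    E11 α β p q x y hX hY n n A B = E11 α β q p y x hY hX n n A B := by
  have hA : LnAB A B A := Or.inl rfl
  have hB : LnAB A B B := Or.inr rfl
  have g0 : ∀ {σ τ : ℝ}, LnAB A B σ → LnAB A B τ → G2 σ τ (I0 α β p q x y hX hY n n) :=
    fun {σ τ} h1 h2 => by
      obtain ⟨C, hC⟩ := db_I0 (m := m) L D κ R n hK h1 h2
      exact ⟨m_I0 U.mX U.mY p q n n, C, hC p q x y hX hY U⟩
  have g1 : ∀ {τ : ℝ}, LnAB A B τ → G2 B τ (IP α β p q x y hX hY n n) := fun {τ} h => by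
    obtain ⟨C, hC⟩ := db_IP (m := m) L D κ R n hK h
    exact ⟨m_IP U.mX U.mY p q n n, C, hC p q x y hX hY U⟩
  have g2 : ∀ {τ : ℝ}, LnAB A B τ → G2 τ B (IP' α β p q x y hX hY n n) := fun {τ} h => by
    obtain ⟨C, hC⟩ := db_IP' (m := m) L D κ R n hK h
    exact ⟨m_IP' U.mX U.mY p q n n, C, hC p q x y hX hY U⟩
  have g3 : G2 B B (IPP α β p q x y hX hY n n) := by
    obtain ⟨C, hC⟩ := db_IPP (m := m) L D κ R n hK
    exact ⟨m_IPP U.mX U.mY p q n n, C, hC p q x y hX hY U⟩
  have s0 : ∀ {σ τ : ℝ}, LnAB A B σ → LnAB A B τ → LL σ τ (I0 α β p q x y hX hY n n) =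
      LL τ σ (I0 α β q p y x hY hX n n) := fun {σ τ} h1 h2 => by
    rw [LL_swap (g0 h1 h2)]
    congr 1
    funext w w'
    exact I0_swap p q x y hX hY n n w' w
  have s1 : ∀ {τ : ℝ}, LnAB A B τ → LL B τ (IP α β p q x y hX hY n n) =
      LL τ B (IP' α β q p y x hY hX n n) := fun {τ} h => by
    rw [LL_swap (g1 h)]
    congr 1
    funext w w'
    exact (IP_swap q p y x hY hX n n w w').symm
  have s2 : ∀ {τ : ℝ}, LnAB A B τ → LL τ B (IP' α β p q x y hX hY n n) =
      LL B τ (IP α β q p y x hY hX n n) := fun {τ} h => by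
    rw [LL_swap (g2 h)]
    congr 1
    funext w w'
    exact IP_swap p q x y hX hY n n w' w
  have s3 : LL B B (IPP α β p q x y hX hY n n) = LL B B (IPP α β q p y x hY hX n n) := by
    rw [LL_swap g3]
    congr 1
    funext w w'
    exact IPP_swap p q x y hX hY n n w' w
  have s4 : ID α β p q x y hX hY n n = ID' α β q p y x hY hX n n := by
    funext w
    exact ID_swap p q x y hX hY n n w
  have s5 : ID' α β p q x y hX hY n n = ID α β q p y x hY hX n n := by
    funext w
    exact (ID_swap q p y x hY hX n n w).symm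
  unfold E11
  rw [s0 hA hA, s0 hA hB, s0 hB hA, s0 hB hB, s1 hA, s1 hB, s2 hA, s2 hB, s3, s4, s5]
  ring

/-! ### dependence on the rows -/

/-- all products over the rows are equal -/
def PE (x x' : Fin m → ℂ) : Prop := ∀ f : ℂ → ℂ, ∏ i, f (x i) = ∏ i, f (x' i)

theorem PE.symm {x x' : Fin m → ℂ} (h : PE x x') : PE x' x := fun f => (h f).symm

theorem PE.trans {x x' x'' : Fin m → ℂ} (h : PE x x') (h' : PE x' x'') : PE x x'' :=
  fun f => (h f).trans (h' f)

theorem PE.rA {x x' : Fin m → ℂ} (h : PE x x') : rA x = rA x' := by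
  funext w
  exact h fun v => 1 / sin (w - v)

theorem PE.rB {x x' : Fin m → ℂ} (h : PE x x') : rB x = rB x' := by
  funext w
  exact h fun v => sin (w - v + 3 * l)

theorem PE.Gr0 {x x' : Fin m → ℂ} (h : PE x x') (f : ℂ → ℂ) : Gr0 f x = Gr0 f x' := by
  funext w
  unfold N.Gr0
  rw [h fun v => 1 / sin (w - v)]

theorem PE.prc {x x' : Fin m → ℂ} (h : PE x x') (p q : ℂ) : prc p q x = prc p q x' := by
  funext w
  unfold N.prc
  rw [h.rA]

theorem PE.pr1 {x x' : Fin m → ℂ} {y y' : Fin M → ℂ} (h : PE x x') (h' : PE y y') (p q : ℂ) :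
    pr1 p q x y = pr1 p q x' y' := by
  funext w
  unfold N.pr1
  rw [h.prc, h'.rB]

theorem PE.XD {x x' : Fin m → ℂ} (h : PE x x') (p q : ℂ) : XD p q x = XD p q x' := by
  funext w
  unfold N.XD
  rw [h fun v => -sin (w - v - 2 * l) / sin (w - v)]

/-- **The eleven integrals depend on the rows only through products.** -/
theorem E11_congr {x x' : Fin m → ℂ} {y y' : Fin M → ℂ} (h : PE x x') (h' : PE y y') (p q : ℂ)
    (hX hY : ℂ → ℂ) (n n' : ℕ) :
    E11 α β p q x y hX hY n n' A B = E11 α β p q x' y' hX hY n n' A B := by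
  have a0 : I0 α β p q x y hX hY n n' = I0 α β p q x' y' hX hY n n' := by
    unfold I0 GXs GYs
    simp only [h.pr1 h', h'.pr1 h, h.Gr0, h'.Gr0]
  have a1 : IP α β p q x y hX hY n n' = IP α β p q x' y' hX hY n n' := by
    unfold IP ZP
    simp only [h.prc, h'.pr1 h, h.Gr0, h'.Gr0]
  have a2 : IP' α β p q x y hX hY n n' = IP' α β p q x' y' hX hY n n' := by
    unfold IP' ZP'
    simp only [h.pr1 h', h'.prc, h.Gr0, h'.Gr0]
  have a3 : IPP α β p q x y hX hY n n' = IPP α β p q x' y' hX hY n n' := by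
    unfold IPP ZPP
    simp only [h.prc, h'.prc, h.Gr0, h'.Gr0]
  have a4 : ID α β p q x y hX hY n n' = ID α β p q x' y' hX hY n n' := by
    unfold ID
    simp only [h'.XD, h.Gr0, h'.Gr0]
  have a5 : ID' α β p q x y hX hY n n' = ID' α β p q x' y' hX hY n n' := by
    unfold ID'
    simp only [h.XD, h.Gr0, h'.Gr0]
  unfold E11
  rw [a0, a1, a2, a3, a4, a5]

end N

end NUP1

end
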