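import Pool.Agent.NU5.Final2
import Pool.Agent.NUP1L.LegGas
import Pool.Agent.NUP1L.FinalC
import Pool.Agent.NUP1L.Swap
import Pool.Agent.NUMFH.Pre

/-!
# The alternating rows of the vertical cylinder, pulled apart

`pt0 c d e = - ph c + i e d`: the rows of `NU5` (line = `ea (- x)`) at distinct heights `e d`.
-/

set_option autoImplicit false
set_option linter.unusedSectionVars false

noncomputable section

open Complex MeasureTheory Filter Topology

namespace NUP1.Rws

open Pool.Agent.NU5 (ph)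
open NUTP (th)
open Leg (Ht Rp)
open NUP1.N (Bx PE)
open NUMFH (rw2)

/-- the row number `c` at the height `e d` -/
def pt0 (c d : ℕ) (e : ℝ) : ℂ := -ph c + ((e * d : ℝ) : ℂ) * I

/-- rows number `c`, `c + 1`, … at the heights `e d`, `e (d + 1)`, … -/
def alt (c d : ℕ) {m : ℕ} (e : ℝ) (i : Fin m) : ℂ := pt0 (c + i.val) (d + i.val) e

/-- real part of a row -/
def rp (c : ℕ) : ℝ := if c % 2 = 0 then l / 2 else -(l / 2)

theorem ph_eq (c : ℕ) : -ph c = (rp c : ℂ) := by
  have h : (l : ℂ) = Pool.Agent.EXL.Fm.lam := by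
    rw [← Pool.Agent.NU5.lam_eq]
    rfl
  unfold Pool.Agent.NU5.ph rp
  rw [← h]
  split_ifs
  · push_cast
    ring
  · push_cast
    ring

theorem rp_abs (c : ℕ) : |rp c| ≤ l / 2 := by
  have hl := lpos
  unfold rp
  split_ifs
  · rw [abs_of_pos (by linarith)]
  · rw [abs_neg, abs_of_pos (by linarith)]

theorem rp_even {c : ℕ} (h : c % 2 = 0) : rp c = l / 2 := if_pos h

theorem rp_odd {c : ℕ} (h : c % 2 = 1) : rp c = -(l / 2) := if_neg (by omega)

theorem pt0_re (c d : ℕ) (e : ℝ) : (pt0 c d e).re = rp c := by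
  unfold pt0
  rw [ph_eq]
  simp

theorem pt0_im (c d : ℕ) (e : ℝ) : (pt0 c d e).im = e * d := by
  unfold pt0
  rw [ph_eq]
  simp

theorem pt0_zero (c d : ℕ) : pt0 c d 0 = -ph c := by
  unfold pt0
  simp

theorem im_ne {c d c' d' : ℕ} {e : ℝ} (he : 0 < e) (h : d ≠ d') :
    (pt0 c d e).im ≠ (pt0 c' d' e).im := by
  rw [pt0_im, pt0_im]
  intro h'
  exact h (by exact_mod_cast mul_left_cancel₀ he.ne' h')

theorem pt0_box {c d : ℕ} {e R : ℝ} (he : 0 ≤ e) (he' : e ≤ 1) (hd : (d : ℝ) ≤ R) :
    Bx R (pt0 c d e) := by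
  refine ⟨?_, ?_⟩
  · rw [pt0_re]
    exact rp_abs c
  · rw [pt0_im, abs_of_nonneg (by positivity)]
    have h0 : (0 : ℝ) ≤ d := Nat.cast_nonneg d
    nlinarith

theorem pt0_tendsto (c d : ℕ) : Tendsto (pt0 c d) (𝓝[>] 0) (𝓝 (-ph c)) := by
  have h : Continuous (pt0 c d) := by
    unfold pt0
    fun_prop
  have h2 := (h.tendsto 0).mono_left (nhdsWithin_le_nhds (s := Set.Ioi (0 : ℝ)))
  rwa [pt0_zero] at h2

theorem pt0_tendsto' (c d : ℕ) : Tendsto (fun e => -pt0 c d e) (𝓝[>] 0) (𝓝 (ph c)) := by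
  have := (pt0_tendsto c d).neg
  rwa [neg_neg] at this

theorem alt_tendsto (c d : ℕ) {m : ℕ} (i : Fin m) :
    Tendsto (fun e => alt c d e i) (𝓝[>] 0) (𝓝 (-ph (c + i.val))) := pt0_tendsto _ _

/-! ### the family -/

section fam
variable (M : ℕ)

/-- rows of the species `X` (above the second cut row) -/
def xE (e : ℝ) (i : Fin (2 * M)) : ℂ := alt (2 * M + 1 + 1) 1 e i

/-- rows of the species `Y` (between the cut rows) -/
def yE (e : ℝ) (i : Fin (2 * M)) : ℂ := alt 1 (2 * M + 1) e i

/-- right end of the first cut row -/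
def pE (e : ℝ) : ℂ := pt0 0 (4 * M + 1) e

/-- left end of the first cut row -/
def hE' (e : ℝ) : ℂ := pt0 0 (4 * M + 2) e

/-- right end of the second cut row -/
def qE (e : ℝ) : ℂ := pt0 (2 * M + 1) (4 * M + 3) e

/-- left end of the second cut row -/
def gE (e : ℝ) : ℂ := pt0 (2 * M + 1) (4 * M + 4) e

variable {M} {e : ℝ}

theorem Ht_E (he : 0 < e) : Ht (pE M e) (hE' M e) (qE M e) (gE M e) (xE M e) (yE M e) where
  xx i j hij := im_ne he (by
    intro h
    exact hij (Fin.ext (by omega)))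
  yy i j hij := im_ne he (by
    intro h
    exact hij (Fin.ext (by omega)))
  xy i j := im_ne he (by have := i.isLt; omega)
  hx i := im_ne he (by have := i.isLt; omega)
  hy i := im_ne he (by have := i.isLt; omega)
  gx i := im_ne he (by have := i.isLt; omega)
  gy i := im_ne he (by have := i.isLt; omega)
  hg := im_ne he (by omega)
  qx i := im_ne he (by have := i.isLt; omega)
  py i := im_ne he (by have := i.isLt; omega)

theorem Rp_E (M : ℕ) (e : ℝ) : Rp (hE' M e) (gE M e) (xE M e) (yE M e) where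
  h := by
    unfold hE'
    rw [pt0_re]
    exact rp_abs _
  g := by
    unfold gE
    rw [pt0_re]
    exact rp_abs _
  x i := by
    unfold xE alt
    rw [pt0_re]
    exact rp_abs _
  y i := by
    unfold yE alt
    rw [pt0_re]
    exact rp_abs _

/-- size of the box -/
def Rb (M : ℕ) : ℝ := 4 * M + 4

theorem box_aux {d : ℕ} (h : d ≤ 4 * M + 4) : (d : ℝ) ≤ Rb M := by
  unfold Rb
  exact_mod_cast h

theorem box_E (h0 : 0 ≤ e) (h1 : e ≤ 1) : Bx (Rb M) (pE M e) ∧ Bx (Rb M) (hE' M e) ∧
    Bx (Rb M) (qE M e) ∧ Bx (Rb M) (gE M e) ∧ (∀ i, Bx (Rb M) (xE M e i)) ∧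
      ∀ i, Bx (Rb M) (yE M e i) :=
  ⟨pt0_box h0 h1 (box_aux (by omega)), pt0_box h0 h1 (box_aux (by omega)),
    pt0_box h0 h1 (box_aux (by omega)), pt0_box h0 h1 (box_aux (by omega)),
    fun i => pt0_box h0 h1 (box_aux (by have := i.isLt; omega)),
    fun i => pt0_box h0 h1 (box_aux (by have := i.isLt; omega))⟩

/-- generic lines -/
theorem G_E (he : 0 < e) : NUTP.G th (NUTP.ea (-pE M e) :: NUTP.ea (-hE' M e) ::
    NUTP.ea (-qE M e) :: NUTP.ea (-gE M e) ::
      ((List.ofFn fun i => NUTP.ea (-xE M e i)) ++ List.ofFn fun i => NUTP.ea (-yE M e i))) := by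
  have e1 : (NUTP.ea (-pE M e) :: NUTP.ea (-hE' M e) ::
      NUTP.ea (-qE M e) :: NUTP.ea (-gE M e) ::
      ((List.ofFn fun i => NUTP.ea (-xE M e i)) ++ List.ofFn fun i => NUTP.ea (-yE M e i))) =
      (-pE M e :: -hE' M e :: -qE M e :: -gE M e ::
        ((List.ofFn fun i => -xE M e i) ++ List.ofFn fun i => -yE M e i)).map NUTP.ea := by
    simp [List.map_ofFn, Function.comp_def]
  rw [e1, NUTP.G_ea]
  have key : (-pE M e :: -hE' M e :: -qE M e :: -gE M e ::
      ((List.ofFn fun i => -xE M e i) ++ List.ofFn fun i => -yE M e i)).Pairwise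
      fun z w => z.im ≠ w.im := by
    have im' : ∀ {c d c' d' : ℕ}, d ≠ d' → (-pt0 c d e).im ≠ (-pt0 c' d' e).im := by
      intro c d c' d' h h'
      rw [neg_im, neg_im, neg_inj] at h'
      exact im_ne he h h'
    simp only [List.pairwise_cons, List.pairwise_append, List.pairwise_ofFn, List.mem_cons,
      List.mem_append, List.mem_ofFn]
    refine ⟨?_, ?_, ?_, ?_, ?_, ?_, ?_⟩
    · rintro z (rfl | rfl | rfl | ⟨i, rfl⟩ | ⟨i, rfl⟩)
      · exact im' (by omega)
      · exact im' (by omega)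
      · exact im' (by omega)
      · exact im' (by have := i.isLt; omega)
      · exact im' (by have := i.isLt; omega)
    · rintro z (rfl | rfl | ⟨i, rfl⟩ | ⟨i, rfl⟩)
      · exact im' (by omega)
      · exact im' (by omega)
      · exact im' (by have := i.isLt; omega)
      · exact im' (by have := i.isLt; omega)
    · rintro z (rfl | ⟨i, rfl⟩ | ⟨i, rfl⟩)
      · exact im' (by omega)
      · exact im' (by have := i.isLt; omega)
      · exact im' (by have := i.isLt; omega)
    · rintro z (⟨i, rfl⟩ | ⟨i, rfl⟩)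
      · exact im' (by have := i.isLt; omega)
      · exact im' (by have := i.isLt; omega)
    · intro i j hij
      have : i.val < j.val := hij
      exact im' (by omega)
    · intro i j hij
      have : i.val < j.val := hij
      exact im' (by omega)
    · rintro z ⟨i, rfl⟩ w ⟨j, rfl⟩
      exact im' (by have := i.isLt; have := j.isLt; omega)
  refine key.imp fun {z w} h k => ?_
  refine sin_ne_im ?_
  have e2 : (z - w + (k : ℂ) * NUTP.lam).im = z.im - w.im := by
    rw [show NUTP.lam = (l : ℂ) from rfl]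
    simp
  rw [e2]
  exact sub_ne_zero.2 h

end fam

/-! ### products over the rows -/

theorem rp_add2 (c : ℕ) : rp (c + 2) = rp c := by
  unfold rp
  rw [Nat.add_mod_right]

theorem rp_pair (c : ℕ) (f : ℝ → ℂ) : f (rp c) * f (rp (c + 1)) = f (l / 2) * f (-(l / 2)) := by
  rcases Nat.mod_two_eq_zero_or_one c with h | h
  · rw [rp_even h, rp_odd (by omega : (c + 1) % 2 = 1)]
  · rw [rp_odd h, rp_even (by omega : (c + 1) % 2 = 0), mul_comm]

theorem rp_add_two_mul (c M : ℕ) : rp (c + 2 * M) = rp c := by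
  induction M with
  | zero => rfl
  | succ M ih => rw [show c + 2 * (M + 1) = c + 2 * M + 2 by ring, rp_add2, ih]

theorem prod_rp (c M : ℕ) (f : ℝ → ℂ) :
    ∏ i : Fin (2 * M), f (rp (c + i.val)) = f (l / 2) ^ M * f (-(l / 2)) ^ M := by
  rw [Fin.prod_univ_eq_prod_range (fun i => f (rp (c + i))) (2 * M)]
  induction M with
  | zero => simp
  | succ M ih =>
    rw [show 2 * (M + 1) = 2 * M + 1 + 1 by ring, Finset.prod_range_succ, Finset.prod_range_succ,
      ih, mul_assoc, rp_add_two_mul, show c + (2 * M + 1) = c + 1 + 2 * M by ring,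
      rp_add_two_mul, rp_pair, pow_succ, pow_succ]
    ring

/-- the alternating rows at the limit -/
def xL (c : ℕ) {m : ℕ} (i : Fin m) : ℂ := -ph (c + i.val)

/-- the signs of the rows -/
def sg (c : ℕ) {m : ℕ} (i : Fin m) : Bool := decide ((c + i.val) % 2 = 0)

theorem xL_rw2 (c : ℕ) {m : ℕ} : (xL c : Fin m → ℂ) = rw2 (sg c) := by
  funext i
  unfold xL NUMFH.rw2 sg
  rw [ph_eq]
  unfold rp
  congr 1
  by_cases h : (c + i.val) % 2 = 0
  · simp [h]
  · simp [h]

theorem card_sg (c M : ℕ) :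
    (Finset.univ.filter fun i : Fin (2 * M) => sg c i = true).card = M ∧
    (Finset.univ.filter fun i : Fin (2 * M) => sg c i = false).card = M := by
  have h1 : (Finset.univ.filter fun i : Fin (2 * M) => sg c i = true).card = M := by
    rw [Finset.card_filter]
    have e : ∀ i : Fin (2 * M), (if sg c i = true then 1 else 0) =
        (fun i : ℕ => if (c + i) % 2 = 0 then 1 else 0) i.val := by
      intro i
      unfold sg
      simp
    rw [Finset.sum_congr rfl fun i _ => e i,
      Fin.sum_univ_eq_sum_range (fun i : ℕ => if (c + i) % 2 = 0 then 1 else 0) (2 * M)]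
    induction M with
    | zero => simp
    | succ M ih =>
      rw [show 2 * (M + 1) = 2 * M + 1 + 1 by ring, Finset.sum_range_succ, Finset.sum_range_succ,
        ih fun i => by unfold sg; simp]
      by_cases h : (c + 2 * M) % 2 = 0
      · rw [if_pos h, if_neg (by omega)]
      · rw [if_neg h, if_pos (by omega)]
  refine ⟨h1, ?_⟩
  have h2 := Finset.card_filter_add_card_filter_not (s := (Finset.univ : Finset (Fin (2 * M))))
    (fun i => sg c i = true)
  simp only [Bool.not_eq_true, Finset.card_univ, Fintype.card_fin] at h2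
  omega

theorem PE_xL (c c' M : ℕ) : PE (xL c : Fin (2 * M) → ℂ) (xL c') := by
  intro f
  have h := prod_rp c M fun r => f (r : ℂ)
  have h' := prod_rp c' M fun r => f (r : ℂ)
  unfold xL
  simp only [ph_eq]
  exact h.trans h'.symm

end NUP1.Rws

end
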