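import Pool.Agent.NUP1L.LegFin
import Pool.Agent.NUP1L.CapC
import Pool.Agent.NURow.One

/-!
# The one body functions of the leg with the cutoff of the rows

`hC b c r o r' o' x y u = hE c r o r' o' x y u * phi b x u`, `phi b x u = 1 - ∏ i, psi b (u - x i)`.
The cutoff is `1` at `x i` and at `x i - l`, so it does not change the state sums.
-/

set_option autoImplicit false
set_option linter.unusedSectionVars false

noncomputable section

open Complex MeasureTheory Filter Topology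

namespace NUP1.Leg

open NUP1.N (SP Gr0 RD Bx)
open NURow (UB InBox NQr NPr NQ)

variable {m M : ℕ}

/-- the cutoff of the rows `x` -/
def cut (b : ℝ) (x : Fin m → ℂ) (u : ℂ) : ℂ := phi b (List.ofFn x) u

/-- one body function with the cutoff of the own rows -/
def hC (b : ℝ) (c r o r' o' : ℂ) (x : Fin m → ℂ) (y : Fin M → ℂ) (u : ℂ) : ℂ :=
  hE c r o r' o' x y u * cut b x u

theorem cut_row (b : ℝ) (x : Fin m → ℂ) (i : Fin m) : cut b x (x i) = 1 :=
  phi_row (List.mem_ofFn.2 ⟨i, rfl⟩)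

theorem cut_row_sub (b : ℝ) (x : Fin m → ℂ) (i : Fin m) : cut b x (x i - l) = 1 :=
  phi_row_sub (List.mem_ofFn.2 ⟨i, rfl⟩)

/-- the cutoff does not change the weights of the rows -/
theorem sta_hC (b : ℝ) (c r o r' o' : ℂ) (x : Fin m → ℂ) (y : Fin M → ℂ) (k : ℂ → ℂ)
    (a : Fin m → SignType) :
    sta x (fun u => hC b c r o r' o' x y u * k u) a =
      sta x (fun u => hE c r o r' o' x y u * k u) a := by
  refine NUP1.N.sta_congr' (fun i => ?_) (fun i => ?_) a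
  · simp only [hC, cut_row, mul_one]
  · simp only [hC, cut_row_sub, mul_one]

/-- the cutoff does not change the state sums with the spectators -/
theorem SP_hC (b : ℝ) (c r o r' o' d s t s' t' : ℂ) (x : Fin m → ℂ) (y : Fin M → ℂ) (n n' : ℕ)
    (w w' : ℂ) :
    SP x y (hC b c r o r' o' x y) (hC b d s t s' t' y x) n n' w w' =
      SP x y (hE c r o r' o' x y) (hE d s t s' t' y x) n n' w w' := by
  unfold NUP1.N.SP
  refine Finset.sum_congr rfl fun a _ => Finset.sum_congr rfl fun e _ => ?_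
  rw [sta_hC b c r o r' o' x y _ a, sta_hC b d s t s' t' y x _ e]

theorem GsL_hC (b : ℝ) (c r o r' o' d s t s' t' : ℂ) (x : Fin m → ℂ) (y : Fin M → ℂ) (n n' : ℕ)
    (z : ℂ) :
    GsL (hC b c r o r' o' x y) (hC b d s t s' t' y x) x y n n' z =
      GsL (hE c r o r' o' x y) (hE d s t s' t' y x) x y n n' z := by
  unfold GsL
  refine Finset.sum_congr rfl fun a _ => Finset.sum_congr rfl fun e _ => ?_
  have h := sta_hC b c r o r' o' x y (fun _ => 1) a
  simp only [mul_one] at h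
  rw [h, sta_hC b d s t s' t' y x _ e]

theorem GsR_hC (b : ℝ) (c r o r' o' d s t s' t' : ℂ) (x : Fin m → ℂ) (y : Fin M → ℂ) (n n' : ℕ)
    (z : ℂ) :
    GsR (hC b c r o r' o' x y) (hC b d s t s' t' y x) x y n n' z =
      GsR (hE c r o r' o' x y) (hE d s t s' t' y x) x y n n' z := by
  unfold GsR
  refine Finset.sum_congr rfl fun a _ => Finset.sum_congr rfl fun e _ => ?_
  have h := sta_hC b d s t s' t' y x (fun _ => 1) e
  simp only [mul_one] at h
  rw [h, sta_hC b c r o r' o' x y _ a]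

/-- **the cutoff does not change the double line integrals** -/
theorem LegJ_hC (b : ℝ) (A B : ℝ) (p q : ℂ) (c r o r' o' d s t s' t' : ℂ) (x : Fin m → ℂ)
    (y : Fin M → ℂ) (n n' : ℕ) :
    LegJ A B p q x y (hC b c r o r' o' x y) (hC b d s t s' t' y x) n n' =
      LegJ A B p q x y (hE c r o r' o' x y) (hE d s t s' t' y x) n n' := by
  have e : FSP p q x y (hC b c r o r' o' x y) (hC b d s t s' t' y x) n n' =
      FSP p q x y (hE c r o r' o' x y) (hE d s t s' t' y x) n n' := by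
    funext w w'
    unfold FSP
    rw [SP_hC]
  unfold LegJ
  rw [e]
  simp only [GsL_hC, GsR_hC]

/-! ### the bounds -/

section bounds

variable {Θ : Type*} {S : Set Θ} {K : Set ℝ} {R : ℝ}

/-- the lines: away from the poles of the rows and of the cutoff -/
def Kok (K : Set ℝ) : Prop := IsCompact K ∧ ∀ d ∈ K, -(5 / 2 * l) < d ∧ d < 3 / 2 * l

theorem Kok.ns (h : Kok K) {d e : ℝ} (hd : d ∈ K) (he : |e| ≤ l / 2) :
    Real.sin (d - e - 2 * l) ≠ 0 := by
  obtain ⟨h1, h2⟩ := abs_le.1 he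
  obtain ⟨h3, h4⟩ := h.2 d hd
  have hl := lpos
  have h5 : (0 : ℝ) < 8 * l + (d - e - 2 * l) := by linarith
  have hpi : 8 * l = Real.pi := by unfold l; ring
  refine (Real.sin_neg_of_neg_of_neg_pi_lt (by linarith) ?_).ne
  linarith

theorem Kok.nq (h : Kok K) {b : ℝ} (hb : 0 < b) (hb' : b ≤ 4 / 3) : NQr b (l / 2) K :=
  NURow.NQr_strip hb hb' fun d hd => by
    obtain ⟨h3, h4⟩ := h.2 d hd
    constructor <;> linarith

theorem ub_inv_s (h : Kok K) {x : Θ → ℂ} (hx : InBox S (l / 2) R x) :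
    UB S K (-1) (fun θ z => 1 / sin (z - x θ - 2 * l)) := by
  have := NURow.ub_inv_sin hx h.1 (-(2 * l)) fun d hd e he => by
    rw [← sub_eq_add_neg]; exact h.ns hd he
  refine this.congr fun θ _ z _ => ?_
  push_cast
  rw [← sub_eq_add_neg]

theorem ub_s3 {x : Θ → ℂ} (hx : InBox S (l / 2) R x) (K : Set ℝ) :
    UB S K 1 (fun θ z => sin (z - x θ + 3 * l)) := by
  have := NURow.ub_sin hx K (3 * l)
  refine this.congr fun θ _ z _ => ?_
  push_cast
  rfl

theorem ub_hr (h : Kok K) (c : ℂ) {x : Θ → Fin m → ℂ} {y : Θ → Fin M → ℂ}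
    (hx : ∀ i, InBox S (l / 2) R fun θ => x θ i) (hy : ∀ j, InBox S (l / 2) R fun θ => y θ j) :
    UB S K (2 * M - m) (fun θ z => hr c (x θ) (y θ) z) := by
  have h1 : UB S K _ (fun θ z => ∏ i : Fin m, 1 / sin (z - x θ i - 2 * l)) :=
    UB.prod Finset.univ fun i _ => ub_inv_s h (hx i)
  have h2 : UB S K _ (fun θ z => ∏ j : Fin M, sin (z - y θ j + 3 * l) ^ 2) :=
    UB.prod Finset.univ fun j _ => (ub_s3 (hy j) K).pow 2
  exact (((UB.const S K c).mul h1).mul h2).rate (by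
    simp only [Finset.card_univ, Fintype.card_fin]; push_cast; ring)

theorem thE_eq (r o r' o' u : ℂ) : thE r o r' o' u =
    sin (u - o + 3 * l) * sin (u - r' + 3 * l) *
      (1 / sin (u - r - 2 * l) * (1 / sin (u - o' - 2 * l))) := by
  unfold thE
  rw [show r - u + 2 * l = -(u - r - 2 * l) by ring,
    show o' - u + 2 * l = -(u - o' - 2 * l) by ring, Complex.sin_neg, Complex.sin_neg, neg_mul_neg,
    div_eq_mul_inv, mul_inv, one_div, one_div]

theorem ub_thE (h : Kok K) {r o r' o' : Θ → ℂ} (h1 : InBox S (l / 2) R r)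
    (h2 : InBox S (l / 2) R o) (h3 : InBox S (l / 2) R r') (h4 : InBox S (l / 2) R o') :
    UB S K 0 (fun θ z => thE (r θ) (o θ) (r' θ) (o' θ) z) := by
  have := ((ub_s3 h2 K).mul (ub_s3 h3 K)).mul ((ub_inv_s h h1).mul (ub_inv_s h h4))
  exact (this.rate (by ring)).congr fun θ _ z _ => thE_eq _ _ _ _ _

/-- **uniform bound of the one body function** -/
theorem ub_hC (h : Kok K) {b : ℝ} (hb : 0 < b) (hb' : b ≤ 4 / 3) (c : ℂ) {r o r' o' : Θ → ℂ}
    {x : Θ → Fin m → ℂ} {y : Θ → Fin M → ℂ} (h1 : InBox S (l / 2) R r)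
    (h2 : InBox S (l / 2) R o) (h3 : InBox S (l / 2) R r') (h4 : InBox S (l / 2) R o')
    (hx : ∀ i, InBox S (l / 2) R fun θ => x θ i) (hy : ∀ j, InBox S (l / 2) R fun θ => y θ j) :
    UB S K (-(2 * b + m - 2 * M))
      (fun θ z => hC b c (r θ) (o θ) (r' θ) (o' θ) (x θ) (y θ) z) :=
  (((ub_hr h c hx hy).mul (ub_thE h h1 h2 h3 h4)).mul
    (NURow.ub_phi hb hx h.1 (h.nq hb hb'))).rate (by ring)

/-- points of a family in the box -/
theorem inBox {x : Θ → ℂ} (h : ∀ θ ∈ S, Bx R (x θ)) : InBox S (l / 2) R x := h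

/-- **uniform bound for all points in the box** -/
theorem bd_hC (h : Kok K) {b : ℝ} (hb : 0 < b) (hb' : b ≤ 4 / 3) (c : ℂ) (m M : ℕ) (R : ℝ) :
    ∃ D : ℝ, 0 ≤ D ∧ ∀ (r o r' o' : ℂ) (x : Fin m → ℂ) (y : Fin M → ℂ), Bx R r → Bx R o →
      Bx R r' → Bx R o' → (∀ i, Bx R (x i)) → (∀ j, Bx R (y j)) → ∀ z : ℂ, z.re ∈ K →
      ‖hC b c r o r' o' x y z‖ ≤ D * Real.exp (-((2 * b + m - 2 * M) * |z.im|)) := by
  let T := ℂ × ℂ × ℂ × ℂ × (Fin m → ℂ) × (Fin M → ℂ)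
  let S : Set T := {θ | Bx R θ.1 ∧ Bx R θ.2.1 ∧ Bx R θ.2.2.1 ∧ Bx R θ.2.2.2.1 ∧
    (∀ i, Bx R (θ.2.2.2.2.1 i)) ∧ ∀ j, Bx R (θ.2.2.2.2.2 j)}
  obtain ⟨D, hD, hb⟩ := ub_hC (S := S) (R := R) h hb hb' c (r := fun θ => θ.1)
    (o := fun θ => θ.2.1) (r' := fun θ => θ.2.2.1) (o' := fun θ => θ.2.2.2.1)
    (x := fun θ => θ.2.2.2.2.1) (y := fun θ => θ.2.2.2.2.2) (inBox fun θ hθ => hθ.1)
    (inBox fun θ hθ => hθ.2.1) (inBox fun θ hθ => hθ.2.2.1) (inBox fun θ hθ => hθ.2.2.2.1)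
    (fun i => inBox fun θ hθ => hθ.2.2.2.2.1 i) fun j => inBox fun θ hθ => hθ.2.2.2.2.2 j
  refine ⟨D, hD, fun r o r' o' x y h1 h2 h3 h4 h5 h6 z hz => ?_⟩
  have := hb (r, o, r', o', x, y) ⟨h1, h2, h3, h4, h5, h6⟩ z hz
  rwa [neg_mul] at this

end bounds

/-! ### analyticity, continuity, measurability -/

theorem meas_cut (b : ℝ) (x : Fin m → ℂ) : Measurable (cut b x) := NUP1.Bd.measurable_phi b (List.ofFn x)

theorem meas_hC (b : ℝ) (c r o r' o' : ℂ) (x : Fin m → ℂ) (y : Fin M → ℂ) :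
    Measurable (hC b c r o r' o' x y) := by
  refine Measurable.mul ?_ (meas_cut b x)
  unfold hE hr thE
  fun_prop

section pts

variable {K : Set ℝ} {z : ℂ}

theorem Kok.ne (h : Kok K) (hz : z.re ∈ K) {x : ℂ} (hx : |x.re| ≤ l / 2) :
    sin (z - x - 2 * l) ≠ 0 := by
  refine Bd.sin_ne_zero_of_re ?_
  have := h.ns hz hx
  simpa using this

theorem Kok.ne' (h : Kok K) (hz : z.re ∈ K) {x : ℂ} (hx : |x.re| ≤ l / 2) :
    sin (x - z + 2 * l) ≠ 0 := by
  rw [show x - z + 2 * l = -(z - x - 2 * l) by ring, Complex.sin_neg]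
  exact neg_ne_zero.2 (h.ne hz hx)

theorem tendsto_cut (h : Kok K) (hz : z.re ∈ K) {b : ℝ} (hb : 0 < b) (hb' : b ≤ 4 / 3)
    {ι : Type*} {F : Filter ι} {x : ι → Fin m → ℂ} {x0 : Fin m → ℂ}
    (tx : ∀ i, Tendsto (fun t => x t i) F (𝓝 (x0 i))) (bx : ∀ i, |(x0 i).re| ≤ l / 2) :
    Tendsto (fun t => cut b (x t) z) F (𝓝 (cut b x0 z)) := by
  simp only [cut, NURow.phi_ofFn]
  refine tendsto_const_nhds.sub (tendsto_finsetProd _ fun i _ => ?_)
  have h1 := h.nq hb hb' _ hz _ (bx i)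
  have h2 : ContinuousAt (psi b) (z - x0 i) :=
    (NURow.diff_psi' (by rw [sub_re]; exact h1)).continuousAt
  exact h2.tendsto.comp (tendsto_const_nhds.sub (tx i))

theorem tendsto_hr (h : Kok K) (hz : z.re ∈ K) (c : ℂ)
    {ι : Type*} {F : Filter ι} {x : ι → Fin m → ℂ} {x0 : Fin m → ℂ} {y : ι → Fin M → ℂ}
    {y0 : Fin M → ℂ} (tx : ∀ i, Tendsto (fun t => x t i) F (𝓝 (x0 i)))
    (ty : ∀ j, Tendsto (fun t => y t j) F (𝓝 (y0 j))) (bx : ∀ i, |(x0 i).re| ≤ l / 2) :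
    Tendsto (fun t => hr c (x t) (y t) z) F (𝓝 (hr c x0 y0 z)) := by
  unfold hr
  refine (tendsto_const_nhds.mul (tendsto_finsetProd _ fun i _ => ?_)).mul
    (tendsto_finsetProd _ fun j _ => ?_)
  · have h1 : ContinuousAt (fun u : ℂ => 1 / sin (z - u - 2 * l)) (x0 i) := by
      have := h.ne hz (bx i)
      fun_prop (disch := exact this)
    exact h1.tendsto.comp (tx i)
  · have h1 : Continuous (fun u : ℂ => sin (z - u + 3 * l) ^ 2) := by fun_prop
    exact (h1.tendsto (y0 j)).comp (ty j)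

theorem tendsto_thE (h : Kok K) (hz : z.re ∈ K) {ι : Type*} {F : Filter ι} {r o r' o' : ι → ℂ}
    {r0 o0 r0' o0' : ℂ} (t1 : Tendsto r F (𝓝 r0)) (t2 : Tendsto o F (𝓝 o0))
    (t3 : Tendsto r' F (𝓝 r0')) (t4 : Tendsto o' F (𝓝 o0')) (b1 : |r0.re| ≤ l / 2)
    (b4 : |o0'.re| ≤ l / 2) :
    Tendsto (fun t => thE (r t) (o t) (r' t) (o' t) z) F (𝓝 (thE r0 o0 r0' o0' z)) := by
  unfold thE
  have c1 : Continuous (fun u : ℂ => sin (z - u + 3 * l)) := by fun_prop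
  have c2 : Continuous (fun u : ℂ => sin (u - z + 2 * l)) := by fun_prop
  exact (((c1.tendsto o0).comp t2).mul ((c1.tendsto r0').comp t3)).div
    (((c2.tendsto r0).comp t1).mul ((c2.tendsto o0').comp t4))
    (mul_ne_zero (h.ne' hz b1) (h.ne' hz b4))

/-- **continuity of the one body function in the rows and the ends** -/
theorem tendsto_hC (h : Kok K) (hz : z.re ∈ K) {b : ℝ} (hb : 0 < b) (hb' : b ≤ 4 / 3) (c : ℂ)
    {ι : Type*} {F : Filter ι} {r o r' o' : ι → ℂ} {r0 o0 r0' o0' : ℂ} {x : ι → Fin m → ℂ}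
    {x0 : Fin m → ℂ} {y : ι → Fin M → ℂ} {y0 : Fin M → ℂ} (t1 : Tendsto r F (𝓝 r0))
    (t2 : Tendsto o F (𝓝 o0)) (t3 : Tendsto r' F (𝓝 r0')) (t4 : Tendsto o' F (𝓝 o0'))
    (tx : ∀ i, Tendsto (fun t => x t i) F (𝓝 (x0 i)))
    (ty : ∀ j, Tendsto (fun t => y t j) F (𝓝 (y0 j))) (b1 : |r0.re| ≤ l / 2)
    (b4 : |o0'.re| ≤ l / 2) (bx : ∀ i, |(x0 i).re| ≤ l / 2) :
    Tendsto (fun t => hC b c (r t) (o t) (r' t) (o' t) (x t) (y t) z) F
      (𝓝 (hC b c r0 o0 r0' o0' x0 y0 z)) :=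
  ((tendsto_hr h hz c tx ty bx).mul (tendsto_thE h hz t1 t2 t3 t4 b1 b4)).mul
    (tendsto_cut h hz hb hb' tx bx)

/-- analyticity of the one body function -/
theorem diff_hC (h : Kok K) (hz : z.re ∈ K) {b : ℝ} (hb : 0 < b) (hb' : b ≤ 4 / 3)
    (c : ℂ) {r o r' o' : ℂ} {x : Fin m → ℂ} {y : Fin M → ℂ} (b1 : |r.re| ≤ l / 2)
    (b4 : |o'.re| ≤ l / 2) (bx : ∀ i, |(x i).re| ≤ l / 2) :
    DifferentiableAt ℂ (hC b c r o r' o' x y) z := by
  refine DifferentiableAt.mul ?_ ?_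
  · refine DifferentiableAt.mul ?_ ?_
    · unfold hr
      refine ((differentiableAt_const c).mul ?_).mul ?_
      · refine DifferentiableAt.fun_finsetProd fun i _ => ?_
        have := h.ne hz (bx i)
        fun_prop (disch := exact this)
      · refine DifferentiableAt.fun_finsetProd fun j _ => ?_
        fun_prop
    · unfold thE
      have h1 := mul_ne_zero (h.ne' hz b1) (h.ne' hz b4)
      fun_prop (disch := exact h1)
  · have := NURow.diff_phi (β := b) (W := fun _ : ℂ => x) (u := fun s => s) (s₀ := z)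
      (fun i => differentiableAt_const _) differentiableAt_id fun i => by
        exact h.nq hb hb' _ hz _ (bx i)
    exact this

end pts

/-- **the hypotheses `RD` of the state sums** -/
theorem RD_hC {α β b : ℝ} (hα : l / 2 < α) (hα' : α < 3 / 2 * l) (hβ : -(5 / 2 * l) < β)
    (hβ' : β + l < -(l / 2)) (hb : 0 < b) (hb' : b ≤ 4 / 3) (c d : ℂ) {R : ℝ}
    {r o r' o' s t s' t' : ℂ}
    {x : Fin m → ℂ} {y : Fin M → ℂ} (h1 : Bx R r) (h2 : Bx R o) (h3 : Bx R r') (h4 : Bx R o')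
    (k1 : Bx R s) (k2 : Bx R t) (k3 : Bx R s') (k4 : Bx R t')
    (hx : ∀ i, Bx R (x i)) (hy : ∀ j, Bx R (y j)) (ix : ∀ i j, i ≠ j → (x i).im ≠ (x j).im)
    (iy : ∀ i j, i ≠ j → (y i).im ≠ (y j).im) {n n' : ℕ} (hn : n + M = n' + m) :
    RD α β x y (hC b c r o r' o' x y) (hC b d s t s' t' y x) (2 * b + m - 2 * M)
      (2 * b + M - 2 * m) n n' := by
  have hl := lpos
  have hK : Kok (Set.Icc β α) := ⟨isCompact_Icc, fun e he => by
    constructor
    · linarith [he.1]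
    · linarith [he.2]⟩
  have hn' : (n : ℝ) + M = n' + m := by exact_mod_cast hn
  have bx : ∀ {z : ℂ}, Bx R z → β + l < z.re ∧ z.re < α := fun h => by
    obtain ⟨u, v⟩ := abs_le.1 h.1
    constructor <;> linarith
  refine ⟨ix, iy, fun i => bx (hx i), fun j => bx (hy j), fun z z1 z2 => ?_, fun z z1 z2 => ?_,
    meas_hC _ _ _ _ _ _ _ _, meas_hC _ _ _ _ _ _ _ _, ?_, ?_, by linarith, by linarith⟩
  · exact diff_hC hK ⟨z1, z2⟩ hb hb' c h1.1 h4.1 fun i => (hx i).1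
  · exact diff_hC hK ⟨z1, z2⟩ hb hb' d k1.1 k4.1 fun j => (hy j).1
  · obtain ⟨D, hD, h⟩ := bd_hC hK hb hb' c m M R
    refine ⟨D, 0, hD, fun z z1 z2 _ => ?_⟩
    have := h r o r' o' x y h1 h2 h3 h4 hx hy z ⟨z1, z2⟩
    rwa [← neg_mul] at this
  · obtain ⟨D, hD, h⟩ := bd_hC hK hb hb' d M m R
    refine ⟨D, 0, hD, fun z z1 z2 _ => ?_⟩
    have := h s t s' t' y x k1 k2 k3 k4 hy hx z ⟨z1, z2⟩
    rwa [← neg_mul] at this

/-- the four lines of the estimates -/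
def K4 : Set ℝ := {3 / 5 * l, -(17 / 10) * l, -(17 / 10) * l + l, -(11 / 4 * l) + 3 * l}

theorem Kok_K4 : Kok K4 := by
  have hl := lpos
  refine ⟨Set.Finite.isCompact (by unfold K4; simp), fun d hd => ?_⟩
  simp only [K4, Set.mem_insert_iff, Set.mem_singleton_iff] at hd
  rcases hd with rfl | rfl | rfl | rfl <;> constructor <;> linarith

end NUP1.Leg

end
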