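import Pool.Agent.NUP1L.RowA
import Pool.Agent.NUQ2.PreL
import Pool.Agent.NURow.Conv

/-!
# The prefactor for any order of the rows
-/

set_option autoImplicit false
set_option linter.unusedSectionVars false

noncomputable section

open Complex MeasureTheory Filter Topology

namespace NUP1.Rws

open Leg (Bp)
open NURow (x0)
open NUMFH (rw2 Pd vd)
open NUQ2 (norm_Bp_mul Bp_match preC bulkh)

/-- the signs of the rows `x0` -/
def sx (M : ℕ) (i : Fin (2 * M)) : Bool := decide ((i : ℕ) < M)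

theorem x0_rw2 (M : ℕ) : x0 M = rw2 (sx M) := by
  funext i
  unfold NURow.x0 NUMFH.rw2 sx
  by_cases h : (i : ℕ) < M
  · simp [h]
  · simp [h]

theorem card_sx (M : ℕ) :
    (Finset.univ.filter fun i : Fin (2 * M) => sx M i = true).card = M ∧
    (Finset.univ.filter fun i : Fin (2 * M) => sx M i = false).card = M := by
  have h1 : (Finset.univ.filter fun i : Fin (2 * M) => sx M i = true).card = M := by
    rw [Finset.card_filter]
    have e : ∀ i : Fin (2 * M), (if sx M i = true then 1 else 0) =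
        (fun i : ℕ => if i < M then 1 else 0) i.val := by
      intro i
      unfold sx
      simp
    rw [Finset.sum_congr rfl fun i _ => e i,
      Fin.sum_univ_eq_sum_range (fun i : ℕ => if i < M then 1 else 0) (2 * M), two_mul,
      Finset.sum_range_add, Finset.sum_congr rfl fun i hi => if_pos (Finset.mem_range.1 hi)]
    have e2 : ∑ x ∈ Finset.range M, (if M + x < M then 1 else 0) = 0 :=
      Finset.sum_eq_zero fun i _ => if_neg (by omega)
    rw [e2]
    simp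
  refine ⟨h1, ?_⟩
  have h2 := Finset.card_filter_add_card_filter_not (s := (Finset.univ : Finset (Fin (2 * M))))
    (fun i => sx M i = true)
  simp only [Bool.not_eq_true, Finset.card_univ, Fintype.card_fin] at h2
  omega

/-- **The prefactor for the rows `x0`.** -/
theorem norm_Bp_x0 (c c' M : ℕ) :
    ‖Bp ((l : ℂ) / 2) (-((l : ℂ) / 2)) (rw2 (sg c) : Fin (2 * M) → ℂ) *
        Bp (-((l : ℂ) / 2)) ((l : ℂ) / 2) (rw2 (sg c') : Fin (2 * M) → ℂ)‖ =
      ‖Bp (-((l : ℂ) / 2)) ((l : ℂ) / 2) (x0 M) * Bp ((l : ℂ) / 2) (-((l : ℂ) / 2)) (x0 M)‖ := by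
  have h1 := norm_Bp_mul (M := M) (m := 2 * M) (m' := 2 * M) (sg c) (sg c')
    (card_sg _ M).1 (card_sg _ M).2 (card_sg _ M).1 (card_sg _ M).2 (r := l / 2) (o := -(l / 2))
    (r' := -(l / 2)) (o' := l / 2) (Or.inl ⟨rfl, rfl⟩) (Or.inr ⟨rfl, rfl⟩)
  have h2 := norm_Bp_mul (M := M) (m := 2 * M) (m' := 2 * M) (sx M) (sx M)
    (card_sx M).1 (card_sx M).2 (card_sx M).1 (card_sx M).2 (r := -(l / 2)) (o := l / 2)
    (r' := l / 2) (o' := -(l / 2)) (Or.inr ⟨rfl, rfl⟩) (Or.inl ⟨rfl, rfl⟩)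
  rw [← x0_rw2] at h2
  push_cast at h1 h2
  have h3 : (0 : ℝ) < 2 ^ (2 * (2 * M + 1) * (2 * (2 * M + 1) - 1)) := by positivity
  exact mul_left_cancel₀ h3.ne' (h1.trans h2.symm)

/-- **Prefactor times mean field = bulk term**, rows `x0`. -/
theorem Bp_match_x0 (M : ℕ) :
    2 ^ (2 * (2 * M + 1) * (2 * (2 * M + 1) - 1)) *
      ‖Bp (-((l : ℂ) / 2)) ((l : ℂ) / 2) (x0 M) * Bp ((l : ℂ) / 2) (-((l : ℂ) / 2)) (x0 M)‖ *
      Real.exp ((2 * (M : ℝ) + 1) ^ 2 * ∫ t, Pd t * vd t) =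
    2 * √(4 + 2 * √2) / (2 - √2) * bulkh (2 * M + 1) := by
  have h2 := Bp_match (M := M) (m := 2 * M) (m' := 2 * M) (sx M) (sx M)
    (card_sx M).1 (card_sx M).2 (card_sx M).1 (card_sx M).2 (r := -(l / 2)) (o := l / 2)
    (r' := l / 2) (o' := -(l / 2)) (Or.inr ⟨rfl, rfl⟩) (Or.inl ⟨rfl, rfl⟩)
  rw [← x0_rw2] at h2
  push_cast at h2
  exact h2

end NUP1.Rws

end
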