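import Pool.Agent.NUP1L.RowA
import Pool.Agent.NUP1L.RowE
import Pool.Agent.NUQ2.PreL
import Pool.Agent.NUQ2.WUp
import Pool.Agent.NU5.Main

/-!
# The two-point function of the vertical cylinder as the sum of the eleven integrals
-/

set_option autoImplicit false
set_option linter.unusedSectionVars false

noncomputable section

open Complex MeasureTheory Filter Topology

namespace NUP1.Rws

open Pool.Agent.NU5 (ph LatData GasData gasR Bk Wk RRk')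
open NUTP (th ea)
open NUTP.Gas (gasF)
open NUP1.N (Bx PE E11)
open Leg (hC cc Bp RE_tendsto)
open NURow (x0 prod_x0)
open NUMFH (rw2)

theorem PE_x0 (c M : ℕ) : PE (xL c : Fin (2 * M) → ℂ) (x0 M) := by
  intro f
  have h := prod_rp c M fun r => f (r : ℂ)
  have h' := prod_x0 M f
  unfold xL
  simp only [ph_eq]
  rw [h, h']
  push_cast
  rfl

theorem ph_0 : -ph 0 = (l : ℂ) / 2 := by
  rw [ph_eq, rp_even (by rfl)]
  push_cast
  rfl

theorem ph_k (M : ℕ) : -ph (2 * M + 1) = -((l : ℂ) / 2) := by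
  rw [ph_eq, rp_odd (by omega)]
  push_cast
  rfl

/-- **The gas of the two cut rows at the alternating rows.** -/
theorem gasR_tendsto {a b : ℝ} (ha : a = 31 / 50 ∨ a = 5 / 4) (hb : 1 < b) (hb' : b ≤ 4 / 3)
    (M : ℕ) : Tendsto (fun e => gasR (List.ofFn fun i => ea (-xE M e i))
      (List.ofFn fun i => ea (-yE M e i)) (ea (-pE M e)) (ea (-hE' M e)) (ea (-qE M e))
      (ea (-gE M e))) (𝓝[>] 0)
      (𝓝 (sin l * (Bp ((l : ℂ) / 2) (-((l : ℂ) / 2)) (rw2 (sg (2 * M + 1 + 1)) : Fin (2 * M) → ℂ) *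
        Bp (-((l : ℂ) / 2)) ((l : ℂ) / 2) (rw2 (sg 1) : Fin (2 * M) → ℂ)) *
        ∑ n ∈ Finset.range (2 * (2 * M) + 1), EE a b M n)) := by
  have hpos : ∀ᶠ e : ℝ in 𝓝[>] 0, 0 < e := self_mem_nhdsWithin
  have hle : ∀ᶠ e : ℝ in 𝓝[>] 0, e ≤ 1 := nhdsWithin_le_nhds (eventually_le_nhds one_pos)
  have hbox := (hpos.and hle).mono fun e he => box_E (M := M) he.1.le he.2
  have B0 : ∀ c d, d ≤ 4 * M + 4 → Bx (Rb M) (-ph c) := fun c d hd => by
    rw [← pt0_zero c d]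
    exact pt0_box le_rfl zero_le_one (box_aux hd)
  have key := RE_tendsto (F := 𝓝[>] (0 : ℝ)) (m := 2 * M) (a := a) (b := b) (R := Rb M) ha hb hb'
    (p := pE M) (h := hE' M) (q := qE M) (g := gE M) (x := xE M) (y := yE M)
    (p0 := -ph 0) (h0 := -ph 0) (q0 := -ph (2 * M + 1)) (g0 := -ph (2 * M + 1))
    (x0 := xL (2 * M + 1 + 1)) (y0 := xL 1)
    (hpos.mono fun e he => Ht_E he) (hbox.mono fun e h => h.1) (hbox.mono fun e h => h.2.1)
    (hbox.mono fun e h => h.2.2.1) (hbox.mono fun e h => h.2.2.2.1)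
    (hbox.mono fun e h => h.2.2.2.2.1) (hbox.mono fun e h => h.2.2.2.2.2)
    (B0 0 0 (by omega)) (B0 0 0 (by omega)) (B0 _ 0 (by omega)) (B0 _ 0 (by omega))
    (fun i => B0 _ 0 (by omega)) (fun i => B0 _ 0 (by omega))
    (pt0_tendsto _ _) (pt0_tendsto _ _) (pt0_tendsto _ _) (pt0_tendsto _ _)
    (fun i => alt_tendsto _ _ i) (fun i => alt_tendsto _ _ i)
  rw [ph_0, ph_k] at key
  simp only [E11_eq_EE ha hb hb' M _ (PE_x0 _ M) (PE_x0 _ M)] at key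
  rw [xL_rw2, xL_rw2] at key
  exact key

/-- **The numerator of the two-point function of the vertical cylinder** (`k = 2 M + 1`). -/
theorem BW_eq (hlat : LatData) (hgas : GasData) {a b : ℝ} (ha : a = 31 / 50 ∨ a = 5 / 4)
    (hb : 1 < b) (hb' : b ≤ 4 / 3) {M : ℕ} (hM : 1 ≤ M) (hk : 1 ≤ 2 * M + 1) :
    Bk (2 * M + 1) ^ 2 * Wk (2 * M + 1) hk =
      sin l * (Bp ((l : ℂ) / 2) (-((l : ℂ) / 2)) (rw2 (sg (2 * M + 1 + 1)) : Fin (2 * M) → ℂ) *
        Bp (-((l : ℂ) / 2)) ((l : ℂ) / 2) (rw2 (sg 1) : Fin (2 * M) → ℂ)) *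
        ∑ n ∈ Finset.range (2 * (2 * M) + 1), EE a b M n := by
  have h1 := gasR_tendsto ha hb hb' M
  have hpos : ∀ᶠ e : ℝ in 𝓝[>] 0, 0 < e := self_mem_nhdsWithin
  have h2 := RRk' (k := 2 * M + 1) (l := 𝓝[>] (0 : ℝ)) (X := fun e i => -xE M e i)
    (Y := fun e i => -yE M e i) (ra := fun e => -pE M e) (rb := fun e => -hE' M e)
    (rq := fun e => -qE M e) (rg := fun e => -gE M e) hlat hgas (by omega) hk
    (fun i => pt0_tendsto' _ _) (fun i => pt0_tendsto' _ _) (pt0_tendsto' _ _)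
    (pt0_tendsto' _ _) (pt0_tendsto' _ _) (pt0_tendsto' _ _)
    (hpos.mono fun e he => G_E he)
  exact tendsto_nhds_unique h2 h1

open NUQ2 (bulkh Bp_match GasUp bulkh_pos)
open NUMFH (Pd vd)

/-- **The numerator against the bulk term.** -/
theorem BW_norm (hlat : LatData) (hgas : GasData) {a b : ℝ} (ha : a = 31 / 50 ∨ a = 5 / 4)
    (hb : 1 < b) (hb' : b ≤ 4 / 3) {M : ℕ} (hM : 1 ≤ M) (hk : 1 ≤ 2 * M + 1) :
    2 ^ (2 * (2 * M + 1) * (2 * (2 * M + 1) - 1)) * ‖Bk (2 * M + 1) ^ 2 * Wk (2 * M + 1) hk‖ *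
      Real.exp ((2 * (M : ℝ) + 1) ^ 2 * ∫ t, Pd t * vd t) =
    2 * √(4 + 2 * √2) / (2 - √2) * bulkh (2 * M + 1) * (Real.sin l *
      ‖∑ n ∈ Finset.range (2 * (2 * M) + 1), EE a b M n‖) := by
  have h := Bp_match (M := M) (m := 2 * M) (m' := 2 * M) (sg (2 * M + 1 + 1)) (sg 1)
    (card_sg _ M).1 (card_sg _ M).2 (card_sg _ M).1 (card_sg _ M).2 (r := l / 2) (o := -(l / 2))
    (r' := -(l / 2)) (o' := l / 2) (Or.inl ⟨rfl, rfl⟩) (Or.inr ⟨rfl, rfl⟩)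
  have hs : ‖sin (l : ℂ)‖ = Real.sin l := by
    rw [← ofReal_sin, norm_real, Real.norm_of_nonneg]
    have hl := lpos
    exact (Real.sin_pos_of_pos_of_lt_pi hl (by have := Real.pi_pos; unfold l at *; linarith)).le
  rw [BW_eq hlat hgas ha hb hb' hM hk, norm_mul, norm_mul, hs]
  push_cast at h
  rw [← h]
  ring

/-- **The target of the gas estimate from the bound of the eleven integrals.** -/
theorem gasUp_of (hlat : LatData) (hgas : GasData) (H : ∀ e : ℝ, 0 < e → ∃ (C : ℝ) (M0 : ℕ),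
    ∀ M : ℕ, M0 ≤ M → ∃ a b : ℝ, (a = 31 / 50 ∨ a = 5 / 4) ∧ 1 < b ∧ b ≤ 4 / 3 ∧
      ‖∑ n ∈ Finset.range (2 * (2 * M) + 1), EE a b M n‖ ≤
        C * (2 * (M : ℝ) + 1) ^ e * Real.exp ((2 * (M : ℝ) + 1) ^ 2 * ∫ t, Pd t * vd t)) :
    GasUp := by
  intro e he
  obtain ⟨C, M0, hC⟩ := H e he
  refine ⟨2 * √(4 + 2 * √2) / (2 - √2) * (Real.sin l * C), 2 * M0 + 3, fun k hk hk0 ho => ?_⟩
  obtain ⟨M, rfl⟩ := ho
  obtain ⟨a, b, ha, hb, hb', hB⟩ := hC M (by omega)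
  have h1 := BW_norm hlat hgas ha hb hb' (M := M) (by omega) hk
  have hE := Real.exp_pos ((2 * (M : ℝ) + 1) ^ 2 * ∫ t, Pd t * vd t)
  have hl := lpos
  have hs : 0 ≤ Real.sin l :=
    (Real.sin_pos_of_pos_of_lt_pi hl (by have := Real.pi_pos; unfold l at *; linarith)).le
  have h2 : 0 < 2 - √2 := by
    have h3 : √2 ^ 2 = 2 := Real.sq_sqrt (by norm_num)
    have h4 : 0 ≤ √2 := Real.sqrt_nonneg 2
    nlinarith
  have hK : 0 ≤ 2 * √(4 + 2 * √2) / (2 - √2) * bulkh (2 * M + 1) := by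
    have := (bulkh_pos (2 * M + 1)).le
    positivity
  refine le_of_mul_le_mul_right ?_ hE
  rw [h1]
  push_cast
  calc _ ≤ 2 * √(4 + 2 * √2) / (2 - √2) * bulkh (2 * M + 1) * (Real.sin l *
        (C * (2 * (M : ℝ) + 1) ^ e * Real.exp ((2 * (M : ℝ) + 1) ^ 2 * ∫ t, Pd t * vd t))) :=
        mul_le_mul_of_nonneg_left (mul_le_mul_of_nonneg_left hB hs) hK
    _ = _ := by ring

end NUP1.Rws

end
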