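import Pool.Agent.NUP1.Assem

/-!
# The exact contour identity in any strip `l < α - β < 3 l`

`NUP1/{Base,Inert,Str,Main,Assem}` ask for `2 l < α - β`; nothing in the proofs uses it.
-/

set_option autoImplicit false
set_option linter.unusedSectionVars false

noncomputable section

open Complex MeasureTheory

namespace NUP1.N

open NUP1.Bd (qg Ob pt)

/-- the width conditions of the strip -/
structure Wd (α β : ℝ) : Prop where
  lo : β + l < α
  hi : α < β + 3 * l

variable {α β κ : ℝ} {S : Finset Site} {g : ℂ → ℂ}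

theorem pts_re (hw : Wd α β) {a : Site} (ha : Ok α β a) {p : ℂ} (h : p ∈ pts a) :
    β < p.re ∧ p.re < α := by
  have hl := lpos
  have h1 := hw.lo
  rcases a with ⟨_ | _ | _ | _, x⟩
  · obtain ⟨h2, h3, h4, h5⟩ := ha
    simp only [pts, Finset.mem_insert, Finset.mem_singleton] at h
    rcases h with rfl | rfl
    · constructor <;> linarith
    · constructor <;> simp <;> linarith
  · obtain ⟨h2, h3, h4, h5⟩ := ha
    simp only [pts, Finset.mem_singleton] at h
    rw [h]
    constructor <;> simp <;> linarith
  · have h2 : x.re = α := ha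
    simp only [pts, Finset.mem_singleton] at h
    rw [h]
    constructor <;> simp <;> linarith
  · have h2 : x.re = β := ha
    simp only [pts, Finset.mem_singleton] at h
    rw [h]
    constructor <;> simp <;> linarith

theorem num_diff (hw : Wd α β) {b : Site} (hb : Ok α β b) {u : ℂ} (h1 : β ≤ u.re) (h2 : u.re ≤ α) :
    DifferentiableAt ℂ (num b) u := by
  have hl := lpos
  have h5 := hw.lo
  have h6 := hw.hi
  rcases b with ⟨_ | _ | _ | _, x⟩
  · exact differentiableAt_const _
  · obtain ⟨h7, h8, h9, h10⟩ := hb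
    have hne : sin (u - x - l) ≠ 0 := by
      refine sin_ne_re' ?_ ?_ ?_ <;> simp <;> linarith
    show DifferentiableAt ℂ (fun u => -(sin (u - x) * sin (u - x + 2 * l) * sin (u - x - 2 * l)) /
      sin (u - x - l)) u
    fun_prop (disch := exact hne)
  · have h7 : x.re = α := hb
    have hne : sin (u - x - l) ≠ 0 := by
      refine sin_ne_re' ?_ ?_ ?_ <;> simp <;> linarith
    show DifferentiableAt ℂ (fun u => -(sin (u - x) ^ 2 * sin (u - x + 2 * l) *
      sin (u - x - 2 * l)) / sin (u - x - l)) u
    fun_prop (disch := exact hne)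
  · have h7 : x.re = β := hb
    have hne : sin (u - x + l) ≠ 0 := by
      refine sin_ne_re' ?_ ?_ ?_ <;> simp <;> linarith
    show DifferentiableAt ℂ (fun u => -(sin (u - x) ^ 2 * sin (u - x + 2 * l) *
      sin (u - x - 2 * l)) / sin (u - x + l)) u
    fun_prop (disch := exact hne)

/-- two different points of the open strip -/
theorem sin_sub_ne' (hw : Wd α β) {a b : ℂ} (ha : β ≤ a.re ∧ a.re ≤ α) (hb : β ≤ b.re ∧ b.re ≤ α)
    (h : a ≠ b) : sin (a - b) ≠ 0 := by
  have hl := lpos
  have h5 := hw.lo
  have h6 := hw.hi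
  refine sin_ne_re ?_ ?_ (sub_ne_zero.2 h)
  · simp; linarith [ha.1, hb.2]
  · simp; linarith [ha.2, hb.1]

theorem fac_diff (hw : Wd α β) {b : Site} (hb : Ok α β b) {u : ℂ} (h1 : β ≤ u.re) (h2 : u.re ≤ α)
    (h3 : u ≠ pole b) : DifferentiableAt ℂ (fac b) u := by
  have e : fac b = fun u => num b u / sin (u - pole b) := funext fun u => fac_eq b u
  have h4 := num_diff hw hb h1 h2
  obtain ⟨h5, h6⟩ := pts_re hw hb (pole_mem b)
  have h7 := sin_sub_ne' hw ⟨h1, h2⟩ ⟨h5.le, h6.le⟩ h3
  rw [e]
  exact h4.div (by fun_prop) h7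

theorem Wd.le (hw : Wd α β) : β ≤ α := by
  have := lpos; have := hw.lo; linarith

theorem Wd.pi (hw : Wd α β) : α - β < Real.pi := by
  have := lpos; have := hw.hi; rw [pi_eq]; linarith

theorem Nf_diff (hw : Wd α β) (h : Good α β S g) {u : ℂ} (h1 : β ≤ u.re) (h2 : u.re ≤ α) :
    DifferentiableAt ℂ (Nf S g) u := by
  unfold Nf
  refine (h.an u h1 h2).mul ?_
  have := DifferentiableAt.fun_finsetProd (𝕜 := ℂ) (u := S) (f := fun b => num b) (x := u)
    (fun b hb => num_diff hw (h.ok b hb) h1 h2)
  simpa using this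

/-- one quantum -/
theorem base (hw : Wd α β) (h : Good α β S g) (hk : 0 < κ) (hG : Gr α β (-κ) (Gf S g)) :
    Integrable (fun t : ℝ => Gf S g (vl α t)) ∧ Integrable (fun t : ℝ => Gf S g (vl β t)) ∧
      LI α (Gf S g) - LI β (Gf S g) = ∑ a ∈ S, rw a (S.erase a) g := by
  classical
  obtain ⟨C, R, hC, hb⟩ := hG
  have hN : ∀ u ∈ CS β α, DifferentiableAt ℂ (Nf S g) u := fun u hu => Nf_diff hw h hu.1 hu.2
  have hB : ∀ p ∈ S.image pole, p ∈ OS β α := by
    intro p hp
    obtain ⟨a, ha, rfl⟩ := Finset.mem_image.1 hp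
    exact pts_re hw (h.ok a ha) (pole_mem a)
  have key := line_shift (a := β) (b := α) hw.le hw.pi (S.image pole) hB (f := Gf S g) (H := Nf S g)
    (fun u hu => (hN u hu).continuousAt.continuousWithinAt)
    (fun u hu => (hN u (OS_sub_CS _ _ hu)).differentiableWithinAt) (fun u _ _ => by
      rw [Gf_eq_num, Finset.prod_image (fun a ha b hb hab => h.inj ha hb hab)]) hk (C := C) (t₀ := R)
    (fun s t h1 h2 h3 => by
      have := hb ((s : ℂ) + t * I) (by simpa using h1) (by simpa using h2) (by simpa using h3)
      simpa using this)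
  obtain ⟨i1, i2, i3⟩ := key
  refine ⟨i2, i1, ?_⟩
  unfold LI
  rw [← mul_sub]
  have e : (∫ t : ℝ, Gf S g (vl α t)) - (∫ t : ℝ, Gf S g (vl β t)) =
      2 * Real.pi * ∑ p ∈ S.image pole, res (S.image pole) (Nf S g) p := i3
  rw [e, ← mul_assoc, inv_mul_cancel₀ (by norm_num), one_mul, Finset.sum_image (fun a ha b hb hab => h.inj ha hb hab)]
  refine Finset.sum_congr rfl fun a ha => ?_
  have e1 : (S.image pole).erase (pole a) = (S.erase a).image pole := by
    ext p
    simp only [Finset.mem_erase, Finset.mem_image]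
    constructor
    · rintro ⟨h1, b, hb, rfl⟩
      exact ⟨b, ⟨fun h2 => h1 (by rw [h2]), hb⟩, rfl⟩
    · rintro ⟨b, ⟨h1, hb⟩, rfl⟩
      exact ⟨h.pole_ne hb ha h1, b, hb, rfl⟩
  unfold res
  rw [e1, Finset.prod_image (fun b hb c hc hbc => h.inj (Finset.mem_of_mem_erase hb)
    (Finset.mem_of_mem_erase hc) hbc)]
  unfold rw Nf Gf
  rw [← Finset.mul_prod_erase S _ ha, num_pole, mul_div_assoc, mul_div_assoc, ← Finset.prod_div_distrib]
  rw [show (∏ b ∈ S.erase a, num b (pole a) / sin (pole a - pole b)) =
    ∏ b ∈ S.erase a, fac b (pole a) from Finset.prod_congr rfl fun b _ => (fac_eq b _).symm]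
  ring

theorem Good.sin_ne (hw : Wd α β) (h : Good α β S g) {a b : Site} (ha : a ∈ S) (hb : b ∈ S)
    (hab : a ≠ b) {p p' : ℂ} (hp : p ∈ pts a) (hp' : p' ∈ pts b) : sin (p - p') ≠ 0 := by
  have h1 := pts_re hw (h.ok a ha) hp
  have h2 := pts_re hw (h.ok b hb) hp'
  refine sin_sub_ne' hw ⟨h1.1.le, h1.2.le⟩ ⟨h2.1.le, h2.2.le⟩ ?_
  rintro rfl
  exact Finset.disjoint_left.1 (h.dis a ha b hb hab) hp hp'

/-- the row `x` is inert if there is a string at `x` -/
theorem inert (hw : Wd α β) {x : ℂ} (n : ℕ) : ∀ {S : Finset Site} {g : ℂ → ℂ},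
    (Kd.R0, x) ∉ S → Good α β (insert (Kd.R0, x) S) g →
    T n (insert (Kd.R0, x) S) (fun u => g u * q1 (u - x)) = T n S (fun u => g u * f2 (u - x)) := by
  induction n using Nat.strong_induction_on with
  | _ n ih =>
    intro S g hx h
    cases n with
    | zero => rfl
    | succ n =>
      have hne : ∀ a ∈ S, a ≠ (Kd.R0, x) := fun a ha h' => hx (h' ▸ ha)
      have hmem : ∀ a ∈ S, a ∈ insert (Kd.R0, x) S := fun a ha => Finset.mem_insert_of_mem ha
      have hx0 : (Kd.R0, x) ∈ insert (Kd.R0, x) S := Finset.mem_insert_self _ _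
      have e0 : Gf S (fun u => g u * q1 (u - x)) x = 0 := by
        rw [Gf_mul, sub_self, q1_zero, mul_zero]
      have hc : ((n : ℂ) + 1) ≠ 0 := Nat.cast_add_one_ne_zero n
      apply mul_left_cancel₀ hc
      rw [T_succ, T_succ, Finset.sum_insert hx, Finset.erase_insert hx]
      have e1 : rw (Kd.R0, x) S (fun u => g u * q1 (u - x)) = 0 := by
        unfold rw
        show _ * Gf S (fun u => g u * q1 (u - x)) x = 0
        rw [e0, mul_zero]
      have hZ : Z (insert (Kd.R0, x) S) = insert (Kd.R0, x) (Z S) := by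
        unfold Z
        rw [Finset.filter_insert, if_pos rfl]
      have hxZ : (Kd.R0, x) ∉ Z S := fun h' => hx (Finset.mem_of_mem_filter _ h')
      rw [e1, hZ, Finset.sum_insert hxZ]
      have e2 : dw x S (fun u => g u * q1 (u - x)) = 0 := by
        unfold dw
        rw [e0]
        ring
      show _ + (dw x ((insert (Kd.R0, x) S).erase (Kd.R0, x)) _ * _ + _) = _
      rw [Finset.erase_insert hx, e2, zero_mul, zero_mul, zero_add, zero_add]
      congr 1
      · refine Finset.sum_congr rfl fun a ha => ?_
        have hxa : (Kd.R0, x) ∉ S.erase a := fun h' => hx (Finset.mem_of_mem_erase h')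
        have hs : sin (pole a - x) ≠ 0 :=
          Good.sin_ne hw h (hmem a ha) hx0 (hne a ha) (pole_mem a) (by simp [pts])
        have h3 : rw a ((insert (Kd.R0, x) S).erase a) (fun u => g u * q1 (u - x)) =
            rw a (S.erase a) (fun u => g u * f2 (u - x)) := by
          rw [Finset.erase_insert_of_ne (hne a ha).symm]
          unfold rw
          rw [Gf_inert hxa hs]
        have h4 : (Kd.R0, x) ∉ nxt a (S.erase a) := by
          rcases a with ⟨_ | _ | _ | _, y⟩
          · intro h'
            rcases Finset.mem_insert.1 h' with h5 | h5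
            · simp at h5
            · exact hxa h5
          · exact hxa
          · exact hxa
          · exact hxa
        have h5 := h.nxt (hmem a ha)
        rw [nxt_insert (hne a ha)] at h5
        have h6 := ih n (Nat.lt_succ_self n) h4 h5
        rw [h3, nxt_insert (hne a ha)]
        congr 1
        have e3 : (fun u => g u * q1 (u - x) * ent a u) = fun u => g u * ent a u * q1 (u - x) := by
          funext u; ring
        have e4 : (fun u => g u * f2 (u - x) * ent a u) = fun u => g u * ent a u * f2 (u - x) := by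
          funext u; ring
        rw [e3, e4]
        exact h6
      · refine Finset.sum_congr rfl fun a ha => ?_
        obtain ⟨ha1, ha2⟩ := Zmem ha
        have haS : a ∈ S := Finset.mem_of_mem_filter _ ha
        have hxa : (Kd.R0, x) ∉ S.erase a := fun h' => hx (Finset.mem_of_mem_erase h')
        have hs : sin (a.2 - x) ≠ 0 :=
          Good.sin_ne hw h (hmem a haS) hx0 (hne a haS) (p := a.2) (by rw [ha2]; simp [pts])
            (by simp [pts])
        have hs' : sin (a.2 - l - x) ≠ 0 :=
          Good.sin_ne hw h (hmem a haS) hx0 (hne a haS) (p := a.2 - l) (by rw [ha2]; simp [pts])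
            (by simp [pts])
        have h3 : dw a.2 ((insert (Kd.R0, x) S).erase a) (fun u => g u * q1 (u - x)) =
            dw a.2 (S.erase a) (fun u => g u * f2 (u - x)) := by
          rw [Finset.erase_insert_of_ne (hne a haS).symm]
          unfold dw
          rw [Gf_inert hxa hs, Gf_inert hxa hs']
        rw [h3]
        congr 1
        cases n with
        | zero => rfl
        | succ n =>
          show T n _ _ = T n _ _
          have h5 := (h.erase a).mul (k := fun u => f2 (u - a.2)) (f2_diff a.2)
          rw [Finset.erase_insert_of_ne (hne a haS).symm] at h5 ⊢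
          have h6 := ih n (by omega) hxa h5
          have e3 : (fun u => g u * q1 (u - x) * f2 (u - a.2)) =
              fun u => g u * f2 (u - a.2) * q1 (u - x) := by
            funext u; ring
          have e4 : (fun u => g u * f2 (u - x) * f2 (u - a.2)) =
              fun u => g u * f2 (u - a.2) * f2 (u - x) := by
            funext u; ring
          rw [e3, e4]
          exact h6

theorem cn_diff (hw : Wd α β) {b : Site} (hb : Ok α β b) {w : ℂ} (h1 : β + l ≤ w.re)
    (h2 : w.re ≤ α) : DifferentiableAt ℂ (cn b) w := by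
  have hl := lpos
  have h5 := hw.lo
  have h6 := hw.hi
  rcases b with ⟨_ | _ | _ | _, x⟩
  · obtain ⟨h7, h8, h9, h10⟩ := hb
    have hne : sin (w - x - l) ≠ 0 := by
      refine sin_ne_re' ?_ ?_ ?_ <;> simp <;> linarith
    show DifferentiableAt ℂ (fun w => 1 / sin (w - x - l)) w
    fun_prop (disch := exact hne)
  · show DifferentiableAt ℂ (fun w => sin (w - x + 2 * l) * sin (w - x - 3 * l)) w
    fun_prop
  · show DifferentiableAt ℂ (fun w => q1 (w - x - l)) w
    unfold q1
    fun_prop
  · show DifferentiableAt ℂ (fun w => q1 (w - x - l)) w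
    unfold q1
    fun_prop

theorem Hn_diff (hw : Wd α β) (h : Good α β S g) (n : ℕ) {w : ℂ} (h1 : β + l ≤ w.re)
    (h2 : w.re ≤ α) : DifferentiableAt ℂ (Hn n S g) w := by
  have hl := lpos
  unfold Hn
  have d1 : DifferentiableAt ℂ g w := h.an w (by linarith) h2
  have d2 : DifferentiableAt ℂ (fun w => g (w - l)) w := by
    have d3 : DifferentiableAt ℂ g (w - l) :=
      h.an (w - l) (by simp; linarith) (by simp; linarith)
    exact d3.comp w (differentiableAt_id.sub_const (l : ℂ))
  have d4 := DifferentiableAt.fun_finsetProd (𝕜 := ℂ) (u := S) (f := fun b => cn b) (x := w)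
    (fun b hb => cn_diff hw (h.ok b hb) h1 h2)
  exact ((d1.mul d2).mul d4).mul ((T_string n S g).1 w)

/-- nonvanishing of the sines at the place of a row, in the cleaned product -/
theorem cs_row (hw : Wd α β) (h : Good α β S g) {x : ℂ} (hx : (Kd.R0, x) ∈ S) {b : Site}
    (hb : b ∈ S) (hne : b ≠ (Kd.R0, x)) : cs b x = fac b x * fac b (x - l) := by
  have hl := lpos
  have h5 := hw.lo
  have h6 := hw.hi
  obtain ⟨x1, x2, x3, x4⟩ := h.ok _ hx
  have hbO := h.ok b hb
  have hd := h.dis _ hx _ hb hne.symm
  rcases b with ⟨_ | _ | _ | _, y⟩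
  · show 1 / (sin (x - y) * sin (x - y - l)) = 1 / sin (x - y) * (1 / sin (x - l - y))
    rw [show x - l - y = x - y - l by ring]
    simp only [one_div, mul_inv]
  · obtain ⟨y1, y2, y3, y4⟩ := hbO
    have hyx : y - l ≠ x := fun h' => Finset.disjoint_left.1 hd
      (show x ∈ pts (Kd.R0, x) by simp [pts]) (by simp [pts, h'])
    have hyx' : y ≠ x := fun h' => Finset.disjoint_left.1 hd
      (show x - l ∈ pts (Kd.R0, x) by simp [pts]) (by simp [pts, h'])
    refine (cs_eq ?_ ?_ ?_ ?_).symm
    · refine sin_ne_re ?_ ?_ (sub_ne_zero.2 hyx'.symm) <;> simp <;> linarith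
    · refine sin_ne_re ?_ ?_ ?_
      · simp; linarith
      · simp; linarith
      · intro h'
        apply hyx
        linear_combination -h'
    · refine sin_ne_re' ?_ ?_ ?_ <;> simp <;> linarith
    · refine sin_ne_re' ?_ ?_ ?_ <;> simp <;> linarith
  · have hv : y.re = α := hbO
    refine (cs_eq ?_ ?_ ?_ ?_).symm
    · refine sin_ne_re' ?_ ?_ ?_ <;> simp <;> linarith
    · refine sin_ne_re' ?_ ?_ ?_ <;> simp <;> linarith
    · refine sin_ne_re' ?_ ?_ ?_ <;> simp <;> linarith
    · refine sin_ne_re' ?_ ?_ ?_ <;> simp <;> linarith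
  · have hv : y.re = β := hbO
    refine (cs_eq ?_ ?_ ?_ ?_).symm
    · refine sin_ne_re' ?_ ?_ ?_ <;> simp <;> linarith
    · refine sin_ne_re' ?_ ?_ ?_ <;> simp <;> linarith
    · refine sin_ne_re' ?_ ?_ ?_ <;> simp <;> linarith
    · refine sin_ne_re' ?_ ?_ ?_ <;> simp <;> linarith

/-- **the string line** -/
theorem string (hw : Wd α β) (h : Good α β S g) (n : ℕ) (hk : 2 * (n : ℝ) < κ)
    (hG : Gr α β (-κ) (Gf S g)) :
    Integrable (fun t : ℝ => FM n S g (vl α t)) ∧ Integrable (fun t : ℝ => FM n S g (vl (β + l) t)) ∧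
      -rho * (LI α (FM n S g) - LI (β + l) (FM n S g)) =
        ∑ a ∈ Z S, dw a.2 (S.erase a) g * T n (S.erase a) (fun u => g u * f2 (u - a.2)) := by
  classical
  have hl := lpos
  have h5 := hw.lo
  have h6 := hw.hi
  obtain ⟨R1, hR1⟩ := exists_high S
  have hP : Gr α (β + l) (-(2 * κ - 4 * n)) (Ph n S g) :=
    (FM_gr n hG).congr R1 fun z _ _ hz => (Ph_gen n fun a ha h' => by
      have := hR1 a ha
      rw [← h'] at this
      linarith).symm
  obtain ⟨C, R, hC, hb⟩ := hP
  have hN : ∀ u ∈ CS (β + l) α, DifferentiableAt ℂ (Hn n S g) u := fun u hu =>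
    Hn_diff hw h n hu.1 hu.2
  have hB : ∀ p ∈ (Z S).image Prod.snd, p ∈ OS (β + l) α := by
    intro p hp
    obtain ⟨a, ha, rfl⟩ := Finset.mem_image.1 hp
    have := h.ok _ (Zmem ha).1
    exact ⟨this.1, this.2.1⟩
  have key := line_shift (a := β + l) (b := α) (by linarith) (by
      have := hw.pi
      linarith) ((Z S).image Prod.snd) hB (f := Ph n S g) (H := Hn n S g)
    (fun u hu => (hN u hu).continuousAt.continuousWithinAt)
    (fun u hu => (hN u (OS_sub_CS _ _ hu)).differentiableWithinAt) (fun u _ _ => by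
      rw [Finset.prod_image (fun a ha b hb hab => Z_inj S ha hb hab)]
      unfold Ph Hn
      rw [prod_cs]
      ring) (δ := 2 * κ - 4 * n) (by linarith) (C := C) (t₀ := R)
    (fun s t h1 h2 h3 => by
      have := hb ((s : ℂ) + t * I) (by simpa using h1) (by simpa using h2) (by simpa using h3)
      simpa using this)
  obtain ⟨i1, i2, i3⟩ := key
  have i1' : Integrable (fun t : ℝ => FM n S g (vl (β + l) t)) := by
    have i0 : Integrable (fun t : ℝ => Ph n S g (vl (β + l) t)) := i1
    exact i0.congr (ph_ae n _).symm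
  have i2' : Integrable (fun t : ℝ => FM n S g (vl α t)) := by
    have i0 : Integrable (fun t : ℝ => Ph n S g (vl α t)) := i2
    exact i0.congr (ph_ae n _).symm
  refine ⟨i2', i1', ?_⟩
  have e0 : LI α (FM n S g) - LI (β + l) (FM n S g) =
      ∑ a ∈ Z S, res ((Z S).image Prod.snd) (Hn n S g) a.2 := by
    unfold LI
    rw [← mul_sub, integral_congr_ae (ph_ae n α), integral_congr_ae (ph_ae n (β + l))]
    have e : (∫ t : ℝ, Ph n S g (vl α t)) - (∫ t : ℝ, Ph n S g (vl (β + l) t)) =
      2 * Real.pi * ∑ p ∈ (Z S).image Prod.snd, res ((Z S).image Prod.snd) (Hn n S g) p := i3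
    rw [e, ← mul_assoc, inv_mul_cancel₀ (by norm_num), one_mul,
      Finset.sum_image (fun a ha b hb hab => Z_inj S ha hb hab)]
  rw [e0, Finset.mul_sum]
  refine Finset.sum_congr rfl fun a ha => ?_
  obtain ⟨ha1, ha2⟩ := Zmem ha
  have haS : a ∈ S := Finset.mem_of_mem_filter _ ha
  have e1 : ((Z S).image Prod.snd).erase a.2 = ((Z S).erase a).image Prod.snd := by
    ext p
    simp only [Finset.mem_erase, Finset.mem_image]
    constructor
    · rintro ⟨h1, b, hb, rfl⟩
      exact ⟨b, ⟨fun h2 => h1 (by rw [h2]), hb⟩, rfl⟩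
    · rintro ⟨b, ⟨h1, hb⟩, rfl⟩
      exact ⟨fun h2 => h1 (Z_inj S hb ha h2), b, hb, rfl⟩
  have e2 : cn a a.2 = -(sin l)⁻¹ := by
    rw [ha2]
    show 1 / sin (a.2 - a.2 - l) = _
    rw [sub_self, zero_sub, Complex.sin_neg, one_div, inv_neg]
  have e3 : (∏ b ∈ S.erase a, cn b a.2) / ∏ b ∈ (Z S).erase a, sin (a.2 - b.2) =
      ∏ b ∈ S.erase a, (fac b a.2 * fac b (a.2 - l)) := by
    rw [← Z_erase, ← prod_cs]
    refine Finset.prod_congr rfl fun b hb => ?_
    exact cs_row hw h ha1 (Finset.mem_of_mem_erase hb) (by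
      rw [← ha2]
      exact Finset.ne_of_mem_erase hb)
  have e4 : T n S (fun u => g u * q1 (u - a.2)) =
      T n (S.erase a) (fun u => g u * f2 (u - a.2)) := by
    have hx : (Kd.R0, a.2) ∉ S.erase a := by rw [← ha2]; exact Finset.notMem_erase _ _
    have hi : insert (Kd.R0, a.2) (S.erase a) = S := by
      rw [← ha2]; exact Finset.insert_erase haS
    have := inert hw n hx (g := g) (by rw [hi]; exact h)
    rw [hi] at this
    exact this
  unfold res Hn
  rw [e1, Finset.prod_image (fun b hb c hc hbc => Z_inj S (Finset.mem_of_mem_erase hb)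
    (Finset.mem_of_mem_erase hc) hbc), ← Finset.mul_prod_erase S _ haS, e2, e4]
  have e5 : g a.2 * g (a.2 - l) * (-(sin l)⁻¹ * ∏ x ∈ S.erase a, cn x a.2) *
      T n (S.erase a) (fun u => g u * f2 (u - a.2)) / ∏ x ∈ (Z S).erase a, sin (a.2 - x.2) =
      g a.2 * g (a.2 - l) * -(sin l)⁻¹ *
        ((∏ x ∈ S.erase a, cn x a.2) / ∏ x ∈ (Z S).erase a, sin (a.2 - x.2)) *
        T n (S.erase a) (fun u => g u * f2 (u - a.2)) := by ring
  rw [e5, e3, Finset.prod_mul_distrib]
  unfold dw Gf
  rw [div_eq_mul_inv]
  ring

/-- the integrands of the lines A and L are integrable -/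
theorem int_lines (hw : Wd α β) (n : ℕ) : ∀ {S : Finset Site} {g : ℂ → ℂ} {κ : ℝ},
    Good α β S g → 2 * (n : ℝ) < κ → Gr α β (-κ) (Gf S g) →
    Integrable (fun t : ℝ => FA n S g (vl α t)) ∧ Integrable (fun t : ℝ => FL n S g (vl β t)) := by
  induction n using Nat.strong_induction_on with
  | _ n ih =>
    intro S g κ h hk hG
    cases n with
    | zero =>
      have h1 := base hw h (by simpa using hk) hG
      constructor
      · simpa [FA, T] using h1.1
      · simpa [FL, T] using h1.2.1
    | succ n =>
      push_cast at hk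
      have hM := string hw h n (by linarith) hG
      have hMb : Integrable (fun t : ℝ => FM n S g (vl β t + l)) := by
        refine hM.2.1.congr (Filter.Eventually.of_forall fun t => ?_)
        show FM n S g (vl (β + l) t) = FM n S g (vl β t + l)
        congr 1
        unfold vl
        push_cast
        ring
      have h1 : ∀ a ∈ S, _ := fun a ha => ih n (Nat.lt_succ_self n) (h.nxt ha)
        (by linarith : 2 * (n : ℝ) < κ - 2) (gr_nxt h hG ha)
      have h2 : ∀ a ∈ Z S,
          Integrable (fun t : ℝ => sh FA n (S.erase a) (fun u => g u * f2 (u - a.2)) (vl α t)) ∧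
          Integrable (fun t : ℝ => sh FL n (S.erase a) (fun u => g u * f2 (u - a.2)) (vl β t)) := by
        intro a ha
        cases n with
        | zero => exact ⟨integrable_zero _ _ _, integrable_zero _ _ _⟩
        | succ n =>
          exact ih n (by omega) (h.str a) (by push_cast at hk ⊢; linarith : 2 * (n : ℝ) < κ - 4)
            (gr_str hG ha)
      constructor
      · have i1 : Integrable (fun t : ℝ => ((n : ℂ) + 1)⁻¹ *
            (∑ a ∈ S, rw a (S.erase a) g *
              FA n (nxt a (S.erase a)) (fun u => g u * ent a u) (vl α t) -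
            rho * FM n S g (vl α t) +
            ∑ a ∈ Z S, dw a.2 (S.erase a) g *
              sh FA n (S.erase a) (fun u => g u * f2 (u - a.2)) (vl α t))) := by
          refine Integrable.const_mul ?_ _
          refine Integrable.add (Integrable.sub ?_ (hM.1.const_mul rho)) ?_
          · exact integrable_finsetSum S fun a ha => (h1 a ha).1.const_mul _
          · exact integrable_finsetSum (Z S) fun a ha => (h2 a ha).1.const_mul _
        refine i1.congr ?_
        filter_upwards [gen_ae S] with t ht
        rw [inv_mul_eq_iff_eq_mul₀ (cast_ne n), FA_succ h n (by simpa using ht)]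
      · have i1 : Integrable (fun t : ℝ => ((n : ℂ) + 1)⁻¹ *
            (∑ a ∈ S, rw a (S.erase a) g *
              FL n (nxt a (S.erase a)) (fun u => g u * ent a u) (vl β t) +
            rho * FM n S g (vl β t + l) +
            ∑ a ∈ Z S, dw a.2 (S.erase a) g *
              sh FL n (S.erase a) (fun u => g u * f2 (u - a.2)) (vl β t))) := by
          refine Integrable.const_mul ?_ _
          refine Integrable.add (Integrable.add ?_ (hMb.const_mul rho)) ?_
          · exact integrable_finsetSum S fun a ha => (h1 a ha).2.const_mul _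
          · exact integrable_finsetSum (Z S) fun a ha => (h2 a ha).2.const_mul _
        refine i1.congr ?_
        filter_upwards [gen_ae S] with t ht
        rw [inv_mul_eq_iff_eq_mul₀ (cast_ne n), FL_succ h n (by simpa using ht)]

/-- integrated recurrence -/
theorem La_succ (hw : Wd α β) (n : ℕ) (h : Good α β S g) (hk : 2 * ((n : ℝ) + 1) < κ)
    (hG : Gr α β (-κ) (Gf S g)) :
    ((n : ℂ) + 1) * La α β (n + 1) S g =
      ∑ a ∈ S, rw a (S.erase a) g * La α β n (nxt a (S.erase a)) (fun u => g u * ent a u) +
      ∑ a ∈ Z S, dw a.2 (S.erase a) g * La' α β n (S.erase a) (fun u => g u * f2 (u - a.2)) +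
      ∑ a ∈ Z S, dw a.2 (S.erase a) g * T n (S.erase a) (fun u => g u * f2 (u - a.2)) := by
  have hM := string hw h n (by linarith) hG
  have hMb : Integrable (fun t : ℝ => FM n S g (vl β t + l)) := by
    refine hM.2.1.congr (Filter.Eventually.of_forall fun t => ?_)
    show FM n S g (vl (β + l) t) = FM n S g (vl β t + l)
    congr 1
    unfold vl
    push_cast
    ring
  have h1 : ∀ a ∈ S, _ := fun a ha => int_lines hw n (h.nxt ha)
    (by linarith : 2 * (n : ℝ) < κ - 2) (gr_nxt h hG ha)
  have h2 : ∀ a ∈ Z S,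
      Integrable (fun t : ℝ => sh FA n (S.erase a) (fun u => g u * f2 (u - a.2)) (vl α t)) ∧
      Integrable (fun t : ℝ => sh FL n (S.erase a) (fun u => g u * f2 (u - a.2)) (vl β t)) := by
    intro a ha
    cases n with
    | zero => exact ⟨integrable_zero _ _ _, integrable_zero _ _ _⟩
    | succ n =>
      exact int_lines hw n (h.str a) (by push_cast at hk ⊢; linarith : 2 * (n : ℝ) < κ - 4)
        (gr_str hG ha)
  -- strings, one lower
  have h3 : ∀ a ∈ S, Integrable (fun t : ℝ =>
      sh FM n (nxt a (S.erase a)) (fun u => g u * ent a u) (vl (β + l) t)) := by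
    intro a ha
    cases n with
    | zero => exact integrable_zero _ _ _
    | succ n =>
      exact (string hw (h.nxt ha) n (by push_cast at hk ⊢; linarith : 2 * (n : ℝ) < κ - 2)
        (gr_nxt h hG ha)).2.1
  have h4 : ∀ a ∈ Z S, Integrable (fun t : ℝ =>
      sh (sh FM) n (S.erase a) (fun u => g u * f2 (u - a.2)) (vl (β + l) t)) := by
    intro a ha
    cases n with
    | zero => exact integrable_zero _ _ _
    | succ n =>
      cases n with
      | zero => exact integrable_zero _ _ _
      | succ n =>
        exact (string hw (h.str a) n (by push_cast at hk ⊢; linarith : 2 * (n : ℝ) < κ - 4)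
          (gr_str hG ha)).2.1
  have eA : ((n : ℂ) + 1) * LI α (FA (n + 1) S g) =
      ∑ a ∈ S, rw a (S.erase a) g * LI α (FA n (nxt a (S.erase a)) (fun u => g u * ent a u)) -
      rho * LI α (FM n S g) +
      ∑ a ∈ Z S, dw a.2 (S.erase a) g *
        LI α (sh FA n (S.erase a) (fun u => g u * f2 (u - a.2))) := by
    rw [← LI_mul, LI_congr (f' := fun v => ∑ a ∈ S, rw a (S.erase a) g *
        FA n (nxt a (S.erase a)) (fun u => g u * ent a u) v - rho * FM n S g v +
      ∑ a ∈ Z S, dw a.2 (S.erase a) g *
        sh FA n (S.erase a) (fun u => g u * f2 (u - a.2)) v)]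
    · rw [LI_add, LI_sub, LI_sum, LI_sum, LI_mul]
      · simp only [LI_mul]
      · exact fun a ha => (h2 a ha).1.const_mul _
      · exact fun a ha => (h1 a ha).1.const_mul _
      · exact integrable_finsetSum S fun a ha => (h1 a ha).1.const_mul _
      · exact hM.1.const_mul rho
      · exact (integrable_finsetSum S fun a ha => (h1 a ha).1.const_mul _).sub (hM.1.const_mul rho)
      · exact integrable_finsetSum (Z S) fun a ha => (h2 a ha).1.const_mul _
    · filter_upwards [gen_ae S] with t ht
      rw [FA_succ h n (by simpa using ht)]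
  have eL : ((n : ℂ) + 1) * LI β (FL (n + 1) S g) =
      ∑ a ∈ S, rw a (S.erase a) g * LI β (FL n (nxt a (S.erase a)) (fun u => g u * ent a u)) +
      rho * LI (β + l) (FM n S g) +
      ∑ a ∈ Z S, dw a.2 (S.erase a) g *
        LI β (sh FL n (S.erase a) (fun u => g u * f2 (u - a.2))) := by
    have e0 : LI (β + l) (FM n S g) = LI β (fun v => FM n S g (v + l)) := by
      unfold LI
      congr 1
      refine integral_congr_ae (Filter.Eventually.of_forall fun t => ?_)
      show FM n S g (vl (β + l) t) = FM n S g (vl β t + l)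
      congr 1
      unfold vl
      push_cast
      ring
    rw [e0, ← LI_mul, LI_congr (f' := fun v => ∑ a ∈ S, rw a (S.erase a) g *
        FL n (nxt a (S.erase a)) (fun u => g u * ent a u) v + rho * FM n S g (v + l) +
      ∑ a ∈ Z S, dw a.2 (S.erase a) g *
        sh FL n (S.erase a) (fun u => g u * f2 (u - a.2)) v)]
    · rw [LI_add, LI_add, LI_sum, LI_sum, LI_mul]
      · simp only [LI_mul]
      · exact fun a ha => (h2 a ha).2.const_mul _
      · exact fun a ha => (h1 a ha).2.const_mul _
      · exact integrable_finsetSum S fun a ha => (h1 a ha).2.const_mul _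
      · exact hMb.const_mul rho
      · exact (integrable_finsetSum S fun a ha => (h1 a ha).2.const_mul _).add (hMb.const_mul rho)
      · exact integrable_finsetSum (Z S) fun a ha => (h2 a ha).2.const_mul _
    · filter_upwards [gen_ae S] with t ht
      rw [FL_succ h n (by simpa using ht)]
  have eM : (n : ℂ) * LI (β + l) (FM n S g) =
      ∑ a ∈ S, rw a (S.erase a) g *
        LI (β + l) (sh FM n (nxt a (S.erase a)) (fun u => g u * ent a u)) +
      ∑ a ∈ Z S, dw a.2 (S.erase a) g *
        LI (β + l) (sh (sh FM) n (S.erase a) (fun u => g u * f2 (u - a.2))) := by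
    cases n with
    | zero =>
      have z1 : ∀ S g, sh FM 0 S g = fun _ => 0 := fun S g => funext fun v => rfl
      have z2 : ∀ S g, sh (sh FM) 0 S g = fun _ => 0 := fun S g => funext fun v => rfl
      simp [z1, z2, LI_zero]
    | succ n =>
      rw [← LI_mul, LI_congr (f' := fun v => ∑ a ∈ S, rw a (S.erase a) g *
          sh FM (n + 1) (nxt a (S.erase a)) (fun u => g u * ent a u) v +
        ∑ a ∈ Z S, dw a.2 (S.erase a) g *
          sh (sh FM) (n + 1) (S.erase a) (fun u => g u * f2 (u - a.2)) v)]
      · rw [LI_add, LI_sum, LI_sum]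
        · simp only [LI_mul]
        · exact fun a ha => (h4 a ha).const_mul _
        · exact fun a ha => (h3 a ha).const_mul _
        · exact integrable_finsetSum S fun a ha => (h3 a ha).const_mul _
        · exact integrable_finsetSum (Z S) fun a ha => (h4 a ha).const_mul _
      · filter_upwards [gen_ae S] with t ht
        push_cast
        rw [FM_succ h n (by simpa using ht)]
        rfl
  have eS := hM.2.2
  have eT : La α β (n + 1) S g = LI α (FA (n + 1) S g) - LI β (FL (n + 1) S g) +
      2 * rho * LI (β + l) (FM n S g) := rfl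
  rw [eT]
  have e5 : ((n : ℂ) + 1) * (LI α (FA (n + 1) S g) - LI β (FL (n + 1) S g) +
      2 * rho * LI (β + l) (FM n S g)) =
      (∑ a ∈ S, rw a (S.erase a) g * LI α (FA n (nxt a (S.erase a)) (fun u => g u * ent a u)) -
        ∑ a ∈ S, rw a (S.erase a) g * LI β (FL n (nxt a (S.erase a)) (fun u => g u * ent a u)) +
        2 * rho * ∑ a ∈ S, rw a (S.erase a) g *
          LI (β + l) (sh FM n (nxt a (S.erase a)) (fun u => g u * ent a u))) +
      (∑ a ∈ Z S, dw a.2 (S.erase a) g *
          LI α (sh FA n (S.erase a) (fun u => g u * f2 (u - a.2))) -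
        ∑ a ∈ Z S, dw a.2 (S.erase a) g *
          LI β (sh FL n (S.erase a) (fun u => g u * f2 (u - a.2))) +
        2 * rho * ∑ a ∈ Z S, dw a.2 (S.erase a) g *
          LI (β + l) (sh (sh FM) n (S.erase a) (fun u => g u * f2 (u - a.2)))) +
      (-rho * (LI α (FM n S g) - LI (β + l) (FM n S g))) := by
    linear_combination eA - eL + 2 * rho * eM
  rw [e5, eS]
  congr 1
  congr 1
  · rw [← Finset.sum_sub_distrib, Finset.mul_sum, ← Finset.sum_add_distrib]
    refine Finset.sum_congr rfl fun a _ => ?_
    unfold La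
    ring
  · rw [← Finset.sum_sub_distrib, Finset.mul_sum, ← Finset.sum_add_distrib]
    refine Finset.sum_congr rfl fun a _ => ?_
    unfold La'
    ring

/-- **the three lines give the sum over the states** -/
theorem La_eq (hw : Wd α β) (n : ℕ) : ∀ {S : Finset Site} {g : ℂ → ℂ} {κ : ℝ},
    Good α β S g → 2 * (n : ℝ) < κ → Gr α β (-κ) (Gf S g) →
    La α β n S g = ((n : ℂ) + 1) * T (n + 1) S g := by
  induction n using Nat.strong_induction_on with
  | _ n ih =>
    intro S g κ h hk hG
    cases n with
    | zero =>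
      have h1 := (base hw h (by simpa using hk) hG).2.2
      have z1 : sh FM 0 S g = fun _ => 0 := funext fun v => rfl
      have z2 : FA 0 S g = Gf S g := funext fun v => by simp [FA, T]
      have z3 : FL 0 S g = Gf S g := funext fun v => by simp [FL, T]
      unfold La
      rw [z1, z2, z3, LI_zero, h1]
      simp [T]
    | succ n =>
      have hk' : 2 * ((n : ℝ) + 1) < κ := by push_cast at hk; exact hk
      apply mul_left_cancel₀ (cast_ne n)
      rw [La_succ hw n h hk' hG, T_succ]
      have h1 : ∀ a ∈ S, La α β n (nxt a (S.erase a)) (fun u => g u * ent a u) =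
          ((n : ℂ) + 1) * T (n + 1) (nxt a (S.erase a)) (fun u => g u * ent a u) := fun a ha =>
        ih n (Nat.lt_succ_self n) (h.nxt ha) (by linarith : 2 * (n : ℝ) < κ - 2) (gr_nxt h hG ha)
      have h2 : ∀ a ∈ Z S, La' α β n (S.erase a) (fun u => g u * f2 (u - a.2)) =
          (n : ℂ) * T n (S.erase a) (fun u => g u * f2 (u - a.2)) := by
        intro a ha
        cases n with
        | zero =>
          have z1 : ∀ S g, sh FA 0 S g = fun _ => 0 := fun S g => funext fun v => rfl
          have z2 : ∀ S g, sh FL 0 S g = fun _ => 0 := fun S g => funext fun v => rfl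
          have z3 : ∀ S g, sh (sh FM) 0 S g = fun _ => 0 := fun S g => funext fun v => rfl
          unfold La'
          rw [z1, z2, z3, LI_zero, LI_zero, LI_zero]
          simp
        | succ n =>
          have := ih n (by omega) (h.str a)
            (by push_cast at hk ⊢; linarith : 2 * (n : ℝ) < κ - 4) (gr_str hG ha)
          push_cast
          exact this
      rw [Finset.sum_congr rfl fun a ha => by rw [h1 a ha],
        Finset.sum_congr (s₁ := Z S) rfl fun a ha => by rw [h2 a ha]]
      rw [mul_add, Finset.mul_sum, Finset.mul_sum, add_assoc, ← Finset.sum_add_distrib]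
      congr 1
      · refine Finset.sum_congr rfl fun a _ => ?_
        ring
      · refine Finset.sum_congr rfl fun a _ => ?_
        show _ = ((n : ℂ) + 1) * (_ * T n _ _)
        ring

/-- **The exact contour identity (one species).** -/
theorem main (hw : Wd α β) (n : ℕ) : ∀ {S : Finset Site} {g : ℂ → ℂ} {κ : ℝ},
    Good α β S g → 2 * ((n : ℝ) - 1) < κ → Gr α β (-κ) (Gf S g) →
    K α β n (Gf S g) = T n S g := by
  induction n using Nat.strong_induction_on with
  | _ n ih =>
    intro S g κ h hk hG
    rcases n with _ | _ | n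
    · rfl
    · have h1 := (base hw h (by simpa using hk) hG).2.2
      exact h1
    · push_cast at hk
      have hk' : 2 * ((n + 1 : ℕ) : ℝ) < κ := by push_cast; linarith
      have hLa := La_eq hw (n + 1) h hk' hG
      have hc : ((n : ℂ) + 2) ≠ 0 := by
        have : ((n : ℂ) + 2) = ((n + 2 : ℕ) : ℂ) := by push_cast; ring
        rw [this]
        exact Nat.cast_ne_zero.2 (Nat.succ_ne_zero (n + 1))
      show ((n : ℂ) + 2)⁻¹ *
        (LI α (fun v => Gf S g v * K α β (n + 1) (fun u => Gf S g u * q (u - v))) -
         LI β (fun v => Gf S g v * K α β (n + 1) (fun u => Gf S g u * q (u - v))) +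
         2 * rho * LI (β + l) (fun w => Gf S g w * Gf S g (w - l) *
          K α β n (fun u => Gf S g u * q1 (u - w)))) = T (n + 2) S g
      rw [inv_mul_eq_iff_eq_mul₀ hc]
      have eA : LI α (fun v => Gf S g v * K α β (n + 1) (fun u => Gf S g u * q (u - v))) =
          LI α (FA (n + 1) S g) := by
        refine LI_congr ?_
        filter_upwards [gen_ae S] with t ht
        have hg : Gen S (vl α t).im := by simpa using ht
        have hs : (Kd.VA, vl α t) ∉ S := Gen.notMem (s := (Kd.VA, vl α t)) hg
        have e : (fun u => Gf S g u * q (u - vl α t)) = Gf (insert (Kd.VA, vl α t) S) g := by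
          funext u
          rw [Gf_insert hs]
          rfl
        have h3 := ih (n + 1) (by omega) (h.add (s := (Kd.VA, vl α t)) (vlre α t) hg)
          (by push_cast; linarith : 2 * (((n + 1 : ℕ) : ℝ) - 1) < κ - 2)
          (gr_site hG hs (Or.inl rfl))
        rw [e, h3]
        rfl
      have eL : LI β (fun v => Gf S g v * K α β (n + 1) (fun u => Gf S g u * q (u - v))) =
          LI β (FL (n + 1) S g) := by
        refine LI_congr ?_
        filter_upwards [gen_ae S] with t ht
        have hg : Gen S (vl β t).im := by simpa using ht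
        have hs : (Kd.VL, vl β t) ∉ S := Gen.notMem (s := (Kd.VL, vl β t)) hg
        have e : (fun u => Gf S g u * q (u - vl β t)) = Gf (insert (Kd.VL, vl β t) S) g := by
          funext u
          rw [Gf_insert hs]
          rfl
        have h3 := ih (n + 1) (by omega) (h.add (s := (Kd.VL, vl β t)) (vlre β t) hg)
          (by push_cast; linarith : 2 * (((n + 1 : ℕ) : ℝ) - 1) < κ - 2)
          (gr_site hG hs (Or.inr rfl))
        rw [e, h3]
        rfl
      have eM : (fun w => Gf S g w * Gf S g (w - l) *
          K α β n (fun u => Gf S g u * q1 (u - w))) = FM n S g := by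
        funext w
        have e : (fun u => Gf S g u * q1 (u - w)) = Gf S (fun u => g u * q1 (u - w)) := by
          funext u
          rw [Gf_mul]
        have h3 := ih n (by omega) (h.mul (k := fun u => q1 (u - w)) (q1_diff w))
          (by linarith : 2 * ((n : ℝ) - 1) < κ - 4) (gr_strv hG w)
        rw [e, h3]
        rfl
      rw [eA, eL, eM]
      have : La α β (n + 1) S g = LI α (FA (n + 1) S g) - LI β (FL (n + 1) S g) +
        2 * rho * LI (β + l) (FM n S g) := rfl
      rw [← this, hLa]
      push_cast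
      ring

end NUP1.N

end
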